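import Pool.Agent.H623.TP.Rec
import Pool.Agent.H623.TS.O

/-!
# The transfer operator of the tree of inverse iterates of the `3x+1` map, at a general tilt
-/

set_option autoImplicit false
set_option linter.unusedVariables false

namespace Pool.Agent.H623.TP

open Finset Pool.Agent.H320R2.PD Pool.Agent.H377R2.NK
open Pool.Agent.H623.TS (Per S S_per S_mono S_aff S_B N N_nonneg N_per N_add N_congr N_smul N_tri N_comm en_cons)

/-- the factor of an odd step -/
noncomputable def od (τ : ℝ) : ℝ := 3 * (τ / (1 - τ))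

theorem od_pos {τ : ℝ} [Tilt τ] : 0 < od τ := by
  have hp0 : 0 < τ := Tilt.pos
  have hq0 : 0 < 1 - τ := Tilt.lt
  unfold od
  positivity

theorem mul_od {τ : ℝ} [Tilt τ] : (1 - τ) * od τ = 3 * τ := by
  have hq0 : 0 < 1 - τ := Tilt.lt
  unfold od
  field_simp

/-- the transfer operator of the inverse tree, tilted and normalised -/
noncomputable def P (τ : ℝ) (g : ℤ → ℝ) (x : ℤ) : ℝ :=
  (1 - τ) * (g (2 * x) + od τ * if (3 : ℤ) ∣ 2 * x - 1 then g ((2 * x - 1) / 3) else 0)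

variable {τ : ℝ} [Tilt τ]

theorem _root_.Pool.Agent.H623.TS.Per.Pp {n : ℕ} {g : ℤ → ℝ} (h : Per n g) : Per (n + 1) (P τ g) := by
  have hp0 : 0 < τ := Tilt.pos
  have hq0 : 0 < 1 - τ := Tilt.lt
  have ho0 : 0 < od τ := od_pos
  intro x y
  unfold TP.P
  have h1 : g (2 * (x + 3 ^ (n + 1) * y)) = g (2 * x) := by
    have := h (2 * x) (6 * y)
    rw [← this]
    congr 1
    ring
  have e : 2 * (x + 3 ^ (n + 1) * y) - 1 = 2 * x - 1 + 3 * (3 ^ n * (2 * y)) := by ring
  rw [h1, e]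
  by_cases h3 : (3 : ℤ) ∣ 2 * x - 1
  · rw [if_pos h3, if_pos (dvd_add h3 (Dvd.intro _ rfl)), Int.add_mul_ediv_left _ _ (by norm_num),
      h]
  · rw [if_neg h3, if_neg]
    intro h4
    exact h3 ((dvd_add_left (Dvd.intro _ rfl)).1 h4)

theorem _root_.Pool.Agent.H623.TS.Per.iterp {n : ℕ} {g : ℤ → ℝ} (h : Per n g) (k : ℕ) : Per (n + k) ((P τ)^[k] g) := by
  have hp0 : 0 < τ := Tilt.pos
  have hq0 : 0 < 1 - τ := Tilt.lt
  have ho0 : 0 < od τ := od_pos
  induction k with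
  | zero => exact h
  | succ k ih =>
    rw [Function.iterate_succ_apply']
    exact ih.Pp

theorem S_P {n : ℕ} {g : ℤ → ℝ} (h : Per n g) : S (n + 1) (P τ g) = 3 * S n g := by
  have hp0 : 0 < τ := Tilt.pos
  have hq0 : 0 < 1 - τ := Tilt.lt
  have ho0 : 0 < od τ := od_pos
  have h1 : S (n + 1) (P τ g) = (1 - τ) * (S (n + 1) (fun x => g (0 + 2 ^ 1 * x)) +
      od τ * S (n + 1) (fun x => if (3 : ℤ) ∣ 2 * x - 1 then g ((2 * x - 1) / 3) else 0)) := by
    unfold S TP.P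
    rw [← mul_sum, mul_sum _ _ (od τ), ← sum_add_distrib]
    simp only [pow_one, zero_add]
  rw [h1, S_aff (h.le (Nat.le_succ n)), S_B h, S_per h 1]
  have := mul_od (τ := τ)
  linear_combination S n g * this

theorem abs_P (g : ℤ → ℝ) (x : ℤ) : |P τ g x| ≤ P τ (fun x => |g x|) x := by
  have hp0 : 0 < τ := Tilt.pos
  have hq0 : 0 < 1 - τ := Tilt.lt
  have ho0 : 0 < od τ := od_pos
  unfold TP.P
  rw [abs_mul, abs_of_pos hq0]
  refine mul_le_mul_of_nonneg_left ?_ hq0.le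
  refine (abs_add_le _ _).trans ?_
  rw [abs_mul, abs_of_pos ho0]
  split_ifs
  · exact le_rfl
  · simp

theorem N_P {n : ℕ} {g : ℤ → ℝ} (h : Per n g) : N (n + 1) (P τ g) ≤ N n g := by
  have hp0 : 0 < τ := Tilt.pos
  have hq0 : 0 < 1 - τ := Tilt.lt
  have ho0 : 0 < od τ := od_pos
  unfold N
  have h1 : S (n + 1) (fun x => |P τ g x|) ≤ S (n + 1) (P τ (fun x => |g x|)) := S_mono (abs_P g)
  rw [S_P h.abs] at h1
  rw [div_le_div_iff₀ (by positivity) (by positivity), pow_succ]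
  have : (0 : ℝ) < 3 ^ n := by positivity
  nlinarith

theorem N_iter {n : ℕ} {g : ℤ → ℝ} (h : Per n g) (k : ℕ) : N (n + k) ((P τ)^[k] g) ≤ N n g := by
  have hp0 : 0 < τ := Tilt.pos
  have hq0 : 0 < 1 - τ := Tilt.lt
  have ho0 : 0 < od τ := od_pos
  induction k with
  | zero => exact le_rfl
  | succ k ih =>
    rw [Function.iterate_succ_apply']
    exact (N_P (h.iterp k)).trans ih

/-! ### linearity of the operator -/

theorem P_add (f g : ℤ → ℝ) : P τ (fun x => f x + g x) = fun x => P τ f x + P τ g x := by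
  have hp0 : 0 < τ := Tilt.pos
  have hq0 : 0 < 1 - τ := Tilt.lt
  have ho0 : 0 < od τ := od_pos
  funext x
  unfold TP.P
  split_ifs <;> ring

theorem P_smul (c : ℝ) (g : ℤ → ℝ) : P τ (fun x => c * g x) = fun x => c * P τ g x := by
  have hp0 : 0 < τ := Tilt.pos
  have hq0 : 0 < 1 - τ := Tilt.lt
  have ho0 : 0 < od τ := od_pos
  funext x
  unfold TP.P
  split_ifs <;> ring

theorem iter_add (k : ℕ) (f g : ℤ → ℝ) :
    (P τ)^[k] (fun x => f x + g x) = fun x => (P τ)^[k] f x + (P τ)^[k] g x := by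
  have hp0 : 0 < τ := Tilt.pos
  have hq0 : 0 < 1 - τ := Tilt.lt
  have ho0 : 0 < od τ := od_pos
  induction k with
  | zero => rfl
  | succ k ih =>
    rw [Function.iterate_succ_apply', ih, P_add, Function.iterate_succ_apply',
      Function.iterate_succ_apply']

theorem iter_smul (k : ℕ) (c : ℝ) (g : ℤ → ℝ) :
    (P τ)^[k] (fun x => c * g x) = fun x => c * (P τ)^[k] g x := by
  have hp0 : 0 < τ := Tilt.pos
  have hq0 : 0 < 1 - τ := Tilt.lt
  have ho0 : 0 < od τ := od_pos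
  induction k with
  | zero => rfl
  | succ k ih =>
    rw [Function.iterate_succ_apply', ih, P_smul, Function.iterate_succ_apply']

theorem iter_sub (k : ℕ) (f g : ℤ → ℝ) :
    (P τ)^[k] (fun x => f x - g x) = fun x => (P τ)^[k] f x - (P τ)^[k] g x := by
  have hp0 : 0 < τ := Tilt.pos
  have hq0 : 0 < 1 - τ := Tilt.lt
  have ho0 : 0 < od τ := od_pos
  have h1 : (fun x => f x - g x) = fun x => f x + (-1) * g x := by
    funext x; ring
  rw [h1, iter_add k f (fun x => -1 * g x), iter_smul k (-1) g]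
  funext x
  ring

/-! ### words -/

/-- decomposition according to the first letter -/
theorem iter_letter (k : ℕ) (g : ℤ → ℝ) (x : ℤ) :
    (P τ)^[k] g x = (1 - τ) ^ k * g (2 ^ k * x) + ∑ e ∈ Icc 1 k,
      if (3 : ℤ) ∣ 2 ^ e * x - 1 then
        (1 - τ) ^ e * od τ * (P τ)^[k - e] g ((2 ^ e * x - 1) / 3) else 0 := by
  induction k generalizing x with
  | zero => simp
  | succ k ih =>
    rw [Function.iterate_succ_apply']
    have h1 : P τ ((P τ)^[k] g) x = (1 - τ) * ((P τ)^[k] g (2 * x) +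
        od τ * if (3 : ℤ) ∣ 2 * x - 1 then (P τ)^[k] g ((2 * x - 1) / 3) else 0) := rfl
    rw [h1, ih (2 * x)]
    have h2 : ∑ e ∈ Icc 1 (k + 1), (if (3 : ℤ) ∣ 2 ^ e * x - 1 then
        (1 - τ) ^ e * od τ * (P τ)^[k + 1 - e] g ((2 ^ e * x - 1) / 3) else 0) =
        (if (3 : ℤ) ∣ 2 ^ 1 * x - 1 then
        (1 - τ) ^ 1 * od τ * (P τ)^[k + 1 - 1] g ((2 ^ 1 * x - 1) / 3) else 0) +
        ∑ e ∈ Icc 1 k, (if (3 : ℤ) ∣ 2 ^ (e + 1) * x - 1 then
        (1 - τ) ^ (e + 1) * od τ * (P τ)^[k + 1 - (e + 1)] g ((2 ^ (e + 1) * x - 1) / 3) else 0) := by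
      rw [← Finset.sum_erase_add _ _ (mem_Icc.2 ⟨le_refl 1, by omega⟩ : 1 ∈ Icc 1 (k + 1)), add_comm]
      congr 1
      symm
      refine Finset.sum_bij' (fun e _ => e + 1) (fun e _ => e - 1) ?_ ?_ ?_ ?_ ?_
      · intro e he
        rw [mem_Icc] at he
        rw [mem_erase, mem_Icc]
        omega
      · intro e he
        rw [mem_erase, mem_Icc] at he
        rw [mem_Icc]
        omega
      · intro e _
        simp
      · intro e he
        rw [mem_erase, mem_Icc] at he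
        omega
      · intro e _
        rfl
    rw [h2]
    have h3 : ∀ e ∈ Icc 1 k, (if (3 : ℤ) ∣ 2 ^ (e + 1) * x - 1 then
        (1 - τ) ^ (e + 1) * od τ * (P τ)^[k + 1 - (e + 1)] g ((2 ^ (e + 1) * x - 1) / 3) else 0) =
        (1 - τ) * (if (3 : ℤ) ∣ 2 ^ e * (2 * x) - 1 then
        (1 - τ) ^ e * od τ * (P τ)^[k - e] g ((2 ^ e * (2 * x) - 1) / 3) else 0) := by
      intro e _
      have e1 : (2 : ℤ) ^ (e + 1) * x = 2 ^ e * (2 * x) := by ring
      have e2 : k + 1 - (e + 1) = k - e := by omega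
      rw [e1, e2]
      split_ifs
      · ring
      · ring
    rw [sum_congr rfl h3, ← mul_sum]
    have e1 : (2 : ℤ) ^ (k + 1) * x = 2 ^ k * (2 * x) := by ring
    have e2 : k + 1 - 1 = k := by omega
    rw [e1, e2, pow_one, pow_one, pow_succ]
    split_ifs <;> ring

/-- the contribution of the words with `n` letters -/
noncomputable def Wn (τ : ℝ) (A n k : ℕ) (g : ℤ → ℝ) (x : ℤ) : ℝ :=
  ∑ w ∈ FW A n, if w.sum ≤ k ∧ (3 : ℤ) ^ n ∣ 2 ^ w.sum * x - (Wp 3 w : ℤ) then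
    od τ ^ n * (1 - τ) ^ k * g (2 ^ (k - w.sum) * en 3 w x) else 0

theorem Wn_zero (A k : ℕ) (g : ℤ → ℝ) (x : ℤ) : Wn τ A 0 k g x = (1 - τ) ^ k * g (2 ^ k * x) := by
  unfold Wn
  rw [sum_FW_zero]
  simp [Wp, en]

theorem Wn_big {A n k : ℕ} (h : k < n) (g : ℤ → ℝ) (x : ℤ) : Wn τ A n k g x = 0 := by
  unfold Wn
  apply sum_eq_zero
  intro w hw
  rw [if_neg]
  rintro ⟨h1, -⟩
  rw [mem_FW] at hw
  have : w.length ≤ w.sum := C1_length_le w fun e he => (hw.2 e he).1
  omega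

theorem Wn_succ (A n k : ℕ) (g : ℤ → ℝ) (x : ℤ) :
    Wn τ A (n + 1) k g x = ∑ e ∈ Icc 1 A, if e ≤ k ∧ (3 : ℤ) ∣ 2 ^ e * x - 1 then
      (1 - τ) ^ e * od τ * Wn τ A n (k - e) g ((2 ^ e * x - 1) / 3) else 0 := by
  unfold Wn
  rw [sum_FW_succ]
  refine sum_congr rfl fun e _ => ?_
  by_cases h : e ≤ k ∧ (3 : ℤ) ∣ 2 ^ e * x - 1
  · obtain ⟨h1, h2⟩ := h
    rw [if_pos ⟨h1, h2⟩, mul_sum]
    refine sum_congr rfl fun v _ => ?_
    have hv := valid_cons_iff n e v x
    simp only [h2, true_and] at hv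
    have hs : (e :: v).sum = e + v.sum := by simp
    by_cases h3 : v.sum ≤ k - e ∧ (3 : ℤ) ^ n ∣ 2 ^ v.sum * ((2 ^ e * x - 1) / 3) - (Wp 3 v : ℤ)
    · rw [if_pos h3, if_pos ⟨by omega, hv.2 h3.2⟩, en_cons e v x h2, hs]
      have e1 : k - (e + v.sum) = k - e - v.sum := by omega
      have e2 : (1 - τ) ^ k = (1 - τ) ^ e * (1 - τ) ^ (k - e) := by
        rw [← pow_add]; congr 1; omega
      rw [e1, e2]
      ring
    · rw [if_neg h3, if_neg, mul_zero]
      rintro ⟨h4, h5⟩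
      exact h3 ⟨by omega, hv.1 h5⟩
  · rw [if_neg h]
    apply sum_eq_zero
    intro v _
    rw [if_neg]
    rintro ⟨h4, h5⟩
    have hs : (e :: v).sum = e + v.sum := by simp
    exact h ⟨by omega, ((valid_cons_iff n e v x).1 h5).1⟩

/-- the iterates of the operator as sums over words -/
theorem iter_words {A k : ℕ} (hA : k ≤ A) (g : ℤ → ℝ) (x : ℤ) :
    (P τ)^[k] g x = ∑ n ∈ range (k + 1), Wn τ A n k g x := by
  induction k using Nat.strong_induction_on generalizing x with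
  | _ k ih =>
    rw [iter_letter, sum_range_succ', Wn_zero, add_comm]
    congr 1
    simp only [Wn_succ]
    rw [sum_comm]
    have h1 : ∀ e ∈ Icc 1 A, (∑ n ∈ range k, if e ≤ k ∧ (3 : ℤ) ∣ 2 ^ e * x - 1 then
        (1 - τ) ^ e * od τ * Wn τ A n (k - e) g ((2 ^ e * x - 1) / 3) else 0) =
        if e ≤ k then (if (3 : ℤ) ∣ 2 ^ e * x - 1 then
          (1 - τ) ^ e * od τ * (P τ)^[k - e] g ((2 ^ e * x - 1) / 3) else 0) else 0 := by
      intro e he
      rw [mem_Icc] at he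
      by_cases h1 : e ≤ k
      · by_cases h2 : (3 : ℤ) ∣ 2 ^ e * x - 1
        · simp only [h1, h2, true_and, if_true]
          rw [← mul_sum, ih (k - e) (by omega) (by omega)]
          congr 1
          symm
          apply sum_subset
          · intro n hn
            rw [mem_range] at hn ⊢
            omega
          · intro n _ hn
            rw [mem_range, not_lt] at hn
            exact Wn_big (by omega) g _
        · simp [h2]
      · simp [h1]
    rw [sum_congr rfl h1]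
    rw [← sum_filter (fun e => e ≤ k) (fun e => if (3 : ℤ) ∣ 2 ^ e * x - 1 then
          (1 - τ) ^ e * od τ * (P τ)^[k - e] g ((2 ^ e * x - 1) / 3) else 0)]
    apply sum_congr
    · ext e
      rw [mem_filter, mem_Icc, mem_Icc]
      omega
    · intro _ _
      rfl

end Pool.Agent.H623.TP
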