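import Pool.Agent.H623.TP.Rec

/-!
# The binomial laws are almost invariant under shifts, uniformly in the parameter
-/

set_option autoImplicit false
set_option linter.unusedVariables false

namespace Pool.Agent.H623.TP

open Finset
open Pool.Agent.H623.TS (dl dl_nonneg dl_anti dl_tendsto)

/-- the range of the tilts -/
class TiltR (p : ℝ) : Prop extends Tilt p where
  lo : 6 / 25 ≤ p
  hi : p ≤ 8 / 15

variable (τ : ℝ) [TiltR τ]

theorem bep_nonneg (k i : ℕ) : 0 ≤ bep τ k i := by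
  have hp0 : 0 < τ := Tilt.pos
  have hq0 : 0 < 1 - τ := Tilt.lt
  unfold bep
  positivity

theorem bep_zero_zero : bep τ 0 0 = 1 := by simp [bep]

theorem bep_zero_succ (i : ℕ) : bep τ 0 (i + 1) = 0 := by simp [bep]

theorem bep_big {k i : ℕ} (h : k < i) : bep τ k i = 0 := by
  have hp0 : 0 < τ := Tilt.pos
  have hq0 : 0 < 1 - τ := Tilt.lt
  unfold bep
  rw [Nat.choose_eq_zero_of_lt h]
  simp

theorem bep_succ_zero (k : ℕ) : bep τ (k + 1) 0 = (1 - τ) * bep τ k 0 := by
  have hp0 : 0 < τ := Tilt.pos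
  have hq0 : 0 < 1 - τ := Tilt.lt
  unfold bep
  simp [pow_succ]
  ring

theorem bep_succ_succ (k i : ℕ) : bep τ (k + 1) (i + 1) = (1 - τ) * bep τ k (i + 1) + τ * bep τ k i := by
  have hp0 : 0 < τ := Tilt.pos
  have hq0 : 0 < 1 - τ := Tilt.lt
  unfold bep
  rw [Nat.choose_succ_succ]
  push_cast
  simp only [Nat.succ_eq_add_one]
  rw [pow_succ τ]
  rcases Nat.lt_or_ge i k with h | h
  · have e2 : k - i = (k - (i + 1)) + 1 := by omega
    rw [e2, pow_succ (1 - τ)]
    ring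
  · rw [Nat.choose_eq_zero_of_lt (show k < i + 1 by omega)]
    push_cast
    ring

theorem bep_sum_succ (k : ℕ) (F : ℕ → ℝ) : ∑ i ∈ range (k + 2), bep τ (k + 1) i * F i =
    ∑ i ∈ range (k + 1), bep τ k i * ((1 - τ) * F i + τ * F (i + 1)) := by
  have hp0 : 0 < τ := Tilt.pos
  have hq0 : 0 < 1 - τ := Tilt.lt
  rw [sum_range_succ']
  simp only [bep_succ_succ τ, bep_succ_zero τ]
  have h1 : ∑ i ∈ range (k + 1), ((1 - τ) * bep τ k (i + 1) + τ * bep τ k i) * F (i + 1) =
      ∑ i ∈ range (k + 1), (1 - τ) * (bep τ k (i + 1) * F (i + 1)) +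
      ∑ i ∈ range (k + 1), bep τ k i * (τ * F (i + 1)) := by
    rw [← sum_add_distrib]
    exact sum_congr rfl fun i _ => by ring
  have h2 : ∑ i ∈ range (k + 1), bep τ k (i + 1) * F (i + 1) + bep τ k 0 * F 0 =
      ∑ i ∈ range (k + 1), bep τ k i * F i := by
    have := sum_range_succ' (fun i => bep τ k i * F i) (k + 1)
    rw [← this, sum_range_succ, bep_big τ (show k < k + 1 by omega), zero_mul, add_zero]
  have h3 : ∑ i ∈ range (k + 1), bep τ k i * ((1 - τ) * F i + τ * F (i + 1)) =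
      (1 - τ) * ∑ i ∈ range (k + 1), bep τ k i * F i + ∑ i ∈ range (k + 1), bep τ k i * (τ * F (i + 1)) := by
    rw [mul_sum, ← sum_add_distrib]
    exact sum_congr rfl fun i _ => by ring
  rw [h1, h3, ← h2, ← mul_sum]
  ring

theorem bep_total (k : ℕ) : ∑ i ∈ range (k + 1), bep τ k i = 1 := by
  have hp0 : 0 < τ := Tilt.pos
  have hq0 : 0 < 1 - τ := Tilt.lt
  induction k with
  | zero => simp [bep_zero_zero τ]
  | succ k ih =>
    have := bep_sum_succ τ k (fun _ => 1)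
    simp only [mul_one] at this
    refine this.trans (Eq.trans (sum_congr rfl fun i _ => ?_) ih)
    ring

theorem bep_sum_le (k M : ℕ) : ∑ i ∈ range M, bep τ k i ≤ 1 := by
  have hp0 : 0 < τ := Tilt.pos
  have hq0 : 0 < 1 - τ := Tilt.lt
  rw [← bep_total τ k]
  rcases Nat.le_total M (k + 1) with h | h
  · exact sum_le_sum_of_subset_of_nonneg (range_subset_range.2 h) fun i _ _ => bep_nonneg τ k i
  · apply le_of_eq
    symm
    apply sum_subset (range_subset_range.2 h)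
    intro i _ hi
    rw [mem_range, not_lt] at hi
    exact bep_big τ (by omega)

theorem bep_var0 (k : ℕ) : ∑ i ∈ range (k + 1), bep τ k i * ((i : ℝ) - (k : ℝ) * τ) = 0 := by
  have hp0 : 0 < τ := Tilt.pos
  have hq0 : 0 < 1 - τ := Tilt.lt
  induction k with
  | zero => norm_num [bep_zero_zero τ]
  | succ k ih =>
    have h := bep_sum_succ τ k (fun i => (i : ℝ) - ((k + 1 : ℕ) : ℝ) * τ)
    refine h.trans (Eq.trans (sum_congr rfl fun i _ => ?_) ih)
    push_cast
    ring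

theorem bep_var (k : ℕ) : ∑ i ∈ range (k + 1), bep τ k i * ((i : ℝ) - (k : ℝ) * τ) ^ 2 =
    τ * (1 - τ) * (k : ℝ) := by
  have hp0 : 0 < τ := Tilt.pos
  have hq0 : 0 < 1 - τ := Tilt.lt
  induction k with
  | zero => norm_num [bep_zero_zero τ]
  | succ k ih =>
    have h0 := bep_var0 τ k
    have h := bep_sum_succ τ k (fun i => ((i : ℝ) - ((k + 1 : ℕ) : ℝ) * τ) ^ 2)
    refine h.trans ?_
    have h1 : ∀ i ∈ range (k + 1), bep τ k i * ((1 - τ) * ((i : ℝ) - ((k + 1 : ℕ) : ℝ) * τ) ^ 2 +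
        τ * (((i + 1 : ℕ) : ℝ) - ((k + 1 : ℕ) : ℝ) * τ) ^ 2) =
        bep τ k i * ((i : ℝ) - (k : ℝ) * τ) ^ 2 + τ * (1 - τ) * bep τ k i := by
      intro i _
      push_cast
      ring
    rw [sum_congr rfl h1, sum_add_distrib, ih, ← mul_sum, bep_total τ]
    push_cast
    ring

theorem bep_diff (k i : ℕ) : bep τ k i - bep τ k (i + 1) =
    1 / (τ * (1 - τ) * (k + 1)) * (bep τ (k + 1) (i + 1) * (((i + 1 : ℕ) : ℝ) - ((k + 1 : ℕ) : ℝ) * τ)) := by
  have hp0 : 0 < τ := Tilt.pos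
  have hq0 : 0 < 1 - τ := Tilt.lt
  have h1 : ((i : ℝ) + 1) * bep τ (k + 1) (i + 1) = (k + 1) * τ * bep τ k i := by
    unfold bep
    have h := Nat.add_one_mul_choose_eq k i
    have h' : ((k : ℝ) + 1) * (k.choose i : ℝ) = ((k + 1).choose (i + 1) : ℝ) * ((i : ℝ) + 1) := by
      exact_mod_cast h
    have e1 : k + 1 - (i + 1) = k - i := by omega
    rw [e1, pow_succ τ]
    linear_combination (-τ ^ i * τ * (1 - τ) ^ (k - i)) * h'
  have h2 := bep_succ_succ τ k i
  have hk : (0 : ℝ) < k + 1 := by positivity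
  have h3 : ((k : ℝ) + 1) * ((1 - τ) * bep τ k (i + 1)) = ((k : ℝ) - i) * bep τ (k + 1) (i + 1) := by
    have : (1 - τ) * bep τ k (i + 1) = bep τ (k + 1) (i + 1) - τ * bep τ k i := by linarith
    rw [this]
    linear_combination h1
  push_cast
  rw [← sub_eq_zero]
  field_simp
  nlinarith [h1, h3]

theorem bep_shift0 (k M : ℕ) : ∑ i ∈ range M, |bep τ k i - bep τ k (i + 1)| ≤ 3 / 5 * dl k := by
  have hp0 : 0 < τ := Tilt.pos
  have hq0 : 0 < 1 - τ := Tilt.lt
  have hk : (0 : ℝ) < k + 1 := by positivity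
  have h1 : ∀ i ∈ range M, |bep τ k i - bep τ k (i + 1)| =
      1 / (τ * (1 - τ) * (k + 1)) * (bep τ (k + 1) (i + 1) * |((i + 1 : ℕ) : ℝ) - ((k + 1 : ℕ) : ℝ) * τ|) := by
    intro i _
    rw [bep_diff τ, abs_mul, abs_mul, abs_of_nonneg (bep_nonneg τ _ _), abs_of_pos (by positivity)]
  rw [sum_congr rfl h1, ← mul_sum]
  set G : ℕ → ℝ := fun i => bep τ (k + 1) i * |(i : ℝ) - ((k + 1 : ℕ) : ℝ) * τ| with hG
  have hG0 : ∀ i, 0 ≤ G i := fun i => mul_nonneg (bep_nonneg τ _ _) (abs_nonneg _)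
  have h2 : ∑ i ∈ range M, G (i + 1) ≤ ∑ i ∈ range (k + 2), G i := by
    have h3 : ∑ i ∈ range M, G (i + 1) ≤ ∑ i ∈ range (M + 1), G i := by
      rw [sum_range_succ' G M]
      linarith [hG0 0]
    refine h3.trans ?_
    rcases Nat.le_total (M + 1) (k + 2) with h | h
    · exact sum_le_sum_of_subset_of_nonneg (range_subset_range.2 h) fun i _ _ => hG0 i
    · apply le_of_eq
      symm
      apply sum_subset (range_subset_range.2 h)
      intro i _ hi
      rw [mem_range, not_lt] at hi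
      rw [hG]
      dsimp only
      rw [bep_big τ (show k + 1 < i by omega), zero_mul]
  have h3 : ∑ i ∈ range (k + 2), G i ≤ Real.sqrt (τ * (1 - τ) * (k + 1)) := by
    have h4 : ∀ i ∈ range (k + 2), G i = Real.sqrt (bep τ (k + 1) i) *
        Real.sqrt (bep τ (k + 1) i * ((i : ℝ) - ((k + 1 : ℕ) : ℝ) * τ) ^ 2) := by
      intro i _
      rw [Real.sqrt_mul (bep_nonneg τ _ _), Real.sqrt_sq_eq_abs, ← mul_assoc,
        Real.mul_self_sqrt (bep_nonneg τ _ _)]
    rw [sum_congr rfl h4]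
    refine (Real.sum_sqrt_mul_sqrt_le _ (fun i => bep_nonneg τ _ _) (fun i =>
      mul_nonneg (bep_nonneg τ _ _) (sq_nonneg _))).trans ?_
    have h5 := bep_total τ (k + 1)
    have h6 := bep_var τ (k + 1)
    rw [h5, h6, Real.sqrt_one, one_mul]
    push_cast
    exact le_rfl
  have h4 : 1 / (τ * (1 - τ) * ((k : ℝ) + 1)) * ∑ i ∈ range M, G (i + 1) ≤
      1 / (τ * (1 - τ) * ((k : ℝ) + 1)) * Real.sqrt (τ * (1 - τ) * (k + 1)) :=
    mul_le_mul_of_nonneg_left (h2.trans h3) (by positivity)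
  refine h4.trans ?_
  unfold dl
  have hlo : 6 / 25 ≤ τ := TiltR.lo
  have hhi : τ ≤ 8 / 15 := TiltR.hi
  rw [Real.sqrt_mul (by positivity)]
  set c : ℝ := Real.sqrt (τ * (1 - τ)) with hc
  have hc2 : c ^ 2 = τ * (1 - τ) := Real.sq_sqrt (by positivity)
  have hc0 : 0 < c := Real.sqrt_pos.2 (by positivity)
  have h5 : 1 ≤ 12 / 5 * c := by
    have h6 : (25 : ℝ) / 144 ≤ τ * (1 - τ) := by nlinarith
    nlinarith
  set s : ℝ := Real.sqrt ((k : ℝ) + 1) with hs
  have hs0 : 0 < s := Real.sqrt_pos.2 hk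
  have hs2 : (k : ℝ) + 1 = s ^ 2 := (Real.sq_sqrt hk.le).symm
  rw [hs2, div_mul_eq_mul_div, ← mul_div_assoc, div_le_div_iff₀ (by positivity) hs0]
  rw [← hc2]
  nlinarith [mul_le_mul_of_nonneg_right h5 (show 0 ≤ c * s ^ 2 by positivity)]

theorem bep_shift (k M : ℕ) : ∑ i ∈ range M, |bep τ k i - bep τ k (i + 1)| ≤ dl k := by
  have h := bep_shift0 τ k M
  have := dl_nonneg k
  linarith

theorem bep_zero_le (k : ℕ) : bep τ k 0 ≤ 3 / 5 * dl k := by
  have hp0 : 0 < τ := Tilt.pos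
  have hq0 : 0 < 1 - τ := Tilt.lt
  have h := bep_shift0 τ k (k + 1)
  have h1 : bep τ k 0 = ∑ i ∈ range (k + 1), (bep τ k i - bep τ k (i + 1)) := by
    rw [sum_range_sub', bep_big τ (show k < k + 1 by omega), sub_zero]
  calc bep τ k 0 = ∑ i ∈ range (k + 1), (bep τ k i - bep τ k (i + 1)) := h1
    _ ≤ ∑ i ∈ range (k + 1), |bep τ k i - bep τ k (i + 1)| := sum_le_sum fun i _ => le_abs_self _
    _ ≤ _ := h

theorem bep_le (k i : ℕ) : bep τ k i ≤ dl k := by
  have hp0 : 0 < τ := Tilt.pos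
  have hq0 : 0 < 1 - τ := Tilt.lt
  have h1 : bep τ k i = ∑ j ∈ range (k + 1), (bep τ k (i + j) - bep τ k (i + (j + 1))) := by
    rw [sum_range_sub' (fun j => bep τ k (i + j)), bep_big τ (show k < i + (k + 1) by omega), sub_zero,
      add_zero]
  have h2 : ∑ j ∈ range (k + 1), (bep τ k (i + j) - bep τ k (i + (j + 1))) ≤
      ∑ j ∈ range (k + 1), |bep τ k (i + j) - bep τ k (i + j + 1)| :=
    sum_le_sum fun j _ => le_abs_self _
  have h3 : ∑ j ∈ range (k + 1), |bep τ k (i + j) - bep τ k (i + j + 1)| ≤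
      ∑ l ∈ range (i + (k + 1)), |bep τ k l - bep τ k (l + 1)| := by
    rw [sum_range_add (fun l => |bep τ k l - bep τ k (l + 1)|) i (k + 1)]
    have : 0 ≤ ∑ l ∈ range i, |bep τ k l - bep τ k (l + 1)| := sum_nonneg fun _ _ => abs_nonneg _
    linarith
  rw [h1]
  exact h2.trans (h3.trans (bep_shift τ k _))

theorem bep_shifts (k M j : ℕ) : ∑ i ∈ range M, |bep τ k i - bep τ k (i + j)| ≤ j * dl k := by
  have hp0 : 0 < τ := Tilt.pos
  have hq0 : 0 < 1 - τ := Tilt.lt
  induction j with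
  | zero => simp
  | succ j ih =>
    have h1 : ∀ i ∈ range M, |bep τ k i - bep τ k (i + (j + 1))| ≤
        |bep τ k i - bep τ k (i + j)| + |bep τ k (i + j) - bep τ k (i + j + 1)| := by
      intro i _
      rw [← add_assoc]
      exact abs_sub_le _ _ _
    refine (sum_le_sum h1).trans ?_
    rw [sum_add_distrib]
    have h2 : ∑ i ∈ range M, |bep τ k (i + j) - bep τ k (i + j + 1)| ≤ dl k := by
      refine le_trans ?_ (bep_shift τ k (j + M))
      rw [sum_range_add (fun l => |bep τ k l - bep τ k (l + 1)|) j M]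
      have : 0 ≤ ∑ l ∈ range j, |bep τ k l - bep τ k (l + 1)| := sum_nonneg fun _ _ => abs_nonneg _
      have h3 : ∑ i ∈ range M, |bep τ k (i + j) - bep τ k (i + j + 1)| =
          ∑ i ∈ range M, |bep τ k (j + i) - bep τ k (j + i + 1)| :=
        sum_congr rfl fun i _ => by rw [add_comm i j]
      rw [h3]
      linarith
    push_cast
    linarith

theorem bep_time (k M : ℕ) : ∑ i ∈ range M, |bep τ (k + 1) i - bep τ k i| ≤ dl k := by
  have hp0 : 0 < τ := Tilt.pos
  have hq0 : 0 < 1 - τ := Tilt.lt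
  cases M with
  | zero => simp [dl_nonneg]
  | succ M =>
    rw [sum_range_succ']
    have h1 : ∀ i ∈ range M, |bep τ (k + 1) (i + 1) - bep τ k (i + 1)| = τ * |bep τ k i - bep τ k (i + 1)| := by
      intro i _
      rw [bep_succ_succ τ]
      have e : (1 - τ) * bep τ k (i + 1) + τ * bep τ k i - bep τ k (i + 1) =
          τ * (bep τ k i - bep τ k (i + 1)) := by ring
      rw [e, abs_mul, abs_of_pos hp0]
    rw [sum_congr rfl h1, ← mul_sum, bep_succ_zero τ]
    have h2 : |(1 - τ) * bep τ k 0 - bep τ k 0| = τ * bep τ k 0 := by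
      have e : (1 - τ) * bep τ k 0 - bep τ k 0 = -(τ * bep τ k 0) := by ring
      rw [e, abs_neg, abs_of_nonneg (mul_nonneg hp0.le (bep_nonneg τ _ _))]
    rw [h2]
    have h3 := bep_shift0 τ k M
    have h4 := bep_zero_le τ k
    have h5 := dl_nonneg k
    have hhi : τ ≤ 8 / 15 := TiltR.hi
    have h6 := mul_le_mul_of_nonneg_left h3 hp0.le
    have h7 := mul_le_mul_of_nonneg_left h4 hp0.le
    nlinarith

theorem bep_times (k M t : ℕ) : ∑ i ∈ range M, |bep τ (k + t) i - bep τ k i| ≤ t * dl k := by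
  have hp0 : 0 < τ := Tilt.pos
  have hq0 : 0 < 1 - τ := Tilt.lt
  induction t with
  | zero => simp
  | succ t ih =>
    have h1 : ∀ i ∈ range M, |bep τ (k + (t + 1)) i - bep τ k i| ≤
        |bep τ (k + t + 1) i - bep τ (k + t) i| + |bep τ (k + t) i - bep τ k i| := fun i _ => abs_sub_le _ _ _
    refine (sum_le_sum h1).trans ?_
    rw [sum_add_distrib]
    have h2 := bep_time τ (k + t) M
    have h3 := dl_anti (show k ≤ k + t by omega)
    push_cast
    linarith

/-- shift in time and space -/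
theorem bep_both (k M j t : ℕ) : ∑ i ∈ range M, |bep τ k i - bep τ (k + t) (i + j)| ≤ (j + t) * dl k := by
  have hp0 : 0 < τ := Tilt.pos
  have hq0 : 0 < 1 - τ := Tilt.lt
  have h1 : ∀ i ∈ range M, |bep τ k i - bep τ (k + t) (i + j)| ≤
      |bep τ k i - bep τ k (i + j)| + |bep τ (k + t) (j + i) - bep τ k (j + i)| := by
    intro i _
    rw [add_comm j i, abs_sub_comm (bep τ (k + t) (i + j))]
    exact abs_sub_le _ _ _
  refine (sum_le_sum h1).trans ?_
  rw [sum_add_distrib]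
  have h2 := bep_shifts τ k M j
  have h3 : ∑ i ∈ range M, |bep τ (k + t) (j + i) - bep τ k (j + i)| ≤ t * dl k := by
    refine le_trans ?_ (bep_times τ k (j + M) t)
    rw [sum_range_add (fun l => |bep τ (k + t) l - bep τ k l|) j M]
    have : 0 ≤ ∑ l ∈ range j, |bep τ (k + t) l - bep τ k l| := sum_nonneg fun _ _ => abs_nonneg _
    linarith
  linarith


end Pool.Agent.H623.TP
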