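import Pool.Agent.H623.TP.In
import Pool.Agent.H623.TP.J

/-!
# Decay of the nonuniformity of the digits, uniformly in the tilt
-/

set_option autoImplicit false

namespace Pool.Agent.H623.TP

open Finset Pool.Agent.H320R2.PD Pool.Agent.H377R2.NK

theorem gp_shift_anti {τ : ℝ} [Tilt τ] (A i : ℕ) {n n' : ℕ} (h : n ≤ n') :
    gp τ A n' (n' + i) ≤ gp τ A n (n + i) := by
  obtain ⟨d, rfl⟩ := Nat.exists_eq_add_of_le' h
  have h0 := gp_rec (τ := τ) A d n (n + i)
  rw [← add_assoc] at h0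
  refine h0.trans ?_
  have h1 := gp_le_one (τ := τ) A d (d + n + i)
  have h2 := gp_nonneg (τ := τ) A n (n + i)
  nlinarith

theorem rr_le {p : ℝ} (h : 6 / 25 ≤ p) : rr p ≤ 2 := by
  unfold rr
  have h2 := Real.log_two_lt_d9
  have h3 : (1 : ℝ) ≤ Real.log 3 := by
    have := Real.exp_one_lt_d9
    rw [Real.le_log_iff_exp_le (by norm_num)]
    linarith
  have h4 : Real.log 2 / (p * Real.log 3) ≤ 3 := by
    rw [div_le_iff₀ (by positivity)]
    nlinarith
  linarith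

theorem rr_pos {p : ℝ} (h0 : 0 < p) (h : p ≤ 8 / 15) : 0 < rr p := by
  unfold rr
  have h3 : 0 < Real.log 3 := Real.log_pos (by norm_num)
  have h4 : 1 < Real.log 2 / (p * Real.log 3) := by
    rw [lt_div_iff₀ (by positivity), one_mul]
    have h5 : Real.log ((3 : ℝ) ^ 8) < Real.log ((2 : ℝ) ^ 15) :=
      Real.log_lt_log (by norm_num) (by norm_num)
    rw [Real.log_pow, Real.log_pow] at h5
    push_cast at h5
    nlinarith
  linarith

theorem dd_nonneg {p : ℝ} (h : 0 < p) : 0 ≤ dd p := by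
  unfold dd
  have := Real.binEntropy_le_log_two (p := p)
  have h1 : 0 ≤ Real.log 2 - Real.binEntropy p := by linarith
  positivity

/-- decay of the nonuniformity -/
theorem gp_decay (i : ℕ) : ∃ β : ℝ, 1 < β ∧ ∃ D : ℝ, 0 < D ∧ ∀ (τ : ℝ) [TiltR τ],
    ∀ N A : ℕ, 1 ≤ A → 3 * N ≤ A → ∀ m, 1 ≤ m → m ≤ N → gp τ A m (m + i) ≤ (D / m) ^ β := by
  obtain ⟨c, hc, hAN⟩ := t_AN
  obtain ⟨k₁, hk₁, hGP⟩ := t_GPAVG (c / 4) (by positivity)
  obtain ⟨β, hβ, hAVG⟩ := t_AVG 2 (c / 2) (by norm_num) (by positivity)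
  obtain ⟨k₂, hk₂⟩ := exists_nat_ge (4 * i / c)
  obtain ⟨D, hD, hdec⟩ := hAVG (k₁ + k₂)
  refine ⟨β, hβ, D, hD, fun τ hτ N A hA hNA => ?_⟩
  have hlo : 6 / 25 ≤ τ := TiltR.lo
  have hhi : τ ≤ 8 / 15 := TiltR.hi
  have hp0 : 0 < τ := Tilt.pos
  have hq0 : 0 < 1 - τ := Tilt.lt
  have hr1 := rr_le hlo
  have hr0 := rr_pos hp0 hhi
  have han := hAN τ hlo hhi
  have hdd := dd_nonneg hp0
  have hr2 : c ≤ rr τ := by
    have := Real.log_nonneg (show 1 ≤ 1 + rr τ by linarith)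
    linarith
  set r : ℝ := rr τ - c / 4 with hr
  have hrr : 0 ≤ r := by linarith
  have hlog : Real.log (1 + r) ≤ Real.log (1 + rr τ) :=
    Real.log_le_log (by linarith) (by linarith)
  refine hdec r (dd τ + c / 4) hrr (by linarith) (by positivity) (by linarith) N
    (fun m => gp τ A m (m + i)) (fun m _ => gp_pos hA m _) (fun m _ => gp_le_one A m _)
    (fun m m' h _ => gp_shift_anti A i h) ?_
  intro k hk hkN
  have hkA : 3 * k ≤ A := by omega
  have h1 := hGP τ hlo hhi k (by omega) A hkA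
  have hki : (i : ℝ) ≤ c / 4 * k := by
    have h2 : (k₂ : ℝ) ≤ k := by exact_mod_cast (show k₂ ≤ k by omega)
    have h3 := hk₂.trans h2
    rw [div_le_iff₀ hc] at h3
    linarith
  have hfl : ⌊r * k⌋₊ + i ≤ ⌊rr τ * k⌋₊ := by
    apply Nat.le_floor
    push_cast
    have h2 : (⌊r * k⌋₊ : ℝ) ≤ r * k := Nat.floor_le (by positivity)
    have h3 : rr τ * k = r * k + c / 4 * k := by rw [hr]; ring
    linarith
  have h2 : ∑ m ∈ range ⌊r * k⌋₊, gp τ A (k + m) (k + m + i) / gp τ A m (m + i) ≤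
      ∑ m ∈ range ⌊r * k⌋₊, gp τ A k (k + (i + m)) := by
    refine sum_le_sum fun m _ => ?_
    rw [div_le_iff₀ (gp_pos hA m _)]
    have h3 := gp_rec (τ := τ) A k m (m + i)
    rw [← add_assoc] at h3
    refine h3.trans (le_of_eq ?_)
    have e : k + m + i = k + (i + m) := by ring
    rw [e]
  refine h2.trans (le_trans ?_ (h1.trans ?_))
  · have h3 : ∑ j ∈ range (i + ⌊r * k⌋₊), gp τ A k (k + j) ≤
        ∑ j ∈ range ⌊rr τ * k⌋₊, gp τ A k (k + j) :=
      sum_le_sum_of_subset_of_nonneg (range_subset_range.2 (by omega)) fun j _ _ => gp_nonneg _ _ _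
    refine le_trans ?_ h3
    rw [sum_range_add (fun j => gp τ A k (k + j))]
    have : 0 ≤ ∑ j ∈ range i, gp τ A k (k + j) := sum_nonneg fun j _ => gp_nonneg _ _ _
    linarith
  · exact le_refl _

/-- fine digits are asymptotically uniform -/
theorem gp_small (i : ℕ) {ε : ℝ} (hε : 0 < ε) : ∃ n₀ : ℕ, ∀ (τ : ℝ) [TiltR τ], ∀ n, n₀ ≤ n →
    ∀ A, 3 * n ≤ A → gp τ A n (n + i) ≤ ε := by
  obtain ⟨β, hβ, D, hD, h⟩ := gp_decay i
  have hlim : Filter.Tendsto (fun n : ℕ => (D / (n : ℝ)) ^ β) Filter.atTop (nhds 0) := by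
    have h1 : Filter.Tendsto (fun n : ℕ => D / (n : ℝ)) Filter.atTop (nhds 0) :=
      tendsto_const_div_atTop_nhds_zero_nat D
    have h2 := h1.rpow_const (p := β) (Or.inr (by linarith))
    rwa [Real.zero_rpow (by linarith)] at h2
  obtain ⟨n₁, hn₁⟩ := Filter.eventually_atTop.1 ((tendsto_order.1 hlim).2 ε hε)
  refine ⟨n₁ + 1, fun τ _ n hn A hA => ?_⟩
  exact (h τ n A (by omega) hA n (by omega) le_rfl).trans (hn₁ n (by omega)).le

/-- the tails of the sum of the diagonal nonuniformities -/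
theorem gp_tail {ε : ℝ} (hε : 0 < ε) : ∃ J : ℕ, ∀ (τ : ℝ) [TiltR τ], ∀ l A : ℕ, 3 * (J + l) ≤ A →
    ∑ j ∈ range l, gp τ A (J + j) (J + j) ≤ ε := by
  obtain ⟨β, hβ, D, hD, h⟩ := gp_decay 0
  have hsum : Summable (fun n : ℕ => (D / (n : ℝ)) ^ β) := by
    have h1 : Summable (fun n : ℕ => 1 / (n : ℝ) ^ β) := Real.summable_one_div_nat_rpow.mpr hβ
    refine (h1.mul_left (D ^ β)).congr fun n => ?_
    rw [Real.div_rpow hD.le (Nat.cast_nonneg n)]
    ring
  have h1 := tendsto_sum_nat_add (fun n : ℕ => (D / (n : ℝ)) ^ β)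
  obtain ⟨J, hJ⟩ := (((tendsto_order.1 h1).2 ε hε).and (Filter.eventually_ge_atTop 1)).exists
  refine ⟨J, fun τ _ l A hA => ?_⟩
  have h2 : ∑ j ∈ range l, gp τ A (J + j) (J + j) ≤ ∑ j ∈ range l, (D / ((j + J : ℕ) : ℝ)) ^ β := by
    refine sum_le_sum fun j hj => ?_
    rw [mem_range] at hj
    have h3 := h τ (J + l) A (by omega) hA (J + j) (by omega) (by omega)
    rw [add_zero] at h3
    rw [add_comm j J]
    exact h3
  refine h2.trans (le_trans ?_ hJ.1.le)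
  exact Summable.sum_le_tsum _ (fun j _ => by positivity) ((summable_nat_add_iff J).2 hsum)

end Pool.Agent.H623.TP
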