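import Pool.Agent.H623.TP.A

/-!
# The words of given size: cancellation on functions of mean zero
-/

set_option autoImplicit false
set_option linter.unusedVariables false

namespace Pool.Agent.H623.TP

open Finset Pool.Agent.H320R2.PD Pool.Agent.H377R2.NK
open Pool.Agent.H623.TS (Per S S_per S_mono S_aff S_B N N_nonneg N_per N_add N_congr N_smul N_tri N_comm
  tri_dev R1 R1_le many_digits N_sum_le)

variable {τ : ℝ} [Tilt τ]

/-- integers `y`: the words with `3 ^ n ∣ y - Wo w` -/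
noncomputable def Hf (τ : ℝ) (F : Finset (List ℕ)) (n : ℕ) (G : ℤ → ℝ) (y : ℤ) : ℝ :=
  ∑ w ∈ F, if (3 : ℤ) ^ n ∣ y - (Wo w : ℤ) then (qp τ) w * G ((y - (Wo w : ℤ)) / 3 ^ n) else 0

theorem Hf_eq (F : Finset (List ℕ)) {n m : ℕ} {G : ℤ → ℝ} (hG : Per m G) (y : ℤ) :
    Hf τ F n G y = ∑ d ∈ range (3 ^ m), G (d : ℤ) *
      cnt F (qp τ) (fun w => (Wo w : ℤ)) (n + m) (y - 3 ^ n * (d : ℤ)) := by
  have hp0 : 0 < τ := Tilt.pos
  have hq0 : 0 < 1 - τ := Tilt.lt
  classical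
  unfold Hf cnt
  simp only [mul_sum]
  rw [sum_comm]
  refine sum_congr rfl fun w _ => ?_
  by_cases h : (3 : ℤ) ^ n ∣ y - (Wo w : ℤ)
  · obtain ⟨t, ht⟩ := h
    rw [if_pos ⟨t, ht⟩, ht, Int.mul_ediv_cancel_left _ (by positivity)]
    have h1 := sum_indicator (3 ^ m) (by positivity) t (G t * (qp τ) w)
    push_cast at h1
    rw [mul_comm ((qp τ) w), ← h1]
    refine sum_congr rfl fun d _ => ?_
    have e : (Wo w : ℤ) - (y - 3 ^ n * (d : ℤ)) = 3 ^ n * (-(t - d)) := by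
      linear_combination -ht
    have hiff : (3 : ℤ) ^ (n + m) ∣ (Wo w : ℤ) - (y - 3 ^ n * (d : ℤ)) ↔ (3 : ℤ) ^ m ∣ t - d := by
      rw [e, pow_add, mul_dvd_mul_iff_left (by positivity), dvd_neg]
    by_cases h2 : (3 : ℤ) ^ m ∣ t - d
    · rw [if_pos h2, if_pos (hiff.2 h2)]
      obtain ⟨u, hu⟩ := h2
      have h3 := hG d u
      have : t = d + 3 ^ m * u := by linarith
      rw [this, h3]
    · rw [if_neg h2, if_neg (fun h3 => h2 (hiff.1 h3)), mul_zero]
  · rw [if_neg h]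
    symm
    apply sum_eq_zero
    intro d _
    rw [if_neg, mul_zero]
    intro h2
    apply h
    have h3 : (3 : ℤ) ^ n ∣ (Wo w : ℤ) - (y - 3 ^ n * (d : ℤ)) :=
      (Dvd.intro _ (pow_add 3 n m).symm).trans h2
    have e : y - (Wo w : ℤ) = -((Wo w : ℤ) - (y - 3 ^ n * (d : ℤ))) + 3 ^ n * d := by ring
    rw [e]
    exact dvd_add (h3.neg_right) (Dvd.intro _ rfl)

theorem Hf_bound (F : Finset (List ℕ)) {n m : ℕ} {G : ℤ → ℝ} (hG : Per m G) (h0 : S m G = 0)
    {B : ℝ} (hB : ∀ x, |G x| ≤ B) :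
    S (n + m) (fun y => |Hf τ F n G y|) ≤
      B * 3 ^ m * ∑ i ∈ range m, R1 F (qp τ) (fun w => (Wo w : ℤ)) (n + i) := by
  have hp0 : 0 < τ := Tilt.pos
  have hq0 : 0 < 1 - τ := Tilt.lt
  classical
  have hB0 : 0 ≤ B := (abs_nonneg _).trans (hB 0)
  set φ : ℤ → ℝ := fun y => |cnt F (qp τ) (fun w => (Wo w : ℤ)) (n + m) y -
    cnt F (qp τ) (fun w => (Wo w : ℤ)) n y / 3 ^ m| with hφ
  have hper : Per (n + m) φ := by
    intro x y
    rw [hφ]
    dsimp only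
    have e1 : cnt F (qp τ) (fun w => (Wo w : ℤ)) (n + m) (x + 3 ^ (n + m) * y) =
        cnt F (qp τ) (fun w => (Wo w : ℤ)) (n + m) x := cnt_congr _ ⟨y, by ring⟩
    have e2 : cnt F (qp τ) (fun w => (Wo w : ℤ)) n (x + 3 ^ (n + m) * y) =
        cnt F (qp τ) (fun w => (Wo w : ℤ)) n x := cnt_congr _ ⟨3 ^ m * y, by rw [pow_add]; ring⟩
    rw [e1, e2]
  have h1 : ∀ y : ℤ, |Hf τ F n G y| ≤ B * ∑ d ∈ range (3 ^ m), φ (y - 3 ^ n * (d : ℤ)) := by
    intro y
    have h2 : Hf τ F n G y = ∑ d ∈ range (3 ^ m), G (d : ℤ) *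
        (cnt F (qp τ) (fun w => (Wo w : ℤ)) (n + m) (y - 3 ^ n * (d : ℤ)) -
          cnt F (qp τ) (fun w => (Wo w : ℤ)) n (y - 3 ^ n * (d : ℤ)) / 3 ^ m) := by
      rw [Hf_eq F hG]
      simp only [mul_sub]
      rw [sum_sub_distrib]
      have h3 : ∑ d ∈ range (3 ^ m), G (d : ℤ) *
          (cnt F (qp τ) (fun w => (Wo w : ℤ)) n (y - 3 ^ n * (d : ℤ)) / 3 ^ m) =
          (∑ d ∈ range (3 ^ m), G (d : ℤ)) * (cnt F (qp τ) (fun w => (Wo w : ℤ)) n y / 3 ^ m) := by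
        rw [sum_mul]
        refine sum_congr rfl fun d _ => ?_
        have e2 : cnt F (qp τ) (fun w => (Wo w : ℤ)) n (y - 3 ^ n * (d : ℤ)) =
          cnt F (qp τ) (fun w => (Wo w : ℤ)) n y := cnt_congr _ ⟨-d, by ring⟩
        rw [e2]
      unfold S at h0
      rw [h3, h0]
      ring
    rw [h2, mul_sum]
    refine (abs_sum_le_sum_abs _ _).trans (sum_le_sum fun d _ => ?_)
    rw [abs_mul]
    exact mul_le_mul_of_nonneg_right (hB _) (abs_nonneg _)
  have h2 : S (n + m) (fun y => |Hf τ F n G y|) ≤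
      B * ∑ d ∈ range (3 ^ m), S (n + m) (fun y => φ (-(3 ^ n * (d : ℤ)) + 2 ^ 0 * y)) := by
    unfold S
    rw [sum_comm, mul_sum]
    refine sum_le_sum fun y _ => (h1 y).trans (le_of_eq ?_)
    congr 1
    refine sum_congr rfl fun d _ => ?_
    congr 1
    ring
  refine h2.trans ?_
  have h3 : ∀ d ∈ range (3 ^ m), S (n + m) (fun y => φ (-(3 ^ n * (d : ℤ)) + 2 ^ 0 * y)) =
      S (n + m) φ := fun d _ => S_aff hper 0 _
  rw [sum_congr rfl h3, sum_const, card_range, nsmul_eq_mul, mul_assoc]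
  push_cast
  refine mul_le_mul_of_nonneg_left ?_ hB0
  refine mul_le_mul_of_nonneg_left ?_ (by positivity)
  exact many_digits F (qp τ) (fun w => (Wo w : ℤ)) n m

/-- the error of the words with `n` letters and size `s` -/
noncomputable def Er (τ : ℝ) (A m n s : ℕ) : ℝ :=
  ∑ i ∈ range m, Real.sqrt (2 * Gam (FWT A n s) (qp τ) (fun w => (Wo w : ℤ)) (n + i)) *
    Real.sqrt (∑ w ∈ FWT A n s, (qp τ) w)

theorem Er_nonneg (A m n s : ℕ) : 0 ≤ Er τ A m n s := by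
  have hp0 : 0 < τ := Tilt.pos
  have hq0 : 0 < 1 - τ := Tilt.lt
  unfold Er
  exact sum_nonneg fun i _ => mul_nonneg (Real.sqrt_nonneg _) (Real.sqrt_nonneg _)

/-- the part of `Wn` of size `s` -/
noncomputable def Ws (τ : ℝ) (A n s k : ℕ) (g : ℤ → ℝ) (x : ℤ) : ℝ :=
  ∑ w ∈ FWT A n s, if (3 : ℤ) ^ n ∣ 2 ^ s * x - (Wp 3 w : ℤ) then
    od τ ^ n * (1 - τ) ^ k * g (2 ^ (k - s) * en 3 w x) else 0

theorem Wn_eq_Ws (A n k : ℕ) (g : ℤ → ℝ) (x : ℤ) :
    Wn τ A n k g x = ∑ s ∈ range (k + 1), Ws τ A n s k g x := by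
  have hp0 : 0 < τ := Tilt.pos
  have hq0 : 0 < 1 - τ := Tilt.lt
  classical
  unfold Wn Ws FWT
  have h1 : ∀ s ∈ range (k + 1), (∑ w ∈ (FW A n).filter (fun w => w.sum = s),
      if (3 : ℤ) ^ n ∣ 2 ^ s * x - (Wp 3 w : ℤ) then
        od τ ^ n * (1 - τ) ^ k * g (2 ^ (k - s) * en 3 w x) else 0) =
      ∑ w ∈ FW A n, if w.sum = s then (if (3 : ℤ) ^ n ∣ 2 ^ w.sum * x - (Wp 3 w : ℤ) then
        od τ ^ n * (1 - τ) ^ k * g (2 ^ (k - w.sum) * en 3 w x) else 0) else 0 := by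
    intro s _
    rw [sum_filter]
    refine sum_congr rfl fun w _ => ?_
    by_cases h : w.sum = s
    · subst h
      rw [if_pos rfl]
    · rw [if_neg h, if_neg h]
  rw [sum_congr rfl h1, sum_comm]
  refine sum_congr rfl fun w _ => ?_
  rw [sum_ite_eq]
  by_cases h2 : w.sum ≤ k
  · rw [if_pos (mem_range.2 (by omega))]
    simp only [h2, true_and]
  · rw [if_neg (fun h => h2 h.1), if_neg (by rw [mem_range]; omega)]

theorem Ws_per {A n s k m : ℕ} {g : ℤ → ℝ} (hg : Per m g) : Per (n + m) (Ws τ A n s k g) := by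
  have hp0 : 0 < τ := Tilt.pos
  have hq0 : 0 < 1 - τ := Tilt.lt
  intro x y
  unfold Ws
  refine sum_congr rfl fun w hw => ?_
  have hlen : w.length = n := by
    unfold FWT at hw
    rw [mem_filter, mem_FW] at hw
    exact hw.1.1
  have e : (2 : ℤ) ^ s * (x + 3 ^ (n + m) * y) - (Wp 3 w : ℤ) =
      2 ^ s * x - (Wp 3 w : ℤ) + 3 ^ n * (3 ^ m * (2 ^ s * y)) := by
    rw [pow_add]; ring
  have e2 : en 3 w (x + 3 ^ (n + m) * y) = en 3 w x + 3 ^ m * (2 ^ w.sum * y) := by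
    have h1 := en_shift (p := 3) (by norm_num) (w := w) x (3 ^ m * y)
    rw [hlen] at h1
    have h2 : x + ((3 : ℕ) : ℤ) ^ n * (3 ^ m * y) = x + 3 ^ (n + m) * y := by
      rw [pow_add]; push_cast; ring
    rw [h2] at h1
    rw [h1]
    ring
  have e3 : g (2 ^ (k - s) * en 3 w (x + 3 ^ (n + m) * y)) = g (2 ^ (k - s) * en 3 w x) := by
    rw [e2]
    have := hg (2 ^ (k - s) * en 3 w x) (2 ^ (k - s) * (2 ^ w.sum * y))
    rw [← this]
    congr 1
    ring
  rw [e, e3]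
  have hiff : (3 : ℤ) ^ n ∣ 2 ^ s * x - (Wp 3 w : ℤ) + 3 ^ n * (3 ^ m * (2 ^ s * y)) ↔
      (3 : ℤ) ^ n ∣ 2 ^ s * x - (Wp 3 w : ℤ) := dvd_add_left (Dvd.intro _ rfl)
  simp only [hiff]

theorem N_Ws (A : ℕ) {n s k m : ℕ} (hs : s ≤ k) {g : ℤ → ℝ} (hg : Per m g) (h0 : S m g = 0)
    {B : ℝ} (hB : ∀ x, |g x| ≤ B) :
    N (n + m) (Ws τ A n s k g) ≤ B * (1 - τ) ^ (k - s) * Er τ A m n s := by
  have hp0 : 0 < τ := Tilt.pos
  have hq0 : 0 < 1 - τ := Tilt.lt
  classical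
  have hB0 : 0 ≤ B := (abs_nonneg _).trans (hB 0)
  set G : ℤ → ℝ := fun x => g (2 ^ (k - s) * x) with hG
  have hGper : Per m G := hg.smul _
  have hG0 : S m G = 0 := by
    have := S_aff hg (k - s) 0
    simp only [zero_add] at this
    rw [hG, this, h0]
  have h1 := Hf_bound (τ := τ) (FWT A n s) (n := n) hGper hG0 (B := B) (fun x => hB _)
  have h2 : ∀ x : ℤ, |Ws τ A n s k g x| = 3 ^ n * (1 - τ) ^ (k - s) *
      |Hf τ (FWT A n s) n G (0 + 2 ^ s * x)| := by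
    intro x
    rw [zero_add, ← abs_of_nonneg (by positivity : (0 : ℝ) ≤ 3 ^ n * (1 - τ) ^ (k - s)),
      ← abs_mul]
    congr 1
    unfold Ws Hf
    rw [mul_sum]
    refine sum_congr rfl fun w hw => ?_
    unfold FWT at hw
    rw [mem_filter, mem_FW] at hw
    have hlen : w.length = n := hw.1.1
    have hsum : w.sum = s := hw.2
    rw [Wp_three]
    by_cases h3 : (3 : ℤ) ^ n ∣ 2 ^ s * x - (Wo w : ℤ)
    · rw [if_pos h3, if_pos h3]
      have e1 : en 3 w x = (2 ^ s * x - (Wo w : ℤ)) / 3 ^ n := by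
        unfold en
        rw [hsum, hlen, Wp_three]
        norm_num
      rw [e1]
      unfold qp
      rw [hlen, hsum]
      have e2 : (1 - τ) ^ k = (1 - τ) ^ (k - s) * (1 - τ) ^ s := by
        rw [← pow_add]; congr 1; omega
      rw [e2, hG]
      have e3 : od τ ^ n = 3 ^ n * (τ / (1 - τ)) ^ n := by
        unfold od
        rw [mul_pow]
      dsimp only
      rw [e3]
      ring
    · rw [if_neg h3, if_neg h3, mul_zero]
  have hHper : Per (n + m) (fun y => |Hf τ (FWT A n s) n G y|) := by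
    intro x y
    dsimp only
    congr 1
    rw [Hf_eq _ hGper, Hf_eq _ hGper]
    refine sum_congr rfl fun d _ => ?_
    congr 1
    exact cnt_congr _ ⟨y, by ring⟩
  unfold N
  have h3 : S (n + m) (fun x => |Ws τ A n s k g x|) = 3 ^ n * (1 - τ) ^ (k - s) *
      S (n + m) (fun y => |Hf τ (FWT A n s) n G y|) := by
    rw [← S_aff hHper s 0]
    unfold S
    rw [mul_sum]
    exact sum_congr rfl fun x _ => h2 x
  rw [h3, div_le_iff₀ (by positivity)]
  have h4 : ∑ i ∈ range m, R1 (FWT A n s) (qp τ) (fun w => (Wo w : ℤ)) (n + i) ≤ Er τ A m n s := by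
    unfold Er
    exact sum_le_sum fun i _ => R1_le _ _ _ (fun w _ => (qp_pos w).le) _
  calc 3 ^ n * (1 - τ) ^ (k - s) * S (n + m) (fun y => |Hf τ (FWT A n s) n G y|)
      ≤ 3 ^ n * (1 - τ) ^ (k - s) * (B * 3 ^ m * Er τ A m n s) := by
        refine mul_le_mul_of_nonneg_left (h1.trans ?_) (by positivity)
        exact mul_le_mul_of_nonneg_left h4 (by positivity)
    _ = _ := by rw [pow_add]; ring

/-- the sum of the errors over the sizes -/
theorem sum_Er_le (A m n K : ℕ) :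
    ∑ s ∈ range (K + 1), Er τ A m n s ≤ ∑ i ∈ range m, Real.sqrt (2 * gp τ A n (n + i)) := by
  have hp0 : 0 < τ := Tilt.pos
  have hq0 : 0 < 1 - τ := Tilt.lt
  classical
  unfold Er
  rw [sum_comm]
  refine sum_le_sum fun i _ => ?_
  have hG : ∀ s, 0 ≤ Gam (FWT A n s) (qp τ) (fun w => (Wo w : ℤ)) (n + i) :=
    fun s => Gam_nonneg _ _ fun w _ => (qp_pos w).le
  have hM : ∀ s, 0 ≤ ∑ w ∈ FWT A n s, (qp τ) w := fun s => sum_nonneg fun w _ => (qp_pos w).le
  have h1 : ∀ s ∈ range (K + 1), s ∉ range (n * A + 1) → FWT A n s = ∅ := by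
    intro s _ hs
    rw [mem_range, not_lt] at hs
    unfold FWT
    rw [filter_eq_empty_iff]
    intro w hw h2
    have := (sum_le_of_mem hw).2
    omega
  calc ∑ s ∈ range (K + 1), Real.sqrt (2 * Gam (FWT A n s) (qp τ) (fun w => (Wo w : ℤ)) (n + i)) *
        Real.sqrt (∑ w ∈ FWT A n s, (qp τ) w)
      ≤ ∑ s ∈ range (K + 1) ∪ range (n * A + 1),
        Real.sqrt (2 * Gam (FWT A n s) (qp τ) (fun w => (Wo w : ℤ)) (n + i)) *
        Real.sqrt (∑ w ∈ FWT A n s, (qp τ) w) :=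
        sum_le_sum_of_subset_of_nonneg subset_union_left
          fun s _ _ => mul_nonneg (Real.sqrt_nonneg _) (Real.sqrt_nonneg _)
    _ = ∑ s ∈ range (n * A + 1),
        Real.sqrt (2 * Gam (FWT A n s) (qp τ) (fun w => (Wo w : ℤ)) (n + i)) *
        Real.sqrt (∑ w ∈ FWT A n s, (qp τ) w) := by
        symm
        apply sum_subset subset_union_right
        intro s hs1 hs2
        rw [mem_union] at hs1
        have h3 := h1 s (hs1.resolve_right hs2) hs2
        rw [h3]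
        simp
    _ ≤ Real.sqrt (∑ s ∈ range (n * A + 1),
          2 * Gam (FWT A n s) (qp τ) (fun w => (Wo w : ℤ)) (n + i)) *
        Real.sqrt (∑ s ∈ range (n * A + 1), ∑ w ∈ FWT A n s, (qp τ) w) :=
        Real.sum_sqrt_mul_sqrt_le _ (fun s => by have := hG s; positivity) hM
    _ ≤ Real.sqrt (2 * gp τ A n (n + i)) * 1 := by
        refine mul_le_mul (le_of_eq ?_) ?_ (Real.sqrt_nonneg _) (Real.sqrt_nonneg _)
        · rw [← mul_sum]
          rfl
        · refine (Real.sqrt_le_sqrt ?_).trans (le_of_eq Real.sqrt_one)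
          have h4 : ∑ s ∈ range (n * A + 1), ∑ w ∈ FWT A n s, (qp τ) w = ∑ w ∈ FW A n, (qp τ) w := by
            unfold FWT
            apply sum_fiberwise_of_maps_to
            intro w hw
            have := (sum_le_of_mem hw).2
            rw [mem_range]
            omega
          rw [h4]
          exact sum_qp_le A n
    _ = _ := mul_one _


end Pool.Agent.H623.TP
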