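import Pool.Agent.H623.TP.M3

/-!
# The martingale of a general tilt
-/

set_option autoImplicit false
set_option linter.unusedVariables false

namespace Pool.Agent.H623.TP

open Finset Filter Topology Pool.Agent.H320R2.PD Pool.Agent.H377R2.NK
open Pool.Agent.H623.TS (Per S S_per S_mono S_aff S_B N N_nonneg N_per N_add N_congr N_smul N_tri N_comm
  N_sum_le FT FWT_eq FWT_sub sum_FT_add cnt_lifts tri_sum tri_sum_le Fu u_diff)

variable (τ : ℝ) [TiltR τ]

/-- the part of size `t` of the martingale -/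
noncomputable def cc (τ : ℝ) (j t : ℕ) (x : ℤ) : ℝ :=
  3 ^ j * cnt (FT j t) (qp τ) (fun w => (Wo w : ℤ)) j (2 ^ t * x)

theorem cc_nonneg (j t : ℕ) (x : ℤ) : 0 ≤ cc τ j t x := mul_nonneg (by positivity) (cq_nonneg τ _ _ _ _)

theorem cc_le_ms (j t : ℕ) (x : ℤ) : cc τ j t x ≤ 3 ^ j * ms τ j t := by
  unfold cc ms
  refine mul_le_mul_of_nonneg_left ?_ (by positivity)
  unfold cnt
  refine sum_le_sum fun w _ => ?_
  have := qp_pos (τ := τ) w
  split_ifs
  · exact le_rfl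
  · exact this.le

theorem ms_hasSum (m : ℕ) : HasSum (ms τ m) 1 := by
  have hs : Summable (ms τ m) := by
    refine summable_of_sum_range_le (c := 1) (ms_nonneg τ m) fun n => ?_
    refine le_trans ?_ (ms_sum_le τ m n)
    exact sum_le_sum_of_subset_of_nonneg (range_subset_range.2 (by omega)) fun _ _ _ => ms_nonneg τ _ _
  have h1 : ∑' t, ms τ m t = 1 := by
    apply le_antisymm
    · refine Real.tsum_le_of_sum_range_le (ms_nonneg τ m) fun n => ?_
      refine le_trans ?_ (ms_sum_le τ m n)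
      exact sum_le_sum_of_subset_of_nonneg (range_subset_range.2 (by omega)) fun _ _ _ => ms_nonneg τ _ _
    · apply le_of_forall_pos_le_add
      intro ε hε
      obtain ⟨K, hK⟩ := ms_sum_ge m hε
      have h2 := hs.sum_le_tsum (range (K + 1)) (fun _ _ => ms_nonneg τ _ _)
      have h3 := hK τ
      linarith
  rw [← h1]
  exact hs.hasSum

theorem cc_summable (j : ℕ) (x : ℤ) : Summable (fun t => cc τ j t x) :=
  Summable.of_nonneg_of_le (fun t => cc_nonneg τ j t x) (fun t => cc_le_ms τ j t x)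
    ((ms_hasSum τ j).summable.mul_left _)

/-- the martingale -/
noncomputable def D (τ : ℝ) (j : ℕ) (x : ℤ) : ℝ := ∑' t, cc τ j t x

theorem D_nonneg (j : ℕ) (x : ℤ) : 0 ≤ D τ j x := tsum_nonneg fun t => cc_nonneg τ j t x

theorem cc_per (j t : ℕ) : Per j (cc τ j t) := by
  intro x y
  unfold cc
  congr 1
  exact cnt_congr _ ⟨2 ^ t * y, by ring⟩

theorem D_per (j : ℕ) : Per j (D τ j) := by
  intro x y
  unfold D
  exact tsum_congr fun t => cc_per τ j t x y

theorem cc_sum_le (K j : ℕ) (x : ℤ) : ∑ t ∈ range (K + 1), cc τ j t x ≤ D τ j x :=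
  (cc_summable τ j x).sum_le_tsum _ fun t _ => cc_nonneg τ j t x

theorem cnt_per (j t : ℕ) : Per j (fun x => cnt (FT j t) (qp τ) (fun w => (Wo w : ℤ)) j x) := fun x y =>
  cnt_congr _ ⟨y, by ring⟩

theorem S_cc (j t : ℕ) : S j (cc τ j t) = 3 ^ j * ms τ j t := by
  have h1 := S_aff (cnt_per τ j t) t 0
  unfold S at h1 ⊢
  unfold cc
  rw [← mul_sum]
  congr 1
  simp only [zero_add] at h1
  rw [h1, sum_cnt]
  rfl

theorem D_total (j : ℕ) : S j (D τ j) = 3 ^ j := by
  have h1 : HasSum (fun t => S j (cc τ j t)) (S j (D τ j)) := by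
    unfold S D
    exact hasSum_sum fun x _ => (cc_summable τ j _).hasSum
  have h2 : HasSum (fun t => S j (cc τ j t)) (3 ^ j * 1) := by
    simp only [S_cc τ]
    exact (ms_hasSum τ j).mul_left _
  rw [mul_one] at h2
  exact h1.unique h2

/-- low digits of the words of `j + i` letters -/
theorem cnt_low (j i s : ℕ) (x : ℤ) : cnt (FT (j + i) s) (qp τ) (fun w => (Wo w : ℤ)) j (2 ^ s * x) =
    ∑ t ∈ range (s + 1), cnt (FT j t) (qp τ) (fun w => (Wo w : ℤ)) j (2 ^ t * x) * ms τ i (s - t) := by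
  classical
  rw [cnt_FT_add τ]
  refine sum_congr rfl fun t ht => ?_
  rw [mem_range] at ht
  unfold cnt ms
  rw [sum_product, sum_mul]
  refine sum_congr rfl fun u _ => ?_
  rw [mul_sum]
  refine sum_congr rfl fun v _ => ?_
  have e2 : (2 : ℤ) ^ s = 2 ^ (s - t) * 2 ^ t := by
    rw [← pow_add]; congr 1; omega
  have hiff : (3 : ℤ) ^ j ∣ 2 ^ (s - t) * (Wo u : ℤ) + 3 ^ j * (Wo v : ℤ) - 2 ^ s * x ↔
      (3 : ℤ) ^ j ∣ (Wo u : ℤ) - 2 ^ t * x := by
    have e3 : 2 ^ (s - t) * (Wo u : ℤ) + 3 ^ j * (Wo v : ℤ) - 2 ^ s * x =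
        2 ^ (s - t) * ((Wo u : ℤ) - 2 ^ t * x) + 3 ^ j * (Wo v : ℤ) := by
      rw [e2]; ring
    rw [e3]
    constructor
    · intro h
      exact (two_pow_isCoprime (s - t) j).dvd_of_dvd_mul_left
        ((dvd_add_left (Dvd.intro _ rfl)).1 h)
    · intro h
      exact dvd_add (Dvd.dvd.mul_left h _) (Dvd.intro _ rfl)
  by_cases h : (3 : ℤ) ^ j ∣ (Wo u : ℤ) - 2 ^ t * x
  · rw [if_pos h, if_pos (hiff.2 h)]
  · rw [if_neg h, if_neg (fun h' => h (hiff.1 h')), zero_mul]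

theorem D_lift (j : ℕ) (x : ℤ) :
    D τ (j + 1) x + D τ (j + 1) (x + 3 ^ j) + D τ (j + 1) (x + 2 * 3 ^ j) = 3 * D τ j x := by
  have h1 := ((cc_summable τ (j + 1) x).hasSum.add (cc_summable τ (j + 1) (x + 3 ^ j)).hasSum).add
    (cc_summable τ (j + 1) (x + 2 * 3 ^ j)).hasSum
  have h2 : ∀ t, cc τ (j + 1) t x + cc τ (j + 1) t (x + 3 ^ j) + cc τ (j + 1) t (x + 2 * 3 ^ j) =
      3 * ∑ s ∈ range (t + 1), cc τ j s x * ms τ 1 (t - s) := by
    intro t
    unfold cc
    rw [← mul_add, ← mul_add, cnt_lifts, cnt_low τ, mul_sum, mul_sum]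
    refine sum_congr rfl fun s _ => ?_
    rw [pow_succ]
    ring
  have h3 : HasSum (fun t => ∑ s ∈ range (t + 1), cc τ j s x * ms τ 1 (t - s))
      ((∑' t, cc τ j t x) * ∑' t, ms τ 1 t) := by
    have h4 := (cc_summable τ j x).abs
    have h5 := (ms_hasSum τ 1).summable.abs
    have h6 := tsum_mul_tsum_eq_tsum_sum_range_of_summable_norm (f := fun t => cc τ j t x)
      (g := ms τ 1) h4 h5
    rw [h6]
    exact (summable_norm_sum_mul_range_of_summable_norm (f := fun t => cc τ j t x)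
      (g := ms τ 1) h4 h5).of_norm.hasSum
  rw [(ms_hasSum τ 1).tsum_eq, mul_one] at h3
  have h4 := h3.mul_left 3
  simp only [← h2] at h4
  exact h1.unique h4

/-- the first letter -/
theorem cc_first (n t : ℕ) (x : ℤ) : cc τ (n + 1) t x = ∑ e ∈ Icc 1 t,
    if (3 : ℤ) ∣ 2 ^ e * x - 1 then 3 * (τ / (1 - τ) * (1 - τ) ^ e) * cc τ n (t - e) ((2 ^ e * x - 1) / 3)
      else 0 := by
  classical
  unfold cc cnt FT FWT
  rw [sum_filter, sum_FW_succ, mul_sum]
  refine sum_congr rfl fun e he => ?_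
  rw [mem_Icc] at he
  have hval : ∀ v : List ℕ, e + v.sum = t → ((3 : ℤ) ^ (n + 1) ∣ (Wo (e :: v) : ℤ) - 2 ^ t * x ↔
      (3 : ℤ) ∣ 2 ^ e * x - 1 ∧ (3 : ℤ) ^ n ∣ (Wo v : ℤ) - 2 ^ (t - e) * ((2 ^ e * x - 1) / 3)) := by
    intro v hv
    have h1 := valid_cons_iff n e v x
    rw [Wp_three, Wp_three] at h1
    have hs : (e :: v).sum = t := by simp [hv]
    have hs2 : v.sum = t - e := by omega
    rw [hs, hs2] at h1
    rw [← dvd_neg, neg_sub, ← dvd_neg (b := (Wo v : ℤ) - _), neg_sub]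
    exact h1
  have hFW : ∑ v ∈ (FW (t - e) n).filter (fun w => w.sum = t - e),
      (if (3 : ℤ) ^ n ∣ (Wo v : ℤ) - 2 ^ (t - e) * ((2 ^ e * x - 1) / 3) then qp τ v else 0) =
      ∑ v ∈ FW t n, if e + v.sum = t then
      (if (3 : ℤ) ^ n ∣ (Wo v : ℤ) - 2 ^ (t - e) * ((2 ^ e * x - 1) / 3) then qp τ v else 0) else 0 := by
    rw [← sum_filter (fun v : List ℕ => e + v.sum = t)]
    have h1 : (FW (t - e) n).filter (fun w => w.sum = t - e) = FT n (t - e) := rfl
    have h2 : (FW t n).filter (fun v => e + v.sum = t) = FWT t n (t - e) := by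
      unfold FWT
      ext v
      rw [mem_filter, mem_filter]
      constructor <;> rintro ⟨h3, h4⟩ <;> exact ⟨h3, by omega⟩
    rw [h1, h2, FWT_eq (by omega)]
  rw [hFW]
  by_cases h : (3 : ℤ) ∣ 2 ^ e * x - 1
  · rw [if_pos h, mul_sum, mul_sum, mul_sum]
    refine sum_congr rfl fun v _ => ?_
    have hs : (e :: v).sum = t ↔ e + v.sum = t := by simp
    by_cases h1 : e + v.sum = t
    · rw [if_pos (hs.2 h1), if_pos h1]
      have h2 := hval v h1
      simp only [h, true_and] at h2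
      by_cases h3 : (3 : ℤ) ^ n ∣ (Wo v : ℤ) - 2 ^ (t - e) * ((2 ^ e * x - 1) / 3)
      · rw [if_pos h3, if_pos (h2.2 h3), qp_cons, pow_succ]
        ring
      · rw [if_neg h3, if_neg (fun h4 => h3 (h2.1 h4))]
        ring
    · rw [if_neg (fun h2 => h1 (hs.1 h2)), if_neg h1]
      ring
  · rw [if_neg h]
    rw [mul_eq_zero]
    right
    apply sum_eq_zero
    intro v _
    by_cases h1 : (e :: v).sum = t
    · rw [if_pos h1, if_neg]
      intro h2
      exact h ((hval v (by simpa using h1)).1 h2).1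
    · rw [if_neg h1]

theorem cc_zero (n : ℕ) (x : ℤ) : cc τ (n + 1) 0 x = 0 := by
  rw [cc_first τ]
  simp

theorem cc_letter (n t : ℕ) (x : ℤ) : cc τ (n + 1) (t + 1) x = (1 - τ) * cc τ (n + 1) t (2 * x) +
    3 * τ * (if (3 : ℤ) ∣ 2 * x - 1 then cc τ n t ((2 * x - 1) / 3) else 0) := by
  have hq0 : 0 < 1 - τ := Tilt.lt
  set F : ℕ → ℝ := fun e => if (3 : ℤ) ∣ 2 ^ e * x - 1 then
    3 * (τ / (1 - τ) * (1 - τ) ^ e) * cc τ n (t + 1 - e) ((2 ^ e * x - 1) / 3) else 0 with hF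
  have h1 : cc τ (n + 1) (t + 1) x = ∑ e ∈ Icc 1 (t + 1), F e := cc_first τ n (t + 1) x
  have h2 := Pool.Agent.H623.TS.shift_sum F t
  rw [sum_Icc_succ_top (by omega)] at h1
  have h3 : F 1 = 3 * τ * (if (3 : ℤ) ∣ 2 * x - 1 then cc τ n t ((2 * x - 1) / 3) else 0) := by
    rw [hF]
    dsimp only
    rw [pow_one, pow_one, Nat.add_sub_cancel, div_mul_cancel₀ _ hq0.ne']
    split_ifs <;> ring
  have h4 : ∑ e ∈ Icc 1 t, F (e + 1) = (1 - τ) * cc τ (n + 1) t (2 * x) := by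
    rw [cc_first τ, mul_sum]
    refine sum_congr rfl fun e _ => ?_
    rw [hF]
    dsimp only
    have e1 : (2 : ℤ) ^ (e + 1) * x = 2 ^ e * (2 * x) := by ring
    have e2 : t + 1 - (e + 1) = t - e := by omega
    rw [e1, e2]
    split_ifs
    · ring
    · ring
  linarith

/-- the equation of the martingale -/
theorem D_letter (n : ℕ) (x : ℤ) : D τ (n + 1) x = (1 - τ) * D τ (n + 1) (2 * x) +
    3 * τ * (if (3 : ℤ) ∣ 2 * x - 1 then D τ n ((2 * x - 1) / 3) else 0) := by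
  have h1 := (cc_summable τ (n + 1) x).hasSum
  have h2 : HasSum (fun t => cc τ (n + 1) (t + 1) x) (D τ (n + 1) x) := by
    have h3 := (hasSum_nat_add_iff' (f := fun t => cc τ (n + 1) t x) 1).2 h1
    simp only [sum_range_one, cc_zero τ, sub_zero] at h3
    exact h3
  have h3 : HasSum (fun t => (1 - τ) * cc τ (n + 1) t (2 * x)) ((1 - τ) * D τ (n + 1) (2 * x)) :=
    (cc_summable τ (n + 1) (2 * x)).hasSum.mul_left _
  have h4 : HasSum (fun t => 3 * τ * (if (3 : ℤ) ∣ 2 * x - 1 then cc τ n t ((2 * x - 1) / 3) else 0))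
      (3 * τ * (if (3 : ℤ) ∣ 2 * x - 1 then D τ n ((2 * x - 1) / 3) else 0)) := by
    split_ifs
    · exact (cc_summable τ n _).hasSum.mul_left _
    · simp only [mul_zero]
      exact hasSum_zero
  have h5 := h3.add h4
  simp only [← cc_letter τ] at h5
  exact h2.unique h5

theorem D_zero (x : ℤ) : D τ 0 x = 1 := by
  have h1 := D_total τ 0
  unfold S at h1
  simp only [pow_zero, range_one, sum_singleton, Nat.cast_zero] at h1
  have h2 := D_per τ 0 0 x
  simp only [pow_zero, one_mul, zero_add] at h2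
  rw [h2, h1]

theorem D_three {l : ℕ} {x : ℤ} (h : (3 : ℤ) ∣ x) : D τ (l + 1) x = 0 := by
  unfold D
  have : ∀ t, cc τ (l + 1) t x = 0 := by
    intro t
    rw [cc_first τ]
    apply sum_eq_zero
    intro e _
    rw [if_neg]
    intro h2
    have h3 : (3 : ℤ) ∣ 2 ^ e * x := Dvd.dvd.mul_left h _
    have h4 := dvd_sub h3 h2
    rw [sub_sub_cancel] at h4
    norm_num at h4
  simp [this]

end Pool.Agent.H623.TP
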