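import Pool.Graph.R_seed8.H377R2.NK.F3sharp
import Pool.Graph.R_seed8.H320R2.PDGood
import Pool.Agent.H623.TS.E
import Pool.Agent.H623.TS.J

/-!
# The tilted laws of the words of the inverse tree of the `3x+1` map: definitions and interfaces
-/

set_option autoImplicit false

namespace Pool.Agent.H623.TP

open Finset Filter Topology MeasureTheory Pool.Agent.H320R2.PD Pool.Agent.H377R2.NK
open Pool.Agent.X16.SL (ms3 bs3 mu3 cl)

attribute [local instance] ms3
attribute [local instance] bs3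

/-- the tilt parameter lies in `(0, 1)` -/
class Tilt (p : ℝ) : Prop where
  pos : 0 < p
  lt : 0 < 1 - p

/-- the weight of a word when the letters `e ≥ 1` have the law `p (1 - p) ^ (e - 1)` -/
noncomputable def qp (p : ℝ) (w : List ℕ) : ℝ := (p / (1 - p)) ^ w.length * (1 - p) ^ w.sum

/-- annealed nonuniformity of the digit `j` of the offset of `k` letters, given the size -/
noncomputable def gp (p : ℝ) (A k j : ℕ) : ℝ :=
  ∑ T ∈ range (k * A + 1), Gam (FWT A k T) (qp p) (fun w => (Wo w : ℤ)) j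

/-- `r(p) = log 2 / (p log 3) - 1` -/
noncomputable def rr (p : ℝ) : ℝ := Real.log 2 / (p * Real.log 3) - 1

/-- `(10/9) (log 2 - H(p)) / p` -/
noncomputable def dd (p : ℝ) : ℝ := 10 / 9 * ((Real.log 2 - Real.binEntropy p) / p)

/-- the binomial law -/
noncomputable def bep (p : ℝ) (k i : ℕ) : ℝ := (k.choose i : ℝ) * p ^ i * (1 - p) ^ (k - i)

/-- (AN) the analytic inequality.
Paper proof.  With `L = log 2 / log 3`, `p` times the difference is
`φ(p) = L - p - p log (L / p) - (10/9) (log 2 - H(p))`; since `-p log (L/p) = p log p - p log L` and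
`(10/9) H(p) = (10/9) (-p log p - (1-p) log (1-p))`, `φ` = (affine) + `(1/9) (-p log p)` +
`(10/9) (-(1-p) log (1-p))`, so `φ` is concave on `[0,1]` (Mathlib: `Real.concaveOn_negMulLog`), so it is
at least the minimum of its values at the endpoints, `φ(6/25) ≥ 0.0011 - 10^{-5}`,
`φ(8/15) ≥ 0.0052`.  (Numerics: `Real.log_two_gt_d9`, `Real.log_two_lt_d9`; `log 3`, `log 5`, `log 19`,
`log 7` by comparing integer powers, e.g. `log (3 ^ 41) ≤ log (2 ^ 65)`, use accurate ones, errors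
`< 10^{-5}`; `log L` by a tangent or by exp bounds.)  Any `c` will do (e.g. `c = 1/1000`). -/
def S_AN : Prop := ∃ c : ℝ, 0 < c ∧ ∀ p : ℝ, 6 / 25 ≤ p → p ≤ 8 / 15 →
  dd p + c ≤ rr p - Real.log (1 + rr p)

/-- (AVG) analysis: generalisation of `Pool.Agent.H377R2.NK.avg_decay` (file
`Pool/Graph/R_seed8/H377R2/NK/Avg.lean`, where `r = 1.52`, `δ = 0.59`) to real parameters, with
uniform constants.
Paper proof (as there).  Fix an integer `q = q(R, c)` large.  For `k = q l`, put `J = ⌊r q⌋`; then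
`J l ≤ ⌊r k⌋`, and by monotonicity `∑_{j<J} b(l(q+1+j))/b(l j) ≤ δ q` (for `l ≥ k₀`,
`(q + 1 + J) l ≤ N`; if `J = 0` everything is trivial, but in fact `r - log(1+r) ≥ c` forces `r` to be
bounded below, so `J ≥ 1` for `q` large).  With `v = -log b`, `w_j = j/(q+1+j)` and
`e^{-y} ≥ w (1 - log w - y)`: `∑_j w_j (v(l(q+1+j)) - v(l j)) ≥ S + G - δ q`, `S = ∑_{j<J} w_j`,
`G = -∑ w_j log w_j ≥ 0`.  Riemann sums: `S ≥ q (r - log (1+r)) - C(R) ≥ q (δ + c) - C(R)`
(the function `x/(1+x)` is increasing on `[0, r]` with integral `r - log (1+r)`, is `≤ 1`, and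
`j/(q+1+j) = (j/q)/(1+1/q+j/q) ≥ (j/q)/(1+j/q) - 1/q`).  For real `t ≥ T₀ = k₀ + K` (`K` large integer)
the same holds for `F(t(q+1+j)) - F(t (1-1/K) j)`, `F(x) = v(⌊x⌋)`.  Integrating against `dt/t` over
`[T₀, Λ]`, `(q + 1 + J) Λ = m`, the left side telescopes to at most `v(m) (G + S log (K/(K-1)))`, so
`v(m) ≥ β' log (Λ/T₀)`, `β' = (S + G - δ q)/(G + S/(K-1)) ≥ (q c/2 + G)/(G + q R/(K-1)) ≥ β > 1` since
`S ≤ J ≤ R q`, `G ≤ J ≤ R q`; here `K` is chosen with `R/(K-1) ≤ c/4`, `β = 1 + c/(8 R + c)` or so. -/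
def S_AVG : Prop := ∀ R c : ℝ, 0 < R → 0 < c → ∃ β : ℝ, 1 < β ∧ ∀ k₀ : ℕ, ∃ D : ℝ, 0 < D ∧
  ∀ r δ : ℝ, 0 ≤ r → r ≤ R → 0 ≤ δ → δ + c ≤ r - Real.log (1 + r) → ∀ (N : ℕ) (b : ℕ → ℝ),
    (∀ m ≤ N, 0 < b m) → (∀ m ≤ N, b m ≤ 1) → (∀ m m', m ≤ m' → m' ≤ N → b m' ≤ b m) →
    (∀ k, k₀ ≤ k → k + ⌊r * k⌋₊ ≤ N → ∑ i ∈ range ⌊r * k⌋₊, b (k + i) / b i ≤ δ * k) →
    ∀ m, 1 ≤ m → m ≤ N → b m ≤ (D / m) ^ β

/-- (GPAVG) the averaged nonuniformity: generalisation of `Pool.Agent.H377R2.NK.gz_avg` (file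
`Pool/Graph/R_seed8/H377R2/NK/GzAvg.lean`, case `p = 1/4`, where `qw = qp (1/4)`, `gz = gp (1/4)`) to all
tilts, uniformly.  Same proof: letters with mean `1/p`; typical words `|w.sum - k/p| ≤ η k`,
`Wo w ≤ 2^{w.sum} k^2` have mass `≥ 1 - o(1)` uniformly in `p` (Chernoff or simply Chebyshev for the sum of
the letters, variance `k (1-p)/p^2`; first moment for `Wo w / 2^{w.sum}`, which is `≤ (constant)`:
the recursion is `E_{n+1} = p/(1+p) (mass + 3 E_n)` with `3p/(1+p) ≤ 24/23`, so if you use words up to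
`k` letters replace the bound `1` by the crude `E_n ≤ (24/23)^n n`; see the REMARK); words of one size
have equal weight `(p/(1-p))^k (1-p)^T` and distinct offsets `< 3^M` for `2^{(1/p+η)k} (offset factor)
< 3^M`; the entropy inequality `Gam_entropy'` and `ent_lower`, `nml_le` as there.  With
`M log 3 ≈ k log 2 / p + small` the bound is
`(10/9)(M log 3 - (k log ((1-p)/p) + (1/p - η) k log (1/(1-p))) (1 - small) + log(..) + 1)
 ≤ (10/9) k (log 2 - H(p))/p + ε k`.
REMARK: for the offset factor one only needs `Wo w ≤ 2^{w.sum} e^{η k}` with probability `→ 1` uniformly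
in `p ∈ [6/25, 8/15]`, for any fixed `η > 0`.  First moment bound with a power: `Wo w/2^{w.sum}` satisfies
`V_{e::v} = 2^{-e} (1 + 3 V_v)` in the notation of `first_moment'`; take a small power `s`:
`E V^s` satisfies `E_{n+1} ≤ E 2^{-se} (1 + 3^s E_n)`, with `E 2^{-se} 3^s < 1` for `s` small iff
`log 3 < (log 2)/p`, true for `p ≤ 8/15 < 0.63`; e.g. `s = 1/2`:
`3^{1/2} E 2^{-e/2} = 1.732 p 0.7071/(1 - 0.7071 (1-p)) ≤ 0.98 < 1` for `p ≤ 8/15`; so `E V^{1/2} ≤ C`
and Markov gives `V ≤ e^{η k}` with probability `≥ 1 - C e^{-η k / 2}`. -/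
def S_GPAVG : Prop := ∀ ε : ℝ, 0 < ε → ∃ k₀ : ℕ, 1 ≤ k₀ ∧ ∀ p : ℝ, 6 / 25 ≤ p → p ≤ 8 / 15 →
  ∀ k, k₀ ≤ k → ∀ A, 3 * k ≤ A →
    ∑ i ∈ range ⌊rr p * k⌋₊, gp p A k (k + i) ≤ (dd p + ε) * k

/-- (POS) positivity almost everywhere on the units (ergodicity of the multiplication by `2` on the
`3`-adic units).  `cl n x = {z | 3 ^ n ∣ z - x}` is the ball, `mu3` the Haar probability measure of `ℤ_[3]`
(see `Pool.Agent.X16.SL` and `Pool/Agent/H623/TS/E.lean`).
Paper proof.  Let `Z` be the set of the units where `f = 0` (measurable up to null sets; `f` may be replaced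
by a measurable version).  From the hypothesis for all balls, `f(x) ≥ c f(2 x)` for almost all units `x`
(both sides are determined by the integrals over balls: if `h` is integrable and `∫_{ball} h ≥ 0` for all
balls in the units then `h ≥ 0` a.e. there; `cl n (2x) = 2 cl n x` and the multiplication by `2` preserves
`mu3`), so `2 Z ⊆ Z` up to null sets, and `=` since the measures agree.  So the function
`x ↦ mu3 (Z ∩ cl n x)` on the units mod `3^n` is invariant under `x ↦ 2x`, hence constant, `2` being a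
primitive root mod `3^n`.  So `1_Z` and the constant `c_Z = mu3 Z / mu3 (units)` have the same integrals over
all balls of units, so `1_Z = c_Z` a.e. on the units, `c_Z ∈ {0, 1}`; `c_Z = 1` contradicts
`∫ f ≠ 0`. -/
def S_POS : Prop := ∀ (f : ℤ_[3] → ℝ) (c : ℝ), Integrable f mu3 → (∀ z, 0 ≤ f z) → 0 < c →
  (∀ z, (3 : ℤ_[3]) ∣ z → f z = 0) → ∫ z, f z ∂mu3 ≠ 0 →
  (∀ (n : ℕ) (x : ℤ), 1 ≤ n → ¬ (3 : ℤ) ∣ x →
    c * ∫ z in cl n ((2 * x : ℤ) : ℤ_[3]), f z ∂mu3 ≤ ∫ z in cl n (x : ℤ_[3]), f z ∂mu3) →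
  ∀ᵐ z ∂mu3, ¬ (3 : ℤ_[3]) ∣ z → 0 < f z

/-- (MODE) the largest term of a binomial law.
Paper proof.  Let `p = i/k`.  The ratio `bep p k (j+1) / bep p k j = (k-j) p / ((j+1)(1-p))` is `≤ 1` for
`j ≥ i` and `≥ 1` for `j < i`, so `bep p k i` is the largest value.  By Chebyshev (variance
`k p (1-p) ≤ k/4`) the `j` with `|j - i| ≤ √k` have mass at least `3/4`, and there are at most
`2 √k + 1 ≤ 3 √k` of them.  So `bep p k i ≥ (3/4)/(3 √k)`. (The variance: induction on `k` as in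
`Pool/Agent/H623/TS/J.lean`, `bet_var`, case `p = 1/4`; or Bernstein polynomials in Mathlib,
`bernsteinPolynomial.variance`.) -/
def S_MODE : Prop := ∀ k i : ℕ, 1 ≤ k → 1 ≤ i → i < k →
  1 / (4 * Real.sqrt k) ≤ bep ((i : ℝ) / k) k i

end Pool.Agent.H623.TP
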