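import Pool.Agent.H623.TP.Defs
import Pool.Graph.R_seed8.H377R2.NK.Avg

/-!
AVG: the logarithmic averaging lemma with real parameters and uniform constants.
-/

set_option autoImplicit false

open Finset

namespace Pool.Agent.H623.TP.AVG

open Pool.Agent.H377R2.NK

/-! ### the weights -/

/-- `w_j = j/(q+1+j)` -/
noncomputable def w (q j : ℕ) : ℝ := (j : ℝ) / (q + 1 + j)

theorem w_nonneg (q j : ℕ) : 0 ≤ w q j := by unfold w; positivity

theorem w_le (q j : ℕ) : w q j ≤ 1 := by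
  unfold w
  rw [div_le_one (by positivity)]
  have : (0 : ℝ) ≤ q := Nat.cast_nonneg _
  linarith

theorem wlog_nonneg (q j : ℕ) : 0 ≤ w q j * (-Real.log (w q j)) :=
  mul_nonneg (w_nonneg q j) (neg_nonneg.mpr (Real.log_nonpos (w_nonneg q j) (w_le q j)))

theorem wlog_le (q j : ℕ) : w q j * (-Real.log (w q j)) ≤ 1 := by
  rcases (w_nonneg q j).lt_or_eq with h | h
  · have h1 := Real.log_le_sub_one_of_pos (inv_pos.mpr h)
    rw [Real.log_inv] at h1
    have h2 := mul_le_mul_of_nonneg_left h1 h.le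
    rw [mul_sub, mul_inv_cancel₀ h.ne', mul_one] at h2
    linarith
  · rw [← h, zero_mul]
    exact zero_le_one

/-- the sum of the weights -/
noncomputable def SS (q J : ℕ) : ℝ := ∑ j ∈ range J, w q j

/-- the entropy of the weights -/
noncomputable def GG (q J : ℕ) : ℝ := ∑ j ∈ range J, w q j * (-Real.log (w q j))

theorem SS_le (q J : ℕ) : SS q J ≤ J := by
  unfold SS
  calc ∑ j ∈ range J, w q j ≤ ∑ _j ∈ range J, (1 : ℝ) := Finset.sum_le_sum fun j _ => w_le q j
    _ = J := by simp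

theorem GG_le (q J : ℕ) : GG q J ≤ J := by
  unfold GG
  calc ∑ j ∈ range J, w q j * (-Real.log (w q j)) ≤ ∑ _j ∈ range J, (1 : ℝ) :=
        Finset.sum_le_sum fun j _ => wlog_le q j
    _ = J := by simp

theorem GG_nonneg (q J : ℕ) : 0 ≤ GG q J := Finset.sum_nonneg fun j _ => wlog_nonneg q j

theorem inv_le_log {x : ℝ} (hx : 0 < x) : 1 / (x + 1) ≤ Real.log (x + 1) - Real.log x := by
  have h1 := Real.log_le_sub_one_of_pos (show 0 < x / (x + 1) by positivity)
  rw [Real.log_div hx.ne' (by positivity)] at h1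
  have h2 : x / (x + 1) - 1 = -(1 / (x + 1)) := by field_simp; ring
  rw [h2] at h1
  linarith

theorem SS_ge {q : ℕ} (hq : 1 ≤ q) (J : ℕ) :
    (J : ℝ) - ((q : ℝ) + 1) * (Real.log (q + J) - Real.log q) ≤ SS q J := by
  have hq' : (0 : ℝ) < q := by exact_mod_cast hq
  induction J with
  | zero => simp [SS]
  | succ J ih =>
    have h0 : (0 : ℝ) < (q : ℝ) + J := by positivity
    have h1 := inv_le_log h0
    have h2 : w q J = 1 - ((q : ℝ) + 1) * (1 / ((q : ℝ) + J + 1)) := by
      unfold w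
      have : (q : ℝ) + 1 + J ≠ 0 := by positivity
      have : (q : ℝ) + J + 1 ≠ 0 := by positivity
      field_simp
      ring
    unfold SS at ih ⊢
    rw [Finset.sum_range_succ, h2]
    have h3 := mul_le_mul_of_nonneg_left h1 (show (0 : ℝ) ≤ (q : ℝ) + 1 by positivity)
    push_cast
    have h4 : (q : ℝ) + ((J : ℝ) + 1) = (q : ℝ) + J + 1 := by ring
    rw [h4]
    linarith

/-- the Riemann sum -/
theorem SS_main {q : ℕ} (hq : 1 ≤ q) {r R : ℝ} (hr : 0 ≤ r) (hrR : r ≤ R) :
    (q : ℝ) * (r - Real.log (1 + r)) - (1 + R) ≤ SS q ⌊r * q⌋₊ := by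
  have hq' : (0 : ℝ) < q := by exact_mod_cast hq
  have h1 := SS_ge hq ⌊r * q⌋₊
  have h2 : (⌊r * q⌋₊ : ℝ) ≤ r * q := Nat.floor_le (by positivity)
  have h3 : r * q < (⌊r * q⌋₊ : ℝ) + 1 := Nat.lt_floor_add_one _
  have h4 : Real.log (q + (⌊r * q⌋₊ : ℝ)) - Real.log q ≤ Real.log (1 + r) := by
    rw [← Real.log_div (by positivity) hq'.ne']
    apply Real.log_le_log (by positivity)
    rw [div_le_iff₀ hq']
    linarith
  have h5 : Real.log (1 + r) ≤ R := by
    have := Real.log_le_sub_one_of_pos (show 0 < 1 + r by positivity)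
    linarith
  have h6 := mul_le_mul_of_nonneg_left h4 (show (0 : ℝ) ≤ (q : ℝ) + 1 by positivity)
  linarith

/-! ### the inequality at an integer -/

theorem at_int (k₀ N : ℕ) (r δ : ℝ) (hr : 0 ≤ r) (b : ℕ → ℝ) (hpos : ∀ m ≤ N, 0 < b m)
    (hanti : ∀ m m', m ≤ m' → m' ≤ N → b m' ≤ b m)
    (hyp : ∀ k, k₀ ≤ k → k + ⌊r * k⌋₊ ≤ N →
      ∑ i ∈ range ⌊r * k⌋₊, b (k + i) / b i ≤ δ * k)
    (q J : ℕ) (hq : 1 ≤ q) (hJ : J = ⌊r * q⌋₊)
    (l : ℕ) (hl0 : k₀ ≤ l) (hl1 : 1 ≤ l) (hl : (q + 1 + J) * l ≤ N) :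
    SS q J + GG q J - δ * q ≤
      ∑ j ∈ range J, w q j *
        ((-Real.log (b ((q + 1 + j) * l))) - (-Real.log (b (j * l)))) := by
  have hlr : (1 : ℝ) ≤ l := by exact_mod_cast hl1
  have hqr : (1 : ℝ) ≤ q := by exact_mod_cast hq
  have hJ1 : (J : ℝ) ≤ r * q := by rw [hJ]; exact Nat.floor_le (by positivity)
  have hJ2 : r * q < (J : ℝ) + 1 := by rw [hJ]; exact Nat.lt_floor_add_one _
  have hle1 : J * l ≤ ⌊r * ((q * l : ℕ) : ℝ)⌋₊ := by
    apply Nat.le_floor
    push_cast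
    calc (J : ℝ) * l ≤ (r * q) * l := by gcongr
      _ = r * (q * l) := by ring
  have hle2 : ⌊r * ((q * l : ℕ) : ℝ)⌋₊ ≤ (J + 1) * l := by
    apply Nat.floor_le_of_le
    push_cast
    calc r * ((q : ℝ) * l) = (r * q) * l := by ring
      _ ≤ ((J : ℝ) + 1) * l := by gcongr
  have hN : q * l + ⌊r * ((q * l : ℕ) : ℝ)⌋₊ ≤ N := by
    have : (q + 1 + J) * l = q * l + (J + 1) * l := by ring
    omega
  have hql : l ≤ q * l := Nat.le_mul_of_pos_left l (by omega)
  have h1 := hyp (q * l) (by omega) hN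
  have h1' : ∑ i ∈ range (J * l), b (q * l + i) / b i ≤
      ∑ i ∈ range ⌊r * ((q * l : ℕ) : ℝ)⌋₊, b (q * l + i) / b i := by
    apply Finset.sum_le_sum_of_subset_of_nonneg
    · exact Finset.range_mono hle1
    · intro i hi _
      have hi' : i < ⌊r * ((q * l : ℕ) : ℝ)⌋₊ := Finset.mem_range.mp hi
      exact (div_pos (hpos _ (by omega)) (hpos _ (by omega))).le
  have h1'' := le_trans h1' h1
  rw [Avg.sum_blocks] at h1''
  have h2 : ∀ j ∈ range J, (l : ℝ) * (b ((q + 1 + j) * l) / b (j * l)) ≤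
      ∑ s ∈ range l, b (q * l + (j * l + s)) / b (j * l + s) := by
    intro j hj
    have hj' : j < J := Finset.mem_range.mp hj
    have h3 : ∀ s ∈ range l, b ((q + 1 + j) * l) / b (j * l) ≤
        b (q * l + (j * l + s)) / b (j * l + s) := by
      intro s hs
      have hs' : s < l := Finset.mem_range.mp hs
      have hjl : (j + 1) * l ≤ J * l := Nat.mul_le_mul_right l (by omega)
      have e1 : (q + 1 + J) * l = q * l + l + J * l := by ring
      have e2 : (q + 1 + j) * l = q * l + l + j * l := by ring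
      have e3 : (j + 1) * l = j * l + l := by ring
      have p1 : 0 < b (j * l) := hpos _ (by omega)
      have p2 : 0 < b (j * l + s) := hpos _ (by omega)
      have p4 : 0 < b (q * l + (j * l + s)) := hpos _ (by omega)
      have q1 : b (j * l + s) ≤ b (j * l) := hanti _ _ (by omega) (by omega)
      have q2 : b ((q + 1 + j) * l) ≤ b (q * l + (j * l + s)) :=
        hanti _ _ (by rw [e2]; omega) (by rw [e2]; omega)
      exact div_le_div₀ p4.le q2 p2 q1
    have h4 := Finset.sum_le_sum h3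
    rw [Finset.sum_const, Finset.card_range, nsmul_eq_mul] at h4
    exact h4
  have h3 := le_trans (Finset.sum_le_sum h2) h1''
  rw [← Finset.mul_sum] at h3
  push_cast at h3
  have h4 : ∑ j ∈ range J, b ((q + 1 + j) * l) / b (j * l) ≤ δ * q := by
    have h5 : (l : ℝ) * ∑ j ∈ range J, b ((q + 1 + j) * l) / b (j * l) ≤ (l : ℝ) * (δ * q) := by
      calc _ ≤ δ * ((q : ℝ) * l) := h3
        _ = _ := by ring
    exact le_of_mul_le_mul_left h5 (by linarith)
  have h5 : ∑ j ∈ range J, w q j * (1 - Real.log (w q j) -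
      ((-Real.log (b ((q + 1 + j) * l))) - (-Real.log (b (j * l))))) ≤
      ∑ j ∈ range J, b ((q + 1 + j) * l) / b (j * l) := by
    apply Finset.sum_le_sum
    intro j hj
    have hj' : j < J := Finset.mem_range.mp hj
    have hjl : (j + 1) * l ≤ J * l := Nat.mul_le_mul_right l (by omega)
    have e1 : (q + 1 + J) * l = q * l + l + J * l := by ring
    have e2 : (q + 1 + j) * l = q * l + l + j * l := by ring
    have e3 : (j + 1) * l = j * l + l := by ring
    have p1 : 0 < b (j * l) := hpos _ (by omega)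
    have p3 : 0 < b ((q + 1 + j) * l) := hpos _ (by rw [e2]; omega)
    refine le_trans (Avg.exp_tangent _ _ (w_nonneg q j)) ?_
    have e3 : -(-Real.log (b ((q + 1 + j) * l)) - -Real.log (b (j * l))) =
        Real.log (b ((q + 1 + j) * l)) - Real.log (b (j * l)) := by ring
    rw [e3, Real.exp_sub, Real.exp_log p3, Real.exp_log p1]
  have h6 : ∑ j ∈ range J, w q j * (1 - Real.log (w q j) -
      ((-Real.log (b ((q + 1 + j) * l))) - (-Real.log (b (j * l))))) =
      SS q J + GG q J -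
      ∑ j ∈ range J, w q j *
        ((-Real.log (b ((q + 1 + j) * l))) - (-Real.log (b (j * l)))) := by
    unfold SS GG
    rw [← Finset.sum_add_distrib, ← Finset.sum_sub_distrib]
    apply Finset.sum_congr rfl
    intro j _
    ring
  linarith

/-! ### the lower bound for `-log b` -/

theorem v_lower (k₀ N : ℕ) (r δ : ℝ) (hr : 0 ≤ r) (b : ℕ → ℝ) (hpos : ∀ m ≤ N, 0 < b m)
    (hle : ∀ m ≤ N, b m ≤ 1)
    (hanti : ∀ m m', m ≤ m' → m' ≤ N → b m' ≤ b m)
    (hyp : ∀ k, k₀ ≤ k → k + ⌊r * k⌋₊ ≤ N →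
      ∑ i ∈ range ⌊r * k⌋₊, b (k + i) / b i ≤ δ * k)
    (q J K : ℕ) (hq : 1 ≤ q) (hJ : J = ⌊r * q⌋₊) (hK : 2 ≤ K)
    (m : ℕ) (hm : m ≤ N) (hm0 : (q + 1 + J) * (k₀ + K) ≤ m) :
    (SS q J + GG q J - δ * q) *
        Real.log ((m : ℝ) / (((q : ℝ) + 1 + J) * (k₀ + K))) ≤
      (-Real.log (b m)) * (GG q J + SS q J * (1 / ((K : ℝ) - 1))) := by
  have hqr : (1 : ℝ) ≤ q := by exact_mod_cast hq
  have hKr : (2 : ℝ) ≤ K := by exact_mod_cast hK
  have hK1 : (0 : ℝ) < (K : ℝ) - 1 := by linarith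
  have hJ0 : (0 : ℝ) ≤ J := Nat.cast_nonneg _
  have hk0 : (0 : ℝ) ≤ k₀ := Nat.cast_nonneg _
  set P : ℝ := (q : ℝ) + 1 + J with hP
  have hP0 : 0 < P := by positivity
  set T : ℝ := (k₀ : ℝ) + K with hT
  have hT0 : 0 < T := by positivity
  set Λ : ℝ := (m : ℝ) / P with hΛ
  have hm0' : P * T ≤ m := by
    have : (((q + 1 + J) * (k₀ + K) : ℕ) : ℝ) ≤ (m : ℝ) := by exact_mod_cast hm0
    push_cast at this
    exact this
  have hTΛ : T ≤ Λ := by rw [hΛ, le_div_iff₀ hP0]; linarith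
  have hΛ0 : 0 < Λ := lt_of_lt_of_le hT0 hTΛ
  have hPΛ : P * Λ = m := by rw [hΛ]; field_simp
  set κ : ℝ := 1 - 1 / (K : ℝ) with hκ
  have hκ0 : 0 < κ := by
    rw [hκ, sub_pos, div_lt_one (by linarith)]
    linarith
  have hκ1 : κ ≤ 1 := by
    rw [hκ]
    have : 0 ≤ 1 / (K : ℝ) := by positivity
    linarith
  -- the function F
  set v : ℕ → ℝ := fun u => -Real.log (b (min u N)) with hv
  have hvmono : Monotone v := by
    intro x y hxy
    have h1 : b (min y N) ≤ b (min x N) := hanti _ _ (min_le_min_right N hxy) (min_le_right _ _)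
    have h2 : 0 < b (min y N) := hpos _ (min_le_right _ _)
    exact neg_le_neg (Real.log_le_log h2 h1)
  have hv0 : ∀ u, 0 ≤ v u := by
    intro u
    have h1 : b (min u N) ≤ 1 := hle _ (min_le_right _ _)
    have h2 : 0 < b (min u N) := hpos _ (min_le_right _ _)
    exact neg_nonneg.mpr (Real.log_nonpos h2.le h1)
  set F : ℝ → ℝ := fun x => v ⌊x⌋₊ with hF
  have hFmono : Monotone F := hvmono.comp Nat.floor_mono
  have hF0 : ∀ x, 0 ≤ F x := fun x => hv0 _
  -- pointwise
  have hpt : ∀ t : ℝ, T ≤ t → t ≤ Λ → SS q J + GG q J - δ * q ≤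
      ∑ j ∈ range J, w q j * (F (((q : ℝ) + 1 + (j : ℝ)) * t) - F ((j : ℝ) * κ * t)) := by
    intro t ht1 ht2
    have ht0 : 0 < t := lt_of_lt_of_le hT0 ht1
    have hl_le : (⌊t⌋₊ : ℝ) ≤ t := Nat.floor_le ht0.le
    have hl_lt : t < (⌊t⌋₊ : ℝ) + 1 := Nat.lt_floor_add_one t
    have hlm : (q + 1 + J) * ⌊t⌋₊ ≤ m := by
      have : P * ⌊t⌋₊ ≤ m := by
        calc P * ⌊t⌋₊ ≤ P * t := by gcongr
          _ ≤ P * Λ := by gcongr
          _ = m := hPΛ
      have h2 : (((q + 1 + J) * ⌊t⌋₊ : ℕ) : ℝ) ≤ ((m : ℕ) : ℝ) := by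
        push_cast
        exact this
      exact_mod_cast h2
    have hlk : k₀ + K ≤ ⌊t⌋₊ := by
      apply Nat.le_floor
      push_cast
      exact ht1
    have h1 := at_int k₀ N r δ hr b hpos hanti hyp q J hq hJ ⌊t⌋₊ (by omega) (by omega)
      (by omega)
    refine le_trans h1 ?_
    apply Finset.sum_le_sum
    intro j hj
    have hj' : j < J := Finset.mem_range.mp hj
    apply mul_le_mul_of_nonneg_left _ (w_nonneg q j)
    have hjl : j * ⌊t⌋₊ ≤ J * ⌊t⌋₊ := Nat.mul_le_mul_right _ (by omega)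
    have e1 : (q + 1 + J) * ⌊t⌋₊ = q * ⌊t⌋₊ + ⌊t⌋₊ + J * ⌊t⌋₊ := by ring
    have e2 : (q + 1 + j) * ⌊t⌋₊ = q * ⌊t⌋₊ + ⌊t⌋₊ + j * ⌊t⌋₊ := by ring
    have a1 : -Real.log (b ((q + 1 + j) * ⌊t⌋₊)) ≤ F (((q : ℝ) + 1 + (j : ℝ)) * t) := by
      have e3 : -Real.log (b ((q + 1 + j) * ⌊t⌋₊)) = v ((q + 1 + j) * ⌊t⌋₊) := by
        rw [hv]
        simp only
        rw [min_eq_left (by rw [e2]; omega)]
      rw [e3]
      apply hvmono
      apply Nat.le_floor
      push_cast
      gcongr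
    have a2 : F ((j : ℝ) * κ * t) ≤ -Real.log (b (j * ⌊t⌋₊)) := by
      have e3 : -Real.log (b (j * ⌊t⌋₊)) = v (j * ⌊t⌋₊) := by
        rw [hv]
        simp only
        rw [min_eq_left (by omega)]
      rw [e3]
      apply hvmono
      apply Nat.floor_le_of_le
      push_cast
      rw [mul_assoc]
      apply mul_le_mul_of_nonneg_left _ (Nat.cast_nonneg j)
      have h5 : (K : ℝ) ≤ t := by linarith
      have h6 : 1 ≤ 1 / (K : ℝ) * t := by
        rw [one_div, inv_mul_eq_div, one_le_div (by linarith)]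
        exact h5
      rw [hκ, sub_mul, one_mul]
      linarith
    linarith
  -- integrate
  have hint : ∀ j : ℕ, IntervalIntegrable (fun t : ℝ => F (((q : ℝ) + 1 + (j : ℝ)) * t) / t -
      F ((j : ℝ) * κ * t) / t) MeasureTheory.volume T Λ := by
    intro j
    exact (Avg.ii F hFmono _ T Λ (by positivity) hT0 hΛ0).sub
      (Avg.ii F hFmono _ T Λ (by positivity) hT0 hΛ0)
  have hI : (SS q J + GG q J - δ * q) * Real.log (Λ / T) ≤
      ∑ j ∈ range J, w q j * ∫ t in T..Λ, (F (((q : ℝ) + 1 + (j : ℝ)) * t) / t -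
        F ((j : ℝ) * κ * t) / t) := by
    have e1 : (SS q J + GG q J - δ * q) * Real.log (Λ / T) =
        ∫ t in T..Λ, (SS q J + GG q J - δ * q) * (1 / t) := by
      rw [intervalIntegral.integral_const_mul, integral_one_div_of_pos hT0 hΛ0]
    have e2 : ∑ j ∈ range J, w q j * ∫ t in T..Λ, (F (((q : ℝ) + 1 + (j : ℝ)) * t) / t -
        F ((j : ℝ) * κ * t) / t) =
        ∫ t in T..Λ, ∑ j ∈ range J, w q j * (F (((q : ℝ) + 1 + (j : ℝ)) * t) / t -
        F ((j : ℝ) * κ * t) / t) := by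
      rw [intervalIntegral.integral_finsetSum (fun j _ => (hint j).const_mul (w q j))]
      apply Finset.sum_congr rfl
      intro j _
      rw [intervalIntegral.integral_const_mul]
    rw [e1, e2]
    apply intervalIntegral.integral_mono_on hTΛ
    · apply IntervalIntegrable.const_mul
      exact Avg.ii (fun _ => 1) monotone_const 1 T Λ zero_le_one hT0 hΛ0
    · have h7 := IntervalIntegrable.sum (range J) (fun j _ => (hint j).const_mul (w q j))
      have e7 : (fun u : ℝ => ∑ j ∈ range J, w q j * (F (((q : ℝ) + 1 + (j : ℝ)) * u) / u -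
          F ((j : ℝ) * κ * u) / u)) =
          ∑ j ∈ range J, fun u : ℝ => w q j * (F (((q : ℝ) + 1 + (j : ℝ)) * u) / u -
          F ((j : ℝ) * κ * u) / u) := by
        funext u
        rw [Finset.sum_apply]
      rw [e7]
      exact h7
    · intro t ht
      have ht0 : 0 < t := lt_of_lt_of_le hT0 ht.1
      have h1 := hpt t ht.1 ht.2
      have e3 : ∑ j ∈ range J, w q j * (F (((q : ℝ) + 1 + (j : ℝ)) * t) / t -
          F ((j : ℝ) * κ * t) / t) =
          (∑ j ∈ range J, w q j * (F (((q : ℝ) + 1 + (j : ℝ)) * t) -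
          F ((j : ℝ) * κ * t))) * (1 / t) := by
        rw [Finset.sum_mul]
        apply Finset.sum_congr rfl
        intro j _
        ring
      rw [e3]
      exact mul_le_mul_of_nonneg_right h1 (by positivity)
  -- telescoping
  have hV : ∀ j ∈ range J, w q j * ∫ t in T..Λ, (F (((q : ℝ) + 1 + (j : ℝ)) * t) / t -
        F ((j : ℝ) * κ * t) / t) ≤
      (-Real.log (b m)) * (w q j * (-Real.log (w q j)) + w q j * (1 / ((K : ℝ) - 1))) := by
    intro j hj
    have hj' : j < J := Finset.mem_range.mp hj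
    rcases Nat.eq_zero_or_pos j with h0 | h0
    · subst h0
      simp [w]
    · have hjr : (0 : ℝ) < j := by exact_mod_cast h0
      have hjκ : (j : ℝ) * κ ≤ j := by
        calc (j : ℝ) * κ ≤ j * 1 := by gcongr
          _ = j := mul_one _
      have hba : (j : ℝ) * κ ≤ (q : ℝ) + 1 + (j : ℝ) := by linarith
      have h1 := Avg.tele F hFmono hF0 ((q : ℝ) + 1 + (j : ℝ)) ((j : ℝ) * κ) T Λ
        (by positivity) hba hT0 hTΛ
      have hlog : Real.log (((q : ℝ) + 1 + (j : ℝ)) / ((j : ℝ) * κ)) ≤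
          -Real.log (w q j) + 1 / ((K : ℝ) - 1) := by
        have e1 : ((q : ℝ) + 1 + (j : ℝ)) / ((j : ℝ) * κ) = (w q j)⁻¹ * κ⁻¹ := by
          unfold w
          rw [inv_div, div_mul_eq_div_div, div_eq_mul_inv _ κ]
        have hw0 : 0 < w q j := by unfold w; positivity
        rw [e1, Real.log_mul (by positivity) (by positivity), Real.log_inv]
        have h2 := Real.log_le_sub_one_of_pos (inv_pos.mpr hκ0)
        have h3 : κ⁻¹ - 1 = 1 / ((K : ℝ) - 1) := by
          rw [hκ]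
          have h4 : (K : ℝ) ≠ 0 := by positivity
          have h5 : 1 - 1 / (K : ℝ) = ((K : ℝ) - 1) / K := by field_simp
          rw [h5, inv_div]
          field_simp
          ring
        rw [h3] at h2
        linarith
      have hFm : F (((q : ℝ) + 1 + (j : ℝ)) * Λ) ≤ -Real.log (b m) := by
        have e3 : -Real.log (b m) = F (P * Λ) := by
          rw [hPΛ, hF]
          simp only
          rw [Nat.floor_natCast, hv]
          simp only
          rw [min_eq_left hm]
        rw [e3]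
        apply hFmono
        have : (j : ℝ) ≤ J := by exact_mod_cast hj'.le
        apply mul_le_mul_of_nonneg_right _ hΛ0.le
        rw [hP]
        linarith
      have hlog0 : 0 ≤ Real.log (((q : ℝ) + 1 + (j : ℝ)) / ((j : ℝ) * κ)) := by
        apply Real.log_nonneg
        rw [le_div_iff₀ (by positivity), one_mul]
        exact hba
      have h2 : ∫ t in T..Λ, (F (((q : ℝ) + 1 + (j : ℝ)) * t) / t - F ((j : ℝ) * κ * t) / t) ≤
          (-Real.log (b m)) * (-Real.log (w q j) + 1 / ((K : ℝ) - 1)) := by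
        refine le_trans h1 ?_
        exact mul_le_mul hFm hlog hlog0 (le_trans (hF0 _) hFm)
      calc w q j * ∫ t in T..Λ, (F (((q : ℝ) + 1 + (j : ℝ)) * t) / t -
              F ((j : ℝ) * κ * t) / t)
          ≤ w q j * ((-Real.log (b m)) * (-Real.log (w q j) + 1 / ((K : ℝ) - 1))) :=
            mul_le_mul_of_nonneg_left h2 (w_nonneg q j)
        _ = _ := by ring
  have hsum := Finset.sum_le_sum hV
  rw [← Finset.mul_sum, Finset.sum_add_distrib, ← Finset.sum_mul] at hsum
  have e5 : Λ / T = (m : ℝ) / (P * T) := by rw [hΛ, div_div]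
  rw [e5] at hI
  exact le_trans hI hsum

end Pool.Agent.H623.TP.AVG

namespace Pool.Agent.H623.TP

open AVG

theorem t_AVG : S_AVG := by
  intro R c hR hc
  -- parameters
  obtain ⟨q, hq1, hq2⟩ : ∃ q : ℕ, 1 ≤ q ∧ 2 * (1 + R) ≤ q * c := by
    refine ⟨⌈2 * (1 + R) / c⌉₊ + 1, by omega, ?_⟩
    have h1 := Nat.le_ceil (2 * (1 + R) / c)
    rw [div_le_iff₀ hc] at h1
    push_cast
    linarith
  obtain ⟨K, hK1, hK2⟩ : ∃ K : ℕ, 2 ≤ K ∧ 4 * R ≤ c * ((K : ℝ) - 1) := by
    refine ⟨⌈4 * R / c⌉₊ + 2, by omega, ?_⟩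
    have h1 := Nat.le_ceil (4 * R / c)
    rw [div_le_iff₀ hc] at h1
    push_cast
    linarith
  have hqr : (1 : ℝ) ≤ q := by exact_mod_cast hq1
  have hKr : (2 : ℝ) ≤ K := by exact_mod_cast hK1
  have hK0 : (0 : ℝ) < (K : ℝ) - 1 := by linarith
  have hb0 : 0 < c / (c + 4 * R) := by positivity
  refine ⟨1 + c / (c + 4 * R), by linarith, fun k₀ => ?_⟩
  set β : ℝ := 1 + c / (c + 4 * R) with hβ
  have hk0 : (0 : ℝ) ≤ k₀ := Nat.cast_nonneg _
  set D : ℝ := ((q : ℝ) + 1 + R * q) * ((k₀ : ℝ) + K) with hD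
  have hD0 : 0 < D := by positivity
  refine ⟨D, hD0, ?_⟩
  intro r δ hr hrR hδ hrc N b hpos hle hanti hyp m hm1 hmN
  have hmr : (0 : ℝ) < m := by exact_mod_cast hm1
  set J : ℕ := ⌊r * q⌋₊ with hJ
  have hJle : (J : ℝ) ≤ R * q := by
    calc (J : ℝ) ≤ r * q := Nat.floor_le (by positivity)
      _ ≤ R * q := by gcongr
  have hS : (q : ℝ) * (δ + c) - (1 + R) ≤ SS q J := by
    have h1 := SS_main hq1 hr hrR
    have h2 := mul_le_mul_of_nonneg_left hrc (show (0 : ℝ) ≤ q by linarith)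
    linarith
  have hS0 : 0 < SS q J := by
    have h2 : 0 ≤ (q : ℝ) * δ := by positivity
    nlinarith
  have hSle : SS q J ≤ R * q := (SS_le q J).trans hJle
  have hG0 := GG_nonneg q J
  have hGle : GG q J ≤ R * q := (GG_le q J).trans hJle
  have hden : 0 < GG q J + SS q J * (1 / ((K : ℝ) - 1)) := by positivity
  have hSK : SS q J * (1 / ((K : ℝ) - 1)) ≤ q * c / 4 := by
    rw [mul_one_div, div_le_iff₀ hK0]
    have h1 := mul_le_mul_of_nonneg_left hK2 (show (0 : ℝ) ≤ q by linarith)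
    linarith
  have hnum : β * (GG q J + SS q J * (1 / ((K : ℝ) - 1))) ≤ SS q J + GG q J - δ * q := by
    have h1 : GG q J + q * c / 2 ≤ SS q J + GG q J - δ * q := by linarith
    refine le_trans ?_ h1
    have h2 : c / (c + 4 * R) * (GG q J + q * c / 4) ≤ q * c / 4 := by
      rw [div_mul_eq_mul_div, div_le_iff₀ (by positivity)]
      have h3 := mul_le_mul_of_nonneg_left hGle hc.le
      nlinarith
    have h3 : c / (c + 4 * R) * (GG q J + SS q J * (1 / ((K : ℝ) - 1))) ≤
        c / (c + 4 * R) * (GG q J + q * c / 4) := by gcongr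
    have h4 : β * (GG q J + SS q J * (1 / ((K : ℝ) - 1))) =
        (GG q J + SS q J * (1 / ((K : ℝ) - 1))) +
        c / (c + 4 * R) * (GG q J + SS q J * (1 / ((K : ℝ) - 1))) := by rw [hβ]; ring
    rw [h4]
    linarith
  have hJ0 : (0 : ℝ) ≤ J := Nat.cast_nonneg _
  set D' : ℝ := ((q : ℝ) + 1 + J) * ((k₀ : ℝ) + K) with hD'
  have hD'0 : 0 < D' := by positivity
  have hD'D : D' ≤ D := by
    rw [hD, hD']
    gcongr
  by_cases hmD : D ≤ m
  · have hmD' : (q + 1 + J) * (k₀ + K) ≤ m := by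
      have h1 : (((q + 1 + J) * (k₀ + K) : ℕ) : ℝ) ≤ (m : ℝ) := by
        push_cast
        exact hD'D.trans hmD
      exact_mod_cast h1
    have h1 := v_lower k₀ N r δ hr b hpos hle hanti hyp q J K hq1 hJ hK1 m hmN hmD'
    have hbm := hpos m hmN
    have hlog0 : 0 ≤ Real.log ((m : ℝ) / D) :=
      Real.log_nonneg ((one_le_div hD0).mpr hmD)
    have hlogle : Real.log ((m : ℝ) / D) ≤ Real.log ((m : ℝ) / D') :=
      Real.log_le_log (by positivity) (by gcongr)
    have h2 : β * Real.log ((m : ℝ) / D) ≤ -Real.log (b m) := by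
      have h3 : (β * Real.log ((m : ℝ) / D)) * (GG q J + SS q J * (1 / ((K : ℝ) - 1))) ≤
          (-Real.log (b m)) * (GG q J + SS q J * (1 / ((K : ℝ) - 1))) := by
        calc (β * Real.log ((m : ℝ) / D)) * (GG q J + SS q J * (1 / ((K : ℝ) - 1))) =
              (β * (GG q J + SS q J * (1 / ((K : ℝ) - 1)))) * Real.log ((m : ℝ) / D) := by ring
          _ ≤ (SS q J + GG q J - δ * q) * Real.log ((m : ℝ) / D) := by gcongr
          _ ≤ (SS q J + GG q J - δ * q) * Real.log ((m : ℝ) / D') := by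
              apply mul_le_mul_of_nonneg_left hlogle
              refine le_trans ?_ hnum
              rw [hβ]
              positivity
          _ ≤ _ := h1
      exact le_of_mul_le_mul_right h3 hden
    have h3 : Real.log (b m) ≤ Real.log ((D / m) ^ β) := by
      rw [Real.log_rpow (by positivity)]
      have e2 : Real.log (D / m) = -Real.log ((m : ℝ) / D) := by
        rw [← Real.log_inv, inv_div]
      rw [e2]
      linarith
    exact (Real.log_le_log_iff hbm (by positivity)).mp h3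
  · push Not at hmD
    have h1 : 1 ≤ D / m := by
      rw [one_le_div hmr]
      exact hmD.le
    exact le_trans (hle m hmN) (Real.one_le_rpow h1 (by rw [hβ]; linarith))

end Pool.Agent.H623.TP
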