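import Pool.Agent.H623.TP.Rec
import Pool.Graph.R_seed8.H377R2.NK.GzAvg

/-!
# The averaged nonuniformity at all tilts (task TP-GPAVG, helper922)

Adapted from `Pool.Graph.R_seed8.H377R2.NK.GzAvg` (the case `p = 1/4`), with uniform constants.
-/

set_option autoImplicit false
set_option linter.unusedVariables false

namespace Pool.Agent.H623.TP

namespace GPA

open Finset Real Pool.Agent.H320R2.PD Pool.Agent.H377R2.NK

/-! ### the letter law -/

lemma qp_of_mem {p : ℝ} {A k T : ℕ} {w : List ℕ} (hw : w ∈ FWT A k T) :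
    qp p w = (p / (1 - p)) ^ k * (1 - p) ^ T := by
  unfold FWT at hw
  rw [Finset.mem_filter] at hw
  unfold qp
  rw [hw.2, (mem_FW.1 hw.1).1]

lemma sum_qp_pow (p : ℝ) (A n : ℕ) (θ : ℝ) :
    ∑ w ∈ FW A n, qp p w * θ ^ w.sum = ((p / (1 - p)) * ∑ e ∈ Icc 1 A, ((1 - p) * θ) ^ e) ^ n := by
  rw [mul_pow, ← sum_pow, mul_sum]
  refine sum_congr rfl fun w hw => ?_
  unfold qp
  rw [(mem_FW.1 hw).1, mul_pow]
  ring

lemma inv_le_exp {x : ℝ} (hx : |x| ≤ 1 / 2) : 1 / (1 - x) ≤ exp (x + x ^ 2) := by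
  have h := abs_le.1 hx
  have h1 : 0 < 1 - x := by linarith
  rw [div_le_iff₀ h1]
  rcases le_total 0 x with h0 | h0
  · have h2 : 0 ≤ x + x ^ 2 := by positivity
    have h3 := Real.quadratic_le_exp_of_nonneg h2
    have h4 := mul_le_mul_of_nonneg_right h3 h1.le
    refine le_trans ?_ h4
    have e : (1 + (x + x ^ 2) + (x + x ^ 2) ^ 2 / 2) * (1 - x) - 1 =
        x ^ 2 / 2 * (1 - x - x ^ 2 - x ^ 3) := by ring
    have h5 : 0 ≤ 1 - x - x ^ 2 - x ^ 3 := by
      have a1 : x ^ 2 ≤ 1 / 4 := by nlinarith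
      have a2 : x ^ 3 ≤ 1 / 8 := by
        have : x ^ 3 = x * x ^ 2 := by ring
        rw [this]
        nlinarith [sq_nonneg x]
      linarith
    have h6 : 0 ≤ x ^ 2 / 2 * (1 - x - x ^ 2 - x ^ 3) := mul_nonneg (by positivity) h5
    linarith
  · have h3 := add_one_le_exp (x + x ^ 2)
    have h4 := mul_le_mul_of_nonneg_right h3 h1.le
    refine le_trans ?_ h4
    have e : (x + x ^ 2 + 1) * (1 - x) = 1 - x * x ^ 2 := by ring
    rw [e]
    have : x * x ^ 2 ≤ 0 := mul_nonpos_of_nonpos_of_nonneg h0 (sq_nonneg x)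
    linarith

lemma gen_le {p : ℝ} (hp1 : 6 / 25 ≤ p) (hp2 : p ≤ 8 / 15) (A : ℕ) {t : ℝ} (ht : |t| ≤ 1 / 20) :
    (p / (1 - p)) * ∑ e ∈ Icc 1 A, ((1 - p) * exp t) ^ e ≤ exp (t / p + 70 * t ^ 2) := by
  have hp0 : 0 < p := by linarith
  have hq0 : 0 < 1 - p := by linarith
  have ht' := abs_le.1 ht
  have hu : |exp (-t) - 1| ≤ 2 * |t| := by
    have := Real.abs_exp_sub_one_le (x := -t) (by rw [abs_neg]; linarith)
    rwa [abs_neg] at this
  have hu' := abs_le.1 hu
  have hu2 : -(exp (-t) - 1) ≤ t := by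
    have := add_one_le_exp (-t)
    linarith
  obtain ⟨u, hu0⟩ : ∃ u, u = exp (-t) - 1 := ⟨_, rfl⟩
  rw [← hu0] at hu hu' hu2
  have het : exp t * (1 + u) = 1 := by
    rw [hu0]
    have : exp t * exp (-t) = 1 := by rw [← exp_add]; simp
    linarith
  have hu3 : |u| ≤ 1 / 10 := by linarith
  have hu4 := abs_le.1 hu3
  have het0 := exp_pos t
  have hr1 : (1 - p) * exp t < 1 := by nlinarith
  have h3 := sum_Icc_pow_le A (r := (1 - p) * exp t) (by positivity) hr1
  have hpu : 0 < p + u := by linarith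
  have h4 : (p / (1 - p)) * ((1 - p) * exp t / (1 - (1 - p) * exp t)) = 1 / (1 - (-u / p)) := by
    have e1 : 1 - (1 - p) * exp t = exp t * (p + u) := by linarith
    rw [e1]
    have e2 : 1 - (-u / p) = (p + u) / p := by field_simp; ring
    rw [e2]
    field_simp
  have hx : |(-u / p)| ≤ 1 / 2 := by
    rw [abs_div, abs_neg, abs_of_pos hp0, div_le_iff₀ hp0]
    linarith
  have h5 := inv_le_exp hx
  refine (mul_le_mul_of_nonneg_left h3 (div_nonneg hp0.le hq0.le)).trans ?_
  rw [h4]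
  refine h5.trans (exp_le_exp.2 ?_)
  have h6 : -u / p ≤ t / p := div_le_div_of_nonneg_right hu2 hp0.le
  have h7 : (-u / p) ^ 2 ≤ 70 * t ^ 2 := by
    rw [div_pow, div_le_iff₀ (by positivity), neg_sq]
    have a1 : u ^ 2 ≤ 4 * t ^ 2 := by
      have := pow_le_pow_left₀ (abs_nonneg u) hu 2
      rw [sq_abs, mul_pow, sq_abs] at this
      linarith
    have a2 : (6 / 25 : ℝ) ^ 2 ≤ p ^ 2 := pow_le_pow_left₀ (by norm_num) hp1 2
    have a3 : 0 ≤ t ^ 2 := sq_nonneg t
    nlinarith
  linarith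

/-- common part of the two tails -/
lemma tail_gen {p : ℝ} (hp1 : 6 / 25 ≤ p) (hp2 : p ≤ 8 / 15) (A n : ℕ) {t c : ℝ}
    (ht : |t| ≤ 1 / 20) (P : List ℕ → Prop) [DecidablePred P]
    (hP : ∀ w ∈ FW A n, P w → t * c ≤ t * w.sum) :
    ∑ w ∈ (FW A n).filter P, qp p w ≤ exp (-(t * c) + (t / p + 70 * t ^ 2) * n) := by
  have hp0 : 0 < p := by linarith
  have hq0 : 0 < 1 - p := by linarith
  have : Tilt p := ⟨hp0, hq0⟩
  have hpow : ∀ k : ℕ, (exp t) ^ k = exp (t * k) := by
    intro k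
    rw [mul_comm, exp_nat_mul]
  have h1 : ∀ w ∈ (FW A n).filter P, qp p w ≤ exp (-(t * c)) * (qp p w * (exp t) ^ w.sum) := by
    intro w hw
    rw [Finset.mem_filter] at hw
    have h2 : 1 ≤ exp (-(t * c)) * (exp t) ^ w.sum := by
      rw [hpow, ← exp_add]
      apply one_le_exp
      have := hP w hw.1 hw.2
      linarith
    calc qp p w = qp p w * 1 := by ring
      _ ≤ qp p w * (exp (-(t * c)) * (exp t) ^ w.sum) :=
          mul_le_mul_of_nonneg_left h2 (qp_pos w).le
      _ = _ := by ring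
  calc ∑ w ∈ (FW A n).filter P, qp p w
      ≤ ∑ w ∈ (FW A n).filter P, exp (-(t * c)) * (qp p w * (exp t) ^ w.sum) :=
        sum_le_sum h1
    _ ≤ ∑ w ∈ FW A n, exp (-(t * c)) * (qp p w * (exp t) ^ w.sum) := by
        apply sum_le_sum_of_subset_of_nonneg (filter_subset _ _)
        intro w _ _
        have := (qp_pos (τ := p) w).le
        positivity
    _ = exp (-(t * c)) * ∑ w ∈ FW A n, (qp p w * (exp t) ^ w.sum) := by
        rw [mul_sum]
    _ = exp (-(t * c)) * ((p / (1 - p)) * ∑ e ∈ Icc 1 A, ((1 - p) * exp t) ^ e) ^ n := by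
        rw [sum_qp_pow]
    _ ≤ exp (-(t * c)) * (exp (t / p + 70 * t ^ 2)) ^ n := by
        apply mul_le_mul_of_nonneg_left _ (exp_pos _).le
        apply pow_le_pow_left₀
        · exact mul_nonneg (div_nonneg hp0.le hq0.le)
            (sum_nonneg fun e _ => by positivity)
        · exact gen_le hp1 hp2 A ht
    _ = _ := by
        rw [← exp_nat_mul, ← exp_add]
        congr 1; ring

lemma tail_qp {p : ℝ} (hp1 : 6 / 25 ≤ p) (hp2 : p ≤ 8 / 15) (A n : ℕ) {η : ℝ} (hη : 0 < η)
    (hη1 : η ≤ 1) :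
    ∑ w ∈ (FW A n).filter (fun w => η * n ≤ |(w.sum : ℝ) - n / p|), qp p w
      ≤ 2 * exp (-(η ^ 2 * n / 280)) := by
  classical
  have hp0 : 0 < p := by linarith
  have hq0 : 0 < 1 - p := by linarith
  have : Tilt p := ⟨hp0, hq0⟩
  have hn : (0 : ℝ) ≤ n := Nat.cast_nonneg n
  have ht0 : 0 < η / 140 := by positivity
  have hup : ∑ w ∈ (FW A n).filter (fun w => η * n ≤ (w.sum : ℝ) - n / p), qp p w
      ≤ exp (-(η ^ 2 * n / 280)) := by
    refine (tail_gen hp1 hp2 A n (t := η / 140) (c := n / p + η * n)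
      (by rw [abs_of_pos ht0]; linarith) _ ?_).trans ?_
    · intro w _ hw
      refine mul_le_mul_of_nonneg_left ?_ ht0.le
      linarith
    · apply exp_le_exp.mpr
      apply le_of_eq
      ring
  have hdown : ∑ w ∈ (FW A n).filter (fun w => η * n ≤ n / p - (w.sum : ℝ)), qp p w
      ≤ exp (-(η ^ 2 * n / 280)) := by
    refine (tail_gen hp1 hp2 A n (t := -(η / 140)) (c := n / p - η * n)
      (by rw [abs_neg, abs_of_pos ht0]; linarith) _ ?_).trans ?_
    · intro w _ hw
      refine mul_le_mul_of_nonpos_left ?_ (by linarith)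
      linarith
    · apply exp_le_exp.mpr
      apply le_of_eq
      ring
  have hsub : (FW A n).filter (fun w => η * n ≤ |(w.sum : ℝ) - n / p|) ⊆
      (FW A n).filter (fun w => η * n ≤ (w.sum : ℝ) - n / p) ∪
      (FW A n).filter (fun w => η * n ≤ n / p - (w.sum : ℝ)) := by
    intro w hw
    rw [Finset.mem_filter] at hw
    rw [Finset.mem_union, Finset.mem_filter, Finset.mem_filter]
    rcases le_abs.mp hw.2 with h | h
    · exact Or.inl ⟨hw.1, h⟩
    · exact Or.inr ⟨hw.1, by linarith⟩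
  have h1 := sum_le_sum_of_subset_of_nonneg hsub fun w _ _ => (qp_pos (τ := p) w).le
  have h2 : ∑ w ∈ (FW A n).filter (fun w => η * n ≤ (w.sum : ℝ) - n / p) ∪
      (FW A n).filter (fun w => η * n ≤ n / p - (w.sum : ℝ)), qp p w ≤
      ∑ w ∈ (FW A n).filter (fun w => η * n ≤ (w.sum : ℝ) - n / p), qp p w +
      ∑ w ∈ (FW A n).filter (fun w => η * n ≤ n / p - (w.sum : ℝ)), qp p w := by
    rw [← sum_union_inter]
    have : 0 ≤ ∑ w ∈ (FW A n).filter (fun w => η * n ≤ (w.sum : ℝ) - n / p) ∩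
      (FW A n).filter (fun w => η * n ≤ n / p - (w.sum : ℝ)), qp p w :=
      sum_nonneg fun w _ => (qp_pos (τ := p) w).le
    linarith
  linarith

/-! ### the offsets -/

lemma half_moment {p : ℝ} (hp1 : 6 / 25 ≤ p) (hp2 : p ≤ 8 / 15) (A n : ℕ) :
    ∑ w ∈ FW A n, qp p w * (√(Wo w : ℝ) * √(1 / 2) ^ w.sum) ≤ 40 := by
  have hp0 : 0 < p := by linarith
  have hq0 : 0 < 1 - p := by linarith
  have : Tilt p := ⟨hp0, hq0⟩
  obtain ⟨h, hh⟩ : ∃ h : ℝ, h = √(1 / 2) := ⟨_, rfl⟩
  have hh0 : 0 < h := by rw [hh]; exact Real.sqrt_pos.2 (by norm_num)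
  have hh1 : h ≤ 0.70711 := by
    rw [hh, Real.sqrt_le_left (by norm_num)]
    norm_num
  have hh2 : h * √2 = 1 := by
    rw [hh, ← Real.sqrt_mul (by norm_num)]
    norm_num
  have h31 : √3 ≤ 1.73206 := by
    rw [Real.sqrt_le_left (by norm_num)]
    norm_num
  have h30 : 0 ≤ √(3 : ℝ) := Real.sqrt_nonneg _
  rw [← hh]
  induction n with
  | zero => simp [FW, Wo]
  | succ n ih =>
    rw [sum_FW_succ]
    have h1 : ∀ e ∈ Icc 1 A,
        ∑ w ∈ FW A n, qp p (e :: w) * (√(Wo (e :: w) : ℝ) * h ^ (e :: w).sum)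
        ≤ (p / (1 - p)) * ((1 - p) * h) ^ e * (∑ w ∈ FW A n, qp p w
          + √3 * ∑ w ∈ FW A n, qp p w * (√(Wo w : ℝ) * h ^ w.sum)) := by
      intro e _
      rw [mul_sum, ← sum_add_distrib, mul_sum]
      refine sum_le_sum fun w _ => ?_
      rw [qp_cons, List.sum_cons, Wo, pow_add, mul_pow]
      have hw := qp_pos (τ := p) w
      have h2 : √((2 ^ w.sum + 3 * Wo w : ℕ) : ℝ) ≤ √2 ^ w.sum + √3 * √(Wo w : ℝ) := by
        push_cast
        rw [Real.sqrt_le_left (by positivity)]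
        have a1 : (√2 ^ w.sum) ^ 2 = (2 : ℝ) ^ w.sum := by
          rw [← pow_mul, mul_comm, pow_mul, Real.sq_sqrt (by norm_num)]
        have a2 : (√3 * √(Wo w : ℝ)) ^ 2 = 3 * (Wo w : ℝ) := by
          rw [mul_pow, Real.sq_sqrt (by norm_num), Real.sq_sqrt (by positivity)]
        have a3 : 0 ≤ √2 ^ w.sum * (√3 * √(Wo w : ℝ)) := by positivity
        nlinarith
      have h3 : √((2 ^ w.sum + 3 * Wo w : ℕ) : ℝ) * h ^ w.sum ≤
          1 + √3 * (√(Wo w : ℝ) * h ^ w.sum) := by
        have a1 := mul_le_mul_of_nonneg_right h2 (pow_nonneg hh0.le w.sum)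
        have a2 : √2 ^ w.sum * h ^ w.sum = 1 := by
          rw [← mul_pow, mul_comm, hh2, one_pow]
        have a3 : (√2 ^ w.sum + √3 * √(Wo w : ℝ)) * h ^ w.sum =
            √2 ^ w.sum * h ^ w.sum + √3 * (√(Wo w : ℝ) * h ^ w.sum) := by ring
        linarith
      have h4 : 0 ≤ (p / (1 - p)) * ((1 - p) ^ e * h ^ e) * qp p w := by positivity
      have h5 := mul_le_mul_of_nonneg_left h3 h4
      calc p / (1 - p) * (1 - p) ^ e * qp p w *
            (√((2 ^ w.sum + 3 * Wo w : ℕ) : ℝ) * (h ^ e * h ^ w.sum))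
          = (p / (1 - p)) * ((1 - p) ^ e * h ^ e) * qp p w *
            (√((2 ^ w.sum + 3 * Wo w : ℕ) : ℝ) * h ^ w.sum) := by ring
        _ ≤ _ := h5
        _ = _ := by ring
    refine (sum_le_sum h1).trans ?_
    rw [← sum_mul, ← mul_sum]
    have hr1 : (1 - p) * h < 1 := by nlinarith
    have h2 : (p / (1 - p)) * ∑ e ∈ Icc 1 A, ((1 - p) * h) ^ e ≤ p * h / (1 - (1 - p) * h) := by
      have h3 := sum_Icc_pow_le A (r := (1 - p) * h) (by positivity) hr1
      refine (mul_le_mul_of_nonneg_left h3 (div_nonneg hp0.le hq0.le)).trans (le_of_eq ?_)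
      have : 1 - (1 - p) * h ≠ 0 := by linarith
      field_simp
    have h3 := sum_qp_le (τ := p) A n
    have h4 : 0 ≤ ∑ w ∈ FW A n, qp p w
        + √3 * ∑ w ∈ FW A n, qp p w * (√(Wo w : ℝ) * h ^ w.sum) := by
      exact add_nonneg (sum_nonneg fun w _ => (qp_pos (τ := p) w).le)
        (mul_nonneg h30 (sum_nonneg fun w _ =>
          mul_nonneg (qp_pos (τ := p) w).le (by positivity)))
    have h5 := mul_le_mul_of_nonneg_right h2 h4
    refine h5.trans ?_
    have h6 : ∑ w ∈ FW A n, qp p w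
        + √3 * ∑ w ∈ FW A n, qp p w * (√(Wo w : ℝ) * h ^ w.sum) ≤ 1 + 1.73206 * 40 := by
      have : √3 * ∑ w ∈ FW A n, qp p w * (√(Wo w : ℝ) * h ^ w.sum) ≤ 1.73206 * 40 := by
        apply mul_le_mul h31 ih _ (by norm_num)
        exact sum_nonneg fun w _ => mul_nonneg (qp_pos (τ := p) w).le (by positivity)
      linarith
    have hd : 0 < 1 - (1 - p) * h := by linarith
    have h7 : 0 ≤ p * h / (1 - (1 - p) * h) := by positivity
    refine (mul_le_mul_of_nonneg_left h6 h7).trans ?_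
    rw [div_mul_eq_mul_div, div_le_iff₀ hd]
    have h8 : p * h ≤ 8 / 15 * h := by nlinarith
    have h9 : p * h * (1 + 1.73206 * 40) + 40 * ((1 - p) * h) =
        h * (40 + 30.2824 * p) := by ring
    have h10 : h * (40 + 30.2824 * p) ≤ 0.70711 * (40 + 30.2824 * (8 / 15)) := by
      apply mul_le_mul hh1 _ (by positivity) (by norm_num)
      linarith
    norm_num at h10 h9 ⊢
    linarith

/-! ### typical words -/

open scoped Classical in
/-- typical words -/
noncomputable def typp (p : ℝ) (A k : ℕ) (η : ℝ) : Finset (List ℕ) :=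
  (FW A k).filter fun w => |(w.sum : ℝ) - k / p| ≤ η * k ∧ (Wo w : ℝ) ≤ 2 ^ w.sum * exp (η * k)

open scoped Classical in
lemma typp_mass {p : ℝ} (hp1 : 6 / 25 ≤ p) (hp2 : p ≤ 8 / 15) {A k : ℕ} {η : ℝ} (hη : 0 < η)
    (hη1 : η ≤ 1) (hk : 1 ≤ k) (hA : 3 * k ≤ A) :
    1 - (k * (1 / 2 : ℝ) ^ k + 40 * exp (-(η * k / 2)) + 2 * exp (-(η ^ 2 * k / 280)))
      ≤ ∑ w ∈ typp p A k η, qp p w := by
  have hp0 : 0 < p := by linarith
  have hq0 : 0 < 1 - p := by linarith
  have : Tilt p := ⟨hp0, hq0⟩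
  have hk0 : (0 : ℝ) < k := by exact_mod_cast hk
  have h1 : ∑ w ∈ FW A k, qp p w ≤ ∑ w ∈ typp p A k η, qp p w
      + ∑ w ∈ (FW A k).filter (fun w => η * k ≤ |(w.sum : ℝ) - k / p|), qp p w
      + ∑ w ∈ FW A k, qp p w * (√(Wo w : ℝ) * √(1 / 2) ^ w.sum) * exp (-(η * k / 2)) := by
    unfold typp
    rw [Finset.sum_filter, Finset.sum_filter, ← Finset.sum_add_distrib, ← Finset.sum_add_distrib]
    apply Finset.sum_le_sum
    intro w _
    have hw := qp_pos (τ := p) w
    by_cases ha : |(w.sum : ℝ) - k / p| ≤ η * k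
    · by_cases hb : (Wo w : ℝ) ≤ 2 ^ w.sum * exp (η * k)
      · rw [if_pos ⟨ha, hb⟩]
        have : 0 ≤ (if η * k ≤ |(w.sum : ℝ) - k / p| then qp p w else 0) := by
          split_ifs <;> [exact hw.le; exact le_rfl]
        have h2 : 0 ≤ qp p w * (√(Wo w : ℝ) * √(1 / 2) ^ w.sum) * exp (-(η * k / 2)) := by
          positivity
        linarith
      · rw [if_neg (fun h => hb h.2)]
        push Not at hb
        have : 0 ≤ (if η * k ≤ |(w.sum : ℝ) - k / p| then qp p w else 0) := by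
          split_ifs <;> [exact hw.le; exact le_rfl]
        have h2 : 1 ≤ (√(Wo w : ℝ) * √(1 / 2) ^ w.sum) * exp (-(η * k / 2)) := by
          have a1 : √2 ^ w.sum * exp (η * k / 2) ≤ √(Wo w : ℝ) := by
            apply Real.le_sqrt_of_sq_le
            rw [mul_pow, ← pow_mul, mul_comm w.sum 2, pow_mul, Real.sq_sqrt (by norm_num),
              ← Real.exp_nat_mul]
            have e : ((2 : ℕ) : ℝ) * (η * k / 2) = η * k := by push_cast; ring
            rw [e]
            exact hb.le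
          have a2 : √(1 / 2 : ℝ) ^ w.sum * √2 ^ w.sum = 1 := by
            rw [← mul_pow, ← Real.sqrt_mul (by norm_num)]
            norm_num
          have a3 : exp (η * k / 2) * exp (-(η * k / 2)) = 1 := by
            rw [← exp_add]; simp
          have a4 : 0 ≤ √(1 / 2 : ℝ) ^ w.sum * exp (-(η * k / 2)) := by positivity
          have a5 := mul_le_mul_of_nonneg_right a1 a4
          calc (1 : ℝ) = (√(1 / 2 : ℝ) ^ w.sum * √2 ^ w.sum) *
                (exp (η * k / 2) * exp (-(η * k / 2))) := by rw [a2, a3, one_mul]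
            _ = √2 ^ w.sum * exp (η * k / 2) * (√(1 / 2 : ℝ) ^ w.sum * exp (-(η * k / 2))) := by
                ring
            _ ≤ _ := a5
            _ = _ := by ring
        have h3 := mul_le_mul_of_nonneg_left h2 hw.le
        rw [mul_one, ← mul_assoc] at h3
        linarith
    · rw [if_neg (fun h => ha h.1), if_pos (le_of_lt (not_le.1 ha))]
      have h2 : 0 ≤ qp p w * (√(Wo w : ℝ) * √(1 / 2) ^ w.sum) * exp (-(η * k / 2)) := by
        positivity
      linarith
  have h2 := tail_qp hp1 hp2 A k hη hη1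
  have h3 : ∑ w ∈ FW A k, qp p w * (√(Wo w : ℝ) * √(1 / 2) ^ w.sum) * exp (-(η * k / 2))
      ≤ 40 * exp (-(η * k / 2)) := by
    rw [← Finset.sum_mul]
    exact mul_le_mul_of_nonneg_right (half_moment hp1 hp2 A k) (exp_pos _).le
  have h4 : 1 - k * (1 / 2 : ℝ) ^ k ≤ ∑ w ∈ FW A k, qp p w := by
    rw [sum_qp]
    have hb := one_add_mul_le_pow (a := -(1 - p) ^ A) (by
      have : (1 - p) ^ A ≤ 1 := pow_le_one₀ hq0.le (by linarith)
      linarith) k
    have h6 : (1 - p) ^ A ≤ (1 / 2) ^ k := by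
      calc (1 - p) ^ A ≤ (1 - p) ^ (3 * k) :=
            pow_le_pow_of_le_one hq0.le (by linarith) hA
        _ = ((1 - p) ^ 3) ^ k := by rw [pow_mul]
        _ ≤ _ := by
            apply pow_le_pow_left₀ (by positivity)
            calc (1 - p) ^ 3 ≤ (19 / 25) ^ 3 := pow_le_pow_left₀ hq0.le (by linarith) 3
              _ ≤ 1 / 2 := by norm_num
    have h7 : (1 + -(1 - p) ^ A) ^ k = (1 - (1 - p) ^ A) ^ k := by ring_nf
    rw [h7] at hb
    have h8 := mul_le_mul_of_nonneg_left h6 hk0.le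
    linarith
  have h6 : ∑ w ∈ (FW A k).filter (fun w => η * k ≤ |(w.sum : ℝ) - k / p|), qp p w
      ≤ 2 * exp (-(η ^ 2 * k / 280)) := by
    refine le_trans (le_of_eq ?_) h2
    refine Finset.sum_congr ?_ fun _ _ => rfl
    ext w
    simp only [Finset.mem_filter]
  linarith

open scoped Classical in
/-- entropy bound, summed over the sizes -/
lemma gp_sum_le {p : ℝ} (hp1 : 6 / 25 ≤ p) (hp2 : p ≤ 8 / 15) {A k : ℕ} {η : ℝ} (hη : 0 < η)
    (hη1 : η ≤ 1) (hk : 1 ≤ k) (M : ℕ)
    (hM : (2 : ℝ) ^ ((1 / p + η) * k) * exp (η * k) < 3 ^ M) :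
    ∑ j ∈ range M, gp p A k j ≤ 10 / 9 * (M * log 3
      - (k * log ((1 - p) / p) + (1 / p - η) * k * log (1 / (1 - p))) * ∑ w ∈ typp p A k η, qp p w
      + log (6 * k + 1) + 1) := by
  have hp0 : 0 < p := by linarith
  have hq0 : 0 < 1 - p := by linarith
  have hq1 : 1 - p < 1 := by linarith
  have : Tilt p := ⟨hp0, hq0⟩
  have hk0 : (0 : ℝ) < k := by exact_mod_cast hk
  set s1 : ℕ → Finset (List ℕ) := fun T => (typp p A k η).filter fun w => w.sum = T with hs1
  have hs1sub : ∀ T, s1 T ⊆ FWT A k T := by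
    intro T w hw
    simp only [hs1, typp, Finset.mem_filter] at hw
    unfold FWT
    rw [Finset.mem_filter]
    exact ⟨hw.1.1, hw.2⟩
  have hs1T : ∀ T, (s1 T).Nonempty → k ≤ T := by
    rintro T ⟨w, hw⟩
    have h1 := hs1sub T hw
    unfold FWT at h1
    rw [Finset.mem_filter] at h1
    have h2 := (sum_le_of_mem h1.1).1
    omega
  set pp : ℕ → ℝ := fun T => (p / (1 - p)) ^ k * (1 - p) ^ T with hpp
  have hpp0 : ∀ T, 0 < pp T := fun T => by simp only [hpp]; positivity
  have hpp1 : ∀ T, k ≤ T → pp T ≤ 1 := fun T hT => by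
    obtain ⟨d, rfl⟩ := Nat.exists_eq_add_of_le hT
    simp only [hpp]
    rw [pow_add, ← mul_assoc, ← mul_pow, div_mul_cancel₀ _ hq0.ne']
    exact mul_le_one₀ (pow_le_one₀ hp0.le (by linarith)) (by positivity)
      (pow_le_one₀ hq0.le hq1.le)
  set μ : ℕ → ℝ := fun T => (s1 T).card * pp T with hμ
  have hμ0 : ∀ T, 0 ≤ μ T := fun T => mul_nonneg (Nat.cast_nonneg _) (hpp0 T).le
  have hμs : ∀ T, ∑ w ∈ s1 T, qp p w = μ T := by
    intro T
    rw [Finset.sum_congr rfl (fun w hw => qp_of_mem (hs1sub T hw)), Finset.sum_const,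
      nsmul_eq_mul]
  -- size constraints
  have hsize : ∀ T, (s1 T).Nonempty → |(T : ℝ) - k / p| ≤ η * k := by
    rintro T ⟨w, hw⟩
    simp only [hs1, typp, Finset.mem_filter] at hw
    rw [← hw.2]
    exact hw.1.2.1
  have hWsmall : ∀ T, ∀ w ∈ s1 T, (Wo w : ℝ) < 3 ^ M := by
    intro T w hw
    have h1 := hsize T ⟨w, hw⟩
    simp only [hs1, typp, Finset.mem_filter] at hw
    have h2 := hw.1.2.2
    rw [hw.2] at h2
    refine (h2.trans ?_).trans_lt hM
    refine mul_le_mul_of_nonneg_right ?_ (exp_pos _).le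
    rw [← Real.rpow_natCast]
    apply Real.rpow_le_rpow_of_exponent_le (by norm_num)
    have := (abs_le.1 h1).2
    have e : (1 / p + η) * k = k / p + η * k := by ring
    linarith
  have hinj : ∀ T, ∀ w ∈ s1 T, ∀ w' ∈ s1 T, (3 : ℤ) ^ M ∣ (Wo w : ℤ) - Wo w' → w = w' := by
    intro T w hw w' hw' hd
    have h1 := hWsmall T w hw
    have h2 := hWsmall T w' hw'
    have h1' : (Wo w : ℤ) < 3 ^ M := by exact_mod_cast h1
    have h2' : (Wo w' : ℤ) < 3 ^ M := by exact_mod_cast h2
    have h3 : (Wo w : ℤ) - Wo w' = 0 := by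
      apply Int.eq_zero_of_abs_lt_dvd hd
      rw [abs_lt]
      constructor
      · have : (0 : ℤ) ≤ Wo w := by positivity
        linarith
      · have : (0 : ℤ) ≤ Wo w' := by positivity
        linarith
    have h4 : Wo w = Wo w' := by exact_mod_cast sub_eq_zero.1 h3
    have m1 := hs1sub T hw
    have m2 := hs1sub T hw'
    unfold FWT at m1 m2
    rw [Finset.mem_filter] at m1 m2
    have f1 := mem_FW.1 m1.1
    have f2 := mem_FW.1 m2.1
    exact Wo_inj (fun e he => (f1.2 e he).1) (fun e he => (f2.2 e he).1) (by rw [f1.1, f2.1])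
      (by rw [m1.2, m2.2]) h4
  set L1 : ℝ := log ((1 - p) / p) with hL1
  set L2 : ℝ := log (1 / (1 - p)) with hL2
  have hL20 : 0 < L2 := log_pos (by rw [lt_div_iff₀ hq0]; linarith)
  have hlpp : ∀ T : ℕ, log (1 / pp T) = k * L1 + T * L2 := by
    intro T
    have e : 1 / pp T = ((1 - p) / p) ^ k * (1 / (1 - p)) ^ T := by
      simp only [hpp]
      rw [one_div, mul_inv, ← inv_pow, ← inv_pow, inv_div, one_div]
    rw [e, log_mul (by positivity) (by positivity), log_pow, log_pow]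
  have hT : ∀ T ∈ range (k * A + 1),
      ∑ j ∈ range M, Gam (FWT A k T) (qp p) (fun w => (Wo w : ℤ)) j
      ≤ 10 / 9 * (M * log 3 * ∑ w ∈ FWT A k T, qp p w
        - ((k * L1 + T * L2) * μ T - negMulLog (μ T))) := by
    intro T _
    have h1 := Gam_entropy' (s := FWT A k T) (wt := qp p) (fun w => (Wo w : ℤ)) M
      (fun w _ => (qp_pos (τ := p) w).le)
    by_cases hTk : k ≤ T
    · have h2 := ent_lower (s := FWT A k T) (s₁ := s1 T) (wt := qp p) (fun w => (Wo w : ℤ)) M
        (fun w _ => (qp_pos (τ := p) w).le) (hs1sub T) (p := pp T) (hpp0 T)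
        (hpp1 T hTk) (fun w hw => qp_of_mem (hs1sub T hw))
        (hinj T)
      rw [hlpp T] at h2
      refine h1.trans ?_
      have e : ((s1 T).card : ℝ) * pp T = μ T := rfl
      rw [e] at h2
      nlinarith
    · have h3 : s1 T = ∅ := by
        rcases (s1 T).eq_empty_or_nonempty with h | h
        · exact h
        · exact absurd (hs1T T h) hTk
      have h4 : μ T = 0 := by simp only [hμ, h3]; simp
      have h2 := ent_lower (s := FWT A k T) (s₁ := ∅) (wt := qp p) (fun w => (Wo w : ℤ)) M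
        (fun w _ => (qp_pos (τ := p) w).le) (Finset.empty_subset _) (p := 1) one_pos
        le_rfl (fun w hw => absurd hw (Finset.notMem_empty _))
        (fun w hw => absurd hw (Finset.notMem_empty _))
      rw [Finset.card_empty, Nat.cast_zero, zero_mul, zero_mul, negMulLog_zero, sub_zero] at h2
      rw [h4, mul_zero, negMulLog_zero, sub_zero, sub_zero]
      refine h1.trans ?_
      linarith
  have hsum : ∑ j ∈ range M, gp p A k j
      ≤ ∑ T ∈ range (k * A + 1), 10 / 9 * (M * log 3 * ∑ w ∈ FWT A k T, qp p w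
        - ((k * L1 + T * L2) * μ T - negMulLog (μ T))) := by
    unfold gp
    rw [Finset.sum_comm]
    exact Finset.sum_le_sum hT
  refine hsum.trans ?_
  rw [← Finset.mul_sum]
  refine mul_le_mul_of_nonneg_left ?_ (by norm_num)
  rw [Finset.sum_sub_distrib, ← Finset.mul_sum, Finset.sum_sub_distrib]
  have hmaps : ∀ w ∈ FW A k, w.sum ∈ range (k * A + 1) := by
    intro w hw
    rw [mem_range]
    have := (sum_le_of_mem hw).2
    omega
  have t1 : ∑ T ∈ range (k * A + 1), ∑ w ∈ FWT A k T, qp p w ≤ 1 := by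
    have h1 : ∑ T ∈ range (k * A + 1), ∑ w ∈ FWT A k T, qp p w = ∑ w ∈ FW A k, qp p w :=
      Finset.sum_fiberwise_of_maps_to hmaps (qp p)
    rw [h1]
    exact sum_qp_le A k
  have t2 : ∑ T ∈ range (k * A + 1), μ T = ∑ w ∈ typp p A k η, qp p w := by
    have hmaps2 : ∀ w ∈ typp p A k η, w.sum ∈ range (k * A + 1) := by
      intro w hw
      unfold typp at hw
      rw [Finset.mem_filter] at hw
      exact hmaps w hw.1
    rw [← Finset.sum_fiberwise_of_maps_to hmaps2 (qp p)]
    exact Finset.sum_congr rfl fun T _ => (hμs T).symm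
  have t3 : (k * L1 + (1 / p - η) * k * L2) * ∑ w ∈ typp p A k η, qp p w
      ≤ ∑ T ∈ range (k * A + 1), (k * L1 + T * L2) * μ T := by
    rw [← t2, Finset.mul_sum]
    apply Finset.sum_le_sum
    intro T _
    rcases (s1 T).eq_empty_or_nonempty with h | h
    · have : μ T = 0 := by simp only [hμ, h]; simp
      rw [this]; simp
    · have h1 := (abs_le.1 (hsize T h)).1
      refine mul_le_mul_of_nonneg_right ?_ (hμ0 T)
      have h2 : (1 / p - η) * k * L2 ≤ T * L2 := by
        refine mul_le_mul_of_nonneg_right ?_ hL20.le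
        have e : (1 / p - η) * k = k / p - η * k := by ring
        linarith
      linarith
  have t4 : ∑ T ∈ range (k * A + 1), negMulLog (μ T) ≤ log (6 * k + 1) + 1 := by
    set R : ℝ := 6 * k + 1 with hR
    have hR0 : 0 < R := by positivity
    have h1 : ∀ T ∈ range (k * A + 1), negMulLog (μ T)
        ≤ μ T * log R + (if T ∈ range (6 * k + 1) then 1 / R else 0) := by
      intro T _
      rcases (s1 T).eq_empty_or_nonempty with h | h
      · have : μ T = 0 := by simp only [hμ, h]; simp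
        rw [this]
        simp only [negMulLog_zero, zero_mul, zero_add]
        split_ifs
        · positivity
        · exact le_rfl
      · have h2 := (abs_le.1 (hsize T h)).2
        have h3 : T ∈ range (6 * k + 1) := by
          rw [mem_range]
          have h5 : (k : ℝ) / p ≤ 5 * k := by
            rw [div_le_iff₀ hp0]
            nlinarith
          have : (T : ℝ) ≤ 6 * k := by nlinarith
          have : T ≤ 6 * k := by exact_mod_cast this
          omega
        rw [if_pos h3]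
        exact nml_le (hμ0 T) hR0
    refine (Finset.sum_le_sum h1).trans ?_
    rw [Finset.sum_add_distrib, ← Finset.sum_mul, t2]
    have h2 : ∑ w ∈ typp p A k η, qp p w ≤ 1 := by
      refine le_trans (Finset.sum_le_sum_of_subset_of_nonneg (t := FW A k)
        (Finset.filter_subset _ _) ?_) (sum_qp_le A k)
      intro w _ _
      exact (qp_pos (τ := p) w).le
    have h3 : 0 ≤ log R := log_nonneg (by rw [hR]; nlinarith)
    have h4 : ∑ T ∈ range (k * A + 1), (if T ∈ range (6 * k + 1) then 1 / R else 0) ≤ 1 := by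
      rw [← Finset.sum_filter, Finset.sum_const, nsmul_eq_mul, mul_one_div, div_le_one hR0]
      have : ((range (k * A + 1)).filter (fun T => T ∈ range (6 * k + 1))).card ≤ 6 * k + 1 := by
        refine (Finset.card_le_card (t := range (6 * k + 1)) ?_).trans (by rw [card_range])
        intro T hT
        exact (Finset.mem_filter.1 hT).2
      rw [hR]
      exact_mod_cast this
    have h5 := mul_le_mul_of_nonneg_right h2 h3
    rw [one_mul] at h5
    linarith
  have hM0 : 0 ≤ (M : ℝ) * log 3 := mul_nonneg (by positivity) (log_nonneg (by norm_num))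
  have := mul_le_mul_of_nonneg_left t1 hM0
  rw [mul_one] at this
  linarith

/-! ### the final bound -/

lemma eventually_small (η δ : ℝ) (hη : 0 < η) (hδ : 0 < δ) : ∀ᶠ k : ℕ in Filter.atTop,
    (k : ℝ) * (1 / 2 : ℝ) ^ k + 40 * exp (-(η * k / 2)) + 2 * exp (-(η ^ 2 * k / 280)) ≤ δ := by
  have h1 : Filter.Tendsto (fun k : ℕ => (k : ℝ) * (1 / 2 : ℝ) ^ k) Filter.atTop (nhds 0) := by
    have := tendsto_self_mul_const_pow_of_lt_one (r := (1 / 2 : ℝ)) (by norm_num) (by norm_num)
    exact this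
  have h0 : ∀ c : ℝ, 0 < c → ∀ D : ℝ,
      Filter.Tendsto (fun k : ℕ => D * exp (-(c * (k : ℝ)))) Filter.atTop (nhds 0) := by
    intro c hc D
    have h4 : Filter.Tendsto (fun k : ℕ => c * (k : ℝ)) Filter.atTop Filter.atTop :=
      Filter.Tendsto.const_mul_atTop hc tendsto_natCast_atTop_atTop
    have h5 := (Real.tendsto_exp_neg_atTop_nhds_zero.comp h4).const_mul D
    rw [mul_zero] at h5
    exact h5
  have h2 : Filter.Tendsto (fun k : ℕ => 40 * exp (-(η * (k : ℝ) / 2))) Filter.atTop (nhds 0) := by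
    refine (h0 (η / 2) (by positivity) 40).congr fun k => ?_
    congr 2
    ring
  have h3 : Filter.Tendsto (fun k : ℕ => 2 * exp (-(η ^ 2 * (k : ℝ) / 280))) Filter.atTop
      (nhds 0) := by
    refine (h0 (η ^ 2 / 280) (by positivity) 2).congr fun k => ?_
    congr 2
    ring
  have h4 := (h1.add h2).add h3
  rw [add_zero, add_zero] at h4
  exact (h4.eventually (gt_mem_nhds hδ)).mono fun k hk => hk.le

lemma eventually_log (δ : ℝ) (hδ : 0 < δ) : ∀ᶠ k : ℕ in Filter.atTop,
    log 3 + log (6 * k + 1) + 1 ≤ δ * (k : ℝ) := by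
  have h1 : ∀ᶠ x : ℝ in Filter.atTop, |log x| ≤ δ / 2 * |x| := by
    have := Real.isLittleO_log_id_atTop.def (c := δ / 2) (by positivity)
    simpa using this
  have h2 : ∀ᶠ k : ℕ in Filter.atTop, |log (k : ℝ)| ≤ δ / 2 * |(k : ℝ)| :=
    tendsto_natCast_atTop_atTop.eventually h1
  have h3 : ∀ᶠ k : ℕ in Filter.atTop, (log 3 + log 7 + 1) * (2 / δ) ≤ (k : ℝ) :=
    tendsto_natCast_atTop_atTop.eventually (Filter.eventually_ge_atTop _)
  filter_upwards [h2, h3, Filter.eventually_ge_atTop 1] with k hk hk2 hk3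
  have hk0 : (1 : ℝ) ≤ k := by exact_mod_cast hk3
  have h3 : log (k : ℝ) ≤ δ / 2 * k := by
    have := (abs_le.1 hk).2
    rwa [abs_of_nonneg (by positivity)] at this
  have h4 : log (6 * (k : ℝ) + 1) ≤ log 7 + log k := by
    rw [← log_mul (by norm_num) (by positivity)]
    apply log_le_log (by positivity)
    linarith
  have h5 : log 3 + log 7 + 1 ≤ δ / 2 * k := by
    have := mul_le_mul_of_nonneg_left hk2 (show 0 ≤ δ / 2 by positivity)
    calc log 3 + log 7 + 1 = δ / 2 * ((log 3 + log 7 + 1) * (2 / δ)) := by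
          field_simp
      _ ≤ _ := this
  linarith

end GPA

open Finset Real Pool.Agent.H320R2.PD Pool.Agent.H377R2.NK in
theorem t_GPAVG : S_GPAVG := by
  intro ε hε
  obtain ⟨η, hη⟩ : ∃ η : ℝ, η = min 1 (ε / 10) := ⟨_, rfl⟩
  have hη0 : 0 < η := by rw [hη]; exact lt_min one_pos (by positivity)
  have hη1 : η ≤ 1 := by rw [hη]; exact min_le_left _ _
  have hη2 : η ≤ ε / 10 := by rw [hη]; exact min_le_right _ _
  obtain ⟨k1, hk1⟩ := Filter.eventually_atTop.1
    (GPA.eventually_small η (ε / 10) hη0 (by positivity))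
  obtain ⟨k2, hk2⟩ := Filter.eventually_atTop.1 (GPA.eventually_log (ε / 10) (by positivity))
  refine ⟨max 1 (max k1 k2), le_max_left _ _, fun p hp1 hp2 k hk A hA => ?_⟩
  have hp0 : 0 < p := by linarith
  have hq0 : 0 < 1 - p := by linarith
  have hq1 : 1 - p < 1 := by linarith
  have : Tilt p := ⟨hp0, hq0⟩
  have hk0 : 1 ≤ k := (le_max_left _ _).trans hk
  have e1 := hk1 k (((le_max_left _ _).trans (le_max_right _ _)).trans hk)
  have e2 := hk2 k (((le_max_right _ _).trans (le_max_right _ _)).trans hk)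
  have hkp : (0 : ℝ) < k := by exact_mod_cast hk0
  have hl2 : 0 < log 2 := log_pos (by norm_num)
  have hl3 : 0 < log 3 := log_pos (by norm_num)
  set E : ℝ := (1 / p + η) * k * log 2 + η * k with hE
  have hE0 : 0 ≤ E := by positivity
  set M : ℕ := ⌊E / log 3⌋₊ + 1 with hM
  have hM1 : E < M * log 3 := by
    have := Nat.lt_floor_add_one (E / log 3)
    rw [div_lt_iff₀ hl3] at this
    rw [hM]; push_cast; exact this
  have hM2 : (M : ℝ) * log 3 ≤ E + log 3 := by
    have := Nat.floor_le (a := E / log 3) (by positivity)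
    rw [le_div_iff₀ hl3] at this
    rw [hM]; push_cast
    linarith
  have hM3 : (2 : ℝ) ^ ((1 / p + η) * k) * exp (η * k) < 3 ^ M := by
    rw [← log_lt_log_iff (by positivity) (by positivity), log_mul (by positivity) (by positivity),
      log_rpow (by norm_num), log_exp, log_pow]
    exact hM1
  have hsum := GPA.gp_sum_le hp1 hp2 (A := A) (k := k) (η := η) hη0 hη1 hk0 M hM3
  have htyp := GPA.typp_mass hp1 hp2 (A := A) (k := k) (η := η) hη0 hη1 hk0 hA
  -- the range of digits
  have hrr : 0 ≤ rr p := by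
    unfold rr
    rw [sub_nonneg, le_div_iff₀ (by positivity), one_mul]
    have h4 : log ((3 : ℝ) ^ 8) ≤ log ((2 : ℝ) ^ 15) := log_le_log (by norm_num) (by norm_num)
    rw [log_pow, log_pow] at h4
    push_cast at h4
    nlinarith
  have hMk : k + ⌊rr p * k⌋₊ ≤ M := by
    have h2 : ((k + ⌊rr p * k⌋₊ : ℕ) : ℝ) ≤ k + rr p * k := by
      push_cast
      have := Nat.floor_le (a := rr p * k) (by positivity)
      linarith
    have h3 : (k + rr p * k) * log 3 ≤ E := by
      have e : (k + rr p * k) * log 3 = 1 / p * k * log 2 := by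
        unfold rr
        field_simp
        ring
      rw [e, hE]
      have : 0 ≤ η * k * log 2 + η * k := by positivity
      linarith
    have h1 : (k + rr p * k) < M := by
      have := h3.trans_lt hM1
      exact lt_of_mul_lt_mul_right this hl3.le
    exact_mod_cast (h2.trans_lt h1).le
  have hsub : ∑ i ∈ range ⌊rr p * k⌋₊, gp p A k (k + i) ≤ ∑ j ∈ range M, gp p A k j := by
    have h1 : ∑ i ∈ range ⌊rr p * k⌋₊, gp p A k (k + i)
        ≤ ∑ j ∈ range (k + ⌊rr p * k⌋₊), gp p A k j := by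
      rw [sum_range_add]
      have : 0 ≤ ∑ j ∈ range k, gp p A k j := sum_nonneg fun j _ => gp_nonneg A k j
      linarith
    refine h1.trans ?_
    apply Finset.sum_le_sum_of_subset_of_nonneg
    · intro j hj
      rw [mem_range] at hj ⊢
      omega
    · intro j _ _
      exact gp_nonneg A k j
  refine hsub.trans (hsum.trans ?_)
  obtain ⟨S, hS⟩ : ∃ S, S = ∑ w ∈ GPA.typp p A k η, qp p w := ⟨_, rfl⟩
  rw [← hS] at htyp ⊢
  have hS1 : 1 - ε / 10 ≤ S := by linarith
  set L1 : ℝ := log ((1 - p) / p) with hL1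
  set L2 : ℝ := log (1 / (1 - p)) with hL2
  have hL20 : 0 < L2 := log_pos (by rw [lt_div_iff₀ hq0]; linarith)
  have hL21 : L2 ≤ 8 / 7 := by
    have h1 := log_le_sub_one_of_pos (x := 1 / (1 - p)) (by positivity)
    have h2 : 1 / (1 - p) ≤ 15 / 7 := by
      rw [div_le_div_iff₀ hq0 (by norm_num)]
      linarith
    linarith
  have hH : L1 + 1 / p * L2 = Real.binEntropy p / p := by
    have a1 : log (1 / (1 - p)) = -log (1 - p) := by rw [one_div, log_inv]
    rw [hL1, hL2, a1, Real.binEntropy, log_div hq0.ne' hp0.ne', log_inv, log_inv]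
    field_simp
    ring
  have hH2 : Real.binEntropy p ≤ log 2 := Real.binEntropy_le_log_two
  have hH3 : Real.binEntropy p / p ≤ 3 := by
    rw [div_le_iff₀ hp0]
    have := log_two_lt_d9
    norm_num at this
    nlinarith
  have hH4 : 0 ≤ Real.binEntropy p := Real.binEntropy_nonneg hp0.le (by linarith)
  have hH5 : 0 ≤ Real.binEntropy p / p := by positivity
  have hS2 : S ≤ 1 := by
    rw [hS]
    refine le_trans (Finset.sum_le_sum_of_subset_of_nonneg (t := FW A k)
      (Finset.filter_subset _ _) ?_) (sum_qp_le A k)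
    intro w _ _
    exact (qp_pos (τ := p) w).le
  have hdd : dd p = 10 / 9 * (log 2 / p - Real.binEntropy p / p) := by
    unfold dd
    rw [sub_div]
  have e3 : (k * L1 + (1 / p - η) * k * L2) = k * (Real.binEntropy p / p) - k * (η * L2) := by
    rw [← hH]; ring
  rw [e3, hdd]
  have hE' : E = k * (log 2 / p) + k * (η * (log 2 + 1)) := by rw [hE]; ring
  have n2 : log 2 ≤ 7 / 10 := by
    have := log_two_lt_d9
    norm_num at this
    linarith
  have h10 : (k * (Real.binEntropy p / p) - k * (η * L2)) * S ≥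
      k * (Real.binEntropy p / p) - k * (3 * (ε / 10)) - k * (η * (8 / 7)) := by
    have a1 : k * (Real.binEntropy p / p) * (1 - S) ≤ k * (3 * (ε / 10)) := by
      rw [mul_assoc]
      refine mul_le_mul_of_nonneg_left ?_ hkp.le
      exact mul_le_mul hH3 (by linarith) (by linarith) (by norm_num)
    have a2 : k * (η * L2) * S ≤ k * (η * (8 / 7)) := by
      rw [mul_assoc, mul_assoc]
      refine mul_le_mul_of_nonneg_left ?_ hkp.le
      refine mul_le_mul_of_nonneg_left ?_ hη0.le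
      nlinarith
    nlinarith
  have h11 : k * (η * (log 2 + 1)) ≤ k * (η * (17 / 10)) := by
    refine mul_le_mul_of_nonneg_left ?_ hkp.le
    refine mul_le_mul_of_nonneg_left ?_ hη0.le
    linarith
  have h12 : k * η ≤ k * (ε / 10) := mul_le_mul_of_nonneg_left hη2 hkp.le
  have h13 : 0 ≤ k * ε := by positivity
  linarith

end Pool.Agent.H623.TP
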