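import Pool.Agent.H623.TP.Defs

set_option autoImplicit false

namespace Pool.Agent.H623.TP

open Finset

namespace MODE

/-- the ratio of two neighbouring terms -/
theorem ratio (p : ℝ) {k j : ℕ} (hj : j < k) :
    bep p k (j + 1) * ((j + 1 : ℝ) * (1 - p)) = bep p k j * ((k - j : ℝ) * p) := by
  unfold bep
  have h1 : (k.choose (j + 1) : ℝ) * (j + 1) = k.choose j * (k - j) := by
    have h := Nat.choose_succ_right_eq k j
    have h2 : ((k.choose (j + 1) * (j + 1) : ℕ) : ℝ) = ((k.choose j * (k - j) : ℕ) : ℝ) := by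
      rw [h]
    push_cast [Nat.cast_sub hj.le] at h2
    exact h2
  have h3 : k - j = (k - (j + 1)) + 1 := by omega
  rw [h3, pow_succ (1 - p), pow_succ p]
  calc (k.choose (j + 1) : ℝ) * (p ^ j * p) * (1 - p) ^ (k - (j + 1)) * ((j + 1) * (1 - p))
      = ((k.choose (j + 1) : ℝ) * (j + 1)) * (p ^ j * p * (1 - p) ^ (k - (j + 1)) * (1 - p)) := by
        ring
    _ = (k.choose j * (k - j)) * (p ^ j * p * (1 - p) ^ (k - (j + 1)) * (1 - p)) := by rw [h1]
    _ = _ := by ring

theorem bep_nonneg {p : ℝ} (h0 : 0 ≤ p) (h1 : p ≤ 1) (k j : ℕ) : 0 ≤ bep p k j := by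
  unfold bep
  have : 0 ≤ 1 - p := by linarith
  positivity

/-- the terms decrease to the right of the mean -/
theorem right {k i j : ℕ} (hk : 1 ≤ k) (hik : i < k) (hij : i ≤ j) (hj : j < k) :
    bep ((i : ℝ) / k) k (j + 1) ≤ bep ((i : ℝ) / k) k j := by
  have hk0 : (0 : ℝ) < k := by exact_mod_cast hk
  set p : ℝ := (i : ℝ) / k with hp
  have hp0 : 0 ≤ p := by positivity
  have hp1 : p < 1 := by
    rw [hp, div_lt_one hk0]
    exact_mod_cast hik
  have hkp : (k : ℝ) * p = i := by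
    rw [hp]
    field_simp
  have hr := ratio p hj
  have hij' : (i : ℝ) ≤ j := by exact_mod_cast hij
  have hle : (k - j : ℝ) * p ≤ (j + 1 : ℝ) * (1 - p) := by nlinarith
  have hpos : 0 < (j + 1 : ℝ) * (1 - p) := mul_pos (by positivity) (by linarith)
  have h0 := bep_nonneg hp0 hp1.le k j
  have h1 : bep p k (j + 1) * ((j + 1 : ℝ) * (1 - p)) ≤ bep p k j * ((j + 1 : ℝ) * (1 - p)) := by
    rw [hr]
    exact mul_le_mul_of_nonneg_left hle h0
  exact le_of_mul_le_mul_right h1 hpos

/-- the terms increase to the left of the mean -/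
theorem left {k i j : ℕ} (hk : 1 ≤ k) (hik : i < k) (hij : j < i) :
    bep ((i : ℝ) / k) k j ≤ bep ((i : ℝ) / k) k (j + 1) := by
  have hk0 : (0 : ℝ) < k := by exact_mod_cast hk
  set p : ℝ := (i : ℝ) / k with hp
  have hi0 : (0 : ℝ) < i := by exact_mod_cast (Nat.zero_le j).trans_lt hij
  have hp0 : 0 < p := by positivity
  have hp1 : p < 1 := by
    rw [hp, div_lt_one hk0]
    exact_mod_cast hik
  have hkp : (k : ℝ) * p = i := by
    rw [hp]
    field_simp
  have hr := ratio p (hij.trans hik)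
  have hij' : (j : ℝ) + 1 ≤ i := by exact_mod_cast hij
  have hik' : (i : ℝ) < k := by exact_mod_cast hik
  have hle : (j + 1 : ℝ) * (1 - p) ≤ (k - j : ℝ) * p := by nlinarith
  have hpos : 0 < (k - j : ℝ) * p := mul_pos (by linarith) hp0
  have h0 := bep_nonneg hp0.le hp1.le k (j + 1)
  have h1 : bep p k j * ((k - j : ℝ) * p) ≤ bep p k (j + 1) * ((k - j : ℝ) * p) := by
    rw [← hr]
    exact mul_le_mul_of_nonneg_left hle h0
  exact le_of_mul_le_mul_right h1 hpos

theorem max_right {k i : ℕ} (hk : 1 ≤ k) (hik : i < k) (d : ℕ) (hd : i + d ≤ k) :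
    bep ((i : ℝ) / k) k (i + d) ≤ bep ((i : ℝ) / k) k i := by
  induction d with
  | zero => exact le_rfl
  | succ d ih =>
    refine le_trans ?_ (ih (by omega))
    have := right hk hik (Nat.le_add_right i d) (show i + d < k by omega)
    rw [← add_assoc]
    exact this

theorem max_left {k i : ℕ} (hk : 1 ≤ k) (hik : i < k) (d : ℕ) (hd : d ≤ i) :
    bep ((i : ℝ) / k) k (i - d) ≤ bep ((i : ℝ) / k) k i := by
  induction d with
  | zero => exact le_rfl
  | succ d ih =>
    refine le_trans ?_ (ih (by omega))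
    have := left hk hik (show i - (d + 1) < i by omega)
    have h2 : i - (d + 1) + 1 = i - d := by omega
    rw [h2] at this
    exact this

theorem max_term {k i : ℕ} (hk : 1 ≤ k) (hik : i < k) (j : ℕ) (hj : j ≤ k) :
    bep ((i : ℝ) / k) k j ≤ bep ((i : ℝ) / k) k i := by
  rcases le_total i j with h | h
  · obtain ⟨d, rfl⟩ := Nat.exists_eq_add_of_le h
    exact max_right hk hik d hj
  · have := max_left hk hik (i - j) (Nat.sub_le _ _)
    rwa [Nat.sub_sub_self h] at this

theorem bern (p : ℝ) (k j : ℕ) : (bernsteinPolynomial ℝ k j).eval p = bep p k j := by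
  unfold bep bernsteinPolynomial
  simp

theorem sum_one (p : ℝ) (k : ℕ) : ∑ j ∈ range (k + 1), bep p k j = 1 := by
  have h := congrArg (Polynomial.eval p) (bernsteinPolynomial.sum ℝ k)
  rw [Polynomial.eval_finsetSum, Polynomial.eval_one] at h
  rw [← h]
  exact Finset.sum_congr rfl fun j _ => (bern p k j).symm

theorem var (p : ℝ) (k : ℕ) :
    ∑ j ∈ range (k + 1), (k * p - j) ^ 2 * bep p k j = k * p * (1 - p) := by
  have h := congrArg (Polynomial.eval p) (bernsteinPolynomial.variance ℝ k)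
  rw [Polynomial.eval_finsetSum] at h
  simp only [Polynomial.eval_mul, Polynomial.eval_pow, Polynomial.eval_sub,
    Polynomial.eval_X, Polynomial.eval_natCast, Polynomial.eval_one, nsmul_eq_mul, bern] at h
  exact h

end MODE

open MODE in
/-- (MODE) -/
theorem t_MODE : S_MODE := by
  intro k i hk hi hik
  have hk0 : (0 : ℝ) < k := by exact_mod_cast hk
  set p : ℝ := (i : ℝ) / k with hp
  have hp0 : 0 ≤ p := by positivity
  have hp1 : p < 1 := by
    rw [hp, div_lt_one hk0]
    exact_mod_cast hik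
  have hkp : (k : ℝ) * p = i := by
    rw [hp]
    field_simp
  have hv := var p k
  rw [hkp] at hv
  have hs := sum_one p k
  -- the terms far from the mean
  set F := (range (k + 1)).filter (fun j : ℕ => (k : ℤ) < ((i : ℤ) - (j : ℤ)) ^ 2) with hF
  set N := (range (k + 1)).filter (fun j : ℕ => ¬ (k : ℤ) < ((i : ℤ) - (j : ℤ)) ^ 2) with hN
  have hsplit : ∑ j ∈ F, bep p k j + ∑ j ∈ N, bep p k j = 1 := by
    rw [← hs, hF, hN]
    exact Finset.sum_filter_add_sum_filter_not _ _ _
  have hfar : (k : ℝ) * ∑ j ∈ F, bep p k j ≤ k * (1 / 4) := by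
    have h1 : (k : ℝ) * ∑ j ∈ F, bep p k j ≤ ∑ j ∈ F, ((i : ℝ) - j) ^ 2 * bep p k j := by
      rw [Finset.mul_sum]
      refine Finset.sum_le_sum fun j hj => ?_
      have h2 := (Finset.mem_filter.1 hj).2
      have h3 : (k : ℝ) ≤ ((i : ℝ) - j) ^ 2 := by
        have : ((k : ℤ) : ℝ) ≤ ((((i : ℤ) - j) ^ 2 : ℤ) : ℝ) := by exact_mod_cast h2.le
        push_cast at this
        exact this
      exact mul_le_mul_of_nonneg_right h3 (bep_nonneg hp0 hp1.le k j)
    have h4 : ∑ j ∈ F, ((i : ℝ) - j) ^ 2 * bep p k j ≤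
        ∑ j ∈ range (k + 1), ((i : ℝ) - j) ^ 2 * bep p k j :=
      Finset.sum_le_sum_of_subset_of_nonneg (Finset.filter_subset _ _) fun j _ _ =>
        mul_nonneg (sq_nonneg _) (bep_nonneg hp0 hp1.le k j)
    have h5 : (i : ℝ) * (1 - p) ≤ k * (1 / 4) := by
      rw [← hkp]
      nlinarith [sq_nonneg (p - 1 / 2)]
    linarith
  have hfar' : ∑ j ∈ F, bep p k j ≤ 1 / 4 := le_of_mul_le_mul_left hfar hk0
  have hnear : 3 / 4 ≤ ∑ j ∈ N, bep p k j := by linarith
  have hub : ∑ j ∈ N, bep p k j ≤ (N.card : ℝ) * bep p k i := by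
    have : ∑ j ∈ N, bep p k j ≤ ∑ _j ∈ N, bep p k i := by
      refine Finset.sum_le_sum fun j hj => ?_
      have h1 := Finset.mem_range.1 (Finset.mem_filter.1 hj).1
      exact max_term hk hik j (by omega)
    rwa [Finset.sum_const, nsmul_eq_mul] at this
  have hcard : (N.card : ℝ) ≤ 3 * Real.sqrt k := by
    have h1 : N ⊆ Icc (i - Nat.sqrt k) (i + Nat.sqrt k) := by
      intro j hj
      have h2 := (Finset.mem_filter.1 hj).2
      push Not at h2
      have h3 : |(i : ℤ) - j| ≤ (Nat.sqrt k : ℤ) := by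
        by_contra hcon
        push Not at hcon
        have h4 : ((Nat.sqrt k : ℤ) + 1) ≤ |(i : ℤ) - j| := hcon
        have h5 : ((Nat.sqrt k : ℤ) + 1) ^ 2 ≤ |(i : ℤ) - j| ^ 2 :=
          pow_le_pow_left₀ (by positivity) h4 2
        rw [sq_abs] at h5
        have h6 : (k : ℤ) < ((Nat.sqrt k : ℤ) + 1) ^ 2 := by
          have := Nat.lt_succ_sqrt k
          rw [sq]
          exact_mod_cast this
        linarith
      rw [abs_le] at h3
      rw [Finset.mem_Icc]
      omega
    have h2 : N.card ≤ 2 * Nat.sqrt k + 1 := by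
      refine (Finset.card_le_card h1).trans ?_
      rw [Nat.card_Icc]
      omega
    have h3 : (Nat.sqrt k : ℝ) ≤ Real.sqrt k := Real.nat_sqrt_le_real_sqrt
    have h4 : (1 : ℝ) ≤ Real.sqrt k := by
      rw [Real.one_le_sqrt]
      exact_mod_cast hk
    have h5 : (N.card : ℝ) ≤ 2 * Nat.sqrt k + 1 := by exact_mod_cast h2
    linarith
  have hsq : 0 < Real.sqrt k := Real.sqrt_pos.2 hk0
  have hb := bep_nonneg hp0 hp1.le k i
  have hfin : 3 / 4 ≤ 3 * Real.sqrt k * bep p k i :=
    hnear.trans (hub.trans (mul_le_mul_of_nonneg_right hcard hb))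
  rw [div_le_iff₀ (by positivity)]
  linarith

end Pool.Agent.H623.TP
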