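import Pool.Agent.H623.TP.Defs

/-!
# Positivity almost everywhere on the 3-adic units (POS; written by helper97)
-/

set_option autoImplicit false

namespace Pool.Agent.H623.TP

open Finset Filter Topology MeasureTheory
open Pool.Agent.X16.SL (ms3 bs3 mu3 cl mem_cl_iff meas_cl mu_cl_trans real_cl)
open scoped ENNReal

attribute [local instance] ms3
attribute [local instance] bs3

namespace POS

/-! ### `2` is a primitive root modulo the powers of `3` -/

lemma two_pow_lte (n : ℕ) : ∃ u : ℤ, (2 : ℤ) ^ (2 * 3 ^ n) = 1 + 3 ^ (n + 1) * u ∧ ¬ (3 : ℤ) ∣ u := by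
  induction n with
  | zero => exact ⟨1, by norm_num, by norm_num⟩
  | succ n ih =>
    obtain ⟨u, hu, hu3⟩ := ih
    refine ⟨u + 3 * (3 ^ n * u ^ 2 + 3 ^ (2 * n) * u ^ 3), ?_, ?_⟩
    · have h1 : (2 : ℤ) ^ (2 * 3 ^ (n + 1)) = ((2 : ℤ) ^ (2 * 3 ^ n)) ^ 3 := by
        rw [← pow_mul]
        congr 1
        ring
      rw [h1, hu]
      have h2 : (3 : ℤ) ^ (n + 1 + 1) = 9 * 3 ^ n := by ring
      have h3 : (3 : ℤ) ^ (n + 1) = 3 * 3 ^ n := by ring
      have h4 : (3 : ℤ) ^ (2 * n) = (3 ^ n) ^ 2 := by rw [← pow_mul, mul_comm]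
      rw [h2, h3, h4]
      ring
    · intro h
      exact hu3 ((dvd_add_left (Dvd.intro _ rfl)).1 h)

lemma prim (n : ℕ) (x : ℤ) (hx : ¬ (3 : ℤ) ∣ x) : ∃ j : ℕ, (3 : ℤ) ^ n ∣ 2 ^ j - x := by
  induction n with
  | zero => exact ⟨0, by simp⟩
  | succ n ih =>
    rcases Nat.eq_zero_or_pos n with rfl | hn
    · have h1 : x % 3 = 1 ∨ x % 3 = 2 := by omega
      rcases h1 with h1 | h1
      · exact ⟨0, by norm_num; omega⟩
      · exact ⟨1, by norm_num; omega⟩
    · obtain ⟨j, m, hm⟩ := ih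
      obtain ⟨n, rfl⟩ := Nat.exists_eq_add_of_le' hn
      obtain ⟨u, hu, hu3⟩ := two_pow_lte n
      have h2j : ¬ (3 : ℤ) ∣ 2 ^ j := by
        intro h
        have := Int.Prime.dvd_pow' (p := 3) (by norm_num) h
        norm_num at this
      have hw : ¬ (3 : ℤ) ∣ 2 ^ j * u := by
        intro h
        rcases (Int.prime_three).dvd_or_dvd h with h' | h'
        · exact h2j h'
        · exact hu3 h'
      obtain ⟨w, hw'⟩ : ∃ w : ℤ, w = 2 ^ j * u := ⟨_, rfl⟩
      rw [← hw'] at hw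
      -- choose `i` with `m + i w` divisible by `3`
      have hi : ∃ i : ℕ, (3 : ℤ) ∣ m + i * w := by
        have h1 : w % 3 = 1 ∨ w % 3 = 2 := by omega
        have h2 : m % 3 = 0 ∨ m % 3 = 1 ∨ m % 3 = 2 := by omega
        rcases h2 with h2 | h2 | h2
        · exact ⟨0, by push_cast; omega⟩
        · rcases h1 with h1 | h1
          · exact ⟨2, by push_cast; omega⟩
          · exact ⟨1, by push_cast; omega⟩
        · rcases h1 with h1 | h1
          · exact ⟨1, by push_cast; omega⟩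
          · exact ⟨2, by push_cast; omega⟩
      obtain ⟨i, q, hq⟩ := hi
      have hpow : ∀ i : ℕ, ∃ r : ℤ, (1 + (3 : ℤ) ^ (n + 1) * u) ^ i =
          1 + 3 ^ (n + 1) * (i * u) + 3 ^ (n + 2) * r := by
        intro i
        induction i with
        | zero => exact ⟨0, by simp⟩
        | succ i ih =>
          obtain ⟨r, hr⟩ := ih
          refine ⟨r + 3 ^ n * (i * u ^ 2) + 3 ^ (n + 1) * u * r, ?_⟩
          rw [pow_succ, hr]
          push_cast
          ring
      obtain ⟨r, hr⟩ := hpow i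
      refine ⟨j + 2 * 3 ^ n * i, q + 2 ^ j * r, ?_⟩
      rw [pow_add, pow_mul, hu, hr]
      have h5 : (3 : ℤ) ^ (n + 2) = 3 * 3 ^ (n + 1) := by ring
      rw [h5]
      have hm' : (2 : ℤ) ^ j - x = 3 ^ (n + 1) * m := hm
      have h7 : (2 : ℤ) ^ j = x + 3 ^ (n + 1) * m := by linarith
      have h8 : (3 : ℤ) ^ (n + 1) * (m + i * (2 ^ j * u)) = 3 ^ (n + 1) * (3 * q) := by
        rw [← hw', hq]
      calc (2 : ℤ) ^ j * (1 + 3 ^ (n + 1) * (i * u) + 3 * 3 ^ (n + 1) * r) - x =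
          (2 ^ j - x - 3 ^ (n + 1) * m) + 3 ^ (n + 1) * (m + i * (2 ^ j * u)) +
            3 * 3 ^ (n + 1) * (2 ^ j * r) := by ring
        _ = 3 * 3 ^ (n + 1) * (q + 2 ^ j * r) := by
            rw [h8, h7]
            ring

/-! ### Comparison of measures by the masses of the balls -/

lemma cl_eq {n : ℕ} {x y : ℤ_[3]} (h : (3 : ℤ_[3]) ^ n ∣ x - y) : cl n x = cl n y := by
  ext z
  show (3 : ℤ_[3]) ^ n ∣ z - x ↔ (3 : ℤ_[3]) ^ n ∣ z - y
  have e : z - y = (z - x) + (x - y) := by ring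
  rw [e]
  exact (dvd_add_left h).symm

lemma cl_appr (n : ℕ) (z : ℤ_[3]) : cl n z = cl n ((z.appr n : ℕ) : ℤ_[3]) := by
  refine cl_eq ?_
  have h1 := PadicInt.appr_spec n z
  rw [Ideal.mem_span_singleton] at h1
  exact_mod_cast h1

lemma self_mem_cl (n : ℕ) (z : ℤ_[3]) : z ∈ cl n z := by
  show (3 : ℤ_[3]) ^ n ∣ z - z
  rw [sub_self]
  exact dvd_zero _

lemma cl_anti {n m : ℕ} (h : n ≤ m) (z : ℤ_[3]) : cl m z ⊆ cl n z :=
  fun _ hw => (pow_dvd_pow _ h).trans hw

lemma pw_disj (n : ℕ) (s : Finset ℕ) (hs : s ⊆ range (3 ^ n)) :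
    Set.PairwiseDisjoint (↑s : Set ℕ) (fun k : ℕ => cl n (k : ℤ_[3])) := by
  intro k hk l hl hkl
  rw [Function.onFun, Set.disjoint_left]
  intro z h1 h2
  have h3 := (mem_cl_iff n k (mem_range.1 (hs hk)) z).1 h1
  have h4 := (mem_cl_iff n l (mem_range.1 (hs hl)) z).1 h2
  exact hkl (h3.symm.trans h4)

lemma open_nhd {O : Set ℤ_[3]} (hO : IsOpen O) {z : ℤ_[3]} (hz : z ∈ O) :
    ∃ n : ℕ, cl (n + 1) z ⊆ O := by
  obtain ⟨ε, hε, hb⟩ := Metric.isOpen_iff.1 hO z hz
  obtain ⟨n, hn⟩ := exists_pow_lt_of_lt_one hε (show (1 / 3 : ℝ) < 1 by norm_num)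
  refine ⟨n, fun w hw => hb ?_⟩
  rw [Metric.mem_ball, dist_eq_norm]
  have h1 := PadicInt.norm_le_pow_iff_mem_span_pow (p := 3) (w - z) (n + 1)
  rw [Ideal.mem_span_singleton] at h1
  have hw' : (3 : ℤ_[3]) ^ (n + 1) ∣ w - z := hw
  have h2 : ‖w - z‖ ≤ ((3 : ℕ) : ℝ) ^ (-((n + 1 : ℕ) : ℤ)) := h1.2 (by exact_mod_cast hw')
  refine lt_of_le_of_lt h2 (lt_of_le_of_lt ?_ hn)
  rw [zpow_neg, zpow_natCast, one_div, inv_pow]
  refine inv_anti₀ (by positivity) ?_
  push_cast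
  exact pow_le_pow_right₀ (by norm_num) (Nat.le_succ n)

lemma open_le {ν₁ ν₂ : Measure ℤ_[3]}
    (h : ∀ n : ℕ, 1 ≤ n → ∀ k : ℕ, k < 3 ^ n → ν₁ (cl n (k : ℤ_[3])) ≤ ν₂ (cl n (k : ℤ_[3])))
    {O : Set ℤ_[3]} (hO : IsOpen O) : ν₁ O ≤ ν₂ O := by
  classical
  set P : ℕ → Set ℤ_[3] := fun n => {z | cl (n + 1) z ⊆ O} with hP
  have hPO : ∀ n, P n ⊆ O := fun n z hz => hz (self_mem_cl _ z)
  have hmono : Monotone P := fun n m hnm z hz => (cl_anti (by omega) z).trans hz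
  have hU : O = ⋃ n, P n := by
    refine Set.Subset.antisymm (fun z hz => ?_) (Set.iUnion_subset hPO)
    obtain ⟨n, hn⟩ := open_nhd hO hz
    exact Set.mem_iUnion.2 ⟨n, hn⟩
  have hfin : ∀ n, P n = ⋃ k ∈ (range (3 ^ (n + 1))).filter
      (fun k : ℕ => cl (n + 1) (k : ℤ_[3]) ⊆ O), cl (n + 1) (k : ℤ_[3]) := by
    intro n
    ext z
    rw [Set.mem_iUnion₂]
    constructor
    · intro hz
      refine ⟨z.appr (n + 1), ?_, ?_⟩
      · rw [mem_filter, mem_range, ← cl_appr]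
        exact ⟨PadicInt.appr_lt z (n + 1), hz⟩
      · rw [← cl_appr]
        exact self_mem_cl _ z
    · rintro ⟨k, hk, hz⟩
      rw [mem_filter] at hk
      show cl (n + 1) z ⊆ O
      rw [cl_eq hz]
      exact hk.2
  conv_lhs => rw [hU]
  rw [hmono.directed_le.measure_iUnion]
  refine iSup_le fun n => ?_
  refine le_trans ?_ (measure_mono (hPO n))
  rw [hfin n, measure_biUnion_finset (μ := ν₂) (pw_disj (n + 1) _ (filter_subset _ _))
    (fun k _ => meas_cl _ _)]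
  refine (measure_biUnion_finset_le _ _).trans (Finset.sum_le_sum fun k hk => ?_)
  rw [mem_filter] at hk
  exact h (n + 1) (by omega) k (mem_range.1 hk.1)

lemma le_of_balls {ν₁ ν₂ : Measure ℤ_[3]} [IsFiniteMeasure ν₂]
    (h : ∀ n : ℕ, 1 ≤ n → ∀ k : ℕ, k < 3 ^ n → ν₁ (cl n (k : ℤ_[3])) ≤ ν₂ (cl n (k : ℤ_[3]))) :
    ν₁ ≤ ν₂ := by
  refine Measure.le_iff.2 fun s _ => ?_
  refine ENNReal.le_of_forall_pos_le_add fun ε hε _ => ?_
  obtain ⟨O, hsO, hO, hle⟩ := s.exists_isOpen_le_add ν₂ (ε := (ε : ℝ≥0∞))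
    (by exact_mod_cast hε.ne')
  exact (measure_mono hsO).trans ((open_le h hO).trans hle)

lemma eq_of_balls {ν₁ ν₂ : Measure ℤ_[3]} [IsFiniteMeasure ν₁] [IsFiniteMeasure ν₂]
    (h : ∀ n : ℕ, 1 ≤ n → ∀ k : ℕ, k < 3 ^ n → ν₁ (cl n (k : ℤ_[3])) = ν₂ (cl n (k : ℤ_[3]))) :
    ν₁ = ν₂ :=
  le_antisymm (le_of_balls fun n hn k hk => (h n hn k hk).le)
    (le_of_balls fun n hn k hk => (h n hn k hk).ge)

lemma split (ρ : Measure ℤ_[3]) (n : ℕ) :
    ρ Set.univ = ∑ k ∈ range (3 ^ n), ρ (cl n (k : ℤ_[3])) := by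
  have h1 : (Set.univ : Set ℤ_[3]) = ⋃ k ∈ range (3 ^ n), cl n (k : ℤ_[3]) := by
    refine (Set.eq_univ_of_forall fun z => ?_).symm
    refine Set.mem_iUnion₂.2 ⟨z.appr n, mem_range.2 (PadicInt.appr_lt z n), ?_⟩
    rw [← cl_appr]
    exact self_mem_cl _ z
  rw [h1]
  exact measure_biUnion_finset (pw_disj n _ (Finset.Subset.refl _)) (fun k _ => meas_cl _ _)

/-! ### Multiplication by `2` -/

lemma exists_v : ∃ v : ℤ_[3], 2 * v = 1 := by
  have h1 : ‖(2 : ℤ_[3])‖ = 1 := by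
    refine le_antisymm (PadicInt.norm_le_one _) (not_lt.1 fun h => ?_)
    have h2 := (PadicInt.norm_int_lt_one_iff_dvd (p := 3) 2).1 (by exact_mod_cast h)
    norm_num at h2
  obtain ⟨v, hv⟩ := (PadicInt.isUnit_iff.2 h1).exists_right_inv
  exact ⟨v, hv⟩

lemma pre_cl {v : ℤ_[3]} (hv : 2 * v = 1) (n : ℕ) (x : ℤ_[3]) :
    (fun z => v * z) ⁻¹' (cl n x) = cl n (2 * x) := by
  ext z
  show (3 : ℤ_[3]) ^ n ∣ v * z - x ↔ (3 : ℤ_[3]) ^ n ∣ z - 2 * x
  constructor
  · intro h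
    have h1 : z - 2 * x = 2 * (v * z - x) := by linear_combination (-z) * hv
    rw [h1]
    exact Dvd.dvd.mul_left h 2
  · intro h
    have h1 : v * z - x = v * (z - 2 * x) := by linear_combination x * hv
    rw [h1]
    exact Dvd.dvd.mul_left h v

lemma meas_v (v : ℤ_[3]) : Measurable fun z : ℤ_[3] => v * z :=
  (continuous_const.mul continuous_id).measurable

lemma map_v {v : ℤ_[3]} (hv : 2 * v = 1) : Measure.map (fun z => v * z) mu3 = mu3 := by
  have : IsFiniteMeasure (Measure.map (fun z => v * z) mu3) := inferInstance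
  refine eq_of_balls fun n _ k _ => ?_
  rw [Measure.map_apply (meas_v v) (meas_cl _ _), pre_cl hv, mu_cl_trans, mu_cl_trans n (k : ℤ_[3])]

lemma three_dvd_v {v : ℤ_[3]} (hv : 2 * v = 1) (z : ℤ_[3]) : (3 : ℤ_[3]) ∣ v * z ↔ (3 : ℤ_[3]) ∣ z := by
  constructor
  · intro h
    have h1 : z = 2 * (v * z) := by linear_combination (-z) * hv
    rw [h1]
    exact Dvd.dvd.mul_left h 2
  · intro h
    exact Dvd.dvd.mul_left h v

lemma dvd_of_mem_cl {n : ℕ} (hn : 1 ≤ n) {x z : ℤ_[3]} (hz : z ∈ cl n x) :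
    (3 : ℤ_[3]) ∣ z ↔ (3 : ℤ_[3]) ∣ x := by
  have h1 : (3 : ℤ_[3]) ∣ z - x := by
    refine dvd_trans ?_ hz
    conv_lhs => rw [← pow_one (3 : ℤ_[3])]
    exact pow_dvd_pow _ hn
  constructor
  · intro h
    have := dvd_sub h h1
    rwa [sub_sub_cancel] at this
  · intro h
    have := dvd_add h1 h
    rwa [sub_add_cancel] at this

lemma int_dvd (x : ℤ) : (3 : ℤ_[3]) ∣ (x : ℤ_[3]) ↔ (3 : ℤ) ∣ x := by
  have := PadicInt.pow_p_dvd_int_iff (p := 3) 1 x
  rw [pow_one, pow_one] at this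
  exact_mod_cast this

lemma units_meas : MeasurableSet {z : ℤ_[3] | ¬ (3 : ℤ_[3]) ∣ z} := by
  have : {z : ℤ_[3] | ¬ (3 : ℤ_[3]) ∣ z} = (cl 1 0)ᶜ := by
    ext z
    simp [cl]
  rw [this]
  exact (meas_cl 1 0).compl

end POS

open POS

theorem t_POS : S_POS := by
  intro f c hf hf0 hc hf3 hfi hball
  obtain ⟨v, hv⟩ := exists_v
  set U : Set ℤ_[3] := {z : ℤ_[3] | ¬ (3 : ℤ_[3]) ∣ z} with hU
  have hUm : MeasurableSet U := units_meas
  set F : ℤ_[3] → ℝ≥0∞ := fun z => ENNReal.ofReal (f z) with hF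
  have hFm : AEMeasurable F mu3 := hf.1.aemeasurable.ennreal_ofReal
  set ν : Measure ℤ_[3] := mu3.withDensity F with hν
  have hνfin : IsFiniteMeasure ν := by
    refine isFiniteMeasure_withDensity ?_
    rw [← ofReal_integral_eq_lintegral_ofReal hf (Eventually.of_forall hf0)]
    exact ENNReal.ofReal_ne_top
  have hνball : ∀ s, MeasurableSet s → ν s = ENNReal.ofReal (∫ z in s, f z ∂mu3) := by
    intro s hs
    rw [hν, withDensity_apply _ hs,
      ← ofReal_integral_eq_lintegral_ofReal hf.integrableOn (Eventually.of_forall hf0)]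
  -- comparison with the image under the multiplication
  have hcomp : ENNReal.ofReal c • Measure.map (fun z => v * z) ν ≤ ν := by
    refine le_of_balls fun n hn k hk => ?_
    rw [Measure.smul_apply, Measure.map_apply (meas_v v) (meas_cl _ _), pre_cl hv, smul_eq_mul]
    by_cases h3 : (3 : ℤ) ∣ (k : ℤ)
    · have h4 : ν (cl n (2 * (k : ℤ_[3]))) = 0 := by
        rw [hνball _ (meas_cl _ _)]
        have h5 : ∫ z in cl n (2 * (k : ℤ_[3])), f z ∂mu3 = 0 := by
          rw [setIntegral_congr_fun (g := fun _ => (0 : ℝ)) (meas_cl _ _), integral_zero]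
          intro z hz
          refine hf3 z ((dvd_of_mem_cl hn hz).2 ?_)
          refine Dvd.dvd.mul_left ?_ 2
          have := (int_dvd (k : ℤ)).2 h3
          exact_mod_cast this
        rw [h5, ENNReal.ofReal_zero]
      rw [h4, mul_zero]
      exact zero_le
    · have h4 := hball n (k : ℤ) hn h3
      rw [hνball _ (meas_cl _ _), hνball _ (meas_cl _ _), ← ENNReal.ofReal_mul hc.le]
      refine ENNReal.ofReal_le_ofReal ?_
      have e1 : cl n (2 * (k : ℤ_[3])) = cl n ((2 * (k : ℤ) : ℤ) : ℤ_[3]) := by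
        rw [Int.cast_mul, Int.cast_natCast, Int.cast_ofNat]
      have e2 : cl n (k : ℤ_[3]) = cl n (((k : ℤ)) : ℤ_[3]) := by
        rw [Int.cast_natCast]
      rw [e1, e2]
      exact h4
  -- the zero set
  set fm : ℤ_[3] → ℝ := hf.1.mk f with hfm
  have hfmm : Measurable fm := hf.1.stronglyMeasurable_mk.measurable
  have hfae : f =ᵐ[mu3] fm := hf.1.ae_eq_mk
  set Z : Set ℤ_[3] := U ∩ {z | fm z ≤ 0} with hZ
  have hZm : MeasurableSet Z := hUm.inter (measurableSet_le hfmm measurable_const)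
  have hνZ : ν Z = 0 := by
    rw [hν, withDensity_apply _ hZm, lintegral_eq_zero_iff' hFm.restrict]
    rw [Filter.EventuallyEq, ae_restrict_iff' hZm]
    filter_upwards [hfae] with z hz hzZ
    show ENNReal.ofReal (f z) = 0
    rw [ENNReal.ofReal_eq_zero, hz]
    exact hzZ.2
  set Z2 : Set ℤ_[3] := (fun z => v * z) ⁻¹' Z with hZ2
  have hZ2m : MeasurableSet Z2 := meas_v v hZm
  have hνZ2 : ν Z2 = 0 := by
    have h1 := hcomp Z
    rw [hνZ, Measure.smul_apply, Measure.map_apply (meas_v v) hZm, smul_eq_mul,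
      nonpos_iff_eq_zero, mul_eq_zero] at h1
    rcases h1 with h1 | h1
    · rw [ENNReal.ofReal_eq_zero] at h1
      linarith
    · exact h1
  have hsub : Z2 ≤ᵐ[mu3] Z := by
    rw [hν, withDensity_apply _ hZ2m, lintegral_eq_zero_iff' hFm.restrict, Filter.EventuallyEq,
      ae_restrict_iff' hZ2m] at hνZ2
    filter_upwards [hνZ2, hfae] with z h1 h2 hz
    have h3 : ENNReal.ofReal (f z) = 0 := h1 hz
    rw [ENNReal.ofReal_eq_zero, h2] at h3
    refine ⟨fun h4 => ?_, h3⟩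
    exact hz.1 ((three_dvd_v hv z).2 h4)
  have hmuZ2 : mu3 Z2 = mu3 Z := by
    conv_rhs => rw [← map_v hv]
    rw [Measure.map_apply (meas_v v) hZm]
  have hae : Z2 =ᵐ[mu3] Z :=
    ae_eq_of_ae_subset_of_measure_ge hsub hmuZ2.ge hZ2m.nullMeasurableSet (measure_ne_top _ _)
  -- invariance of the masses
  have hinv : ∀ (n : ℕ) (x : ℤ_[3]), mu3 (Z ∩ cl n (2 * x)) = mu3 (Z ∩ cl n x) := by
    intro n x
    have h1 : mu3 (Z ∩ cl n (2 * x)) = mu3 (Z2 ∩ cl n (2 * x)) :=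
      measure_congr (hae.symm.inter (Filter.EventuallyEq.refl _ _))
    rw [h1, ← pre_cl hv, hZ2, ← Set.preimage_inter,
      ← Measure.map_apply (meas_v v) (hZm.inter (meas_cl _ _)), map_v hv]
  have hconst : ∀ (n : ℕ) (x : ℤ), ¬ (3 : ℤ) ∣ x →
      mu3 (Z ∩ cl n (x : ℤ_[3])) = mu3 (Z ∩ cl n 1) := by
    intro n x hx
    obtain ⟨j, hj⟩ := prim n x hx
    have h1 : cl n (x : ℤ_[3]) = cl n (2 ^ j) := by
      refine (cl_eq ?_).symm
      have h2 := (PadicInt.pow_p_dvd_int_iff (p := 3) n (2 ^ j - x)).2 (by exact_mod_cast hj)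
      push_cast at h2
      exact h2
    rw [h1]
    clear hj h1
    induction j with
    | zero => rw [pow_zero]
    | succ j ih => rw [pow_succ', hinv, ih]
  -- proportionality
  have hprop : mu3 U • mu3.restrict Z = mu3 Z • mu3.restrict U := by
    have f1 : IsFiniteMeasure (mu3 U • mu3.restrict Z) :=
      Measure.smul_finite _ (measure_ne_top _ _)
    have f2 : IsFiniteMeasure (mu3 Z • mu3.restrict U) :=
      Measure.smul_finite _ (measure_ne_top _ _)
    refine eq_of_balls fun n hn k hk => ?_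
    have key : ∀ l : ℕ, mu3.restrict Z (cl n (l : ℤ_[3])) =
        (if (3 : ℤ) ∣ (l : ℤ) then 0 else mu3 (Z ∩ cl n 1)) ∧
        mu3.restrict U (cl n (l : ℤ_[3])) = (if (3 : ℤ) ∣ (l : ℤ) then 0 else mu3 (cl n 0)) := by
      intro l
      rw [Measure.restrict_apply (meas_cl _ _), Measure.restrict_apply (meas_cl _ _)]
      by_cases h3 : (3 : ℤ) ∣ (l : ℤ)
      · have h4 : cl n (l : ℤ_[3]) ∩ U = ∅ := by
          ext z
          simp only [Set.mem_inter_iff, Set.mem_empty_iff_false, iff_false, not_and]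
          intro hz hzU
          refine hzU ((dvd_of_mem_cl hn hz).2 ?_)
          have := (int_dvd (l : ℤ)).2 h3
          exact_mod_cast this
        have h5 : cl n (l : ℤ_[3]) ∩ Z = ∅ :=
          Set.subset_empty_iff.1 (h4 ▸ Set.inter_subset_inter_right _ Set.inter_subset_left)
        rw [if_pos h3, if_pos h3, h4, h5, measure_empty]
        exact ⟨rfl, rfl⟩
      · rw [if_neg h3, if_neg h3]
        constructor
        · rw [Set.inter_comm]
          have := hconst n (l : ℤ) h3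
          exact_mod_cast this
        · have h4 : cl n (l : ℤ_[3]) ∩ U = cl n (l : ℤ_[3]) := by
            refine Set.inter_eq_left.2 fun z hz hz3 => h3 ((int_dvd (l : ℤ)).1 ?_)
            have := (dvd_of_mem_cl hn hz).1 hz3
            exact_mod_cast this
          rw [h4, mu_cl_trans]
    have sZ : mu3 Z = ∑ l ∈ range (3 ^ n), if (3 : ℤ) ∣ (l : ℤ) then 0 else mu3 (Z ∩ cl n 1) := by
      have h1 := split (mu3.restrict Z) n
      rw [Measure.restrict_apply_univ] at h1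
      rw [h1]
      exact Finset.sum_congr rfl fun l _ => (key l).1
    have sU : mu3 U = ∑ l ∈ range (3 ^ n), if (3 : ℤ) ∣ (l : ℤ) then 0 else mu3 (cl n 0) := by
      have h1 := split (mu3.restrict U) n
      rw [Measure.restrict_apply_univ] at h1
      rw [h1]
      exact Finset.sum_congr rfl fun l _ => (key l).2
    rw [Measure.smul_apply, Measure.smul_apply, (key k).1, (key k).2, smul_eq_mul, smul_eq_mul]
    by_cases h3 : (3 : ℤ) ∣ (k : ℤ)
    · rw [if_pos h3, if_pos h3, mul_zero, mul_zero]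
    · rw [if_neg h3, if_neg h3, sZ, sU, Finset.sum_mul, Finset.sum_mul]
      refine Finset.sum_congr rfl fun l _ => ?_
      by_cases h4 : (3 : ℤ) ∣ (l : ℤ)
      · rw [if_pos h4, if_pos h4, zero_mul, zero_mul]
      · rw [if_neg h4, if_neg h4, mul_comm]
  -- conclusion
  have hdich : mu3 Z = 0 := by
    have h1 : (mu3 U • mu3.restrict Z) (U \ Z) = (mu3 Z • mu3.restrict U) (U \ Z) := by rw [hprop]
    rw [Measure.smul_apply, Measure.smul_apply, Measure.restrict_apply (hUm.diff hZm),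
      Measure.restrict_apply (hUm.diff hZm), smul_eq_mul, smul_eq_mul] at h1
    have e1 : (U \ Z) ∩ Z = ∅ := Set.sdiff_inter_self
    have e2 : (U \ Z) ∩ U = U \ Z := Set.inter_eq_left.2 Set.sdiff_subset
    rw [e1, e2, measure_empty, mul_zero] at h1
    rcases mul_eq_zero.1 h1.symm with h2 | h2
    · exact h2
    · exfalso
      refine hfi ?_
      refine integral_eq_zero_of_ae ?_
      have h3 : ∀ᵐ z ∂mu3, z ∉ U \ Z := measure_eq_zero_iff_ae_notMem.1 h2
      filter_upwards [h3, hfae] with z h4 h5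
      show f z = 0
      by_cases h6 : (3 : ℤ_[3]) ∣ z
      · exact hf3 z h6
      · have h7 : z ∈ Z := by
          by_contra h8
          exact h4 ⟨h6, h8⟩
        have h8 : fm z ≤ 0 := h7.2
        rw [← h5] at h8
        exact le_antisymm h8 (hf0 z)
  have h3 : ∀ᵐ z ∂mu3, z ∉ Z := measure_eq_zero_iff_ae_notMem.1 hdich
  filter_upwards [h3, hfae] with z h4 h5 h6
  rw [h5]
  by_contra h7
  exact h4 ⟨h6, not_lt.1 h7⟩

end Pool.Agent.H623.TP
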