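import Pool.Agent.H623.TP.T_AN
import Pool.Agent.H623.TP.T_MODE
import Pool.Agent.H623.TP.T_AVG
import Pool.Agent.H623.TP.T_GPAVG
import Pool.Agent.H623.TP.T_POS
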