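import Pool.Agent.H623.TP.C
import Pool.Agent.H623.TP.J

/-!
# The iterates graded by the number of odd steps, at a general tilt
-/

set_option autoImplicit false
set_option linter.unusedVariables false

namespace Pool.Agent.H623.TP

open Finset Pool.Agent.H320R2.PD Pool.Agent.H377R2.NK
open Pool.Agent.H623 (TS.shift_sum)
open Pool.Agent.H623.TS (Per S S_per S_mono S_aff S_B N N_nonneg N_per N_add N_congr N_smul N_tri N_comm
  N_sum_le T odds odds_succ_last odds_le Fr mem_Fr sum_Fr_succ ic ic_per P_ic dvd_two_mul_pow)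

variable {τ : ℝ} [TiltR τ]

/-- the part of `(P τ)^[k] g` of the paths with `i` odd steps -/
noncomputable def Mi (τ : ℝ) (g : ℤ → ℝ) : ℕ → ℕ → ℤ → ℝ
  | 0, 0 => g
  | 0, (_ + 1) => fun _ => 0
  | (k + 1), 0 => fun x => (1 - τ) * Mi τ g k 0 (2 * x)
  | (k + 1), (i + 1) => fun x => (1 - τ) * (Mi τ g k (i + 1) (2 * x) +
      od τ * if (3 : ℤ) ∣ 2 * x - 1 then Mi τ g k i ((2 * x - 1) / 3) else 0)

theorem Mi_zero_zero (g : ℤ → ℝ) (x : ℤ) : Mi τ g 0 0 x = g x := rfl

theorem Mi_zero_succ (g : ℤ → ℝ) (i : ℕ) (x : ℤ) : Mi τ g 0 (i + 1) x = 0 := rfl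

theorem Mi_succ_zero (g : ℤ → ℝ) (k : ℕ) (x : ℤ) : Mi τ g (k + 1) 0 x = (1 - τ) * Mi τ g k 0 (2 * x) := rfl

theorem Mi_succ_succ (g : ℤ → ℝ) (k i : ℕ) (x : ℤ) : Mi τ g (k + 1) (i + 1) x =
    (1 - τ) * (Mi τ g k (i + 1) (2 * x) + od τ * if (3 : ℤ) ∣ 2 * x - 1 then Mi τ g k i ((2 * x - 1) / 3) else 0) := rfl

theorem Mi_big {g : ℤ → ℝ} {k i : ℕ} (h : k < i) (x : ℤ) : Mi τ g k i x = 0 := by
  have hp0 : 0 < τ := Tilt.pos
  have hq0 : 0 < 1 - τ := Tilt.lt
  have ho0 : 0 < od τ := od_pos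
  induction k generalizing i x with
  | zero =>
    obtain ⟨l, rfl⟩ := Nat.exists_eq_add_of_le' h
    exact Mi_zero_succ g l x
  | succ k ih =>
    obtain ⟨l, rfl⟩ := Nat.exists_eq_add_of_le' (show 1 ≤ i by omega)
    rw [Mi_succ_succ, ih (by omega), ih (by omega)]
    simp

/-- the words: last letter -/
theorem Wn_rec {A k : ℕ} (hA : k + 1 ≤ A) (n : ℕ) (g : ℤ → ℝ) (x : ℤ) :
    Wn τ A (n + 1) (k + 1) g x = (1 - τ) * (Wn τ A (n + 1) k g (2 * x) +
      od τ * if (3 : ℤ) ∣ 2 * x - 1 then Wn τ A n k g ((2 * x - 1) / 3) else 0) := by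
  have hp0 : 0 < τ := Tilt.pos
  have hq0 : 0 < 1 - τ := Tilt.lt
  have ho0 : 0 < od τ := od_pos
  set F : ℕ → ℝ := fun e => if e ≤ k + 1 ∧ (3 : ℤ) ∣ 2 ^ e * x - 1 then
      (1 - τ) ^ e * od τ * Wn τ A n (k + 1 - e) g ((2 ^ e * x - 1) / 3) else 0 with hF
  have h1 : Wn τ A (n + 1) (k + 1) g x = ∑ e ∈ Icc 1 A, F e := Wn_succ A n (k + 1) g x
  have h2 := TS.shift_sum F A
  have h3 : F (A + 1) = 0 := by
    rw [hF]
    dsimp only
    rw [if_neg]
    rintro ⟨h, -⟩
    omega
  have h4 : F 1 = (1 - τ) * (od τ * if (3 : ℤ) ∣ 2 * x - 1 then Wn τ A n k g ((2 * x - 1) / 3) else 0) := by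
    rw [hF]
    dsimp only
    rw [pow_one, pow_one]
    have : 1 ≤ k + 1 := by omega
    simp only [this, true_and, Nat.add_sub_cancel]
    split_ifs <;> ring
  have h5 : ∑ e ∈ Icc 1 A, F (e + 1) = (1 - τ) * Wn τ A (n + 1) k g (2 * x) := by
    rw [Wn_succ, mul_sum]
    refine sum_congr rfl fun e _ => ?_
    rw [hF]
    dsimp only
    have e1 : (2 : ℤ) ^ (e + 1) * x = 2 ^ e * (2 * x) := by ring
    have e2 : k + 1 - (e + 1) = k - e := by omega
    have e3 : e + 1 ≤ k + 1 ↔ e ≤ k := by omega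
    rw [e1, e2]
    simp only [e3]
    split_ifs
    · ring
    · ring
  rw [h1]
  linarith

theorem Mi_eq {A k : ℕ} (hA : k ≤ A) (i : ℕ) (g : ℤ → ℝ) (x : ℤ) : Mi τ g k i x = Wn τ A i k g x := by
  have hp0 : 0 < τ := Tilt.pos
  have hq0 : 0 < 1 - τ := Tilt.lt
  have ho0 : 0 < od τ := od_pos
  induction k generalizing i x with
  | zero =>
    cases i with
    | zero => rw [Mi_zero_zero, Wn_zero]; simp
    | succ i => rw [Mi_zero_succ, Wn_big (by omega)]
  | succ k ih =>
    cases i with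
    | zero =>
      rw [Mi_succ_zero, ih (by omega), Wn_zero, Wn_zero, pow_succ (1 - τ), pow_succ (2 : ℤ)]
      have e : (2 : ℤ) ^ k * (2 * x) = 2 ^ k * 2 * x := by ring
      rw [e]
      ring
    | succ i =>
      rw [Mi_succ_succ, Wn_rec hA, ih (by omega)]
      split_ifs
      · rw [ih (by omega)]
      · rfl

/-- the sum over the grades -/
theorem sum_Mi (g : ℤ → ℝ) (k : ℕ) (x : ℤ) : ∑ i ∈ range (k + 1), Mi τ g k i x = (P τ)^[k] g x := by
  have hp0 : 0 < τ := Tilt.pos
  have hq0 : 0 < 1 - τ := Tilt.lt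
  have ho0 : 0 < od τ := od_pos
  rw [iter_words (le_refl k)]
  exact sum_congr rfl fun i _ => Mi_eq (le_refl k) i g x

theorem Mi_per {m : ℕ} {g : ℤ → ℝ} (hg : Per m g) (k i : ℕ) : Per (m + k) (Mi τ g k i) := by
  have hp0 : 0 < τ := Tilt.pos
  have hq0 : 0 < 1 - τ := Tilt.lt
  have ho0 : 0 < od τ := od_pos
  induction k generalizing i with
  | zero =>
    cases i with
    | zero => exact hg
    | succ i => intro x y; rfl
  | succ k ih =>
    cases i with
    | zero =>
      intro x y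
      rw [Mi_succ_zero, Mi_succ_zero]
      have h1 := ((ih 0).le (show m + k ≤ m + (k + 1) by omega)).smul 2 x y
      dsimp only at h1
      rw [h1]
    | succ i =>
      intro x y
      rw [Mi_succ_succ, Mi_succ_succ]
      have h1 := ((ih (i + 1)).le (show m + k ≤ m + (k + 1) by omega)).smul 2 x y
      dsimp only at h1
      rw [h1]
      have e : 2 * (x + 3 ^ (m + (k + 1)) * y) - 1 = 2 * x - 1 + 3 * (3 ^ (m + k) * (2 * y)) := by ring
      rw [e]
      by_cases h3 : (3 : ℤ) ∣ 2 * x - 1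
      · rw [if_pos h3, if_pos (dvd_add h3 (Dvd.intro _ rfl)), Int.add_mul_ediv_left _ _ (by norm_num),
          ih i]
      · rw [if_neg h3, if_neg]
        intro h4
        exact h3 ((dvd_add_left (Dvd.intro _ rfl)).1 h4)

theorem Mi_add (f g : ℤ → ℝ) (k i : ℕ) (x : ℤ) :
    Mi τ (fun x => f x + g x) k i x = Mi τ f k i x + Mi τ g k i x := by
  have hp0 : 0 < τ := Tilt.pos
  have hq0 : 0 < 1 - τ := Tilt.lt
  have ho0 : 0 < od τ := od_pos
  induction k generalizing i x with
  | zero =>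
    cases i with
    | zero => rfl
    | succ i => simp [Mi_zero_succ]
  | succ k ih =>
    cases i with
    | zero => rw [Mi_succ_zero, Mi_succ_zero, Mi_succ_zero, ih]; ring
    | succ i =>
      rw [Mi_succ_succ, Mi_succ_succ, Mi_succ_succ, ih]
      split_ifs
      · rw [ih]; ring
      · ring

theorem Mi_smul (c : ℝ) (g : ℤ → ℝ) (k i : ℕ) (x : ℤ) :
    Mi τ (fun x => c * g x) k i x = c * Mi τ g k i x := by
  have hp0 : 0 < τ := Tilt.pos
  have hq0 : 0 < 1 - τ := Tilt.lt
  have ho0 : 0 < od τ := od_pos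
  induction k generalizing i x with
  | zero =>
    cases i with
    | zero => rfl
    | succ i => simp [Mi_zero_succ]
  | succ k ih =>
    cases i with
    | zero => rw [Mi_succ_zero, Mi_succ_zero, ih]; ring
    | succ i =>
      rw [Mi_succ_succ, Mi_succ_succ, ih]
      split_ifs
      · rw [ih]; ring
      · ring

theorem Mi_sub (f g : ℤ → ℝ) (k i : ℕ) (x : ℤ) :
    Mi τ (fun x => f x - g x) k i x = Mi τ f k i x - Mi τ g k i x := by
  have hp0 : 0 < τ := Tilt.pos
  have hq0 : 0 < 1 - τ := Tilt.lt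
  have ho0 : 0 < od τ := od_pos
  have h1 : (fun x => f x - g x) = fun x => f x + (-1) * g x := by
    funext x; ring
  rw [h1, Mi_add f (fun x => -1 * g x), Mi_smul (-1) g]
  ring

theorem N_step_scale {n : ℕ} {h : ℤ → ℝ} (hh : Per n h) : N (n + 1) (fun x => (1 - τ) * h (2 * x)) =
    (1 - τ) * N n h := by
  have hp0 : 0 < τ := Tilt.pos
  have hq0 : 0 < 1 - τ := Tilt.lt
  have ho0 : 0 < od τ := od_pos
  rw [N_smul, abs_of_pos hq0]
  congr 1
  rw [N_per (n := n) (m := n + 1) (hh.smul 2) (by omega)]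
  unfold N
  congr 1
  have := S_aff hh.abs 1 0
  simp only [pow_one, zero_add] at this
  exact this

theorem N_Mi_zero {m : ℕ} {g : ℤ → ℝ} (hg : Per m g) (k : ℕ) :
    N (m + (k + 1)) (Mi τ g (k + 1) 0) = (1 - τ) * N (m + k) (Mi τ g k 0) :=
  N_step_scale (Mi_per hg k 0)

theorem N_Mi_succ {m : ℕ} {g : ℤ → ℝ} (hg : Per m g) (k i : ℕ) :
    N (m + (k + 1)) (Mi τ g (k + 1) (i + 1)) ≤
      (1 - τ) * N (m + k) (Mi τ g k (i + 1)) + τ * N (m + k) (Mi τ g k i) := by
  have hp0 : 0 < τ := Tilt.pos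
  have hq0 : 0 < 1 - τ := Tilt.lt
  have ho0 : 0 < od τ := od_pos
  have e : ∀ x, Mi τ g (k + 1) (i + 1) x = (1 - τ) * Mi τ g k (i + 1) (2 * x) +
      (3 * τ) * (if (3 : ℤ) ∣ 2 * x - 1 then Mi τ g k i ((2 * x - 1) / 3) else 0) := by
    intro x
    rw [Mi_succ_succ, ← mul_od]
    ring
  rw [N_congr e]
  refine (N_add _ _).trans ?_
  have h1 : N (m + (k + 1)) (fun x => (1 - τ) * Mi τ g k (i + 1) (2 * x)) =
      (1 - τ) * N (m + k) (Mi τ g k (i + 1)) := N_step_scale (Mi_per hg k (i + 1))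
  have h2 : N (m + (k + 1)) (fun x => (3 * τ) *
      (if (3 : ℤ) ∣ 2 * x - 1 then Mi τ g k i ((2 * x - 1) / 3) else 0)) =
      τ * N (m + k) (Mi τ g k i) := by
    rw [N_smul, abs_of_pos (by positivity : (0 : ℝ) < 3 * τ)]
    have h3 : N (m + (k + 1)) (fun x => if (3 : ℤ) ∣ 2 * x - 1 then Mi τ g k i ((2 * x - 1) / 3) else 0) =
        N (m + k) (Mi τ g k i) / 3 := by
      unfold N
      have h4 := S_B (Mi_per (τ := τ) hg k i).abs
      have h5 : (fun x : ℤ => |if (3 : ℤ) ∣ 2 * x - 1 then Mi τ g k i ((2 * x - 1) / 3) else 0|) =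
          fun x : ℤ => if (3 : ℤ) ∣ 2 * x - 1 then |Mi τ g k i ((2 * x - 1) / 3)| else 0 := by
        funext x
        split_ifs
        · rfl
        · exact abs_zero
      have e6 : m + (k + 1) = m + k + 1 := by ring
      rw [h5, e6, h4, pow_succ]
      field_simp
    rw [h3]
    ring
  rw [h1, h2]

/-- the contraction -/
theorem N_Mi {m : ℕ} {g : ℤ → ℝ} (hg : Per m g) (k i : ℕ) : N (m + k) (Mi τ g k i) ≤ bep τ k i * N m g := by
  have hp0 : 0 < τ := Tilt.pos
  have hq0 : 0 < 1 - τ := Tilt.lt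
  have ho0 : 0 < od τ := od_pos
  induction k generalizing i with
  | zero =>
    cases i with
    | zero => rw [bep_zero_zero τ, one_mul]; exact le_rfl
    | succ i =>
      rw [bep_zero_succ τ, zero_mul]
      unfold N S
      simp [Mi_zero_succ]
  | succ k ih =>
    cases i with
    | zero =>
      rw [N_Mi_zero hg, bep_succ_zero τ]
      have := mul_le_mul_of_nonneg_left (ih 0) hq0.le
      linarith
    | succ i =>
      refine (N_Mi_succ hg k i).trans ?_
      rw [bep_succ_succ τ]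
      have h6 := mul_le_mul_of_nonneg_left (ih (i + 1)) hq0.le
      have h7 := mul_le_mul_of_nonneg_left (ih i) hp0.le
      linarith

/-- the sum of the norms of the graded parts -/
noncomputable def GN (τ : ℝ) (m k : ℕ) (g : ℤ → ℝ) : ℝ := ∑ i ∈ range (k + 1), N (m + k) (Mi τ g k i)

theorem GN_succ {m : ℕ} {g : ℤ → ℝ} (hg : Per m g) (k : ℕ) : GN τ m (k + 1) g ≤ GN τ m k g := by
  have hp0 : 0 < τ := Tilt.pos
  have hq0 : 0 < 1 - τ := Tilt.lt
  have ho0 : 0 < od τ := od_pos
  unfold GN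
  rw [sum_range_succ', N_Mi_zero hg]
  have h1 : ∑ i ∈ range (k + 1), N (m + (k + 1)) (Mi τ g (k + 1) (i + 1)) ≤
      (1 - τ) * ∑ i ∈ range (k + 1), N (m + k) (Mi τ g k (i + 1)) +
      τ * ∑ i ∈ range (k + 1), N (m + k) (Mi τ g k i) := by
    rw [mul_sum, mul_sum, ← sum_add_distrib]
    exact sum_le_sum fun i _ => N_Mi_succ hg k i
  have h2 : ∑ i ∈ range (k + 1), N (m + k) (Mi τ g k (i + 1)) + N (m + k) (Mi τ g k 0) =
      ∑ i ∈ range (k + 1), N (m + k) (Mi τ g k i) := by
    rw [← sum_range_succ' (fun i => N (m + k) (Mi τ g k i)), sum_range_succ]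
    have h3 : N (m + k) (Mi τ g k (k + 1)) = 0 := by
      unfold N S
      have : ∀ x : ℤ, Mi τ g k (k + 1) x = 0 := fun x => Mi_big (by omega) x
      simp [this]
    rw [h3, add_zero]
  have h4 : (1 - τ) * (∑ i ∈ range (k + 1), N (m + k) (Mi τ g k (i + 1)) + N (m + k) (Mi τ g k 0)) =
      (1 - τ) * ∑ i ∈ range (k + 1), N (m + k) (Mi τ g k i) := by rw [h2]
  linarith

theorem GN_anti {m : ℕ} {g : ℤ → ℝ} (hg : Per m g) {j k : ℕ} (h : j ≤ k) : GN τ m k g ≤ GN τ m j g := by
  have hp0 : 0 < τ := Tilt.pos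
  have hq0 : 0 < 1 - τ := Tilt.lt
  have ho0 : 0 < od τ := od_pos
  induction k with
  | zero =>
    have : j = 0 := by omega
    subst this
    exact le_rfl
  | succ k ih =>
    rcases Nat.lt_or_ge j (k + 1) with h1 | h1
    · exact (GN_succ hg k).trans (ih (by omega))
    · have : j = k + 1 := by omega
      subst this
      exact le_rfl



/-- the graded iterates count the nodes according to the number of odd terms -/
theorem Mi_nodes (g : ℤ → ℝ) (k : ℕ) : ∀ (i a : ℕ), 1 ≤ a → Mi τ g k i a =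
    od τ ^ i * (1 - τ) ^ k * ∑ n ∈ Fr k a, if odds k n = i then g n else 0 := by
  have hp0 : 0 < τ := Tilt.pos
  have hq0 : 0 < 1 - τ := Tilt.lt
  have ho0 : 0 < od τ := od_pos
  induction k with
  | zero =>
    intro i a _
    have : Fr 0 a = {a} := by ext n; rw [mem_Fr]; simp
    rw [this]
    cases i with
    | zero => simp [Mi_zero_zero, odds]
    | succ i => simp [Mi_zero_succ, odds]
  | succ k ih =>
    intro i a ha
    rw [sum_Fr_succ ha (fun n => if odds (k + 1) n = i then g n else 0)]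
    have h1 : ∀ n ∈ Fr k (2 * a), (if odds (k + 1) n = i then g (n : ℤ) else 0) =
        if odds k n = i then g n else 0 := by
      intro n hn
      rw [mem_Fr] at hn
      rw [odds_succ_last, hn, Nat.mul_mod_right, add_zero]
    rw [sum_congr rfl h1]
    have h2 : ((2 * a : ℕ) : ℤ) = 2 * (a : ℤ) := by push_cast; rfl
    have h3 : ((2 * a - 1 : ℕ) : ℤ) = 2 * (a : ℤ) - 1 := by
      rw [Nat.cast_sub (by omega)]
      push_cast
      rfl
    have h4 : (3 : ℤ) ∣ 2 * (a : ℤ) - 1 ↔ 3 ∣ 2 * a - 1 := by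
      rw [← h3]
      exact_mod_cast Int.natCast_dvd_natCast (m := 3) (n := 2 * a - 1)
    have h5 : (((2 * a - 1) / 3 : ℕ) : ℤ) = (2 * (a : ℤ) - 1) / 3 := by
      rw [Int.natCast_div, h3]
      norm_num
    have hb : 3 ∣ 2 * a - 1 → 1 ≤ (2 * a - 1) / 3 ∧ (2 * a - 1) / 3 % 2 = 1 := by
      rintro ⟨c, hc⟩
      rw [hc, Nat.mul_div_cancel_left _ (by norm_num)]
      omega
    cases i with
    | zero =>
      rw [Mi_succ_zero, ← h2, ih 0 (2 * a) (by omega)]
      have h6 : (if 3 ∣ 2 * a - 1 then ∑ n ∈ Fr k ((2 * a - 1) / 3),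
          (if odds (k + 1) n = 0 then g (n : ℤ) else 0) else 0) = 0 := by
        split_ifs with h
        · apply sum_eq_zero
          intro n hn
          rw [mem_Fr] at hn
          rw [if_neg]
          rw [odds_succ_last, hn, (hb h).2]
          omega
        · rfl
      rw [h6]
      ring
    | succ i =>
      have h7 := ih (i + 1) (2 * a) (by omega)
      rw [h2] at h7
      rw [Mi_succ_succ, h7, ← h5]
      simp only [h4]
      split_ifs with h
      · rw [ih i _ (hb h).1]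
        have h6 : ∀ n ∈ Fr k ((2 * a - 1) / 3), (if odds (k + 1) n = i + 1 then g (n : ℤ) else 0) =
            if odds k n = i then g n else 0 := by
          intro n hn
          rw [mem_Fr] at hn
          rw [odds_succ_last, hn, (hb h).2]
          simp only [Nat.add_right_cancel_iff]
        rw [sum_congr rfl h6]
        ring
      · ring

/-- the even step -/
noncomputable def sA (τ : ℝ) (g : ℤ → ℝ) (x : ℤ) : ℝ := (1 - τ) * g (2 * x)

/-- the odd step -/
noncomputable def sB (τ : ℝ) (g : ℤ → ℝ) (x : ℤ) : ℝ :=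
  (1 - τ) * (od τ * if (3 : ℤ) ∣ 2 * x - 1 then g ((2 * x - 1) / 3) else 0)

/-- the innermost step -/
theorem Mi_inner_zero (g : ℤ → ℝ) (k : ℕ) : ∀ x : ℤ, Mi τ g (k + 1) 0 x = Mi τ (sA τ g) k 0 x := by
  have hp0 : 0 < τ := Tilt.pos
  have hq0 : 0 < 1 - τ := Tilt.lt
  have ho0 : 0 < od τ := od_pos
  induction k with
  | zero => intro x; rfl
  | succ k ih =>
    intro x
    rw [Mi_succ_zero, ih, Mi_succ_zero]

theorem Mi_inner_succ (g : ℤ → ℝ) (k : ℕ) : ∀ (i : ℕ) (x : ℤ), Mi τ g (k + 1) (i + 1) x =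
    Mi τ (sA τ g) k (i + 1) x + Mi τ (sB τ g) k i x := by
  have hp0 : 0 < τ := Tilt.pos
  have hq0 : 0 < 1 - τ := Tilt.lt
  have ho0 : 0 < od τ := od_pos
  induction k with
  | zero =>
    intro i x
    rw [Mi_succ_succ]
    cases i with
    | zero => rw [Mi_zero_succ, Mi_zero_succ, Mi_zero_zero, Mi_zero_zero, sB]; ring
    | succ i => rw [Mi_zero_succ, Mi_zero_succ, Mi_zero_succ, Mi_zero_succ]; simp
  | succ k ih =>
    intro i x
    rw [Mi_succ_succ, ih, Mi_succ_succ (sA τ g)]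
    cases i with
    | zero =>
      rw [Mi_succ_zero (sB τ g), Mi_inner_zero]
      ring
    | succ i =>
      rw [Mi_succ_succ (sB τ g), ih i]
      split_ifs
      · ring
      · ring

theorem even_ic (j m r : ℕ) (x : ℤ) : sA τ (ic (j + 1) m r) x =
    if r % 2 = 0 then (1 - τ) * ic j m (T r) x else 0 := by
  have h := TS.even_ic j m r x
  unfold TS.sA at h
  unfold sA
  split_ifs with h1
  · rw [if_pos h1] at h
    have h2 : ic (j + 1) m r (2 * x) = ic j m (T r) x := by linarith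
    rw [h2]
  · rw [if_neg h1] at h
    have h2 : ic (j + 1) m r (2 * x) = 0 := by linarith
    rw [h2, mul_zero]

theorem odd_ic (j m r : ℕ) (x : ℤ) : sB τ (ic (j + 1) m r) x =
    if r % 2 = 0 then 0 else (1 - τ) * od τ * ic j (m + 1) (T r) x := by
  have h := TS.odd_ic j m r x
  unfold TS.sB at h
  unfold sB
  split_ifs at h ⊢ with h1 h2 h2
  · have h3 : ic (j + 1) m r ((2 * x - 1) / 3) = 0 := by linarith
    rw [h3, mul_zero, mul_zero]
  · have h3 : ic (j + 1) m r ((2 * x - 1) / 3) = ic j (m + 1) (T r) x := by linarith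
    rw [h3]
    ring
  · ring
  · have h3 : ic j (m + 1) (T r) x = 0 := by linarith
    rw [h3]
    ring

/-- `j` steps of a class modulo `2 ^ j * 3 ^ m` -/
theorem Mi_ic (j l : ℕ) : ∀ (m r i : ℕ) (x : ℤ), Mi τ (ic j m r) (l + j) i x =
    if odds j r ≤ i then (1 - τ) ^ j * od τ ^ odds j r *
      Mi τ (ic 0 (m + odds j r) (T^[j] r)) l (i - odds j r) x else 0 := by
  induction j with
  | zero => intro m r i x; simp [odds]
  | succ j ih =>
    intro m r i x
    have e1 : sA τ (ic (j + 1) m r) =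
        fun x => if r % 2 = 0 then (1 - τ) * ic j m (T r) x else 0 := funext (even_ic j m r)
    have e2 : sB τ (ic (j + 1) m r) =
        fun x => if r % 2 = 0 then 0 else (1 - τ) * od τ * ic j (m + 1) (T r) x := funext (odd_ic j m r)
    have h0 : ∀ k i x, Mi τ (fun _ => (0 : ℝ)) k i x = 0 := by
      intro k i x
      have := Mi_smul (τ := τ) 0 (fun _ => 0) k i x
      simpa using this
    rw [← add_assoc, odds, Function.iterate_succ_apply]
    rcases Nat.mod_two_eq_zero_or_one r with h | h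
    · rw [h] at e1 e2 ⊢
      simp only [if_true] at e1 e2
      rw [zero_add]
      have e3 : Mi τ (ic (j + 1) m r) (l + j + 1) i x = Mi τ (fun x => (1 - τ) * ic j m (T r) x) (l + j) i x := by
        cases i with
        | zero => rw [Mi_inner_zero, e1]
        | succ i => rw [Mi_inner_succ, e1, e2, h0, add_zero]
      rw [e3, Mi_smul, ih]
      split_ifs
      · rw [pow_succ]; ring
      · ring
    · rw [h] at e1 e2 ⊢
      simp only [one_ne_zero, if_false] at e1 e2
      cases i with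
      | zero =>
        rw [Mi_inner_zero, e1, h0, if_neg (by omega)]
      | succ i =>
        rw [Mi_inner_succ, e1, e2, h0, zero_add, Mi_smul, ih]
        have e3 : 1 + odds j (T r) ≤ i + 1 ↔ odds j (T r) ≤ i := by omega
        have e4 : i + 1 - (1 + odds j (T r)) = i - odds j (T r) := by omega
        rw [e4, ← add_assoc]
        simp only [e3]
        split_ifs
        · rw [pow_succ, pow_add, pow_one]; ring
        · ring

end Pool.Agent.H623.TP
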