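import Pool.Agent.H623.TP.L

/-!
# Words of given length and size, without a cap on the letters: the masses
-/

set_option autoImplicit false
set_option linter.unusedVariables false

namespace Pool.Agent.H623.TP

open Finset Pool.Agent.H320R2.PD Pool.Agent.H377R2.NK
open Pool.Agent.H623.TS (Per S S_per S_mono S_aff S_B N N_nonneg N_per N_add N_congr N_smul N_tri N_comm
  N_sum_le FT FWT_eq FWT_sub sum_FT_add)

variable (τ : ℝ) [TiltR τ]

/-- the mass of the words of `m` letters and size `s` -/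
noncomputable def ms (τ : ℝ) (m s : ℕ) : ℝ := ∑ w ∈ FT m s, (qp τ) w

theorem ms_nonneg (m s : ℕ) : 0 ≤ ms τ m s := sum_nonneg fun w _ => (qp_pos w).le

theorem ms_zero_zero : ms τ 0 0 = 1 := by
  have hp0 : 0 < τ := Tilt.pos
  have hq0 : 0 < 1 - τ := Tilt.lt
  unfold ms FT FWT
  rw [sum_filter, sum_FW_zero]
  simp [qp]

theorem ms_zero_succ (s : ℕ) : ms τ 0 (s + 1) = 0 := by
  have hp0 : 0 < τ := Tilt.pos
  have hq0 : 0 < 1 - τ := Tilt.lt
  unfold ms FT FWT
  rw [sum_filter, sum_FW_zero]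
  simp

theorem ms_succ_zero (m : ℕ) : ms τ (m + 1) 0 = 0 := by
  have hp0 : 0 < τ := Tilt.pos
  have hq0 : 0 < 1 - τ := Tilt.lt
  unfold ms FT FWT
  rw [sum_filter, sum_FW_succ]
  simp

theorem ms_succ (m s : ℕ) : ms τ (m + 1) (s + 1) =
    τ * ∑ t ∈ range (s + 1), (1 - τ) ^ (s - t) * ms τ m t := by
  have hp0 : 0 < τ := Tilt.pos
  have hq0 : 0 < 1 - τ := Tilt.lt
  have h1 : ms τ (m + 1) (s + 1) = ∑ e ∈ Icc 1 (s + 1), τ / (1 - τ) * (1 - τ) ^ e * ms τ m (s + 1 - e) := by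
    conv_lhs => unfold ms FT FWT
    rw [sum_filter, sum_FW_succ]
    refine sum_congr rfl fun e he => ?_
    rw [mem_Icc] at he
    unfold ms
    rw [← FWT_eq (show s + 1 - e ≤ s + 1 by omega)]
    unfold FWT
    rw [sum_filter, mul_sum]
    refine sum_congr rfl fun v _ => ?_
    rw [List.sum_cons, qp_cons]
    have : e + v.sum = s + 1 ↔ v.sum = s + 1 - e := by omega
    simp only [this]
    split_ifs
    · rfl
    · rw [mul_zero]
  rw [h1, mul_sum]
  refine Finset.sum_bij' (fun e _ => s + 1 - e) (fun t _ => s + 1 - t) ?_ ?_ ?_ ?_ ?_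
  · intro e he
    rw [mem_Icc] at he
    rw [mem_range]
    omega
  · intro t ht
    rw [mem_range] at ht
    rw [mem_Icc]
    omega
  · intro e he
    rw [mem_Icc] at he
    omega
  · intro t ht
    rw [mem_range] at ht
    omega
  · intro e he
    rw [mem_Icc] at he
    have e1 : (1 - τ) ^ e = (1 - τ) * (1 - τ) ^ (s - (s + 1 - e)) := by
      rw [← pow_succ']
      congr 1
      omega
    rw [e1]
    have e3 : τ / (1 - τ) * (1 - τ) = τ := div_mul_cancel₀ _ hq0.ne'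
    linear_combination ((1 - τ) ^ (s - (s + 1 - e)) * ms τ m (s + 1 - e)) * e3

/-- the binomial masses -/
theorem ms_bet (k i : ℕ) : ∑ s ∈ range (k + 1), (1 - τ) ^ (k - s) * ms τ i s = bep τ k i := by
  have hp0 : 0 < τ := Tilt.pos
  have hq0 : 0 < 1 - τ := Tilt.lt
  induction k generalizing i with
  | zero =>
    rw [zero_add, sum_range_one]
    cases i with
    | zero => rw [ms_zero_zero τ, bep_zero_zero τ]; norm_num
    | succ i => rw [ms_succ_zero τ, bep_zero_succ τ, mul_zero]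
  | succ k ih =>
    rw [sum_range_succ, Nat.sub_self, pow_zero, one_mul]
    have h1 : ∑ s ∈ range (k + 1), (1 - τ) ^ (k + 1 - s) * ms τ i s = (1 - τ) * bep τ k i := by
      rw [← ih, mul_sum]
      refine sum_congr rfl fun s hs => ?_
      rw [mem_range] at hs
      have : k + 1 - s = (k - s) + 1 := by omega
      rw [this, pow_succ]
      ring
    rw [h1]
    cases i with
    | zero => rw [ms_zero_succ τ, bep_succ_zero τ, add_zero]
    | succ i => rw [ms_succ τ, ih, bep_succ_succ τ]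

theorem ms_sum_le (m K : ℕ) : ∑ s ∈ range (K + 1), ms τ m s ≤ 1 := by
  have hp0 : 0 < τ := Tilt.pos
  have hq0 : 0 < 1 - τ := Tilt.lt
  have h1 : ∑ s ∈ range (K + 1), ms τ m s = ∑ s ∈ range (K + 1), ∑ w ∈ FWT K m s, (qp τ) w := by
    refine sum_congr rfl fun s hs => ?_
    rw [mem_range] at hs
    rw [FWT_eq (by omega)]
    rfl
  rw [h1]
  refine le_trans ?_ (sum_qp_le (τ := τ) K m)
  unfold FWT
  have h2 : ∑ s ∈ range (K + 1), ∑ w ∈ (FW K m).filter (fun w => w.sum = s), (qp τ) w =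
      ∑ w ∈ (FW K m).filter (fun w => w.sum ∈ range (K + 1)), (qp τ) w := by
    rw [← sum_fiberwise_of_maps_to (s := (FW K m).filter (fun w => w.sum ∈ range (K + 1)))
      (t := range (K + 1)) (g := fun w : List ℕ => w.sum) (fun w hw => (mem_filter.1 hw).2)]
    refine sum_congr rfl fun s hs => ?_
    rw [filter_filter]
    apply sum_congr _ fun _ _ => rfl
    ext w
    rw [mem_filter, mem_filter]
    constructor
    · rintro ⟨h3, h4⟩
      exact ⟨h3, by rw [h4]; exact hs, h4⟩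
    · rintro ⟨h3, _, h4⟩
      exact ⟨h3, h4⟩
  rw [h2]
  exact sum_le_sum_of_subset_of_nonneg (filter_subset _ _) fun w _ _ => (qp_pos w).le

omit [TiltR τ] in
theorem ms_sum_ge (m : ℕ) {ε : ℝ} (hε : 0 < ε) : ∃ K : ℕ, ∀ (τ : ℝ) [TiltR τ],
    1 - ε ≤ ∑ s ∈ range (K + 1), ms τ m s := by
  have h0 : Filter.Tendsto (fun A : ℕ => (19 / 25 : ℝ) ^ A) Filter.atTop (nhds 0) :=
    tendsto_pow_atTop_nhds_zero_of_lt_one (by norm_num) (by norm_num)
  have h1 : Filter.Tendsto (fun A : ℕ => (1 - (19 / 25 : ℝ) ^ A) ^ m) Filter.atTop (nhds ((1 - 0) ^ m)) :=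
    (tendsto_const_nhds.sub h0).pow m
  rw [sub_zero, one_pow] at h1
  have h2 := (tendsto_order.1 h1).1 (1 - ε) (by linarith)
  obtain ⟨A, hA⟩ := h2.exists
  refine ⟨m * A, fun τ _ => hA.le.trans ?_⟩
  have hp0 : 0 < τ := Tilt.pos
  have hq0 : 0 < 1 - τ := Tilt.lt
  have hlo : 6 / 25 ≤ τ := TiltR.lo
  have h4 : (1 - (19 / 25 : ℝ) ^ A) ^ m ≤ (1 - (1 - τ) ^ A) ^ m := by
    have h5 : (19 / 25 : ℝ) ^ A ≤ 1 := pow_le_one₀ (by norm_num) (by norm_num)
    have h6 : (1 - τ) ^ A ≤ (19 / 25 : ℝ) ^ A := pow_le_pow_left₀ hq0.le (by linarith) A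
    exact pow_le_pow_left₀ (by linarith) (by linarith) m
  refine h4.trans ?_
  rw [← sum_qp A m]
  have h3 : ∑ s ∈ range (m * A + 1), ∑ w ∈ FWT A m s, (qp τ) w = ∑ w ∈ FW A m, (qp τ) w := by
    unfold FWT
    apply sum_fiberwise_of_maps_to
    intro w hw
    have := (sum_le_of_mem hw).2
    rw [mem_range]
    omega
  rw [← h3]
  exact sum_le_sum fun s _ => sum_le_sum_of_subset_of_nonneg (FWT_sub A m s) fun w _ _ => (qp_pos w).le

/-- pairs of words -/
theorem cnt_FT_add (k₁ k₂ s M : ℕ) (c : ℤ) :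
    cnt (FT (k₁ + k₂) s) (qp τ) (fun w => (Wo w : ℤ)) M c = ∑ t ∈ range (s + 1),
      cnt (FT k₁ t ×ˢ FT k₂ (s - t)) (fun q => (qp τ) q.1 * (qp τ) q.2)
        (fun q => 2 ^ (s - t) * (Wo q.1 : ℤ) + 3 ^ k₁ * (Wo q.2 : ℤ)) M c := by
  have hp0 : 0 < τ := Tilt.pos
  have hq0 : 0 < 1 - τ := Tilt.lt
  classical
  unfold cnt
  rw [sum_FT_add]
  refine sum_congr rfl fun t _ => ?_
  refine sum_congr rfl fun q hq => ?_
  rw [mem_product] at hq
  unfold FT FWT at hq
  rw [mem_filter, mem_filter] at hq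
  have e : (Wo (q.1 ++ q.2) : ℤ) = 2 ^ (s - t) * (Wo q.1 : ℤ) + 3 ^ k₁ * (Wo q.2 : ℤ) := by
    rw [Wo_append, hq.2.2, (mem_FW.1 hq.1.1).1]
    push_cast
    ring
  simp only [e, qp_append]


end Pool.Agent.H623.TP
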