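import Pool.Agent.H623.TP.M1

/-!
# The graded martingales at a general tilt: the fine digits
-/

set_option autoImplicit false
set_option linter.unusedVariables false

namespace Pool.Agent.H623.TP

open Finset Filter Topology Pool.Agent.H320R2.PD Pool.Agent.H377R2.NK
open Pool.Agent.H623.TS (Per S S_per S_mono S_aff S_B N N_nonneg N_per N_add N_congr N_smul N_tri N_comm
  N_sum_le FT FWT_eq FWT_sub sum_FT_add cnt_lifts tri_sum tri_sum_le Fu u_diff)

variable (τ : ℝ) [TiltR τ]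

/-- the conditional expectation of `Mi 1 k i` given the residue modulo `3 ^ j` -/
noncomputable def hh (τ : ℝ) (k i j : ℕ) (x : ℤ) : ℝ :=
  3 ^ j * ∑ s ∈ range (k + 1), (1 - τ) ^ (k - s) * cnt (FT i s) (qp τ) (fun w => (Wo w : ℤ)) j (2 ^ s * x)

theorem cq_nonneg (m s j : ℕ) (x : ℤ) : 0 ≤ cnt (FT m s) (qp τ) (fun w => (Wo w : ℤ)) j x :=
  cnt_nonneg (fun w _ => (qp_pos w).le) _ _

theorem hh_nonneg (k i j : ℕ) (x : ℤ) : 0 ≤ hh τ k i j x := by
  have hp0 : 0 < τ := Tilt.pos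
  have hq0 : 0 < 1 - τ := Tilt.lt
  unfold hh
  refine mul_nonneg (by positivity) (sum_nonneg fun s _ => ?_)
  exact mul_nonneg (by positivity) (cq_nonneg τ _ _ _ _)

theorem hh_per (k i j : ℕ) : Per j (hh τ k i j) := by
  have hp0 : 0 < τ := Tilt.pos
  have hq0 : 0 < 1 - τ := Tilt.lt
  intro x y
  unfold hh
  congr 1
  refine sum_congr rfl fun s _ => ?_
  congr 1
  exact cnt_congr _ ⟨2 ^ s * y, by ring⟩

theorem hh_lift (k i j : ℕ) (x : ℤ) :
    hh τ k i (j + 1) x + hh τ k i (j + 1) (x + 3 ^ j) + hh τ k i (j + 1) (x + 2 * 3 ^ j) = 3 * hh τ k i j x := by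
  have hp0 : 0 < τ := Tilt.pos
  have hq0 : 0 < 1 - τ := Tilt.lt
  unfold hh
  rw [← mul_add, ← mul_add, ← sum_add_distrib, ← sum_add_distrib, ← mul_assoc, pow_succ, mul_comm 3]
  congr 1
  refine sum_congr rfl fun s _ => ?_
  rw [← mul_add, ← mul_add, cnt_lifts]

theorem hh_zero (k i : ℕ) (x : ℤ) : hh τ k i 0 x = bep τ k i := by
  have hp0 : 0 < τ := Tilt.pos
  have hq0 : 0 < 1 - τ := Tilt.lt
  unfold hh
  rw [pow_zero, one_mul, ← ms_bet τ]
  refine sum_congr rfl fun s _ => ?_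
  congr 1
  unfold cnt ms
  refine sum_congr rfl fun w _ => ?_
  rw [pow_zero, if_pos (one_dvd _)]

/-- the top level -/
theorem hh_top (k i : ℕ) (x : ℤ) : hh τ k i i x = Mi τ (fun _ => 1) k i x := by
  have hp0 : 0 < τ := Tilt.pos
  have hq0 : 0 < 1 - τ := Tilt.lt
  classical
  rw [Mi_eq (le_refl k), Wn_eq_Ws]
  unfold hh
  rw [mul_sum]
  refine sum_congr rfl fun s hs => ?_
  rw [mem_range] at hs
  unfold Ws cnt
  rw [FWT_eq (show s ≤ k by omega), mul_sum, mul_sum]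
  refine sum_congr rfl fun w hw => ?_
  unfold FT FWT at hw
  rw [mem_filter, mem_FW] at hw
  have hlen : w.length = i := hw.1.1
  have hsum : w.sum = s := hw.2
  have hiff : (3 : ℤ) ^ i ∣ (Wo w : ℤ) - 2 ^ s * x ↔ (3 : ℤ) ^ i ∣ 2 ^ s * x - (Wp 3 w : ℤ) := by
    rw [Wp_three, ← dvd_neg]
    have e : -((Wo w : ℤ) - 2 ^ s * x) = 2 ^ s * x - (Wo w : ℤ) := by ring
    rw [e]
  by_cases h : (3 : ℤ) ^ i ∣ (Wo w : ℤ) - 2 ^ s * x
  · rw [if_pos h, if_pos (hiff.1 h)]
    unfold qp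
    rw [hlen, hsum]
    have e2 : (1 - τ) ^ k = (1 - τ) ^ (k - s) * (1 - τ) ^ s := by
      rw [← pow_add]; congr 1; omega
    have e3 : od τ ^ i = 3 ^ i * (τ / (1 - τ)) ^ i := by
      unfold od
      rw [mul_pow]
    rw [e2, e3]
    ring
  · rw [if_neg h, if_neg (fun h' => h (hiff.2 h')), mul_zero, mul_zero]

/-- nonuniformity of a digit of the offsets of the words with `m` letters, by size -/
noncomputable def gT (τ : ℝ) (m s j : ℕ) : ℝ := Gam (FT m s) (qp τ) (fun w => (Wo w : ℤ)) j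

theorem gT_nonneg (m s j : ℕ) : 0 ≤ gT τ m s j := Gam_nonneg _ _ fun w _ => (qp_pos w).le

theorem gT_le (m s j : ℕ) : gT τ m s j ≤ ms τ m s := Gam_le _ _ fun w _ => (qp_pos w).le

theorem Fu_hh (k i j : ℕ) : Fu (hh τ k i) j ≤ ∑ s ∈ range (k + 1), (1 - τ) ^ (k - s) * gT τ i s j := by
  have hp0 : 0 < τ := Tilt.pos
  have hq0 : 0 < 1 - τ := Tilt.lt
  unfold Fu
  rw [div_le_iff₀ (by positivity)]
  have h1 : ∀ x : ℤ, F3 (hh τ k i (j + 1) x) (hh τ k i (j + 1) (x + 3 ^ j)) (hh τ k i (j + 1) (x + 2 * 3 ^ j)) ≤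
      3 ^ (j + 1) * ∑ s ∈ range (k + 1), (1 - τ) ^ (k - s) *
        Fib (FT i s) (qp τ) (fun w => (Wo w : ℤ)) j (2 ^ s * x) := by
    intro x
    unfold hh
    rw [F3_smul]
    refine mul_le_mul_of_nonneg_left ?_ (by positivity)
    refine (F3_sum _ _ _ _ (fun s _ => mul_nonneg (by positivity) (cq_nonneg τ _ _ _ _))
      (fun s _ => mul_nonneg (by positivity) (cq_nonneg τ _ _ _ _))
      (fun s _ => mul_nonneg (by positivity) (cq_nonneg τ _ _ _ _))).trans (le_of_eq ?_)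
    refine sum_congr rfl fun s _ => ?_
    rw [F3_smul, F3_lifts]
  refine (sum_le_sum fun (x : ℕ) _ => h1 (x : ℤ)).trans ?_
  rw [← mul_sum, mul_comm ((3 : ℝ) ^ (j + 1))]
  refine mul_le_mul_of_nonneg_right ?_ (by positivity)
  rw [sum_comm]
  refine sum_le_sum fun s _ => ?_
  rw [← mul_sum]
  refine mul_le_mul_of_nonneg_left ?_ (by positivity)
  unfold gT
  refine sum_Fib_le _ _ (fun w _ => (qp_pos w).le) (range (3 ^ j))
    (fun x : ℕ => (2 : ℤ) ^ s * (x : ℤ)) ?_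
  intro x hx y hy hxy
  have h1 : (3 : ℤ) ^ j ∣ (x : ℤ) - y := by
    have h2 : (2 : ℤ) ^ s * (x : ℤ) - 2 ^ s * y = 2 ^ s * ((x : ℤ) - y) := by ring
    rw [h2] at hxy
    exact (two_pow_isCoprime s j).dvd_of_dvd_mul_left hxy
  have hx' : (x : ℤ) < 3 ^ j := by exact_mod_cast mem_range.1 hx
  have hy' : (y : ℤ) < 3 ^ j := by exact_mod_cast mem_range.1 hy
  have h6 := Int.eq_zero_of_abs_lt_dvd h1 (by
    rw [abs_lt]; constructor <;> linarith [Int.natCast_nonneg x, Int.natCast_nonneg y])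
  have : (x : ℤ) = y := by linarith
  exact_mod_cast this

/-- the convolution inequality -/
theorem gT_conv (j i s : ℕ) : gT τ (j + i) s j ≤ ∑ t ∈ range (s + 1), gT τ j t j * ms τ i (s - t) := by
  have hp0 : 0 < τ := Tilt.pos
  have hq0 : 0 < 1 - τ := Tilt.lt
  have h1 : gT τ (j + i) s j ≤ ∑ t ∈ range (s + 1),
      Gam (FT j t ×ˢ FT i (s - t)) (fun q => (qp τ) q.1 * (qp τ) q.2)
        (fun q => 2 ^ (s - t) * (Wo q.1 : ℤ) + 3 ^ j * (Wo q.2 : ℤ)) j := by
    unfold gT Gam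
    rw [sum_comm]
    refine sum_le_sum fun c _ => ?_
    unfold Fib
    rw [cnt_FT_add τ, cnt_FT_add τ, cnt_FT_add τ]
    apply F3_sum <;>
    · intro p _
      apply cnt_nonneg
      intro q _
      exact mul_nonneg ((qp_pos _).le) ((qp_pos _).le)
  refine h1.trans (sum_le_sum fun t _ => ?_)
  have h2 := Gam_conv (s := FT j t) (s' := FT i (s - t)) (fun w => (Wo w : ℤ)) (fun w => (Wo w : ℤ))
    (fun w _ => (qp_pos (τ := τ) w).le) (fun w _ => (qp_pos (τ := τ) w).le) (s - t) j 0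
  rw [add_zero] at h2
  refine h2.trans ?_
  exact mul_le_mul_of_nonneg_left (Gam_le _ _ fun w _ => (qp_pos w).le) (gT_nonneg τ _ _ _)

/-- the truncated nonuniformity -/
noncomputable def gi (τ : ℝ) (k j : ℕ) : ℝ := ∑ t ∈ range (k + 1), gT τ j t j

theorem gT_sum (k j M : ℕ) : ∑ i ∈ range M, ∑ s ∈ range (k + 1), (1 - τ) ^ (k - s) * gT τ (j + i) s j ≤
    gi τ k j := by
  have hp0 : 0 < τ := Tilt.pos
  have hq0 : 0 < 1 - τ := Tilt.lt
  have h1 : ∀ i ∈ range M, ∑ s ∈ range (k + 1), (1 - τ) ^ (k - s) * gT τ (j + i) s j ≤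
      ∑ t ∈ range (k + 1), gT τ j t j * bep τ (k - t) i := by
    intro i _
    have h2 : ∑ s ∈ range (k + 1), (1 - τ) ^ (k - s) * gT τ (j + i) s j ≤
        ∑ s ∈ range (k + 1), ∑ t ∈ range (s + 1),
          (fun t r => (1 - τ) ^ (k - t - r) * (gT τ j t j * ms τ i r)) t (s - t) := by
      refine sum_le_sum fun s _ => ?_
      refine (mul_le_mul_of_nonneg_left (gT_conv τ j i s) (by positivity)).trans (le_of_eq ?_)
      rw [mul_sum]
      refine sum_congr rfl fun t ht => ?_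
      rw [mem_range] at ht
      have : k - t - (s - t) = k - s := by omega
      dsimp only
      rw [this]
    refine h2.trans (le_of_eq ?_)
    rw [tri_sum k (fun t r => (1 - τ) ^ (k - t - r) * (gT τ j t j * ms τ i r))]
    refine sum_congr rfl fun t ht => ?_
    rw [← ms_bet τ, mul_sum]
    refine sum_congr rfl fun r _ => ?_
    ring
  refine (sum_le_sum h1).trans ?_
  rw [sum_comm]
  unfold gi
  refine sum_le_sum fun t _ => ?_
  rw [← mul_sum]
  calc gT τ j t j * ∑ i ∈ range M, bep τ (k - t) i ≤ gT τ j t j * 1 :=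
        mul_le_mul_of_nonneg_left (bep_sum_le τ _ _) (gT_nonneg τ _ _ _)
    _ = _ := mul_one _

theorem gi_nonneg (k j : ℕ) : 0 ≤ gi τ k j := sum_nonneg fun t _ => gT_nonneg τ _ _ _

theorem gi_mono (j : ℕ) : Monotone (fun k => gi τ k j) := by
  have hp0 : 0 < τ := Tilt.pos
  have hq0 : 0 < 1 - τ := Tilt.lt
  intro k l h
  exact sum_le_sum_of_subset_of_nonneg (range_subset_range.2 (by omega)) fun t _ _ => gT_nonneg τ _ _ _

theorem gi_le_gz {k A : ℕ} (h : k ≤ A) (j : ℕ) : gi τ k j ≤ gp τ A j j := by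
  have hp0 : 0 < τ := Tilt.pos
  have hq0 : 0 < 1 - τ := Tilt.lt
  classical
  unfold gi gp
  have h1 : ∀ t ∈ range (k + 1), gT τ j t j = Gam (FWT A j t) (qp τ) (fun w => (Wo w : ℤ)) j := by
    intro t ht
    rw [mem_range] at ht
    unfold gT
    rw [FWT_eq (show t ≤ A by omega)]
  rw [sum_congr rfl h1]
  have h2 : ∀ t ∈ range (k + 1) ∪ range (j * A + 1), t ∉ range (j * A + 1) →
      Gam (FWT A j t) (qp τ) (fun w => (Wo w : ℤ)) j = 0 := by
    intro t _ ht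
    rw [mem_range, not_lt] at ht
    have h3 : FWT A j t = ∅ := by
      unfold FWT
      rw [filter_eq_empty_iff]
      intro w hw h2
      have := (sum_le_of_mem hw).2
      omega
    rw [h3]
    refine le_antisymm ((Gam_le _ _ fun w _ => (qp_pos w).le).trans (by simp)) ?_
    exact Gam_nonneg _ _ fun w _ => (qp_pos w).le
  rw [sum_subset subset_union_right h2]
  exact sum_le_sum_of_subset_of_nonneg subset_union_left
    fun t _ _ => Gam_nonneg _ _ fun w _ => (qp_pos w).le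

omit [TiltR τ] in
/-- uniform smallness of the tails -/
theorem gi_tail {ε : ℝ} (hε : 0 < ε) : ∃ J : ℕ, ∀ (τ : ℝ) [TiltR τ], ∀ k l : ℕ,
    ∑ j ∈ range l, gi τ k (J + j) ≤ ε := by
  obtain ⟨J, hJ⟩ := gp_tail hε
  refine ⟨J, fun τ _ k l => ?_⟩
  refine le_trans (sum_le_sum fun j _ => ?_) (hJ τ l (max k (3 * (J + l))) (le_max_right _ _))
  exact gi_le_gz τ (le_max_left _ _) _

omit [TiltR τ] in
/-- the fine digits -/
theorem fine {ε : ℝ} (hε : 0 < ε) : ∃ J₀ : ℕ, ∀ (τ : ℝ) [TiltR τ], ∀ J, J₀ ≤ J → ∀ k M : ℕ,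
    ∑ i ∈ range M, N (J + i) (fun x => Mi τ (fun _ => 1) k (J + i) x - hh τ k (J + i) J x) ≤ ε := by
  obtain ⟨J₀, hJ₀'⟩ := gi_tail (show 0 < ε ^ 2 / 8 by positivity)
  refine ⟨J₀, fun τ _ J hJ k M => ?_⟩
  have hp0 : 0 < τ := Tilt.pos
  have hq0 : 0 < 1 - τ := Tilt.lt
  have hJ₀ := hJ₀' τ
  have hfu : ∀ i j, 0 ≤ Fu (hh τ k i) j := by
    intro i j
    unfold Fu
    refine div_nonneg (sum_nonneg fun x _ => F3_nonneg ?_ ?_ ?_) (by positivity) <;>
      exact hh_nonneg τ _ _ _ _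
  have h1 : ∀ i ∈ range M, N (J + i) (fun x => Mi τ (fun _ => 1) k (J + i) x - hh τ k (J + i) J x) ≤
      Real.sqrt (bep τ k (J + i)) * Real.sqrt (8 * ∑ j ∈ range i, Fu (hh τ k (J + i)) (J + j)) := by
    intro i _
    have h2 := u_diff (u := hh τ k (J + i)) (hh_per τ k (J + i)) (hh_nonneg τ k (J + i)) (hh_lift τ k (J + i)) J i
    have h3 : ∀ x, Mi τ (fun _ => 1) k (J + i) x - hh τ k (J + i) J x =
        hh τ k (J + i) (J + i) x - hh τ k (J + i) J x := by
      intro x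
      rw [hh_top τ]
    rw [N_congr h3]
    refine h2.trans (le_of_eq ?_)
    rw [hh_zero τ]
    have h4 : Real.sqrt (8 * ∑ j ∈ range i, Fu (hh τ k (J + i)) (J + j)) =
        2 * Real.sqrt (2 * ∑ j ∈ range i, Fu (hh τ k (J + i)) (J + j)) := by
      have : 8 * ∑ j ∈ range i, Fu (hh τ k (J + i)) (J + j) =
          2 ^ 2 * (2 * ∑ j ∈ range i, Fu (hh τ k (J + i)) (J + j)) := by ring
      rw [this, Real.sqrt_mul (by norm_num), Real.sqrt_sq (by norm_num)]
    rw [h4]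
    ring
  refine (sum_le_sum h1).trans ?_
  refine (Real.sum_sqrt_mul_sqrt_le _ (fun i => bep_nonneg τ _ _) (fun i =>
    mul_nonneg (by norm_num) (sum_nonneg fun j _ => hfu _ _))).trans ?_
  have h5 : ∑ i ∈ range M, bep τ k (J + i) ≤ 1 := by
    have h6 := bep_sum_le τ k (J + M)
    rw [sum_range_add] at h6
    have : 0 ≤ ∑ i ∈ range J, bep τ k i := sum_nonneg fun i _ => bep_nonneg τ _ _
    linarith
  have h6 : ∑ i ∈ range M, 8 * ∑ j ∈ range i, Fu (hh τ k (J + i)) (J + j) ≤ ε ^ 2 := by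
    rw [← mul_sum]
    have h7 := tri_sum_le M (fun i j => Fu (hh τ k (J + i)) (J + j)) (fun a b => hfu _ _)
    have h8 : ∑ j ∈ range M, ∑ i ∈ range M, Fu (hh τ k (J + (j + i))) (J + j) ≤ ε ^ 2 / 8 := by
      have h9 : ∑ j ∈ range M, gi τ k (J + j) ≤ ε ^ 2 / 8 := by
        obtain ⟨d, rfl⟩ := Nat.exists_eq_add_of_le hJ
        have h10 := hJ₀ k (d + M)
        rw [sum_range_add] at h10
        have h11 : 0 ≤ ∑ j ∈ range d, gi τ k (J₀ + j) := sum_nonneg fun j _ => gi_nonneg τ _ _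
        have h12 : ∑ j ∈ range M, gi τ k (J₀ + d + j) = ∑ j ∈ range M, gi τ k (J₀ + (d + j)) :=
          sum_congr rfl fun j _ => by rw [add_assoc]
        rw [h12]
        linarith
      refine le_trans (sum_le_sum fun j _ => ?_) h9
      refine le_trans (sum_le_sum fun i _ => ?_) (gT_sum τ k (J + j) M)
      have e : J + (j + i) = J + j + i := by ring
      rw [e]
      exact Fu_hh τ _ _ _
    linarith
  calc Real.sqrt (∑ i ∈ range M, bep τ k (J + i)) *
        Real.sqrt (∑ i ∈ range M, 8 * ∑ j ∈ range i, Fu (hh τ k (J + i)) (J + j))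
      ≤ 1 * ε := by
        refine mul_le_mul ?_ ?_ (Real.sqrt_nonneg _) (by norm_num)
        · exact (Real.sqrt_le_sqrt h5).trans (le_of_eq Real.sqrt_one)
        · rw [Real.sqrt_le_left hε.le]
          exact h6
    _ = ε := one_mul ε


end Pool.Agent.H623.TP
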