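import Pool.Agent.H623.TP.M4

/-!
# The local limit theorem for every number of odd steps
-/

set_option autoImplicit false
set_option linter.unusedVariables false

namespace Pool.Agent.H623.TP

open Finset Filter Topology Pool.Agent.H320R2.PD Pool.Agent.H377R2.NK
open Pool.Agent.H623.TS (Per S S_per S_mono S_aff S_B N N_nonneg N_per N_add N_congr N_smul N_tri N_comm
  N_sum_le dl dl_nonneg dl_anti dl_tendsto)

section

variable (τ : ℝ) [TiltR τ]

/-- composition of the graded iterates -/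
theorem Mi_comp (g : ℤ → ℝ) (l k : ℕ) : ∀ (i : ℕ) (x : ℤ), Mi τ g (l + k) i x =
    ∑ j ∈ range (i + 1), Mi τ (Mi τ g l (i - j)) k j x := by
  induction k with
  | zero =>
    intro i x
    rw [sum_range_succ', add_zero, Mi_zero_zero, Nat.sub_zero]
    have : ∑ j ∈ range i, Mi τ (Mi τ g l (i - (j + 1))) 0 (j + 1) x = 0 :=
      sum_eq_zero fun j _ => Mi_zero_succ _ _ _
    rw [this, zero_add]
  | succ k ih =>
    intro i x
    rw [← add_assoc]
    cases i with
    | zero =>
      rw [Mi_succ_zero, ih, zero_add, sum_range_one, sum_range_one, Mi_succ_zero]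
    | succ i =>
      rw [Mi_succ_succ, ih, sum_range_succ' _ (i + 1), sum_range_succ' _ (i + 1), Mi_succ_zero,
        Nat.sub_zero]
      have h1 : ∀ j ∈ range (i + 1), Mi τ (Mi τ g l (i + 1 - (j + 1))) (k + 1) (j + 1) x =
          (1 - τ) * Mi τ (Mi τ g l (i + 1 - (j + 1))) k (j + 1) (2 * x) +
          (1 - τ) * (od τ * if (3 : ℤ) ∣ 2 * x - 1 then
            Mi τ (Mi τ g l (i - j)) k j ((2 * x - 1) / 3) else 0) := by
        intro j _
        rw [Mi_succ_succ, Nat.add_sub_add_right]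
        ring
      rw [sum_congr rfl h1, sum_add_distrib, ← mul_sum]
      have h2 : ∑ j ∈ range (i + 1), (1 - τ) * (od τ * if (3 : ℤ) ∣ 2 * x - 1 then
            Mi τ (Mi τ g l (i - j)) k j ((2 * x - 1) / 3) else 0) =
          (1 - τ) * (od τ * if (3 : ℤ) ∣ 2 * x - 1 then Mi τ g (l + k) i ((2 * x - 1) / 3) else 0) := by
        rw [← mul_sum, ← mul_sum]
        congr 2
        split_ifs with h
        · rw [ih]
        · exact sum_const_zero
      rw [h2]
      ring

theorem bep_comp (l k : ℕ) : ∀ i : ℕ, bep τ (l + k) i =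
    ∑ j ∈ range (i + 1), bep τ l (i - j) * bep τ k j := by
  induction k with
  | zero =>
    intro i
    rw [sum_range_succ', add_zero, bep_zero_zero, Nat.sub_zero, mul_one]
    have : ∑ j ∈ range i, bep τ l (i - (j + 1)) * bep τ 0 (j + 1) = 0 :=
      sum_eq_zero fun j _ => by rw [bep_zero_succ, mul_zero]
    rw [this, zero_add]
  | succ k ih =>
    intro i
    rw [← add_assoc]
    cases i with
    | zero =>
      rw [bep_succ_zero, ih, zero_add, sum_range_one, sum_range_one, bep_succ_zero]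
      ring
    | succ i =>
      rw [bep_succ_succ, ih, ih, sum_range_succ' _ (i + 1), sum_range_succ' _ (i + 1), bep_succ_zero]
      have h1 : ∀ j ∈ range (i + 1), bep τ l (i + 1 - (j + 1)) * bep τ (k + 1) (j + 1) =
          (1 - τ) * (bep τ l (i + 1 - (j + 1)) * bep τ k (j + 1)) +
          τ * (bep τ l (i - j) * bep τ k j) := by
        intro j _
        rw [bep_succ_succ, Nat.add_sub_add_right]
        ring
      rw [sum_congr rfl h1, sum_add_distrib, ← mul_sum, ← mul_sum]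
      ring

theorem sum_supp {F : ℕ → ℝ} (h0 : ∀ l, 0 ≤ F l) {M : ℕ} (hF : ∀ l, M ≤ l → F l = 0) (n : ℕ) :
    ∑ l ∈ range n, F l ≤ ∑ l ∈ range M, F l := by
  rcases Nat.le_total n M with h | h
  · exact sum_le_sum_of_subset_of_nonneg (range_subset_range.2 h) fun i _ _ => h0 i
  · obtain ⟨d, rfl⟩ := Nat.exists_eq_add_of_le h
    rw [sum_range_add]
    have : ∑ x ∈ range d, F (M + x) = 0 := sum_eq_zero fun x _ => hF _ (Nat.le_add_right _ _)
    rw [this, add_zero]

theorem D_le (j : ℕ) (x : ℤ) : D τ j x ≤ 3 ^ j := by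
  have h1 := (cc_summable τ j x).tsum_le_tsum (fun t => cc_le_ms τ j t x)
    ((ms_hasSum τ j).summable.mul_left _)
  rw [tsum_mul_left, (ms_hasSum τ j).tsum_eq, mul_one] at h1
  exact h1

theorem N_zero' (L : ℕ) : N L (fun _ => (0 : ℝ)) = 0 := by simp [N, S]

end

/-- the martingale itself as initial function -/
theorem glim_D {ε : ℝ} (hε : 0 < ε) : ∃ n₀ : ℕ, ∀ n, n₀ ≤ n → ∃ K : ℕ, ∀ (τ : ℝ) [TiltR τ],
    ∀ k, K ≤ k → ∀ L, n + k ≤ L →
    ∑ j ∈ range (k + 1), N L (fun x => Mi τ (D τ n) k j x - bep τ k j * D τ n x) ≤ ε := by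
  obtain ⟨n₀, hn₀⟩ := glim_one (show 0 < ε / 2 by positivity)
  refine ⟨n₀, fun n hn => ?_⟩
  obtain ⟨K₁, hK₁⟩ := hn₀ n hn
  obtain ⟨K₂, hK₂⟩ := gmixing n (show (0 : ℝ) ≤ 3 ^ n + 1 by positivity) (show 0 < ε / 2 by positivity)
  refine ⟨max K₁ K₂, fun τ _ k hk L hL => ?_⟩
  have hp : Per n (fun x => D τ n x - 1) := by
    intro x y
    dsimp only
    rw [D_per τ n x y]
  have h0 : S n (fun x => D τ n x - 1) = 0 := by
    have h1 : S n (fun x => D τ n x - 1) = S n (D τ n) - 3 ^ n := by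
      unfold S
      rw [sum_sub_distrib, sum_const, card_range, nsmul_eq_mul]
      push_cast
      ring
    rw [h1, D_total, sub_self]
  have hB : ∀ x, |D τ n x - 1| ≤ 3 ^ n + 1 := by
    intro x
    have h1 := D_le τ n x
    have h2 := D_nonneg τ n x
    have h3 : (0 : ℝ) < 3 ^ n := by positivity
    rw [abs_le]
    constructor <;> linarith
  have h1 := hK₁ τ k ((le_max_left _ _).trans hk) L hL
  have h2 := hK₂ τ _ hp h0 hB k ((le_max_right _ _).trans hk)
  have h3 : ∀ j ∈ range (k + 1), N L (fun x => Mi τ (D τ n) k j x - bep τ k j * D τ n x) ≤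
      N (n + k) (Mi τ (fun x => D τ n x - 1) k j) +
      N L (fun x => Mi τ (fun _ => 1) k j x - bep τ k j * D τ n x) := by
    intro j _
    have e : ∀ x, Mi τ (D τ n) k j x - bep τ k j * D τ n x = Mi τ (fun x => D τ n x - 1) k j x +
        (Mi τ (fun _ => 1) k j x - bep τ k j * D τ n x) := by
      intro x
      rw [Mi_sub (D τ n) (fun _ => 1)]
      ring
    rw [N_congr e]
    refine (N_add _ _).trans ?_
    rw [N_per (Mi_per hp k j) (by omega)]
  refine (sum_le_sum h3).trans ?_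
  rw [sum_add_distrib]
  have : ∑ j ∈ range (k + 1), N (n + k) (Mi τ (fun x => D τ n x - 1) k j) = GN τ n k (fun x => D τ n x - 1) := rfl
  linarith

/-- the martingales are uniformly Cauchy -/
theorem cauchyD {ε : ℝ} (hε : 0 < ε) : ∃ n₀ : ℕ, ∀ n n', n₀ ≤ n → n₀ ≤ n' →
    ∀ (τ : ℝ) [TiltR τ], ∀ L, n ≤ L → n' ≤ L → N L (fun x => D τ n x - D τ n' x) ≤ ε := by
  obtain ⟨n₀, hn₀⟩ := glim_one (show 0 < ε / 2 by positivity)
  refine ⟨n₀, fun n n' hn hn' τ _ L hL hL' => ?_⟩
  obtain ⟨K₁, hK₁⟩ := hn₀ n hn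
  obtain ⟨K₂, hK₂⟩ := hn₀ n' hn'
  set k := max K₁ K₂ with hk
  have h1 := hK₁ τ k (le_max_left _ _) (L + k) (by omega)
  have h2 := hK₂ τ k (le_max_right _ _) (L + k) (by omega)
  have hp : Per L (fun x => D τ n x - D τ n' x) := by
    intro x y
    dsimp only
    rw [(D_per τ n).le hL x y, (D_per τ n').le hL' x y]
  have h3 : N L (fun x => D τ n x - D τ n' x) =
      ∑ i ∈ range (k + 1), bep τ k i * N (L + k) (fun x => D τ n x - D τ n' x) := by
    rw [← sum_mul, bep_total, one_mul, N_per hp (Nat.le_add_right L k)]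
  rw [h3]
  have h4 : ∀ i ∈ range (k + 1), bep τ k i * N (L + k) (fun x => D τ n x - D τ n' x) ≤
      N (L + k) (fun x => Mi τ (fun _ => 1) k i x - bep τ k i * D τ n x) +
      N (L + k) (fun x => Mi τ (fun _ => 1) k i x - bep τ k i * D τ n' x) := by
    intro i _
    have h5 := N_tri (n := L + k) (fun x => bep τ k i * D τ n x) (Mi τ (fun _ => 1) k i)
      (fun x => bep τ k i * D τ n' x)
    have e : ∀ x, bep τ k i * D τ n x - bep τ k i * D τ n' x = bep τ k i * (D τ n x - D τ n' x) := by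
      intro x; ring
    rw [N_congr e, N_smul, abs_of_nonneg (bep_nonneg τ k i),
      N_comm (n := L + k) (fun x => bep τ k i * D τ n x) (Mi τ (fun _ => 1) k i)] at h5
    exact h5
  refine (sum_le_sum h4).trans ?_
  rw [sum_add_distrib]
  linarith

/-- `√k` times the largest binomial probability of half the steps -/
theorem sqrt_dl {k l : ℕ} (h : k ≤ 2 * l + 1) : Real.sqrt k * dl l ≤ 6 := by
  unfold dl
  rw [← mul_div_assoc, div_le_iff₀ (by positivity)]
  have h1 : Real.sqrt k ≤ Real.sqrt (2.25 * ((l : ℝ) + 1)) := by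
    apply Real.sqrt_le_sqrt
    have : (k : ℝ) ≤ 2 * l + 1 := by exact_mod_cast h
    have : (0 : ℝ) ≤ l := by positivity
    linarith
  rw [Real.sqrt_mul (by norm_num), show (2.25 : ℝ) = 1.5 ^ 2 by norm_num,
    Real.sqrt_sq (by norm_num)] at h1
  linarith

/-- **the local limit theorem**, for every number of odd steps -/
theorem local_lim {B : ℝ} (hB0 : 0 ≤ B) {ε : ℝ} (hε : 0 < ε) :
    ∃ n₀ : ℕ, ∀ n, n₀ ≤ n → ∀ m : ℕ, ∃ K : ℕ, ∀ (τ : ℝ) [TiltR τ] (g : ℤ → ℝ), Per m g →
      (∀ x, |g x| ≤ B) → ∀ k, K ≤ k → ∀ i L, m + n + k ≤ L →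
      Real.sqrt k * N L (fun x => Mi τ g k i x - bep τ k i * (S m g / 3 ^ m * D τ n x)) ≤ ε := by
  obtain ⟨n₁, hn₁⟩ := glim hB0 (show 0 < ε / 12 by positivity)
  obtain ⟨n₂, hn₂⟩ := glim_D (show 0 < ε / (12 * (B + 1)) by positivity)
  refine ⟨max n₁ n₂, fun n hn m => ?_⟩
  obtain ⟨K₁, hK₁⟩ := hn₁ n ((le_max_left _ _).trans hn) m
  obtain ⟨K₂, hK₂⟩ := hn₂ n ((le_max_right _ _).trans hn)
  refine ⟨2 * (K₁ + K₂), fun τ _ g hg hgB k' hk' i L hL => ?_⟩
  set γ : ℝ := S m g / 3 ^ m with hγ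
  have hγB : |γ| ≤ B := by
    rw [hγ, abs_div, abs_of_pos (show (0 : ℝ) < 3 ^ m by positivity), div_le_iff₀ (by positivity)]
    unfold S
    refine (abs_sum_le_sum_abs _ _).trans ((sum_le_sum fun x _ => hgB _).trans (le_of_eq ?_))
    rw [sum_const, card_range, nsmul_eq_mul]
    push_cast
    ring
  obtain ⟨l, k, hlk, hl, hk⟩ : ∃ l k : ℕ, k' = l + k ∧ k' ≤ 2 * l + 1 ∧ k' ≤ 2 * k + 1 :=
    ⟨k' - k' / 2, k' / 2, by omega, by omega, by omega⟩
  have hK1l : K₁ ≤ l := by omega
  have hK2k : K₂ ≤ k := by omega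
  subst hlk
  set h : ℕ → ℤ → ℝ := fun s x => Mi τ g l s x - bep τ l s * (γ * D τ n x) with hh
  have hper : ∀ s, Per (m + n + l) (h s) := by
    intro s x y
    rw [hh]
    dsimp only
    rw [(Mi_per hg l s).le (show m + l ≤ m + n + l by omega) x y,
      (D_per τ n).le (show n ≤ m + n + l by omega) x y]
  have e : ∀ x, Mi τ g (l + k) i x - bep τ (l + k) i * (γ * D τ n x) =
      ∑ j ∈ range (i + 1), Mi τ (h (i - j)) k j x +
      ∑ j ∈ range (i + 1), bep τ l (i - j) * γ * (Mi τ (D τ n) k j x - bep τ k j * D τ n x) := by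
    intro x
    rw [Mi_comp, bep_comp, ← sum_add_distrib, sum_mul, ← sum_sub_distrib]
    refine sum_congr rfl fun j _ => ?_
    have h1 : Mi τ (h (i - j)) k j x = Mi τ (Mi τ g l (i - j)) k j x -
        bep τ l (i - j) * (γ * Mi τ (D τ n) k j x) := by
      rw [hh]
      dsimp only
      rw [Mi_sub (Mi τ g l (i - j)) (fun x => bep τ l (i - j) * (γ * D τ n x)),
        Mi_smul (bep τ l (i - j)) (fun x => γ * D τ n x), Mi_smul γ (D τ n)]
    rw [h1]
    ring
  rw [N_congr e]
  have hG := hK₁ τ g hg hgB l hK1l (m + n + l) le_rfl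
  have hD := hK₂ τ k hK2k L (by omega)
  have hA : N L (fun x => ∑ j ∈ range (i + 1), Mi τ (h (i - j)) k j x) ≤ dl k * (ε / 12) := by
    refine (N_sum_le _ _ _).trans ?_
    have h1 : ∀ j ∈ range (i + 1), N L (Mi τ (h (i - j)) k j) ≤ dl k * N (m + n + l) (h (i - j)) := by
      intro j _
      rw [N_per (Mi_per (hper (i - j)) k j) (by omega)]
      exact (N_Mi (hper (i - j)) k j).trans
        (mul_le_mul_of_nonneg_right (bep_le τ k j) (N_nonneg _ _))
    refine (sum_le_sum h1).trans ?_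
    rw [← mul_sum]
    refine mul_le_mul_of_nonneg_left ?_ (dl_nonneg k)
    have h2 : ∑ j ∈ range (i + 1), N (m + n + l) (h (i - j)) = ∑ j ∈ range (i + 1), N (m + n + l) (h j) := by
      have := sum_range_reflect (fun j => N (m + n + l) (h j)) (i + 1)
      rw [← this]
      refine sum_congr rfl fun j hj => ?_
      rw [mem_range] at hj
      have e1 : i + 1 - 1 - j = i - j := by omega
      rw [e1]
    rw [h2]
    refine (sum_supp (fun s => N_nonneg _ _) (M := l + 1) (fun s hs => ?_) (i + 1)).trans hG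
    have e1 : ∀ x, h s x = 0 := by
      intro x
      rw [hh]
      dsimp only
      rw [Mi_big (by omega), bep_big τ (by omega)]
      ring
    rw [N_congr e1]
    exact N_zero' _
  have hC : N L (fun x => ∑ j ∈ range (i + 1), bep τ l (i - j) * γ *
      (Mi τ (D τ n) k j x - bep τ k j * D τ n x)) ≤ dl l * (ε / 12) := by
    refine (N_sum_le _ _ _).trans ?_
    have h1 : ∀ j ∈ range (i + 1), N L (fun x => bep τ l (i - j) * γ *
        (Mi τ (D τ n) k j x - bep τ k j * D τ n x)) ≤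
        dl l * B * N L (fun x => Mi τ (D τ n) k j x - bep τ k j * D τ n x) := by
      intro j _
      rw [N_smul, abs_mul, abs_of_nonneg (bep_nonneg τ _ _)]
      exact mul_le_mul_of_nonneg_right (mul_le_mul (bep_le τ _ _) hγB (abs_nonneg _) (dl_nonneg _))
        (N_nonneg _ _)
    refine (sum_le_sum h1).trans ?_
    rw [← mul_sum]
    have h2 := (sum_supp (fun j => N_nonneg L (fun x => Mi τ (D τ n) k j x - bep τ k j * D τ n x))
      (M := k + 1) (fun s hs => by
        have e1 : ∀ x, Mi τ (D τ n) k s x - bep τ k s * D τ n x = 0 := by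
          intro x
          rw [Mi_big (by omega), bep_big τ (by omega)]
          ring
        rw [N_congr e1]
        exact N_zero' _) (i + 1)).trans hD
    calc dl l * B * _ ≤ dl l * B * (ε / (12 * (B + 1))) :=
          mul_le_mul_of_nonneg_left h2 (mul_nonneg (dl_nonneg _) hB0)
      _ = dl l * (B * (ε / (12 * (B + 1)))) := by ring
      _ ≤ dl l * (ε / 12) := by
          refine mul_le_mul_of_nonneg_left ?_ (dl_nonneg l)
          rw [← mul_div_assoc, div_le_div_iff₀ (by positivity) (by norm_num)]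
          nlinarith
  have h5 := sqrt_dl hl
  have h6 := sqrt_dl hk
  have h7 := (N_add (n := L) (fun x => ∑ j ∈ range (i + 1), Mi τ (h (i - j)) k j x)
    (fun x => ∑ j ∈ range (i + 1), bep τ l (i - j) * γ * (Mi τ (D τ n) k j x - bep τ k j * D τ n x))).trans
    (add_le_add hA hC)
  refine (mul_le_mul_of_nonneg_left h7 (Real.sqrt_nonneg _)).trans ?_
  have h8 : Real.sqrt ((l + k : ℕ) : ℝ) * (dl k * (ε / 12) + dl l * (ε / 12)) =
      (Real.sqrt ((l + k : ℕ) : ℝ) * dl k) * (ε / 12) + (Real.sqrt ((l + k : ℕ) : ℝ) * dl l) * (ε / 12) := by ring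
  rw [h8]
  have h9 : 0 < ε / 12 := by positivity
  nlinarith

end Pool.Agent.H623.TP
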