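import Pool.Agent.H623.TP.Z
import Pool.Agent.H623.TP.T_MODE
import Pool.Agent.H623.TS.N

/-!
# The local limit theorem for the nodes of the trees, uniformly in the slope
-/

set_option autoImplicit false
set_option linter.unusedVariables false
set_option linter.unusedSectionVars false

namespace Pool.Agent.H623.TP

open Finset Filter Topology MeasureTheory Pool.Agent.H320R2.PD Pool.Agent.H377R2.NK
open Pool.Agent.X16.SL (ms3 bs3 mu3 cl mem_cl_iff meas_cl stp stp_eq stp_meas stp_int int_stp real_cl)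
open Pool.Agent.H623.TS (Per S S_per S_mono S_aff S_B N N_nonneg N_per N_add N_congr N_smul N_tri N_comm
  N_sum_le up up_apply appr_per up_per up_int integral_up integral_abs_up three_dvd_appr units_eq
  units_meas T odds odds_succ_last odds_le Fr mem_Fr sum_Fr_succ ic ic_per S_ic gnodes gnodes_congr
  dvd_two_mul_pow)
open scoped ENNReal

attribute [local instance] ms3
attribute [local instance] bs3

theorem choose_ratio (j : ℕ) : ∀ o k i : ℕ, o ≤ j → k ≤ 5 * (i - o) → k ≤ 5 * (k - j - (i - o)) →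
    k.choose i ≤ 5 ^ j * (k - j).choose (i - o) := by
  induction j with
  | zero =>
    intro o k i ho _ _
    have : o = 0 := by omega
    subst this
    simp
  | succ j ih =>
    intro o k i ho h1 h2
    rcases Nat.eq_zero_or_pos k with hk | hk
    · subst hk
      rcases Nat.eq_zero_or_pos i with hi | hi
      · subst hi
        simp
        exact Nat.one_le_pow _ _ (by norm_num)
      · rw [Nat.choose_eq_zero_of_lt hi]
        exact Nat.zero_le _
    obtain ⟨k', rfl⟩ := Nat.exists_eq_add_of_le' hk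
    have e1 : k' + 1 - (j + 1) = k' - j := by omega
    rw [e1] at h2 ⊢
    rcases Nat.eq_zero_or_pos o with ho0 | ho0
    · subst ho0
      have h3 := Nat.choose_mul_succ_eq k' i
      have h4 : k' + 1 ≤ 5 * (k' + 1 - i) := by omega
      have h5 : (k' + 1).choose i ≤ 5 * k'.choose i := by
        have h6 : 0 < k' + 1 - i := by omega
        by_contra hcon
        rw [not_le] at hcon
        have h7 : 5 * k'.choose i * (k' + 1 - i) < (k' + 1).choose i * (k' + 1 - i) :=
          Nat.mul_lt_mul_of_pos_right hcon h6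
        rw [← h3] at h7
        have h8 : k'.choose i * (k' + 1) ≤ k'.choose i * (5 * (k' + 1 - i)) :=
          Nat.mul_le_mul_left _ h4
        have h9 : k'.choose i * (5 * (k' + 1 - i)) = 5 * k'.choose i * (k' + 1 - i) := by ring
        omega
      have h6 := ih 0 k' i (by omega) (by omega) (by omega)
      calc (k' + 1).choose i ≤ 5 * k'.choose i := h5
        _ ≤ 5 * (5 ^ j * (k' - j).choose (i - 0)) := Nat.mul_le_mul_left _ h6
        _ = 5 ^ (j + 1) * (k' - j).choose (i - 0) := by rw [pow_succ]; ring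
    · obtain ⟨o', rfl⟩ := Nat.exists_eq_add_of_le' ho0
      obtain ⟨i', rfl⟩ := Nat.exists_eq_add_of_le' (show 1 ≤ i by omega)
      have h3 := Nat.add_one_mul_choose_eq k' i'
      have h4 : k' + 1 ≤ 5 * (i' + 1) := by omega
      have h5 : (k' + 1).choose (i' + 1) ≤ 5 * k'.choose i' := by
        by_contra hcon
        rw [not_le] at hcon
        have h7 : 5 * k'.choose i' * (i' + 1) < (k' + 1).choose (i' + 1) * (i' + 1) :=
          Nat.mul_lt_mul_of_pos_right hcon (by omega)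
        rw [← h3] at h7
        have h8 : (k' + 1) * k'.choose i' ≤ (5 * (i' + 1)) * k'.choose i' :=
          Nat.mul_le_mul_right _ h4
        have h9 : 5 * (i' + 1) * k'.choose i' = 5 * k'.choose i' * (i' + 1) := by ring
        omega
      have h6 := ih o' k' i' (by omega) (by omega) (by omega)
      have e2 : i' + 1 - (o' + 1) = i' - o' := by omega
      rw [e2]
      calc (k' + 1).choose (i' + 1) ≤ 5 * k'.choose i' := h5
        _ ≤ 5 * (5 ^ j * (k' - j).choose (i' - o')) := Nat.mul_le_mul_left _ h6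
        _ = 5 ^ (j + 1) * (k' - j).choose (i' - o') := by rw [pow_succ]; ring

section

variable (τ : ℝ) [TiltR τ]

theorem bep_ratio {j o k i : ℕ} (hoj : o ≤ j) (h1 : k ≤ 5 * (i - o)) (h2 : k ≤ 5 * (k - j - (i - o)))
    (hjk : j < k) : bep τ k i ≤ 5 ^ j * bep τ (k - j) (i - o) := by
  have hp0 : 0 < τ := Tilt.pos
  have hq0 : 0 < 1 - τ := Tilt.lt
  unfold bep
  have h3 : ((k.choose i : ℕ) : ℝ) ≤ 5 ^ j * ((k - j).choose (i - o) : ℕ) := by
    exact_mod_cast choose_ratio j o k i hoj h1 h2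
  have h4 : τ ^ i ≤ τ ^ (i - o) := pow_le_pow_of_le_one hp0.le (by linarith) (by omega)
  have h5 : (1 - τ) ^ (k - i) ≤ (1 - τ) ^ (k - j - (i - o)) :=
    pow_le_pow_of_le_one hq0.le (by linarith) (by omega)
  calc (k.choose i : ℝ) * τ ^ i * (1 - τ) ^ (k - i)
      ≤ (5 ^ j * ((k - j).choose (i - o) : ℕ)) * τ ^ (i - o) * (1 - τ) ^ (k - j - (i - o)) := by
        refine mul_le_mul (mul_le_mul h3 h4 (by positivity) (by positivity)) h5 (by positivity)
          (by positivity)
    _ = 5 ^ j * (((k - j).choose (i - o) : ℝ) * τ ^ (i - o) * (1 - τ) ^ (k - j - (i - o))) := by ring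

theorem gnodes_Mi {k i j m r a : ℕ} (ha : 1 ≤ a) :
    od τ ^ i * (1 - τ) ^ k * (gnodes k i (2 ^ j * 3 ^ m) r a : ℝ) = Mi τ (ic j m r) k i a := by
  rw [Mi_nodes _ k i a ha]
  congr 1
  unfold ic
  rw [← sum_filter, ← sum_filter, sum_const, nsmul_eq_mul, mul_one]
  unfold gnodes
  rw [← Set.ncard_coe_finset]
  congr 2
  ext n
  rw [Finset.mem_coe, mem_filter, mem_filter, mem_Fr, Set.mem_ofPred_eq, Nat.modEq_iff_dvd]
  push_cast
  rw [← dvd_neg, neg_sub]
  tauto

/-- the counts and the graded iterates at an arbitrary tilt -/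
theorem gnodes_val {l i' j m r a : ℕ} (ha : 1 ≤ a) (hi : i' ≤ l) :
    (3 : ℝ) ^ (i' + odds j r + m) * (gnodes (l + j) (i' + odds j r) (2 ^ j * 3 ^ m) r a : ℝ) /
      (l.choose i' : ℝ) =
    3 ^ (m + odds j r) / bep τ l i' * Mi τ (ic 0 (m + odds j r) (T^[j] r)) l i' a := by
  have hp0 : 0 < τ := Tilt.pos
  have hq0 : 0 < 1 - τ := Tilt.lt
  have ho0 : 0 < od τ := od_pos
  have h1 := gnodes_Mi τ (k := l + j) (i := i' + odds j r) (j := j) (m := m) (r := r) ha
  rw [Mi_ic, if_pos (Nat.le_add_left _ _), Nat.add_sub_cancel] at h1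
  set X := Mi τ (ic 0 (m + odds j r) (T^[j] r)) l i' a with hX
  set G : ℝ := (gnodes (l + j) (i' + odds j r) (2 ^ j * 3 ^ m) r a : ℝ) with hG
  have hc : (0 : ℝ) < (l.choose i' : ℝ) := by exact_mod_cast Nat.choose_pos hi
  have h2 : X = od τ ^ i' * (1 - τ) ^ l * G := by
    have h3 : (1 - τ) ^ j * od τ ^ odds j r * X = (1 - τ) ^ j * od τ ^ odds j r *
        (od τ ^ i' * (1 - τ) ^ l * G) := by
      rw [← h1, pow_add, pow_add]
      ring
    exact mul_left_cancel₀ (by positivity) h3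
  have h4 : od τ ^ i' * (1 - τ) ^ l = 3 ^ i' * (τ ^ i' * (1 - τ) ^ (l - i')) := by
    obtain ⟨d, rfl⟩ := Nat.exists_eq_add_of_le hi
    rw [Nat.add_sub_cancel_left, pow_add, od, mul_pow, div_pow]
    field_simp
  rw [h2, h4]
  unfold bep
  rw [pow_add, pow_add, pow_add]
  field_simp

end

theorem mkR {k i : ℕ} (hk : 1 ≤ k) (h1 : 6 * k ≤ 25 * i) (h2 : 15 * i ≤ 8 * k) :
    TiltR ((i : ℝ) / k) := by
  have hk' : (0 : ℝ) < k := by exact_mod_cast hk
  have h1' : (6 : ℝ) * k ≤ 25 * i := by exact_mod_cast h1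
  have h2' : (15 : ℝ) * i ≤ 8 * k := by exact_mod_cast h2
  have a1 : (6 : ℝ) / 25 ≤ (i : ℝ) / k := by
    rw [div_le_div_iff₀ (by norm_num) hk']
    linarith
  have a2 : (i : ℝ) / k ≤ 8 / 15 := by
    rw [div_le_div_iff₀ hk' (by norm_num)]
    linarith
  exact { pos := by linarith, lt := by linarith, lo := a1, hi := a2 }

/-- **the local limit theorem** for the nodes in a residue class with a given number of odd terms -/
theorem class_lim (j m r : ℕ) {ε : ℝ} (hε : 0 < ε) : ∃ K : ℕ, ∀ k i : ℕ, K ≤ k → 6 * k ≤ 25 * i →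
    15 * i ≤ 8 * k → ∀ f : ℤ_[3] → ℝ, Good ((i : ℝ) / k) f →
    ∫ z, |(3 : ℝ) ^ (i + m) * (gnodes k i (2 ^ j * 3 ^ m) r (z.appr (m + k) + 3 ^ (m + k)) : ℝ) /
      ((k - j).choose (i - odds j r) : ℝ) - f z| ∂mu3 ≤ ε := by
  set o : ℕ := odds j r with ho
  have hoj : o ≤ j := odds_le j r
  set M : ℕ := m + o with hM
  set g : ℤ → ℝ := ic 0 M (T^[j] r) with hg
  have hgp : Per M g := ic_per _ _
  have hgB : ∀ x, |g x| ≤ 1 := by
    intro x
    rw [hg]
    unfold ic
    split_ifs <;> norm_num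
  set ε' : ℝ := ε / (16 * 3 ^ M * 5 ^ j) with hε'
  have hε'0 : 0 < ε' := by positivity
  obtain ⟨n₁, hn₁⟩ := local_lim (B := 1) (by norm_num) hε'0
  obtain ⟨n₂, hn₂⟩ := unif (show 0 < ε / 2 by positivity)
  set n := max n₁ n₂ with hn
  obtain ⟨K, hK⟩ := hn₁ n (le_max_left _ _) M
  refine ⟨K + 25 * j + 25, fun k i hk h1 h2 f hf => ?_⟩
  obtain ⟨l, rfl⟩ := Nat.exists_eq_add_of_le' (show j ≤ k by omega)
  obtain ⟨i', rfl⟩ := Nat.exists_eq_add_of_le' (show o ≤ i by omega)
  rw [Nat.add_sub_cancel, Nat.add_sub_cancel]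
  set τ : ℝ := ((i' + o : ℕ) : ℝ) / ((l + j : ℕ) : ℝ) with hτ
  have hT : TiltR τ := mkR (by omega) h1 h2
  have hp0 : 0 < τ := Tilt.pos
  have hq0 : 0 < 1 - τ := Tilt.lt
  -- the lower bound of the binomial probability
  have hmode : 1 / (4 * Real.sqrt ((l + j : ℕ) : ℝ)) ≤ 5 ^ j * bep τ l i' := by
    have h3 := t_MODE (l + j) (i' + o) (by omega) (by omega) (by omega)
    have h4 := bep_ratio τ (j := j) (o := o) (k := l + j) (i := i' + o) hoj (by omega) (by omega) (by omega)
    rw [Nat.add_sub_cancel, Nat.add_sub_cancel] at h4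
    exact h3.trans h4
  set b : ℝ := bep τ l i' with hb
  have hkpos : (0 : ℝ) < ((l + j : ℕ) : ℝ) := by
    have : 0 < l + j := by omega
    exact_mod_cast this
  have hsq : 0 < Real.sqrt ((l + j : ℕ) : ℝ) := Real.sqrt_pos.2 hkpos
  have hb0 : 0 < b := by
    have h3 : 0 < 1 / (4 * Real.sqrt ((l + j : ℕ) : ℝ)) := by positivity
    have h4 : 0 < (5 : ℝ) ^ j * b := h3.trans_le hmode
    exact pos_of_mul_pos_right h4 (by positivity)
  have hsl : Real.sqrt ((l + j : ℕ) : ℝ) ≤ 2 * Real.sqrt l := by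
    rw [Real.sqrt_le_left (by positivity), mul_pow, Real.sq_sqrt (by positivity)]
    have : l + j ≤ 2 ^ 2 * l := by omega
    exact_mod_cast this
  -- the main estimate
  have hmain := hK τ g hgp hgB l (by omega) i' (M + n + l) le_rfl
  rw [S_ic] at hmain
  set Q : ℝ := N (M + n + l) (fun x => Mi τ g l i' x - b * (1 / 3 ^ M * D τ n x)) with hQ
  have hQ0 : 0 ≤ Q := N_nonneg _ _
  have hN : N (M + n + l) (fun x => 3 ^ M / b * Mi τ g l i' x - D τ n x) ≤ ε / 2 := by
    have e : ∀ x, 3 ^ M / b * Mi τ g l i' x - D τ n x =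
        3 ^ M / b * (Mi τ g l i' x - b * (1 / 3 ^ M * D τ n x)) := by
      intro x
      field_simp
    rw [N_congr e, N_smul, abs_of_pos (by positivity), ← hQ]
    have h3 : Q * Real.sqrt ((l + j : ℕ) : ℝ) ≤ 2 * ε' := by
      calc Q * Real.sqrt ((l + j : ℕ) : ℝ) ≤ Q * (2 * Real.sqrt l) := mul_le_mul_of_nonneg_left hsl hQ0
        _ = 2 * (Real.sqrt l * Q) := by ring
        _ ≤ 2 * ε' := by linarith
    have h4 : Q ≤ 5 ^ j * b * (8 * ε') := by
      have h5 : Q = (Q * Real.sqrt ((l + j : ℕ) : ℝ)) * (4 * (1 / (4 * Real.sqrt ((l + j : ℕ) : ℝ)))) := by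
        field_simp
      rw [h5]
      calc (Q * Real.sqrt ((l + j : ℕ) : ℝ)) * (4 * (1 / (4 * Real.sqrt ((l + j : ℕ) : ℝ))))
          ≤ (2 * ε') * (4 * (5 ^ j * b)) := by
            refine mul_le_mul h3 ?_ (by positivity) (by positivity)
            linarith
        _ = 5 ^ j * b * (8 * ε') := by ring
    calc 3 ^ M / b * Q ≤ 3 ^ M / b * (5 ^ j * b * (8 * ε')) :=
          mul_le_mul_of_nonneg_left h4 (by positivity)
      _ = ε / 2 := by
          rw [hε']
          field_simp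
          ring
  -- conclusion
  have hval : ∀ z : ℤ_[3], (3 : ℝ) ^ (i' + o + m) * (gnodes (l + j) (i' + o) (2 ^ j * 3 ^ m) r
      (z.appr (m + (l + j)) + 3 ^ (m + (l + j))) : ℝ) / (l.choose i' : ℝ) =
      up (M + n + l) (fun x => 3 ^ M / b * Mi τ g l i' x) z := by
    intro z
    have h3 : 1 ≤ z.appr (m + (l + j)) + 3 ^ (m + (l + j)) := by
      have : 0 < 3 ^ (m + (l + j)) := by positivity
      omega
    have h4 := gnodes_val τ (l := l) (i' := i') (j := j) (m := m) (r := r) h3 (by omega)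
    rw [← ho, ← hM, ← hb, ← hg] at h4
    rw [h4, up_apply]
    have hPer : Per (M + l) (Mi τ g l i') := Mi_per hgp l i'
    have h5 := (hPer.le (show M + l ≤ m + (l + j) by omega)) ((z.appr (m + (l + j)) : ℕ) : ℤ) 1
    rw [mul_one] at h5
    push_cast
    rw [h5, appr_per (show M + l ≤ m + (l + j) by omega) hPer,
      appr_per (show M + l ≤ M + n + l by omega) hPer]
  simp only [hval]
  have hU : ∀ z : ℤ_[3], U τ n z = up (M + n + l) (D τ n) z := by
    intro z
    unfold U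
    rw [up_per (show n ≤ M + n + l by omega) (D_per τ n)]
  have h6 := hn₂ n (le_max_right _ _) τ f hf
  have h7 : ∫ z, |up (M + n + l) (fun x => 3 ^ M / b * Mi τ g l i' x) z - f z| ∂mu3 ≤
      ∫ z, (|up (M + n + l) (fun x => 3 ^ M / b * Mi τ g l i' x) z - up (M + n + l) (D τ n) z| +
        |U τ n z - f z|) ∂mu3 := by
    refine integral_mono ((up_int _ _).sub hf.1).abs
      (((up_int _ _).sub (up_int _ _)).abs.add ((U_int τ _).sub hf.1).abs) fun z => ?_
    dsimp only
    rw [hU]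
    exact abs_sub_le _ _ _
  have h8 := integral_add (μ := mu3)
    (f := fun z => |up (M + n + l) (fun x => 3 ^ M / b * Mi τ g l i' x) z - up (M + n + l) (D τ n) z|)
    (g := fun z => |U τ n z - f z|) ((up_int _ _).sub (up_int _ _)).abs ((U_int τ _).sub hf.1).abs
  rw [h8, integral_abs_up] at h7
  linarith

/-! ### continuity in the tilt -/

theorem cc_cont (j t : ℕ) (x : ℤ) : ContinuousOn (fun τ => cc τ j t x) (Set.Icc (6 / 25) (8 / 15)) := by
  unfold cc cnt
  refine continuousOn_const.mul (continuousOn_finsetSum _ fun w _ => ?_)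
  split_ifs
  · unfold qp
    refine ContinuousOn.mul (ContinuousOn.pow (ContinuousOn.div continuousOn_id
      (continuousOn_const.sub continuousOn_id) fun p hp => ?_) _)
      ((continuousOn_const.sub continuousOn_id).pow _)
    have h1 : p ≤ 8 / 15 := hp.2
    have h2 : 1 - p ≠ 0 := by
      intro h
      linarith
    exact h2
  · exact continuousOn_const

theorem mkR' {τ : ℝ} (h : τ ∈ Set.Icc (6 / 25 : ℝ) (8 / 15)) : TiltR τ :=
  { pos := by linarith [h.1], lt := by linarith [h.2], lo := h.1, hi := h.2 }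

theorem D_tail (τ : ℝ) [TiltR τ] (K j : ℕ) (x : ℤ) : D τ j x - ∑ t ∈ range (K + 1), cc τ j t x ≤
    3 ^ j * (1 - ∑ t ∈ range (K + 1), ms τ j t) := by
  have h1 : HasSum (fun t => 3 ^ j * ms τ j t - cc τ j t x) (3 ^ j * 1 - D τ j x) :=
    ((ms_hasSum τ j).mul_left _).sub (cc_summable τ j x).hasSum
  have h2 := sum_le_hasSum (range (K + 1)) (fun t _ => sub_nonneg.2 (cc_le_ms τ j t x)) h1
  rw [sum_sub_distrib, ← mul_sum] at h2
  linarith

theorem D_cont (j : ℕ) (x : ℤ) : ContinuousOn (fun τ => D τ j x) (Set.Icc (6 / 25) (8 / 15)) := by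
  refine continuousOn_of_uniform_approx_of_continuousOn fun u hu => ?_
  obtain ⟨ε, hε, hu'⟩ := Metric.mem_uniformity_dist.1 hu
  obtain ⟨K, hK⟩ := ms_sum_ge j (show 0 < ε / (2 * 3 ^ j) by positivity)
  refine ⟨fun τ => ∑ t ∈ range (K + 1), cc τ j t x, continuousOn_finsetSum _ fun t _ => cc_cont j t x,
    fun τ hτ => hu' ?_⟩
  have hT : TiltR τ := mkR' hτ
  have h1 := hK τ
  have h2 := D_tail τ K j x
  have h3 := cc_sum_le τ K j x
  rw [Real.dist_eq, abs_of_nonneg (by linarith)]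
  refine lt_of_le_of_lt h2 ?_
  have h4 : (3 : ℝ) ^ j * (1 - ∑ t ∈ range (K + 1), ms τ j t) ≤ 3 ^ j * (ε / (2 * 3 ^ j)) :=
    mul_le_mul_of_nonneg_left (by linarith) (by positivity)
  refine lt_of_le_of_lt h4 ?_
  have h5 : (3 : ℝ) ^ j * (ε / (2 * 3 ^ j)) = ε / 2 := by field_simp
  rw [h5]
  linarith

/-- continuity of the densities in mean -/
theorem f_cont {f : ℝ → ℤ_[3] → ℝ} (hf : ∀ τ ∈ Set.Icc (6 / 25 : ℝ) (8 / 15), Good τ (f τ))
    {τ : ℝ} (hτ : τ ∈ Set.Icc (6 / 25 : ℝ) (8 / 15)) :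
    Tendsto (fun σ => ∫ z, |f σ z - f τ z| ∂mu3) (𝓝[Set.Icc (6 / 25) (8 / 15)] τ) (𝓝 0) := by
  have hT : TiltR τ := mkR' hτ
  rw [Metric.tendsto_nhds]
  intro ε hε
  obtain ⟨n, hn⟩ := unif (show 0 < ε / 4 by positivity)
  have hc : ContinuousOn (fun σ => N n (fun x => D σ n x - D τ n x)) (Set.Icc (6 / 25) (8 / 15)) := by
    unfold N S
    exact (continuousOn_finsetSum _ fun x _ => ((D_cont n _).sub continuousOn_const).abs).div_const _
  have h1 := hc τ hτ
  have h0 : N n (fun x => D τ n x - D τ n x) = 0 := by simp [N, S]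
  have h2 : Tendsto (fun σ => N n (fun x => D σ n x - D τ n x)) (𝓝[Set.Icc (6 / 25) (8 / 15)] τ) (𝓝 0) := by
    have := h1.tendsto
    rwa [h0] at this
  filter_upwards [(tendsto_order.1 h2).2 (ε / 4) (by positivity), self_mem_nhdsWithin] with σ hσ1 hσ2
  have hS : TiltR σ := mkR' hσ2
  have h3 := hn n le_rfl τ (f τ) (hf τ hτ)
  have h4 := hn n le_rfl σ (f σ) (hf σ hσ2)
  rw [← integral_abs_up] at hσ1
  have h5 : ∫ z, |f σ z - f τ z| ∂mu3 ≤
      ∫ z, (|U σ n z - f σ z| + (|up n (D σ n) z - up n (D τ n) z| + |U τ n z - f τ z|)) ∂mu3 := by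
    refine integral_mono ((hf σ hσ2).1.sub (hf τ hτ).1).abs (((U_int σ _).sub (hf σ hσ2).1).abs.add
      (((up_int _ _).sub (up_int _ _)).abs.add ((U_int τ _).sub (hf τ hτ).1).abs)) fun z => ?_
    dsimp only
    have e : f σ z - f τ z = -(U σ n z - f σ z) + ((up n (D σ n) z - up n (D τ n) z) +
        (U τ n z - f τ z)) := by
      unfold U
      ring
    rw [e]
    refine (abs_add_le _ _).trans ?_
    rw [abs_neg]
    exact add_le_add le_rfl (abs_add_le _ _)
  have h6 := integral_add (μ := mu3) (f := fun z => |U σ n z - f σ z|)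
    (g := fun z => |up n (D σ n) z - up n (D τ n) z| + |U τ n z - f τ z|)
    ((U_int σ _).sub (hf σ hσ2).1).abs
    (((up_int _ _).sub (up_int _ _)).abs.add ((U_int τ _).sub (hf τ hτ).1).abs)
  have h7 := integral_add (μ := mu3) (f := fun z => |up n (D σ n) z - up n (D τ n) z|)
    (g := fun z => |U τ n z - f τ z|) ((up_int _ _).sub (up_int _ _)).abs
    ((U_int τ _).sub (hf τ hτ).1).abs
  rw [Real.dist_eq, sub_zero, abs_of_nonneg (integral_nonneg fun z => abs_nonneg _)]
  rw [h6, h7] at h5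
  linarith

end Pool.Agent.H623.TP
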