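import Pool.Agent.H623.TP.Defs
import Pool.Graph.R_seed8.H377R2.NK.GzRec

/-!
Positivity, trivial bound and recursion for the annealed nonuniformity at a general tilt (adapted from
the case `1/4`, `Pool.Graph.R_seed8.H377R2.NK.GzRec`).
-/

set_option autoImplicit false
set_option linter.unusedVariables false

namespace Pool.Agent.H623.TP

open Finset Real Pool.Agent.H320R2.PD Pool.Agent.H377R2.NK

variable {τ : ℝ} [Tilt τ]

theorem qp_pos (w : List ℕ) : 0 < (qp τ) w := by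
  have hp0 : 0 < τ := Tilt.pos
  have hq0 : 0 < 1 - τ := Tilt.lt
  unfold qp
  positivity

theorem qp_append (u v : List ℕ) : (qp τ) (u ++ v) = (qp τ) u * (qp τ) v := by
  have hp0 : 0 < τ := Tilt.pos
  have hq0 : 0 < 1 - τ := Tilt.lt
  unfold qp
  rw [List.length_append, List.sum_append, pow_add, pow_add]
  ring

theorem qp_cons (e : ℕ) (v : List ℕ) : (qp τ) (e :: v) = (τ / (1 - τ) * (1 - τ) ^ e) * (qp τ) v := by
  have hp0 : 0 < τ := Tilt.pos
  have hq0 : 0 < 1 - τ := Tilt.lt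
  unfold qp
  rw [List.length_cons, List.sum_cons, pow_add, pow_succ]
  ring

theorem sum_pletter (A : ℕ) :
    ∑ e ∈ Icc 1 A, (τ / (1 - τ) * (1 - τ) ^ e : ℝ) = 1 - (1 - τ) ^ A := by
  have hp0 : 0 < τ := Tilt.pos
  have hq0 : 0 < 1 - τ := Tilt.lt
  induction A with
  | zero => simp
  | succ A ih =>
    rw [sum_Icc_succ_top (by omega), ih]
    field_simp
    ring

theorem sum_qp (A n : ℕ) : ∑ w ∈ FW A n, (qp τ) w = (1 - (1 - τ) ^ A) ^ n := by
  have hp0 : 0 < τ := Tilt.pos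
  have hq0 : 0 < 1 - τ := Tilt.lt
  induction n with
  | zero => simp [FW, qp]
  | succ n ih =>
    rw [sum_FW_succ, pow_succ', ← ih, ← sum_pletter, sum_mul]
    refine sum_congr rfl fun e _ => ?_
    rw [mul_sum]
    exact sum_congr rfl fun v _ => qp_cons e v

theorem sum_qp_le (A n : ℕ) : ∑ w ∈ FW A n, (qp τ) w ≤ 1 := by
  have hp0 : 0 < τ := Tilt.pos
  have hq0 : 0 < 1 - τ := Tilt.lt
  rw [sum_qp]
  have h : (1 - τ) ^ A ≤ 1 := pow_le_one₀ (by linarith) (by linarith)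
  have h0 : (0 : ℝ) < (1 - τ) ^ A := by positivity
  exact pow_le_one₀ (by linarith) (by linarith)

theorem gp_nonneg (A k j : ℕ) : 0 ≤ gp τ A k j :=
  Finset.sum_nonneg fun T _ => Gam_nonneg _ _ fun w _ => (qp_pos w).le

theorem gp_le_one (A k j : ℕ) : gp τ A k j ≤ 1 := by
  have hp0 : 0 < τ := Tilt.pos
  have hq0 : 0 < 1 - τ := Tilt.lt
  unfold gp
  have h1 : ∑ T ∈ range (k * A + 1), Gam (FWT A k T) (qp τ) (fun w => (Wo w : ℤ)) j
      ≤ ∑ T ∈ range (k * A + 1), ∑ w ∈ FWT A k T, (qp τ) w :=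
    Finset.sum_le_sum fun T _ => Gam_le _ _ fun w _ => (qp_pos w).le
  refine h1.trans ?_
  have hmaps : ∀ w ∈ FW A k, w.sum ∈ range (k * A + 1) := by
    intro w hw
    rw [mem_range]
    have := (sum_le_of_mem hw).2
    omega
  have h2 : ∑ T ∈ range (k * A + 1), ∑ w ∈ FWT A k T, (qp τ) w = ∑ w ∈ FW A k, (qp τ) w :=
    Finset.sum_fiberwise_of_maps_to hmaps (qp τ)
  rw [h2]
  exact sum_qp_le A k

/-! ### positivity -/

theorem gp_pos {A : ℕ} (hA : 1 ≤ A) (k j : ℕ) : 0 < gp τ A k j := by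
  have hp0 : 0 < τ := Tilt.pos
  have hq0 : 0 < 1 - τ := Tilt.lt
  have hk : k ∈ range (k * A + 1) := by
    rw [mem_range]
    nlinarith
  have h1 : Gam (FWT A k k) (qp τ) (fun w => (Wo w : ℤ)) j ≤ gp τ A k j := by
    unfold gp
    exact Finset.single_le_sum
      (f := fun T => Gam (FWT A k T) (qp τ) (fun w => (Wo w : ℤ)) j)
      (fun T _ => Gam_nonneg _ _ fun w _ => (qp_pos w).le) hk
  refine lt_of_lt_of_le ?_ h1
  rw [FWT_self hA]
  unfold Gam
  have h2 : ∀ c ∈ range (3 ^ j), Fib {List.replicate k 1} (qp τ) (fun w => (Wo w : ℤ)) j (c : ℤ)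
      = cnt {List.replicate k 1} (qp τ) (fun w => (Wo w : ℤ)) j (c : ℤ) :=
    fun c _ => Fib_singleton _ _ _ _ _ (qp_pos _)
  rw [Finset.sum_congr rfl h2, sum_cnt, sum_singleton]
  exact qp_pos _

/-! ### recursion -/

open scoped Classical in
lemma cnt_pairs_qp (A k₁ k₂ T M : ℕ) (c : ℤ) :
    cnt (FWT A (k₁ + k₂) T) (qp τ) (fun w => (Wo w : ℤ)) M c
      = ∑ p ∈ (range (k₁ * A + 1) ×ˢ range (k₂ * A + 1)).filter (fun p => p.1 + p.2 = T),
          cnt (FWT A k₁ p.1 ×ˢ FWT A k₂ p.2) (fun q => (qp τ) q.1 * (qp τ) q.2)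
            (fun q => 2 ^ p.2 * (Wo q.1 : ℤ) + 3 ^ k₁ * (Wo q.2 : ℤ)) M c := by
  have hp0 : 0 < τ := Tilt.pos
  have hq0 : 0 < 1 - τ := Tilt.lt
  have h1 : cnt (FWT A (k₁ + k₂) T) (qp τ) (fun w => (Wo w : ℤ)) M c
      = ∑ u ∈ FW A k₁, ∑ v ∈ FW A k₂, (if u.sum + v.sum = T then
          (if (3 : ℤ) ^ M ∣ (Wo (u ++ v) : ℤ) - c then (qp τ) u * (qp τ) v else 0) else 0) := by
    unfold cnt FWT
    rw [Finset.sum_filter, sum_FW_add]
    refine Finset.sum_congr rfl fun u _ => Finset.sum_congr rfl fun v _ => ?_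
    rw [List.sum_append, qp_append]
  rw [h1, sum_pairs A k₁ k₂ T
    (fun u v => if (3 : ℤ) ^ M ∣ (Wo (u ++ v) : ℤ) - c then (qp τ) u * (qp τ) v else 0)]
  refine Finset.sum_congr rfl fun p _ => ?_
  unfold cnt
  refine Finset.sum_congr rfl fun q hq => ?_
  rw [Finset.mem_product] at hq
  unfold FWT at hq
  rw [Finset.mem_filter, Finset.mem_filter] at hq
  have e : (Wo (q.1 ++ q.2) : ℤ) = 2 ^ p.2 * (Wo q.1 : ℤ) + 3 ^ k₁ * (Wo q.2 : ℤ) := by
    rw [Wo_append, hq.2.2, (mem_FW.1 hq.1.1).1]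
    push_cast
    ring
  rw [e]

theorem gp_rec (A k₁ k₂ j : ℕ) :
    gp τ A (k₁ + k₂) (k₁ + j) ≤ gp τ A k₁ (k₁ + j) * gp τ A k₂ j := by
  have hp0 : 0 < τ := Tilt.pos
  have hq0 : 0 < 1 - τ := Tilt.lt
  classical
  set R := range (k₁ * A + 1) ×ˢ range (k₂ * A + 1) with hR
  set G : ℕ × ℕ → ℝ := fun p => Gam (FWT A k₁ p.1) (qp τ) (fun w => (Wo w : ℤ)) (k₁ + j)
    * Gam (FWT A k₂ p.2) (qp τ) (fun w => (Wo w : ℤ)) j with hG
  have hT : ∀ T, Gam (FWT A (k₁ + k₂) T) (qp τ) (fun w => (Wo w : ℤ)) (k₁ + j)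
      ≤ ∑ p ∈ R.filter (fun p => p.1 + p.2 = T), G p := by
    intro T
    have h1 : Gam (FWT A (k₁ + k₂) T) (qp τ) (fun w => (Wo w : ℤ)) (k₁ + j)
        ≤ ∑ p ∈ R.filter (fun p => p.1 + p.2 = T),
          Gam (FWT A k₁ p.1 ×ˢ FWT A k₂ p.2) (fun q => (qp τ) q.1 * (qp τ) q.2)
            (fun q => 2 ^ p.2 * (Wo q.1 : ℤ) + 3 ^ k₁ * (Wo q.2 : ℤ)) (k₁ + j) := by
      unfold Gam
      rw [Finset.sum_comm]
      apply Finset.sum_le_sum
      intro c _
      unfold Fib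
      rw [cnt_pairs_qp, cnt_pairs_qp, cnt_pairs_qp]
      apply F3_sum <;>
      · intro p _
        apply cnt_nonneg
        intro q _
        exact mul_nonneg (qp_pos _).le (qp_pos _).le
    refine h1.trans (Finset.sum_le_sum fun p _ => ?_)
    exact Gam_conv (fun w => (Wo w : ℤ)) (fun w => (Wo w : ℤ)) (fun w _ => (qp_pos w).le)
      (fun w _ => (qp_pos w).le) p.2 k₁ j
  have h2 : gp τ A (k₁ + k₂) (k₁ + j) ≤ ∑ p ∈ R, G p := by
    unfold gp
    refine (Finset.sum_le_sum fun T _ => hT T).trans (le_of_eq ?_)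
    apply Finset.sum_fiberwise_of_maps_to
    intro p hp
    rw [hR, Finset.mem_product, mem_range, mem_range] at hp
    rw [mem_range, add_mul]
    omega
  refine h2.trans (le_of_eq ?_)
  unfold gp
  rw [Finset.sum_mul_sum, hR, Finset.sum_product]



end Pool.Agent.H623.TP
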