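import Pool.Agent.H623.TP.X
import Pool.Graph.R_pool_sql_team_seeded_2aa45f1a.Results.MP_e43fce_nt.AllResidueClasses

/-!
# Properties with frequencies in the residue classes, on the thin sets
-/

set_option autoImplicit false
set_option linter.unusedVariables false
set_option linter.unusedSectionVars false

namespace Pool.Agent.H623.TP

open Finset Filter Topology
open Pool.Agent.H623.TS (Per S N T odds odds_le)
open Pool.Agent.Results.MP_e43fce_nt.AllResidueClasses (count InClasses level)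

theorem E_inj {k i n n' : ℕ} (h : odds k n = i) (h' : odds k n' = i) (e1 : n % 2 ^ k = n' % 2 ^ k)
    (e2 : T^[k] n = T^[k] n') : n = n' := by
  have h4 := T_iter_add k (n % 2 ^ k) (n / 2 ^ k)
  have h4' := T_iter_add k (n' % 2 ^ k) (n' / 2 ^ k)
  rw [Nat.mod_add_div] at h4 h4'
  rw [e1, e2] at h4
  have h5 : 3 ^ odds k (n' % 2 ^ k) * (n / 2 ^ k) = 3 ^ odds k (n' % 2 ^ k) * (n' / 2 ^ k) := by
    have := h4.1
    have := h4'.1
    omega
  have h6 := Nat.eq_of_mul_eq_mul_left (by positivity) h5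
  rw [← Nat.mod_add_div n (2 ^ k), ← Nat.mod_add_div n' (2 ^ k), e1, h6]

theorem card_small_le (k i x y₀ : ℕ) :
    ((E k i x).filter fun n => T^[k] n < y₀).card ≤ ∑ y ∈ range y₀, W k i y := by
  classical
  rw [card_eq_sum_card_fiberwise (f := fun n => T^[k] n) (t := range y₀) (fun n hn => by
    rw [Finset.mem_coe, mem_filter] at hn
    rw [Finset.mem_coe, mem_range]
    exact hn.2)]
  refine sum_le_sum fun y _ => ?_
  unfold W
  refine card_le_card_of_injOn (fun n => n % 2 ^ k) ?_ ?_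
  · intro n hn
    rw [Finset.mem_coe, mem_filter, mem_filter, mem_E] at hn
    obtain ⟨⟨⟨h1, h2⟩, h3⟩, h4⟩ := hn
    have h5 := T_iter_add k (n % 2 ^ k) (n / 2 ^ k)
    rw [Nat.mod_add_div] at h5
    have h6 : odds k (n % 2 ^ k) = i := by rw [← h5.2, h2]
    rw [Finset.mem_coe, mem_filter, mem_E0]
    refine ⟨⟨Nat.mod_lt _ (by positivity), h6⟩, ?_⟩
    rw [← h4, h5.1, h6, Nat.add_mul_mod_self_left]
  · intro n hn n' hn' he
    rw [Finset.mem_coe, mem_filter, mem_filter, mem_E] at hn hn'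
    exact E_inj hn.1.1.2 hn'.1.1.2 he (hn.2.trans hn'.2.symm)

/-- few starting values have small images -/
theorem small_images {ε : ℝ} (hε : 0 < ε) : ∃ (m K : ℕ), 1 ≤ m ∧ ∀ k i x y₀ : ℕ, K ≤ k → 6 * k ≤ 25 * i →
    15 * i ≤ 8 * k → 2 ^ k ≤ x → y₀ * m ≤ 3 ^ i →
    (((E k i x).filter fun n => T^[k] n < y₀).card : ℝ) ≤ ε * (E k i x).card := by
  classical
  obtain ⟨n, hn⟩ := V_lim (show 0 < ε / 2 by positivity)
  obtain ⟨K₁, hK₁⟩ := hn n le_rfl
  obtain ⟨m, hm⟩ := exists_nat_ge (2 * 3 ^ n / ε)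
  refine ⟨m + 1, K₁ + 1, by omega, fun k i x y₀ hk h1 h2 hx hy => ?_⟩
  have hik : i ≤ k := by omega
  have hT : TiltR ((i : ℝ) / k) := mkR (by omega) h1 h2
  have hV := hK₁ k i (by omega) h1 h2
  have hC : (0 : ℝ) < (k.choose i : ℝ) := by exact_mod_cast Nat.choose_pos hik
  have h3 : (0 : ℝ) < 3 ^ i := by positivity
  have hy0 : y₀ ≤ 3 ^ i := (Nat.le_mul_of_pos_right _ (by omega)).trans hy
  have hle : (((E k i x).filter fun n => T^[k] n < y₀).card : ℝ) ≤ ∑ y ∈ range y₀, (W k i y : ℝ) := by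
    exact_mod_cast card_small_le k i x y₀
  have hW : ∀ y, (W k i y : ℝ) = (k.choose i : ℝ) / 3 ^ i * V k i y := by
    intro y
    unfold V
    field_simp
  have hV2 : ∑ y ∈ range y₀, V k i y ≤ y₀ * 3 ^ n + ε / 2 * 3 ^ i := by
    have h4 : ∀ y ∈ range y₀, V k i y ≤ 3 ^ n + |V k i y - D ((i : ℝ) / k) n y| := by
      intro y _
      have := D_le ((i : ℝ) / k) n y
      have h5 := le_abs_self (V k i y - D ((i : ℝ) / k) n y)
      linarith
    refine (sum_le_sum h4).trans ?_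
    rw [sum_add_distrib, sum_const, card_range, nsmul_eq_mul]
    have h6 : ∑ y ∈ range y₀, |V k i y - D ((i : ℝ) / k) n y| ≤
        ∑ y ∈ range (3 ^ i), |V k i y - D ((i : ℝ) / k) n y| :=
      sum_le_sum_of_subset_of_nonneg (range_subset_range.2 hy0) fun y _ _ => abs_nonneg _
    linarith
  have h7 : (y₀ : ℝ) * 3 ^ n ≤ ε / 2 * 3 ^ i := by
    have h8 : (y₀ : ℝ) * (m + 1) ≤ 3 ^ i := by exact_mod_cast hy
    rw [div_le_iff₀ hε] at hm
    have h9 : (y₀ : ℝ) * (2 * 3 ^ n) ≤ y₀ * ((m + 1) * ε) := by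
      apply mul_le_mul_of_nonneg_left _ (Nat.cast_nonneg _)
      nlinarith
    nlinarith
  have h8 : (k.choose i : ℝ) ≤ (E k i x).card := by
    have h9 := card_E_ge hik x
    have h10 : 1 ≤ x / 2 ^ k := (Nat.one_le_div_iff (by positivity)).2 hx
    exact_mod_cast (Nat.le_mul_of_pos_left _ h10).trans h9
  calc (((E k i x).filter fun n => T^[k] n < y₀).card : ℝ) ≤ ∑ y ∈ range y₀, (W k i y : ℝ) := hle
    _ = (k.choose i : ℝ) / 3 ^ i * ∑ y ∈ range y₀, V k i y := by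
        rw [mul_sum]
        exact sum_congr rfl fun y _ => hW y
    _ ≤ (k.choose i : ℝ) / 3 ^ i * (ε * 3 ^ i) :=
        mul_le_mul_of_nonneg_left (by linarith) (by positivity)
    _ = ε * (k.choose i : ℝ) := by field_simp
    _ ≤ ε * (E k i x).card := mul_le_mul_of_nonneg_left h8 hε.le

/-- frequencies in all residue classes -/
def CF (P : ℕ → Prop) (l : ℝ) : Prop := ∀ q : ℕ, 0 < q → ∀ ε : ℝ, 0 < ε → ∃ N₀ : ℕ, ∀ N : ℕ, N₀ ≤ N → ∀ a : ℤ,
  |count P N q a - l * N / q| ≤ ε * N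

theorem CF_of {P : ℕ → Prop} {l : ℝ} (h : InClasses P l) : CF P l := by
  intro q hq ε hε
  obtain ⟨N₀, hN₀⟩ := h.1 (1 / 4) (by norm_num) ε hε
  refine ⟨N₀ + q ^ 2 + 1, fun N hN a => ?_⟩
  have h1 : (q : ℝ) ≤ level (1 / 4) N := by
    unfold level
    have h2 : (q : ℝ) ≤ √ (N : ℝ) := by
      apply Real.le_sqrt_of_sq_le
      have : q ^ 2 ≤ N := by omega
      exact_mod_cast this
    have h3 : (1 : ℝ) ≤ Real.exp (Real.log N ^ ((1 : ℝ) / 2 - 1 / 4)) := by
      apply Real.one_le_exp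
      apply Real.rpow_nonneg
      apply Real.log_nonneg
      exact_mod_cast (by omega : 1 ≤ N)
    calc (q : ℝ) ≤ √ (N : ℝ) * 1 := by rw [mul_one]; exact h2
      _ ≤ _ := mul_le_mul_of_nonneg_left h3 (Real.sqrt_nonneg _)
  have h4 := hN₀ N (by omega) q hq h1 (fun _ => a)
  refine le_trans ?_ h4
  exact single_le_sum (f := fun q' : ℕ => |count P N q' a - l * N / q'|) (fun q' _ => abs_nonneg _)
    (mem_Ico.2 ⟨le_rfl, by omega⟩)

open Classical in
/-- the balanced indicator -/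
noncomputable def bf (P : ℕ → Prop) (l : ℝ) (y : ℕ) : ℝ := (if P y then 1 else 0) - l

theorem bf_le {P : ℕ → Prop} {l : ℝ} (h0 : 0 ≤ l) (h1 : l ≤ 1) (y : ℕ) : |bf P l y| ≤ 1 := by
  unfold bf
  rw [abs_le]
  split_ifs <;> constructor <;> linarith

theorem card_class {q : ℕ} (hq : 0 < q) (Y r : ℕ) (hr : r < q) :
    |(((range Y).filter fun y => y % q = r).card : ℝ) - (Y : ℝ) / q| ≤ 1 := by
  have hqR : (0 : ℝ) < q := by exact_mod_cast hq
  have h1 : ((range Y).filter fun y => y % q = r).card = Nat.count (fun y => y % q = r) Y := by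
    rw [Nat.count_eq_card_filter_range]
  have h2 : Y / q ≤ ((range Y).filter fun y => y % q = r).card := by
    have h3 : ((range (Y / q)).image fun t => r + q * t) ⊆ (range Y).filter fun y => y % q = r := by
      intro y hy
      rw [mem_image] at hy
      obtain ⟨t, ht, rfl⟩ := hy
      rw [mem_range] at ht
      rw [mem_filter, mem_range]
      refine ⟨?_, by rw [Nat.add_mul_mod_self_left, Nat.mod_eq_of_lt hr]⟩
      calc r + q * t < q + q * t := by omega
        _ = q * (t + 1) := by ring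
        _ ≤ q * (Y / q) := Nat.mul_le_mul_left _ ht
        _ ≤ Y := Nat.mul_div_le _ _
    have h4 := card_le_card h3
    rw [card_image_of_injective _ (fun a b hab => by
      have h5 : q * a = q * b := by
        have : r + q * a = r + q * b := hab
        omega
      exact Nat.eq_of_mul_eq_mul_left hq h5), card_range] at h4
    exact h4
  have h3 : ((range Y).filter fun y => y % q = r).card ≤ Y / q + 1 := by
    have h4 : ((range Y).filter fun y => y % q = r) ⊆ (range (Y / q + 1)).image fun t => r + q * t := by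
      intro y hy
      rw [mem_filter, mem_range] at hy
      rw [mem_image]
      refine ⟨y / q, mem_range.2 (Nat.lt_succ_of_le (Nat.div_le_div_right hy.1.le)), ?_⟩
      rw [← hy.2]
      exact Nat.mod_add_div y q
    refine (card_le_card h4).trans (card_image_le.trans ?_)
    rw [card_range]
  have h4 : ((Y / q : ℕ) : ℝ) ≤ (Y : ℝ) / q := Nat.cast_div_le
  have h5 : (Y : ℝ) / q ≤ ((Y / q : ℕ) : ℝ) + 1 := by
    rw [div_le_iff₀ hqR]
    have h6 : Y ≤ (Y / q + 1) * q := by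
      have h7 := Nat.div_add_mod Y q
      have h8 := Nat.mod_lt Y hq
      have h9 : (Y / q + 1) * q = q * (Y / q) + q := by ring
      omega
    exact_mod_cast h6
  have h6 : ((Y / q : ℕ) : ℝ) ≤ (((range Y).filter fun y => y % q = r).card : ℝ) := by exact_mod_cast h2
  have h7 : (((range Y).filter fun y => y % q = r).card : ℝ) ≤ ((Y / q : ℕ) : ℝ) + 1 := by exact_mod_cast h3
  rw [abs_le]
  constructor <;> linarith

theorem Bal_of {P : ℕ → Prop} {l : ℝ} (h0 : 0 ≤ l) (h1 : l ≤ 1) (h : CF P l) (n : ℕ) {ε₂ : ℝ} (hε : 0 < ε₂) :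
    ∃ Y₁ : ℕ, Bal n ε₂ Y₁ (bf P l) := by
  classical
  obtain ⟨N₀, hN₀⟩ := h (3 ^ n) (by positivity) (ε₂ / 2) (by positivity)
  obtain ⟨N₁, hN₁⟩ := exists_nat_ge (8 / ε₂)
  refine ⟨N₀ + N₁ + 2, fun Y hY hY1 r hr => ?_⟩
  rw [mem_range] at hr
  obtain ⟨Z, rfl⟩ : ∃ Z, Y = Z + 1 := ⟨Y - 1, by omega⟩
  have h2 := hN₀ Z (by omega) (r : ℤ)
  have h3 := card_class (q := 3 ^ n) (by positivity) (Z + 1) r hr
  have h4 : ∑ y ∈ range (Z + 1), (if y % 3 ^ n = r then bf P l y else 0) =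
      (((range (Z + 1)).filter fun y => y % 3 ^ n = r ∧ P y).card : ℝ) -
        l * (((range (Z + 1)).filter fun y => y % 3 ^ n = r).card : ℝ) := by
    rw [card_filter, card_filter]
    push_cast
    rw [mul_sum, ← sum_sub_distrib]
    refine sum_congr rfl fun y _ => ?_
    unfold bf
    by_cases a : y % 3 ^ n = r <;> by_cases b : P y <;> simp [a, b]
  have h5 : count P Z (3 ^ n) (r : ℤ) =
      (((Icc 1 Z).filter fun y => y % 3 ^ n = r ∧ P y).card : ℝ) := by
    unfold count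
    rw [← Set.ncard_coe_finset]
    congr 2
    ext y
    rw [Finset.mem_coe, mem_filter, mem_Icc]
    have e : ((y : ℤ) ≡ r [ZMOD ((3 ^ n : ℕ) : ℤ)]) ↔ y % 3 ^ n = r := by
      rw [Int.natCast_modEq_iff, Nat.ModEq, Nat.mod_eq_of_lt hr]
    constructor
    · rintro ⟨a1, a2, a3, a4⟩
      exact ⟨⟨a1, a2⟩, e.1 a3, a4⟩
    · rintro ⟨⟨a1, a2⟩, a3, a4⟩
      exact ⟨a1, a2, e.2 a3, a4⟩
  have h6 : (((range (Z + 1)).filter fun y => y % 3 ^ n = r ∧ P y).card : ℝ) ≤
      (((Icc 1 Z).filter fun y => y % 3 ^ n = r ∧ P y).card : ℝ) + 1 := by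
    have h7 : ((range (Z + 1)).filter fun y => y % 3 ^ n = r ∧ P y) ⊆
        insert 0 ((Icc 1 Z).filter fun y => y % 3 ^ n = r ∧ P y) := by
      intro y hy
      rw [mem_filter, mem_range] at hy
      rw [mem_insert, mem_filter, mem_Icc]
      rcases Nat.eq_zero_or_pos y with h | h
      · exact Or.inl h
      · exact Or.inr ⟨⟨h, by omega⟩, hy.2⟩
    exact_mod_cast (card_le_card h7).trans (card_insert_le _ _)
  have h7 : (((Icc 1 Z).filter fun y => y % 3 ^ n = r ∧ P y).card : ℝ) ≤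
      (((range (Z + 1)).filter fun y => y % 3 ^ n = r ∧ P y).card : ℝ) := by
    have h8 : ((Icc 1 Z).filter fun y => y % 3 ^ n = r ∧ P y) ⊆
        ((range (Z + 1)).filter fun y => y % 3 ^ n = r ∧ P y) := by
      intro y hy
      rw [mem_filter, mem_Icc] at hy
      rw [mem_filter, mem_range]
      exact ⟨by omega, hy.2⟩
    exact_mod_cast card_le_card h8
  rw [h4]
  rw [h5] at h2
  have h8 : (8 : ℝ) ≤ ε₂ * N₁ := by
    rw [div_le_iff₀ hε] at hN₁
    linarith
  have h9 : (N₁ : ℝ) ≤ Z := by exact_mod_cast (by omega : N₁ ≤ Z)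
  have h10 : ε₂ * N₁ ≤ ε₂ * Z := mul_le_mul_of_nonneg_left h9 hε.le
  have hq1 : (1 : ℝ) ≤ ((3 ^ n : ℕ) : ℝ) := by exact_mod_cast Nat.one_le_pow _ _ (by norm_num)
  have h11 : l * (Z + 1 : ℕ) / ((3 ^ n : ℕ) : ℝ) ≤ l * Z / ((3 ^ n : ℕ) : ℝ) + 1 := by
    push_cast
    rw [mul_add, add_div]
    have : l * 1 / (3 : ℝ) ^ n ≤ 1 := by
      rw [div_le_one (by positivity)]
      have : (1 : ℝ) ≤ 3 ^ n := by exact_mod_cast hq1
      linarith
    linarith
  have h12 : l * Z / ((3 ^ n : ℕ) : ℝ) ≤ l * (Z + 1 : ℕ) / ((3 ^ n : ℕ) : ℝ) := by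
    apply div_le_div_of_nonneg_right _ (by positivity)
    apply mul_le_mul_of_nonneg_left _ h0
    push_cast
    linarith
  have h13 : |l * (((range (Z + 1)).filter fun y => y % 3 ^ n = r).card : ℝ) -
      l * ((Z + 1 : ℕ) / ((3 ^ n : ℕ) : ℝ))| ≤ 1 := by
    rw [← mul_sub, abs_mul, abs_of_nonneg h0]
    calc l * _ ≤ 1 * 1 := mul_le_mul h1 h3 (abs_nonneg _) (by norm_num)
      _ = 1 := one_mul 1
  rw [← mul_div_assoc] at h13
  rw [abs_le] at h2 h13 ⊢
  push_cast at *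
  constructor <;> linarith

/-- the frequency of a property of the images -/
theorem freq_image {P : ℕ → Prop} {l : ℝ} (h0 : 0 ≤ l) (h1 : l ≤ 1) (h : CF P l) {ε : ℝ} (hε : 0 < ε) :
    ∃ K : ℕ, ∀ k i x : ℕ, K ≤ k → 6 * k ≤ 25 * i → 15 * i ≤ 8 * k → 2 ^ k ≤ x → ∀ F : Finset ℕ,
      (∀ n, n ∈ F ↔ n ∈ E k i x ∧ P (T^[k] n)) →
      |(F.card : ℝ) - l * (E k i x).card| ≤ ε * (E k i x).card := by
  classical
  obtain ⟨n, ε₂, h2, h3⟩ := transfer (B := 1) (by norm_num) hε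
  obtain ⟨Y₁, hY₁⟩ := Bal_of h0 h1 h n h2
  obtain ⟨K, hK⟩ := h3 Y₁
  refine ⟨K, fun k i x hk h4 h5 hx F hF => ?_⟩
  have h6 := hK (bf P l) (bf_le h0 h1) hY₁ k i x hk h4 h5 hx
  have h7 : ∑ n ∈ E k i x, bf P l (T^[k] n) = (F.card : ℝ) - l * (E k i x).card := by
    have h8 : F = (E k i x).filter fun n => P (T^[k] n) := by
      ext n
      rw [hF, mem_filter]
    rw [h8, card_filter]
    push_cast
    unfold bf
    rw [sum_sub_distrib, sum_const, nsmul_eq_mul, mul_comm l]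
  rwa [h7] at h6

end Pool.Agent.H623.TP
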