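import Pool.Agent.H623.TP.S1

/-!
# The Collatz function and the accelerated function; the total stopping time on the thin sets
-/

set_option autoImplicit false
set_option linter.unusedVariables false
set_option linter.unusedSectionVars false

namespace Pool.Agent.H623.TP

open Finset Filter Topology
open Pool.Agent.H623.TS (Per S N T odds odds_le)
open Pool.Agent.Results.MP_e43fce_nt.AllResidueClasses (count InClasses level IsTotalStoppingTime Level bound Phi
  Exception)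

/-- the Collatz function -/
abbrev CC : ℕ → ℕ := Pool.Agent.Results.MP_e43fce_nt.AllResidueClasses.C

/-- the odd terms of the Collatz trajectory -/
abbrev oddC : ℕ → ℕ → ℕ := Pool.Agent.Results.MP_e43fce_nt.AllResidueClasses.odds

theorem CC_even {n : ℕ} (h : n % 2 = 0) : CC n = n / 2 := if_pos h

theorem CC_odd {n : ℕ} (h : n % 2 = 1) : CC n = 3 * n + 1 := if_neg (by omega)

theorem T_even {n : ℕ} (h : n % 2 = 0) : T n = n / 2 := if_pos h

theorem T_odd {n : ℕ} (h : n % 2 = 1) : T n = (3 * n + 1) / 2 := if_neg (by omega)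

theorem oddC_succ (l n : ℕ) : oddC (l + 1) n = n % 2 + oddC l (CC n) := by
  show ((range (l + 1)).filter fun i => CC^[i] n % 2 = 1).card = n % 2 +
    ((range l).filter fun i => CC^[i] (CC n) % 2 = 1).card
  rw [card_filter, card_filter, sum_range_succ', add_comm]
  congr 1
  have : CC^[0] n = n := rfl
  rw [this]
  rcases Nat.mod_two_eq_zero_or_one n with h | h <;> simp [h]

theorem CC_run (k : ℕ) : ∀ n : ℕ, CC^[k + odds k n] n = T^[k] n ∧
    ∀ l, oddC (k + odds k n + l) n = odds k n + oddC l (T^[k] n) := by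
  induction k with
  | zero =>
    intro n
    simp [odds]
  | succ k ih =>
    intro n
    rw [odds, Function.iterate_succ_apply T]
    obtain ⟨h1, h2⟩ := ih (T n)
    rcases Nat.mod_two_eq_zero_or_one n with h | h
    · have e : T n = CC n := by rw [T_even h, CC_even h]
      rw [h, zero_add]
      have e1 : k + 1 + odds k (T n) = k + odds k (T n) + 1 := by ring
      rw [e1, Function.iterate_succ_apply, ← e]
      refine ⟨h1, fun l => ?_⟩
      have e2 : k + odds k (T n) + 1 + l = k + odds k (T n) + l + 1 := by ring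
      rw [e2, oddC_succ, h, zero_add, ← e, h2]
    · have h3 : (3 * n + 1) % 2 = 0 := by omega
      have e : T n = CC (CC n) := by rw [T_odd h, CC_odd h, CC_even h3]
      rw [h]
      have e1 : k + 1 + (1 + odds k (T n)) = k + odds k (T n) + 1 + 1 := by ring
      rw [e1, Function.iterate_succ_apply, Function.iterate_succ_apply, ← e]
      refine ⟨h1, fun l => ?_⟩
      have e2 : k + odds k (T n) + 1 + 1 + l = k + odds k (T n) + l + 1 + 1 := by ring
      rw [e2, oddC_succ, oddC_succ, h, ← e, h2, CC_odd h, h3]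
      ring

theorem CC_one (j : ℕ) : CC^[j] 1 ≤ 4 := by
  have key : ∀ j, CC^[j] 1 = 1 ∨ CC^[j] 1 = 4 ∨ CC^[j] 1 = 2 := by
    intro j
    induction j with
    | zero => exact Or.inl rfl
    | succ j ih =>
      rw [Function.iterate_succ_apply']
      rcases ih with h | h | h <;> rw [h]
      · exact Or.inr (Or.inl rfl)
      · exact Or.inr (Or.inr rfl)
      · exact Or.inl rfl
  rcases key j with h | h | h <;> omega

theorem total_iff {k n : ℕ} (h : 4 < T^[k] n) (l : ℕ) : IsTotalStoppingTime n l ↔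
    ∃ l', l = k + odds k n + l' ∧ IsTotalStoppingTime (T^[k] n) l' := by
  have hr := (CC_run k n).1
  have hbig : ∀ j, j ≤ k + odds k n → CC^[j] n ≠ 1 := by
    intro j hj he
    have h1 : CC^[k + odds k n] n = CC^[k + odds k n - j] 1 := by
      rw [← he, ← Function.iterate_add_apply]
      congr 1
      omega
    have h2 := CC_one (k + odds k n - j)
    rw [← h1, hr] at h2
    omega
  have hadd : ∀ j, CC^[k + odds k n + j] n = CC^[j] (T^[k] n) := by
    intro j
    rw [← hr, ← Function.iterate_add_apply, add_comm]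
  constructor
  · rintro ⟨h1, h2⟩
    have h3 : k + odds k n < l := by
      by_contra hcon
      exact hbig l (by omega) h1
    obtain ⟨l', rfl⟩ : ∃ l', l = k + odds k n + l' := ⟨l - (k + odds k n), by omega⟩
    refine ⟨l', rfl, ?_, fun j hj => ?_⟩
    · rw [← hadd]
      exact h1
    · have := h2 (k + odds k n + j) (by omega)
      rwa [hadd] at this
  · rintro ⟨l', rfl, h1, h2⟩
    refine ⟨?_, fun j hj => ?_⟩
    · have := hadd l'
      exact this.trans h1
    · rcases le_or_gt j (k + odds k n) with h3 | h3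
      · exact hbig j h3
      · obtain ⟨j', rfl⟩ : ∃ j', j = k + odds k n + j' := ⟨j - (k + odds k n), by omega⟩
        have h4 := h2 j' (by omega)
        intro h5
        exact h4 ((hadd j').symm.trans h5)

/-- the typical elements -/
theorem good_set {ε : ℝ} (hε : 0 < ε) : ∃ M : ℕ, 1 ≤ M ∧ ∀ y₁ : ℕ, ∃ K : ℕ, ∀ k i x : ℕ, K ≤ k → 6 * k ≤ 25 * i →
    15 * i ≤ 8 * k → 2 ^ k ≤ x → ∃ Bd : Finset ℕ, (Bd.card : ℝ) ≤ ε * (E k i x).card ∧ ∀ n ∈ E k i x, n ∉ Bd →
      y₁ ≤ T^[k] n ∧ 2 * 2 ^ i ≤ T^[k] n ∧ 2 ^ k ≤ M * n ∧ 2 ^ k * T^[k] n ≤ 2 * (3 ^ i * n) := by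
  classical
  obtain ⟨m, K, hm, hK⟩ := small_images hε
  refine ⟨4 * m, by omega, fun y₁ => ?_⟩
  obtain ⟨i₀, hi₀⟩ : ∃ i₀ : ℕ, ∀ i, i₀ ≤ i → m * (y₁ + 1) + 2 * m * 2 ^ i + 2 * m ≤ 3 ^ i := by
    have h1 : Tendsto (fun i : ℕ => ((2 : ℝ) / 3) ^ i) atTop (𝓝 0) :=
      tendsto_pow_atTop_nhds_zero_of_lt_one (by norm_num) (by norm_num)
    have h2 : Tendsto (fun i : ℕ => ((1 : ℝ) / 3) ^ i) atTop (𝓝 0) :=
      tendsto_pow_atTop_nhds_zero_of_lt_one (by norm_num) (by norm_num)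
    have h3 := ((h2.const_mul ((m : ℝ) * (y₁ + 1) + 2 * m)).add (h1.const_mul (2 * (m : ℝ)))).eventually_le_const
      (show (m * (y₁ + 1) + 2 * m : ℝ) * 0 + 2 * (m : ℝ) * 0 < 1 by norm_num)
    obtain ⟨i₀, hi₀⟩ := eventually_atTop.1 h3
    refine ⟨i₀, fun i hi => ?_⟩
    have h4 := hi₀ i hi
    have h5 : (0 : ℝ) < 3 ^ i := by positivity
    rw [div_pow, div_pow, one_pow] at h4
    have h6 : ((m : ℝ) * (y₁ + 1) + 2 * m) * (1 / 3 ^ i) + 2 * m * (2 ^ i / 3 ^ i) =
        ((m : ℝ) * (y₁ + 1) + 2 * m * 2 ^ i + 2 * m) / 3 ^ i := by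
      field_simp
      ring
    rw [h6, div_le_one h5] at h4
    exact_mod_cast h4
  refine ⟨K + 25 * i₀ + 25, fun k i x hk h1 h2 hx => ?_⟩
  have h3 := hi₀ i (by omega)
  have h4 := hK k i x (3 ^ i / m) (by omega) h1 h2 hx (Nat.div_mul_le_self _ _)
  refine ⟨(E k i x).filter fun n => T^[k] n < 3 ^ i / m, h4, fun n hn hnB => ?_⟩
  rw [mem_filter, not_and, not_lt] at hnB
  have h5 := hnB hn
  have h6 := (mem_E.1 hn).2
  have h7 : m * (3 ^ i / m) + m > 3 ^ i := by
    have := Nat.div_add_mod (3 ^ i) m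
    have h8 := Nat.mod_lt (3 ^ i) (show 0 < m by omega)
    omega
  have h8 : y₁ ≤ 3 ^ i / m := by
    rw [Nat.le_div_iff_mul_le (by omega)]
    have e1 : m * (y₁ + 1) = y₁ * m + m := by ring
    have e2 : 0 ≤ 2 * m * 2 ^ i := Nat.zero_le _
    omega
  have h9 : 2 * 2 ^ i ≤ 3 ^ i / m := by
    rw [Nat.le_div_iff_mul_le (by omega)]
    have e1 : 2 * 2 ^ i * m = 2 * m * 2 ^ i := by ring
    have e2 : 0 ≤ m * (y₁ + 1) := Nat.zero_le _
    omega
  have h10 := T_iter_lt h6
  have h11 : 2 * 2 ^ i ≤ T^[k] n := h9.trans h5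
  have h12 : 2 ^ k * (2 * 2 ^ i) ≤ 2 ^ k * T^[k] n := Nat.mul_le_mul_left _ h11
  have h13 : 2 ^ k * T^[k] n ≤ 2 * (3 ^ i * n) := by
    have : 2 ^ k * (2 * 2 ^ i) = 2 * (2 ^ k * 2 ^ i) := by ring
    have h2k : 0 < 2 ^ k := by positivity
    omega
  refine ⟨h8.trans h5, h11, ?_, h13⟩
  have h14 : 2 ^ k * (m * (3 ^ i / m)) ≤ 2 * (3 ^ i * n) * m := by
    calc 2 ^ k * (m * (3 ^ i / m)) = 2 ^ k * (3 ^ i / m) * m := by ring
      _ ≤ 2 ^ k * T^[k] n * m := Nat.mul_le_mul_right _ (Nat.mul_le_mul_left _ h5)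
      _ ≤ 2 * (3 ^ i * n) * m := Nat.mul_le_mul_right _ h13
  have h15 : 3 ^ i ≤ 2 * (m * (3 ^ i / m)) := by
    have : 0 ≤ m * (y₁ + 1) := Nat.zero_le _
    have h16 : 0 ≤ 2 * m * 2 ^ i := Nat.zero_le _
    omega
  have h16 : 3 ^ i * 2 ^ k ≤ 3 ^ i * (4 * m * n) := by
    calc 3 ^ i * 2 ^ k ≤ 2 * (m * (3 ^ i / m)) * 2 ^ k := Nat.mul_le_mul_right _ h15
      _ = 2 * (2 ^ k * (m * (3 ^ i / m))) := by ring
      _ ≤ 2 * (2 * (3 ^ i * n) * m) := Nat.mul_le_mul_left _ h14
      _ = 3 ^ i * (4 * m * n) := by ring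
  exact Nat.le_of_mul_le_mul_left h16 (by positivity)

/-- the expected logarithm of the `k`-th term -/
noncomputable def LL (k i n : ℕ) : ℝ := Real.log n + i * Real.log 3 - k * Real.log 2

theorem LL_facts {k i n : ℕ} (hn : 1 ≤ n) (hi : odds k n = i) (h13 : 2 ^ k * T^[k] n ≤ 2 * (3 ^ i * n)) :
    LL k i n ≤ Real.log (T^[k] n : ℕ) ∧ Real.log (T^[k] n : ℕ) ≤ LL k i n + 1 := by
  have h1 := T_iter_ge k n
  rw [hi] at h1
  have hn0 : (0 : ℝ) < n := by exact_mod_cast hn
  have h2 : 0 < T^[k] n := by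
    have : 0 < 3 ^ i * n := by positivity
    have h3 : 0 < 2 ^ k * T^[k] n := lt_of_lt_of_le this h1
    exact Nat.pos_of_mul_pos_left h3
  have h2' : (0 : ℝ) < (T^[k] n : ℕ) := by exact_mod_cast h2
  have e1 : Real.log ((3 : ℝ) ^ i * n) = Real.log n + i * Real.log 3 := by
    rw [Real.log_mul (by positivity) hn0.ne', Real.log_pow]
    ring
  have e2 : Real.log ((2 : ℝ) ^ k * (T^[k] n : ℕ)) = k * Real.log 2 + Real.log (T^[k] n : ℕ) := by
    rw [Real.log_mul (by positivity) h2'.ne', Real.log_pow]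
  have h3 : Real.log ((3 : ℝ) ^ i * n) ≤ Real.log ((2 : ℝ) ^ k * (T^[k] n : ℕ)) :=
    Real.log_le_log (by positivity) (by exact_mod_cast h1)
  have h4 : Real.log ((2 : ℝ) ^ k * (T^[k] n : ℕ)) ≤ Real.log (2 * ((3 : ℝ) ^ i * n)) :=
    Real.log_le_log (by positivity) (by exact_mod_cast h13)
  have e3 : Real.log (2 * ((3 : ℝ) ^ i * n)) = Real.log 2 + Real.log ((3 : ℝ) ^ i * n) :=
    Real.log_mul (by norm_num) (by positivity)
  rw [e1, e2] at h3
  rw [e2, e3, e1] at h4
  have h5 : Real.log 2 < 1 := by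
    have := Real.log_two_lt_d9
    linarith
  unfold LL
  constructor <;> linarith

/-- the bound as a function of the logarithm -/
noncomputable def BB (x L : ℝ) : ℝ := 3 / Real.log (4 / 3) * L +
  x * (Real.log 6 * Real.sqrt (2 * L / Real.log (4 / 3) ^ 3))

theorem bound_eq (x : ℝ) (n : ℕ) : bound x n = BB x (Real.log n) := rfl

theorem BB_shift (x : ℝ) {ζ : ℝ} (hζ : 0 < ζ) : ∃ M : ℝ, 1 ≤ M ∧ ∀ L t : ℝ, M ≤ t → L ≤ t → t ≤ L + 1 →
    BB (x - ζ) t ≤ BB x L ∧ BB x L ≤ BB (x + ζ) t := by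
  have hl : 0 < Real.log (4 / 3) := Real.log_pos (by norm_num)
  have h6 : 0 < Real.log 6 := Real.log_pos (by norm_num)
  set c : ℝ := 3 / Real.log (4 / 3) with hc
  have hc0 : 0 < c := by positivity
  set s : ℝ := Real.sqrt (2 / Real.log (4 / 3) ^ 3) with hs
  have hs0 : 0 < s := Real.sqrt_pos.2 (by positivity)
  have hsq : ∀ L : ℝ, Real.sqrt (2 * L / Real.log (4 / 3) ^ 3) = s * Real.sqrt L := by
    intro L
    rw [hs, ← Real.sqrt_mul (by positivity)]
    congr 1
    ring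
  set d : ℝ := Real.log 6 * s with hd
  have hd0 : 0 < d := by positivity
  have hBB : ∀ z L : ℝ, BB z L = c * L + z * (d * Real.sqrt L) := by
    intro z L
    unfold BB
    rw [hsq, ← hc, hd]
    ring
  set R : ℝ := (c + |x| * d) / (ζ * d) with hR
  have hR0 : 0 < R := by positivity
  refine ⟨1 + R ^ 2, by nlinarith, fun L t h1 h2 h3 => ?_⟩
  rw [hBB, hBB, hBB]
  have ht : R ≤ Real.sqrt t := Real.le_sqrt_of_sq_le (by linarith)
  have h4 : c + |x| * d ≤ ζ * (d * Real.sqrt t) := by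
    have h5 : ζ * d * R = c + |x| * d := by
      rw [hR]
      field_simp
    calc c + |x| * d = ζ * d * R := h5.symm
      _ ≤ ζ * d * Real.sqrt t := mul_le_mul_of_nonneg_left ht (by positivity)
      _ = ζ * (d * Real.sqrt t) := by ring
  have h5 : Real.sqrt L ≤ Real.sqrt t := Real.sqrt_le_sqrt h2
  have h6 : Real.sqrt t ≤ Real.sqrt L + 1 := by
    have hL0 : 0 ≤ L := by nlinarith
    apply Real.sqrt_le_iff.2
    refine ⟨by positivity, ?_⟩
    have := Real.sq_sqrt hL0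
    have h7 := Real.sqrt_nonneg L
    nlinarith
  have h7 : |x * (d * Real.sqrt t) - x * (d * Real.sqrt L)| ≤ |x| * d := by
    rw [← mul_sub, abs_mul, ← mul_sub, abs_mul, abs_of_pos hd0, abs_of_nonneg (sub_nonneg.2 h5)]
    have : d * (Real.sqrt t - Real.sqrt L) ≤ d * 1 := mul_le_mul_of_nonneg_left (by linarith) hd0.le
    calc |x| * (d * (Real.sqrt t - Real.sqrt L)) ≤ |x| * (d * 1) :=
          mul_le_mul_of_nonneg_left this (abs_nonneg _)
      _ = |x| * d := by ring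
  rw [abs_le] at h7
  have h8 : c * t ≤ c * L + c := by nlinarith
  have h9 : c * L ≤ c * t := mul_le_mul_of_nonneg_left h2 hc0.le
  constructor
  · have : (x - ζ) * (d * Real.sqrt t) = x * (d * Real.sqrt t) - ζ * (d * Real.sqrt t) := by ring
    linarith [h7.2]
  · have : (x + ζ) * (d * Real.sqrt t) = x * (d * Real.sqrt t) + ζ * (d * Real.sqrt t) := by ring
    linarith [h7.1]

end Pool.Agent.H623.TP
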