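import Pool.Agent.H623.TP.S2

/-!
# The conditional laws of the total stopping time
-/

set_option autoImplicit false
set_option linter.unusedVariables false
set_option linter.unusedSectionVars false

namespace Pool.Agent.H623.TP

open Finset Filter Topology
open Pool.Agent.H623.TS (Per S N T odds odds_le)
open Pool.Agent.Results.MP_e43fce_nt.AllResidueClasses (count InClasses level IsTotalStoppingTime Level bound Phi
  Exception)

/-- conditional frequency on the thin sets -/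
def FQ (Q : ℕ → ℕ → ℕ → Prop) (c : ℝ) : Prop := ∀ ε : ℝ, 0 < ε → ∃ K : ℕ, ∀ k i x : ℕ, K ≤ k → 6 * k ≤ 25 * i →
  15 * i ≤ 8 * k → 2 ^ k ≤ x → ∀ F : Finset ℕ, (∀ n, n ∈ F ↔ n ∈ E k i x ∧ Q k i n) →
    |(F.card : ℝ) - c * (E k i x).card| ≤ ε * (E k i x).card

theorem FQ_image {P : ℕ → Prop} {l : ℝ} (h0 : 0 ≤ l) (h1 : l ≤ 1) (h : InClasses P l) :
    FQ (fun k _ n => P (T^[k] n)) l := fun ε hε => freq_image h0 h1 (CF_of h) hε

theorem FQ_not {Q : ℕ → ℕ → ℕ → Prop} {c : ℝ} (h : FQ Q c) : FQ (fun k i n => ¬ Q k i n) (1 - c) := by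
  classical
  intro ε hε
  obtain ⟨K, hK⟩ := h ε hε
  refine ⟨K, fun k i x hk h1 h2 hx F hF => ?_⟩
  have h3 := hK k i x hk h1 h2 hx ((E k i x).filter fun n => Q k i n) (fun n => by rw [mem_filter])
  have h4 : F = (E k i x).filter fun n => ¬ Q k i n := by
    ext n
    rw [hF, mem_filter]
  have h5 : ((E k i x).filter fun n => Q k i n).card + ((E k i x).filter fun n => ¬ Q k i n).card =
      (E k i x).card := card_filter_add_card_filter_not _
  have h6 : (((E k i x).filter fun n => Q k i n).card : ℝ) + (((E k i x).filter fun n => ¬ Q k i n).card : ℝ) =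
      (E k i x).card := by exact_mod_cast h5
  rw [h4]
  have e : (((E k i x).filter fun n => ¬ Q k i n).card : ℝ) - (1 - c) * (E k i x).card =
      -((((E k i x).filter fun n => Q k i n).card : ℝ) - c * (E k i x).card) := by linarith
  rw [e, abs_neg]
  exact h3

/-- finitely many properties -/
theorem FQ_mod {m : ℕ} {R : ℕ → ℕ → ℕ → Prop} {c : ℝ} (hm : 1 ≤ m)
    (h : ∀ j₁ j₂ : ℕ, FQ (fun k _ n => R j₁ j₂ (T^[k] n)) c) :
    FQ (fun k i n => R ((k + i) % m) (i % m) (T^[k] n)) c := by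
  intro ε hε
  choose K hK using fun j₁ j₂ => h j₁ j₂ ε hε
  refine ⟨(range m ×ˢ range m).sup (fun p => K p.1 p.2), fun k i x hk h1 h2 hx F hF => ?_⟩
  have h3 : K ((k + i) % m) (i % m) ≤ (range m ×ˢ range m).sup (fun p => K p.1 p.2) :=
    le_sup (f := fun p : ℕ × ℕ => K p.1 p.2) (b := ((k + i) % m, i % m))
      (mem_product.2 ⟨mem_range.2 (Nat.mod_lt _ (by omega)), mem_range.2 (Nat.mod_lt _ (by omega))⟩)
  exact hK _ _ k i x (h3.trans hk) h1 h2 hx F hF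

theorem FQ_squeeze {Q : ℕ → ℕ → ℕ → Prop} {c : ℝ} (h : ∀ ζ : ℝ, 0 < ζ → ∃ (P₁ P₂ : ℕ → ℕ → ℕ → Prop) (c₁ c₂ : ℝ),
    FQ P₁ c₁ ∧ FQ P₂ c₂ ∧ c - ζ ≤ c₁ ∧ c₂ ≤ c + ζ ∧ ∀ M : ℕ, 1 ≤ M → ∃ K y₁ : ℕ, ∀ k i n : ℕ, K ≤ k → 6 * k ≤ 25 * i →
      15 * i ≤ 8 * k → 1 ≤ n → odds k n = i → y₁ ≤ T^[k] n → 2 ^ k ≤ M * n →
      2 ^ k * T^[k] n ≤ 2 * (3 ^ i * n) → (P₁ k i n → Q k i n) ∧ (Q k i n → P₂ k i n)) : FQ Q c := by
  classical
  intro ε hε
  obtain ⟨P₁, P₂, c₁, c₂, hP₁, hP₂, hc₁, hc₂, hM⟩ := h (ε / 4) (by positivity)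
  obtain ⟨M, hM1, hM2⟩ := good_set (show 0 < ε / 4 by positivity)
  obtain ⟨K₃, y₁, hK₃⟩ := hM M hM1
  obtain ⟨K₄, hK₄⟩ := hM2 y₁
  obtain ⟨K₁, hK₁⟩ := hP₁ (ε / 4) (by positivity)
  obtain ⟨K₂, hK₂⟩ := hP₂ (ε / 4) (by positivity)
  refine ⟨K₁ + K₂ + K₃ + K₄, fun k i x hk h1 h2 hx F hF => ?_⟩
  obtain ⟨Bd, hB1, hB2⟩ := hK₄ k i x (by omega) h1 h2 hx
  have g1 := hK₁ k i x (by omega) h1 h2 hx ((E k i x).filter fun n => P₁ k i n) (fun n => by rw [mem_filter])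
  have g2 := hK₂ k i x (by omega) h1 h2 hx ((E k i x).filter fun n => P₂ k i n) (fun n => by rw [mem_filter])
  have hgood : ∀ n ∈ E k i x, n ∉ Bd → (P₁ k i n → Q k i n) ∧ (Q k i n → P₂ k i n) := by
    intro n hn hnB
    obtain ⟨a1, a2, a3, a4⟩ := hB2 n hn hnB
    have hn1 : 1 ≤ n := by
      rcases Nat.eq_zero_or_pos n with h0 | h0
      · subst h0
        have : 0 < 2 ^ k := by positivity
        omega
      · exact h0
    exact hK₃ k i n (by omega) h1 h2 hn1 (mem_E.1 hn).2 a1 a3 a4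
  have s1 : ((E k i x).filter fun n => P₁ k i n) ⊆ F ∪ Bd := by
    intro n hn
    rw [mem_filter] at hn
    rw [mem_union]
    by_cases hb : n ∈ Bd
    · exact Or.inr hb
    · exact Or.inl ((hF n).2 ⟨hn.1, (hgood n hn.1 hb).1 hn.2⟩)
  have s2 : F ⊆ ((E k i x).filter fun n => P₂ k i n) ∪ Bd := by
    intro n hn
    obtain ⟨b1, b2⟩ := (hF n).1 hn
    rw [mem_union, mem_filter]
    by_cases hb : n ∈ Bd
    · exact Or.inr hb
    · exact Or.inl ⟨b1, (hgood n b1 hb).2 b2⟩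
  have t1 : (((E k i x).filter fun n => P₁ k i n).card : ℝ) ≤ F.card + Bd.card := by
    exact_mod_cast (card_le_card s1).trans (card_union_le _ _)
  have t2 : (F.card : ℝ) ≤ ((E k i x).filter fun n => P₂ k i n).card + Bd.card := by
    exact_mod_cast (card_le_card s2).trans (card_union_le _ _)
  have hE : (0 : ℝ) ≤ (E k i x).card := Nat.cast_nonneg _
  have u1 : (c - ε / 4) * (E k i x).card ≤ c₁ * (E k i x).card := mul_le_mul_of_nonneg_right hc₁ hE
  have u2 : c₂ * (E k i x).card ≤ (c + ε / 4) * (E k i x).card := mul_le_mul_of_nonneg_right hc₂ hE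
  rw [abs_le] at g1 g2 ⊢
  constructor <;> nlinarith [g1.1, g1.2, g2.1, g2.2]

theorem Phi_cont : Continuous Phi := by
  have e : Phi = Pool.Agent.H499R2.ND.Phi := by
    funext x
    unfold Phi
    rw [← Pool.Agent.H499R2.ND.phi_cdf]
  rw [e]
  exact Pool.Agent.H499R2.ND.Phi_continuous

theorem Phi_01 (x : ℝ) : 0 ≤ Phi x ∧ Phi x ≤ 1 :=
  ⟨ProbabilityTheory.cdf_nonneg _ _, ProbabilityTheory.cdf_le_one _ _⟩

/-- the property of the normal law -/
def Q3 (m : ℕ) (a b : ℤ) (x : ℝ) (k i n : ℕ) : Prop :=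
  ∃ l : ℕ, (l : ℝ) ≤ k + i + BB x (LL k i n) ∧ IsTotalStoppingTime n l ∧ (l : ℤ) ≡ a [ZMOD m] ∧
    (oddC l n : ℤ) ≡ b [ZMOD m]

theorem level_shift {m : ℕ} {a b : ℤ} {x : ℝ} {k i n : ℕ} (hi : odds k n = i) (h4 : 4 < T^[k] n) :
    (∃ l : ℕ, (l : ℝ) ≤ k + i + x ∧ IsTotalStoppingTime n l ∧ (l : ℤ) ≡ a [ZMOD m] ∧ (oddC l n : ℤ) ≡ b [ZMOD m]) ↔
    ∃ l' : ℕ, (l' : ℝ) ≤ x ∧ IsTotalStoppingTime (T^[k] n) l' ∧
      (l' : ℤ) ≡ a - ((k + i) % m : ℕ) [ZMOD m] ∧ (oddC l' (T^[k] n) : ℤ) ≡ b - (i % m : ℕ) [ZMOD m] := by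
  have h5 := (CC_run k n).2
  have hs := total_iff h4
  rw [hi] at h5
  have hmod : ∀ (u v : ℕ) (w : ℤ), ((v + u : ℕ) : ℤ) ≡ w [ZMOD m] ↔ (u : ℤ) ≡ w - (v % m : ℕ) [ZMOD m] := by
    intro u v w
    have h6 : ((v % m : ℕ) : ℤ) ≡ v [ZMOD m] := by
      push_cast
      exact Int.mod_modEq _ _
    push_cast
    constructor
    · intro h7
      have h8 := h7.sub h6
      push_cast at h8
      have e : (v : ℤ) + u - (v : ℤ) % m ≡ u [ZMOD m] := by
        have h9 : (v : ℤ) - (v : ℤ) % m ≡ 0 [ZMOD m] := by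
          rw [Int.modEq_zero_iff_dvd]
          exact Int.dvd_self_sub_emod
        have h10 := h9.add_right (u : ℤ)
        rw [zero_add] at h10
        have : (v : ℤ) + u - (v : ℤ) % m = (v : ℤ) - (v : ℤ) % m + u := by ring
        rw [this]
        exact h10
      have h11 : (v : ℤ) + u - (v : ℤ) % m ≡ w - (v : ℤ) % m [ZMOD m] := h7.sub_right _
      exact e.symm.trans h11
    · intro h7
      have h9 : (v : ℤ) % m ≡ v [ZMOD m] := Int.mod_modEq _ _
      have h8 := h7.add h9.symm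
      have : w - (v : ℤ) % m + (v : ℤ) % m = w := by ring
      rw [this] at h8
      rw [add_comm]
      exact h8
  constructor
  · rintro ⟨l, h1, h2, h3, h6⟩
    obtain ⟨l', rfl, h7⟩ := (hs l).1 h2
    rw [hi] at h1 h3 h6
    refine ⟨l', ?_, h7, (hmod l' (k + i) a).1 h3, ?_⟩
    · push_cast at h1
      linarith
    · rw [h5] at h6
      exact (hmod _ i b).1 h6
  · rintro ⟨l', h1, h2, h3, h6⟩
    refine ⟨k + odds k n + l', ?_, (hs _).2 ⟨l', rfl, h2⟩, ?_, ?_⟩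
    · rw [hi]
      push_cast
      linarith
    · rw [hi]
      exact (hmod l' (k + i) a).2 h3
    · rw [hi, h5]
      exact (hmod _ i b).2 h6

/-- **the conditional normal law** -/
theorem normal_law {δ : ℝ} (h0 : 0 < δ) (h1 : δ ≤ 1) (hl : ∀ (m : ℕ) (a b : ℤ) (x : ℝ), 1 ≤ m →
    InClasses (Level m a b x) (δ * Phi x / m ^ 2)) (m : ℕ) (a b : ℤ) (x : ℝ) (hm : 1 ≤ m) :
    FQ (Q3 m a b x) (δ * Phi x / m ^ 2) := by
  have hmR : (1 : ℝ) ≤ m := by exact_mod_cast hm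
  have hm2 : (1 : ℝ) ≤ (m : ℝ) ^ 2 := by nlinarith
  refine FQ_squeeze fun ζ hζ => ?_
  obtain ⟨θ, hθ, hθ2⟩ := Metric.continuousAt_iff.1 (Phi_cont.continuousAt (x := x)) ζ hζ
  obtain ⟨Mr, hMr1, hMr⟩ := BB_shift x (show 0 < θ / 2 by positivity)
  have hrange : ∀ z : ℝ, 0 ≤ δ * Phi z / m ^ 2 ∧ δ * Phi z / m ^ 2 ≤ 1 := by
    intro z
    obtain ⟨p1, p2⟩ := Phi_01 z
    refine ⟨by positivity, ?_⟩
    rw [div_le_one (by positivity)]
    nlinarith
  have hFQ : ∀ z : ℝ, FQ (fun k i n => Level m (a - ((k + i) % m : ℕ)) (b - (i % m : ℕ)) z (T^[k] n))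
      (δ * Phi z / m ^ 2) := fun z =>
    FQ_mod (R := fun j₁ j₂ y => Level m (a - (j₁ : ℕ)) (b - (j₂ : ℕ)) z y) hm
      fun j₁ j₂ => FQ_image (hrange z).1 (hrange z).2 (hl m _ _ z hm)
  have hcl : ∀ z : ℝ, |z - x| < θ → |δ * Phi z / m ^ 2 - δ * Phi x / m ^ 2| ≤ ζ := by
    intro z hz
    have h2 := hθ2 (x := z) (by rw [Real.dist_eq]; exact hz)
    rw [Real.dist_eq] at h2
    have e : δ * Phi z / m ^ 2 - δ * Phi x / m ^ 2 = δ / m ^ 2 * (Phi z - Phi x) := by ring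
    rw [e, abs_mul, abs_of_nonneg (by positivity)]
    have h3 : δ / (m : ℝ) ^ 2 ≤ 1 := by
      rw [div_le_one (by positivity)]
      linarith
    calc δ / (m : ℝ) ^ 2 * |Phi z - Phi x| ≤ 1 * |Phi z - Phi x| :=
          mul_le_mul_of_nonneg_right h3 (abs_nonneg _)
      _ ≤ ζ := by rw [one_mul]; exact h2.le
  have hc1 := hcl (x - θ / 2) (by rw [abs_lt]; constructor <;> linarith)
  have hc2 := hcl (x + θ / 2) (by rw [abs_lt]; constructor <;> linarith)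
  rw [abs_le] at hc1 hc2
  refine ⟨_, _, _, _, hFQ (x - θ / 2), hFQ (x + θ / 2), by linarith [hc1.1], by linarith [hc2.2],
    fun M hM => ⟨0, ⌈Real.exp Mr⌉₊ + 5, fun k i n hk g1 g2 hn hi hy hM2 h13 => ?_⟩⟩
  obtain ⟨l1, l2⟩ := LL_facts hn hi h13
  have hy2 : Mr ≤ Real.log (T^[k] n : ℕ) := by
    have h3 : Real.exp Mr ≤ (T^[k] n : ℕ) := by
      refine (Nat.le_ceil _).trans ?_
      exact_mod_cast (by omega : ⌈Real.exp Mr⌉₊ ≤ T^[k] n)
    rw [← Real.log_exp Mr]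
    exact Real.log_le_log (Real.exp_pos _) h3
  obtain ⟨b1, b2⟩ := hMr (LL k i n) _ hy2 l1 l2
  have h4 : 4 < T^[k] n := by omega
  have hls := level_shift (m := m) (a := a) (b := b) (x := BB x (LL k i n)) hi h4
  unfold Q3 Level
  rw [hls]
  constructor
  · rintro ⟨l', c1, c2, c3, c4⟩
    exact ⟨l', (c1.trans (le_of_eq (bound_eq _ _))).trans b1, c2, c3, c4⟩
  · rintro ⟨l', c1, c2, c3, c4⟩
    exact ⟨l', (c1.trans b2).trans (le_of_eq (bound_eq _ _).symm), c2, c3, c4⟩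

/-- finite total stopping times -/
theorem fin_law {δ : ℝ} (h0 : 0 < δ) (h1 : δ ≤ 1) (hl : InClasses (fun n => ∃ l, IsTotalStoppingTime n l) δ) :
    FQ (fun _ _ n => ∃ l, IsTotalStoppingTime n l) δ := by
  refine FQ_squeeze fun ζ hζ => ⟨_, _, δ, δ, FQ_image h0.le h1 hl, FQ_image h0.le h1 hl, by linarith, by linarith,
    fun M hM => ⟨0, 5, fun k i n hk g1 g2 hn hi hy hM2 h13 => ?_⟩⟩
  have hs := total_iff (show 4 < T^[k] n by omega)
  constructor
  · rintro ⟨l', h2⟩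
    exact ⟨_, (hs _).2 ⟨l', rfl, h2⟩⟩
  · rintro ⟨l, h2⟩
    obtain ⟨l', -, h3⟩ := (hs l).1 h2
    exact ⟨l', h3⟩

/-- the exceptions -/
theorem exc_law {δ : ℝ} (h0 : 0 < δ) (h1 : δ ≤ 1) (hl : InClasses (fun n => ∃ l, IsTotalStoppingTime n l) δ)
    (hll : ∀ η : ℝ, 0 < η → InClasses (fun n => ∃ l : ℕ, IsTotalStoppingTime n l ∧
      |(l : ℝ) / Real.log n - 3 / Real.log (4 / 3)| ≤ η) δ) : FQ (fun _ _ n => Exception n) (1 - δ) := by
  have hlog : 0 < Real.log (4 / 3) := Real.log_pos (by norm_num)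
  set c : ℝ := 3 / Real.log (4 / 3) + 1 with hc
  have hc0 : 0 < c := by positivity
  refine FQ_squeeze fun ζ hζ => ⟨_, _, 1 - δ, 1 - δ, FQ_not (fin_law h0 h1 hl), FQ_not (FQ_image h0.le h1 (hll 1 one_pos)),
    by linarith, by linarith, fun M hM => ?_⟩
  -- `2 k + c (log n + 1) ≤ n` for `n ≥ 2 ^ k / M`
  have hM0 : (0 : ℝ) < M := by exact_mod_cast hM
  have htl : Tendsto (fun n : ℕ => Real.log n / n) atTop (𝓝 0) := by
    have := Real.isLittleO_log_id_atTop.tendsto_div_nhds_zero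
    exact this.comp tendsto_natCast_atTop_atTop
  have htk : Tendsto (fun n : ℕ => (1 : ℝ) / n) atTop (𝓝 0) := tendsto_one_div_atTop_nhds_zero_nat
  have h2 := ((htl.const_mul (4 + c)).add (htk.const_mul (4 * Real.log M + c))).eventually_lt_const
    (show (4 + c) * 0 + (4 * Real.log M + c) * 0 < 1 by norm_num)
  obtain ⟨n₀, hn₀⟩ := eventually_atTop.1 h2
  refine ⟨M * (n₀ + 1), 5, fun k i n hk g1 g2 hn hi hy hM2 h13 => ?_⟩
  have hs := total_iff (show 4 < T^[k] n by omega)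
  constructor
  · intro h3 l hl2
    exact absurd ⟨l, hl2⟩ h3
  · rintro h3 ⟨l', h4, h5⟩
    have h6 := h3 _ ((hs _).2 ⟨l', rfl, h4⟩)
    obtain ⟨l1, l2⟩ := LL_facts hn hi h13
    have hyR : (1 : ℝ) < (T^[k] n : ℕ) := by exact_mod_cast (by omega : 1 < T^[k] n)
    have hylog : 0 < Real.log (T^[k] n : ℕ) := Real.log_pos hyR
    have h7 := (abs_le.1 h5).2
    have h8 : (l' : ℝ) / Real.log (T^[k] n : ℕ) ≤ c := by rw [hc]; linarith
    rw [div_le_iff₀ hylog] at h8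
    have hnR : (1 : ℝ) ≤ n := by exact_mod_cast hn
    have hl3 : 63 / 100 * Real.log 3 ≤ Real.log 2 := by
      have h : Real.log ((3 : ℝ) ^ 63) ≤ Real.log ((2 : ℝ) ^ 100) := Real.log_le_log (by norm_num) (by norm_num)
      rw [Real.log_pow, Real.log_pow] at h
      push_cast at h
      linarith
    have hl3p : 0 < Real.log 3 := Real.log_pos (by norm_num)
    have h9 : LL k i n ≤ Real.log n := by
      unfold LL
      have h10 : (15 : ℝ) * i ≤ 8 * k := by exact_mod_cast g2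
      have h11 : (i : ℝ) * Real.log 3 ≤ 8 / 15 * k * Real.log 3 := by
        apply mul_le_mul_of_nonneg_right _ hl3p.le
        linarith
      have h12 : 8 / 15 * k * Real.log 3 ≤ k * Real.log 2 := by
        have : (0 : ℝ) ≤ k := Nat.cast_nonneg k
        nlinarith
      linarith
    have h10 : (l' : ℝ) ≤ c * (Real.log n + 1) :=
      h8.trans (mul_le_mul_of_nonneg_left (by linarith) hc0.le)
    have h11 : (k : ℝ) * Real.log 2 ≤ Real.log M + Real.log n := by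
      rw [← Real.log_pow, ← Real.log_mul hM0.ne' (by positivity)]
      apply Real.log_le_log (by positivity)
      exact_mod_cast hM2
    have hl2 : (1 : ℝ) / 2 < Real.log 2 := by
      have := Real.log_two_gt_d9
      linarith
    have h12 : (k : ℝ) ≤ 2 * (Real.log M + Real.log n) := by
      have : (0 : ℝ) ≤ k := Nat.cast_nonneg k
      nlinarith
    have hkn : n₀ ≤ n := by
      have h13 : k < 2 ^ k := Nat.lt_two_pow_self
      have h14 : M * (n₀ + 1) < M * n := by omega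
      have := Nat.lt_of_mul_lt_mul_left h14
      omega
    have h14 := hn₀ n hkn
    have h15 : (4 + c) * (Real.log n / n) + (4 * Real.log M + c) * (1 / n) =
        ((4 + c) * Real.log n + (4 * Real.log M + c)) / n := by ring
    rw [h15, div_lt_one (by linarith)] at h14
    have h16 : (n : ℝ) < ((k + odds k n + l' : ℕ) : ℝ) := by exact_mod_cast h6
    have h17 : ((odds k n : ℕ) : ℝ) ≤ k := by exact_mod_cast odds_le k n
    push_cast at h16
    nlinarith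

end Pool.Agent.H623.TP
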