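import Pool.Agent.H623.TP.Defs

/-!
# (AN): the one-variable inequality
-/

set_option autoImplicit false

namespace Pool.Agent.H623.TP

open Finset Filter Topology

namespace AN

lemma log3_bd : 1.098611 < Real.log 3 ∧ Real.log 3 < 1.098613 := by
  have h := Real.abs_log_sub_add_sum_range_le (x := (1 / 4 : ℝ)) (by norm_num [abs_of_pos]) 11
  have e : Real.log (1 - 1 / 4) = Real.log 3 - 2 * Real.log 2 := by
    rw [show (1 - 1 / 4 : ℝ) = 3 / 2 ^ 2 by norm_num, Real.log_div (by norm_num) (by norm_num),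
      Real.log_pow]
    norm_num
  rw [e] at h
  rw [abs_le] at h
  have h1 := Real.log_two_gt_d9
  have h2 := Real.log_two_lt_d9
  norm_num [Finset.sum_range_succ, abs_of_pos] at h
  constructor <;> linarith [h.1, h.2]

lemma log5_bd : 1.609436 < Real.log 5 ∧ Real.log 5 < 1.609439 := by
  have h := Real.abs_log_sub_add_sum_range_le (x := (1 / 5 : ℝ)) (by norm_num [abs_of_pos]) 10
  have e : Real.log (1 - 1 / 5) = 2 * Real.log 2 - Real.log 5 := by
    rw [show (1 - 1 / 5 : ℝ) = 2 ^ 2 / 5 by norm_num, Real.log_div (by norm_num) (by norm_num),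
      Real.log_pow]
    norm_num
  rw [e] at h
  rw [abs_le] at h
  have h1 := Real.log_two_gt_d9
  have h2 := Real.log_two_lt_d9
  norm_num [Finset.sum_range_succ, abs_of_pos] at h
  constructor <;> linarith [h.1, h.2]

lemma log7_bd : 1.945909 < Real.log 7 ∧ Real.log 7 < 1.945911 := by
  have h := Real.abs_log_sub_add_sum_range_le (x := (1 / 8 : ℝ)) (by norm_num [abs_of_pos]) 8
  have e : Real.log (1 - 1 / 8) = Real.log 7 - 3 * Real.log 2 := by
    rw [show (1 - 1 / 8 : ℝ) = 7 / 2 ^ 3 by norm_num, Real.log_div (by norm_num) (by norm_num),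
      Real.log_pow]
    norm_num
  rw [e] at h
  rw [abs_le] at h
  have h1 := Real.log_two_gt_d9
  have h2 := Real.log_two_lt_d9
  norm_num [Finset.sum_range_succ, abs_of_pos] at h
  constructor <;> linarith [h.1, h.2]

lemma log19_bd : 2.944436 < Real.log 19 ∧ Real.log 19 < 2.944442 := by
  have h := Real.abs_log_sub_add_sum_range_le (x := (1 / 20 : ℝ)) (by norm_num [abs_of_pos]) 5
  have e : Real.log (1 - 1 / 20) = Real.log 19 - 2 * Real.log 2 - Real.log 5 := by
    rw [show (1 - 1 / 20 : ℝ) = 19 / 2 ^ 2 / 5 by norm_num, Real.log_div (by norm_num) (by norm_num),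
      Real.log_div (by norm_num) (by norm_num), Real.log_pow]
    norm_num
  rw [e] at h
  rw [abs_le] at h
  have h1 := Real.log_two_gt_d9
  have h2 := Real.log_two_lt_d9
  have h3 := log5_bd
  norm_num [Finset.sum_range_succ, abs_of_pos] at h
  constructor <;> linarith [h.1, h.2, h3.1, h3.2]

/-- `L = log 2 / log 3`. -/
noncomputable def L : ℝ := Real.log 2 / Real.log 3

lemma L_lb : 0.63092 < L := by
  have h3 := log3_bd
  have h1 := Real.log_two_gt_d9
  have hp : 0 < Real.log 3 := by linarith [h3.1]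
  rw [L, lt_div_iff₀ hp]
  nlinarith [h3.2]

lemma L_pos : 0 < L := by linarith [L_lb]

lemma logL_ub : Real.log L ≤ 2 * Real.log 2 + Real.log 3 - Real.log 19 + 19 / 12 * L - 1 := by
  have h := Real.log_le_sub_one_of_pos (x := L * (19 / 12)) (mul_pos L_pos (by norm_num))
  rw [Real.log_mul L_pos.ne' (by norm_num), Real.log_div (by norm_num) (by norm_num),
    show (12 : ℝ) = 2 ^ 2 * 3 by norm_num, Real.log_mul (by norm_num) (by norm_num),
    Real.log_pow] at h
  push_cast at h
  linarith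

/-- `p` times the difference. -/
noncomputable def phi (p : ℝ) : ℝ :=
  L - p * (1 + Real.log L) - 10 / 9 * Real.log 2 + 1 / 9 * Real.negMulLog p +
    10 / 9 * Real.negMulLog (1 - p)

lemma phi_eq {p : ℝ} (hp : 0 < p) :
    rr p - Real.log (1 + rr p) - dd p = phi p / p := by
  have h3 : 0 < Real.log 3 := by linarith [log3_bd.1]
  have hr : 1 + rr p = L / p := by
    rw [rr, L]
    field_simp
    ring
  have hr' : rr p = L / p - 1 := by linarith
  rw [hr, hr', Real.log_div L_pos.ne' hp.ne', dd, Real.binEntropy_eq_negMulLog_add_negMulLog_one_sub,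
    phi]
  simp only [Real.negMulLog]
  field_simp
  ring

lemma phi_a : 0.001 < phi (6 / 25) := by
  have h2 := Real.log_two_gt_d9
  have h2' := Real.log_two_lt_d9
  have h3 := log3_bd
  have h5 := log5_bd
  have h19 := log19_bd
  have hL := logL_ub
  have hL' := L_lb
  rw [phi]
  simp only [Real.negMulLog]
  have e1 : Real.log (6 / 25) = Real.log 2 + Real.log 3 - 2 * Real.log 5 := by
    rw [show (6 / 25 : ℝ) = (2 * 3) / 5 ^ 2 by norm_num, Real.log_div (by norm_num) (by norm_num),
      Real.log_mul (by norm_num) (by norm_num), Real.log_pow]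
    norm_num
  have e2 : Real.log (1 - 6 / 25) = Real.log 19 - 2 * Real.log 5 := by
    rw [show (1 - 6 / 25 : ℝ) = 19 / 5 ^ 2 by norm_num, Real.log_div (by norm_num) (by norm_num),
      Real.log_pow]
    norm_num
  rw [e1, e2]
  linarith [h3.1, h3.2, h5.1, h5.2, h19.1, h19.2]

lemma phi_b : 0.001 < phi (8 / 15) := by
  have h2 := Real.log_two_gt_d9
  have h2' := Real.log_two_lt_d9
  have h3 := log3_bd
  have h5 := log5_bd
  have h7 := log7_bd
  have h19 := log19_bd
  have hL := logL_ub
  have hL' := L_lb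
  rw [phi]
  simp only [Real.negMulLog]
  have e1 : Real.log (8 / 15) = 3 * Real.log 2 - Real.log 3 - Real.log 5 := by
    rw [show (8 / 15 : ℝ) = 2 ^ 3 / 3 / 5 by norm_num, Real.log_div (by norm_num) (by norm_num),
      Real.log_div (by norm_num) (by norm_num), Real.log_pow]
    norm_num
  have e2 : Real.log (1 - 8 / 15) = Real.log 7 - Real.log 3 - Real.log 5 := by
    rw [show (1 - 8 / 15 : ℝ) = 7 / 3 / 5 by norm_num, Real.log_div (by norm_num) (by norm_num),
      Real.log_div (by norm_num) (by norm_num)]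
  rw [e1, e2]
  linarith [h3.1, h3.2, h5.1, h5.2, h19.1, h19.2, h7.1, h7.2]

lemma phi_conc {p : ℝ} (h1 : 6 / 25 ≤ p) (h2 : p ≤ 8 / 15) : 0.001 ≤ phi p := by
  obtain ⟨t, ht⟩ : ∃ t : ℝ, t = (p - 6 / 25) / (8 / 15 - 6 / 25) := ⟨_, rfl⟩
  have ht0 : 0 ≤ t := by rw [ht]; exact div_nonneg (by linarith) (by norm_num)
  have ht1 : t ≤ 1 := by rw [ht, div_le_one (by norm_num)]; linarith
  have hp : p = (1 - t) * (6 / 25) + t * (8 / 15) := by
    rw [ht]; ring
  have c1 := Real.concaveOn_negMulLog.2 (x := 6 / 25) (by norm_num) (y := 8 / 15) (by norm_num)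
    (sub_nonneg.2 ht1) ht0 (by ring)
  have c2 := Real.concaveOn_negMulLog.2 (x := 1 - 6 / 25) (by norm_num) (y := 1 - 8 / 15)
    (by norm_num) (sub_nonneg.2 ht1) ht0 (by ring)
  simp only [smul_eq_mul] at c1 c2
  rw [← hp] at c1
  rw [show (1 - t) * (1 - 6 / 25) + t * (1 - 8 / 15) = 1 - p by rw [hp]; ring] at c2
  have h3 := phi_a
  have h4 := phi_b
  have h5 : (1 - t) * phi (6 / 25) + t * phi (8 / 15) ≤ phi p := by
    have hlin : (1 - t) * phi (6 / 25) + t * phi (8 / 15) =
        L - ((1 - t) * (6 / 25) + t * (8 / 15)) * (1 + Real.log L) - 10 / 9 * Real.log 2 +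
        1 / 9 * ((1 - t) * Real.negMulLog (6 / 25) + t * Real.negMulLog (8 / 15)) +
        10 / 9 * ((1 - t) * Real.negMulLog (1 - 6 / 25) + t * Real.negMulLog (1 - 8 / 15)) := by
      simp only [phi]; ring
    rw [hlin, ← hp, phi]
    linarith
  have h6 : (1 - t) * 0.001 ≤ (1 - t) * phi (6 / 25) :=
    mul_le_mul_of_nonneg_left h3.le (sub_nonneg.2 ht1)
  have h7 : t * 0.001 ≤ t * phi (8 / 15) := mul_le_mul_of_nonneg_left h4.le ht0
  linarith

end AN

theorem t_AN : S_AN := by
  refine ⟨1 / 1000, by norm_num, fun p h1 h2 => ?_⟩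
  have hp : 0 < p := by linarith
  have h := AN.phi_eq hp
  have h3 := AN.phi_conc h1 h2
  have h4 : 1 / 1000 ≤ AN.phi p / p := by
    rw [le_div_iff₀ hp]
    norm_num at h3
    linarith
  linarith

end Pool.Agent.H623.TP
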