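import Pool.Agent.H623.TP.R

/-!
# The forward orbits: counting the starting points of given parity type
-/

set_option autoImplicit false
set_option linter.unusedVariables false
set_option linter.unusedSectionVars false

namespace Pool.Agent.H623.TP

open Finset Filter Topology Pool.Agent.H320R2.PD Pool.Agent.H377R2.NK
open Pool.Agent.H623.TS (Per S S_per S_mono S_aff S_B N N_nonneg N_per N_add N_congr N_smul N_tri N_comm
  N_sum_le T odds odds_succ_last odds_le Fr mem_Fr sum_Fr_succ ic ic_per S_ic gnodes gnodes_congr)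

theorem T_iter_add (k : ℕ) : ∀ n t : ℕ, T^[k] (n + 2 ^ k * t) = T^[k] n + 3 ^ odds k n * t ∧
    odds k (n + 2 ^ k * t) = odds k n := by
  induction k with
  | zero => intro n t; simp [odds]
  | succ k ih =>
    intro n t
    have hp : 2 ^ (k + 1) * t = 2 * (2 ^ k * t) := by rw [pow_succ]; ring
    rcases Nat.mod_two_eq_zero_or_one n with h | h
    · have e : T (n + 2 ^ (k + 1) * t) = T n + 2 ^ k * t := by
        unfold T
        rw [if_pos h, if_pos (by omega), hp]
        omega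
      obtain ⟨h1, h2⟩ := ih (T n) t
      rw [Function.iterate_succ_apply, Function.iterate_succ_apply, e, odds, odds, e, h1, h2, h]
      constructor
      · rw [zero_add]
      · congr 1
        omega
    · have hp3 : 2 ^ k * (3 * t) = 3 * (2 ^ k * t) := by ring
      have e : T (n + 2 ^ (k + 1) * t) = T n + 2 ^ k * (3 * t) := by
        unfold T
        rw [if_neg (by omega), if_neg (by omega), hp, hp3]
        omega
      obtain ⟨h1, h2⟩ := ih (T n) (3 * t)
      rw [Function.iterate_succ_apply, Function.iterate_succ_apply, e, odds, odds, e, h1, h2, h]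
      constructor
      · rw [pow_add, pow_one]
        ring
      · congr 1
        omega

theorem T_iter_ge (k : ℕ) : ∀ n : ℕ, 3 ^ odds k n * n ≤ 2 ^ k * T^[k] n := by
  induction k with
  | zero => intro n; simp [odds]
  | succ k ih =>
    intro n
    rw [Function.iterate_succ_apply, odds]
    have h1 := ih (T n)
    have h2 : 3 ^ (n % 2) * n ≤ 2 * T n := by
      rcases Nat.mod_two_eq_zero_or_one n with h | h
      · rw [h]; unfold T; rw [if_pos h]; omega
      · rw [h]; unfold T; rw [if_neg (by omega)]; omega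
    calc 3 ^ (n % 2 + odds k (T n)) * n = 3 ^ odds k (T n) * (3 ^ (n % 2) * n) := by rw [pow_add]; ring
      _ ≤ 3 ^ odds k (T n) * (2 * T n) := Nat.mul_le_mul_left _ h2
      _ = 2 * (3 ^ odds k (T n) * T n) := by ring
      _ ≤ 2 * (2 ^ k * T^[k] (T n)) := Nat.mul_le_mul_left _ h1
      _ = 2 ^ (k + 1) * T^[k] (T n) := by rw [pow_succ]; ring

theorem T_iter_upper (k : ℕ) : ∀ n : ℕ, 2 ^ k * T^[k] n + 2 ^ k ≤
    3 ^ odds k n * n + 2 ^ (k - odds k n) * 3 ^ odds k n := by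
  induction k with
  | zero => intro n; simp [odds]
  | succ k ih =>
    intro n
    rw [Function.iterate_succ_apply, odds]
    have h1 := ih (T n)
    have hk := odds_le k (T n)
    set i := odds k (T n) with hi
    rcases Nat.mod_two_eq_zero_or_one n with h | h
    · have h2 : 2 * T n = n := by unfold T; rw [if_pos h]; omega
      have e1 : k + 1 - (0 + i) = (k - i) + 1 := by omega
      rw [h, e1, zero_add, pow_succ, pow_succ]
      calc 2 ^ k * 2 * T^[k] (T n) + 2 ^ k * 2 = 2 * (2 ^ k * T^[k] (T n) + 2 ^ k) := by ring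
        _ ≤ 2 * (3 ^ i * T n + 2 ^ (k - i) * 3 ^ i) := Nat.mul_le_mul_left _ h1
        _ = 3 ^ i * (2 * T n) + 2 ^ (k - i) * 2 * 3 ^ i := by ring
        _ = 3 ^ i * n + 2 ^ (k - i) * 2 * 3 ^ i := by rw [h2]
    · have h2 : 2 * T n = 3 * n + 1 := by unfold T; rw [if_neg (by omega)]; omega
      have e1 : k + 1 - (1 + i) = k - i := by omega
      rw [h, e1, pow_succ, pow_add, pow_one]
      have h3 : 1 ≤ 2 ^ (k - i) := Nat.one_le_two_pow
      have h4 : 3 ^ i ≤ 2 ^ (k - i) * 3 ^ i := Nat.le_mul_of_pos_left _ (by omega)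
      calc 2 ^ k * 2 * T^[k] (T n) + 2 ^ k * 2 = 2 * (2 ^ k * T^[k] (T n) + 2 ^ k) := by ring
        _ ≤ 2 * (3 ^ i * T n + 2 ^ (k - i) * 3 ^ i) := Nat.mul_le_mul_left _ h1
        _ = 3 ^ i * (2 * T n) + 2 * (2 ^ (k - i) * 3 ^ i) := by ring
        _ = 3 * 3 ^ i * n + (3 ^ i + 2 * (2 ^ (k - i) * 3 ^ i)) := by rw [h2]; ring
        _ ≤ 3 * 3 ^ i * n + (2 ^ (k - i) * 3 ^ i + 2 * (2 ^ (k - i) * 3 ^ i)) := by omega
        _ = 3 * 3 ^ i * n + 2 ^ (k - i) * (3 * 3 ^ i) := by ring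

/-- the upper bound in a convenient form -/
theorem T_iter_lt {k i n : ℕ} (hi : odds k n = i) : 2 ^ k * T^[k] n + 2 ^ k ≤ 3 ^ i * n + 2 ^ k * 2 ^ i := by
  have h1 := T_iter_upper k n
  have h2 := odds_le k n
  rw [hi] at h1 h2
  have h3 : 2 ^ (k - i) * 3 ^ i ≤ 2 ^ k * 2 ^ i := by
    calc 2 ^ (k - i) * 3 ^ i ≤ 2 ^ (k - i) * 4 ^ i := Nat.mul_le_mul_left _ (Nat.pow_le_pow_left (by norm_num) i)
      _ = 2 ^ (k - i) * (2 ^ i * 2 ^ i) := by rw [← mul_pow]; norm_num
      _ = 2 ^ (k - i + i) * 2 ^ i := by rw [pow_add]; ring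
      _ = 2 ^ k * 2 ^ i := by rw [Nat.sub_add_cancel h2]
  omega

/-- the starting points below `2 ^ k` with `i` odd terms -/
def E0 (k i : ℕ) : Finset ℕ := (range (2 ^ k)).filter fun n => odds k n = i

/-- the number of the starting points below `2 ^ k` with `i` odd terms and `T^k n ≡ y` modulo `3 ^ i` -/
def W (k i y : ℕ) : ℕ := ((E0 k i).filter fun n => T^[k] n % 3 ^ i = y % 3 ^ i).card

theorem mem_E0 {k i n : ℕ} : n ∈ E0 k i ↔ n < 2 ^ k ∧ odds k n = i := by
  unfold E0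
  rw [mem_filter, mem_range]

theorem T_E0_lt {k i n : ℕ} (h : n ∈ E0 k i) : T^[k] n < 3 ^ i + 2 ^ i := by
  obtain ⟨h1, h2⟩ := mem_E0.1 h
  have h3 := T_iter_lt h2
  have h4 : 3 ^ i * n ≤ 3 ^ i * 2 ^ k := Nat.mul_le_mul_left _ h1.le
  have h5 : 2 ^ k * (T^[k] n + 1) ≤ 2 ^ k * (3 ^ i + 2 ^ i) := by
    calc 2 ^ k * (T^[k] n + 1) = 2 ^ k * T^[k] n + 2 ^ k := by ring
      _ ≤ 3 ^ i * n + 2 ^ k * 2 ^ i := h3
      _ ≤ 3 ^ i * 2 ^ k + 2 ^ k * 2 ^ i := by omega
      _ = 2 ^ k * (3 ^ i + 2 ^ i) := by ring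
  have h6 := Nat.le_of_mul_le_mul_left h5 (by positivity)
  omega

/-- for large roots, the number of nodes is `W` -/
theorem gnodes_W {k i a : ℕ} (ha : 3 ^ i + 2 ^ i ≤ a) : gnodes k i 1 0 a = W k i a := by
  unfold gnodes W
  rw [← Set.ncard_coe_finset]
  refine Set.ncard_congr (fun n _ => n % 2 ^ k) ?_ ?_ ?_
  · rintro n ⟨h1, -, h3⟩
    rw [Finset.mem_coe, mem_filter, mem_E0]
    have h4 := T_iter_add k (n % 2 ^ k) (n / 2 ^ k)
    rw [Nat.mod_add_div] at h4
    refine ⟨⟨Nat.mod_lt _ (by positivity), ?_⟩, ?_⟩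
    · rw [← h4.2, h3]
    · have h5 : odds k (n % 2 ^ k) = i := by rw [← h4.2, h3]
      rw [← h1, h4.1, h5, Nat.add_mul_mod_self_left]
  · rintro n n' ⟨h1, -, h3⟩ ⟨h1', -, h3'⟩ h
    have h4 := T_iter_add k (n % 2 ^ k) (n / 2 ^ k)
    have h4' := T_iter_add k (n' % 2 ^ k) (n' / 2 ^ k)
    rw [Nat.mod_add_div] at h4 h4'
    rw [h1, h] at h4
    rw [h1'] at h4'
    have h5 : 3 ^ odds k (n' % 2 ^ k) * (n / 2 ^ k) = 3 ^ odds k (n' % 2 ^ k) * (n' / 2 ^ k) := by
      have := h4.1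
      have := h4'.1
      omega
    have h6 := Nat.eq_of_mul_eq_mul_left (by positivity) h5
    rw [← Nat.mod_add_div n (2 ^ k), ← Nat.mod_add_div n' (2 ^ k), h, h6]
  · intro n0 hn0
    rw [Finset.mem_coe, mem_filter] at hn0
    obtain ⟨h1, h2⟩ := hn0
    have h3 := T_E0_lt h1
    have h4 := (mem_E0.1 h1).2
    have h5 : 3 ^ i ∣ a - T^[k] n0 := (Nat.modEq_iff_dvd' (by omega)).1 h2
    obtain ⟨t, ht⟩ := h5
    have h6 := T_iter_add k n0 t
    rw [h4] at h6
    refine ⟨n0 + 2 ^ k * t, ⟨?_, Nat.modEq_one, h6.2⟩, ?_⟩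
    · rw [h6.1]; omega
    · rw [Nat.add_mul_mod_self_left, Nat.mod_eq_of_lt (mem_E0.1 h1).1]

/-- the normalised counts -/
noncomputable def V (k i : ℕ) (y : ℕ) : ℝ := 3 ^ i * (W k i y : ℝ) / (k.choose i : ℝ)

theorem W_mod (k i y : ℕ) : W k i (y % 3 ^ i) = W k i y := by
  unfold W
  rw [Nat.mod_mod]

section

variable (τ : ℝ) [TiltR τ]

theorem ic_one' : ic 0 0 0 = fun _ => 1 := by
  funext x
  unfold ic
  simp

theorem V_eq {k i : ℕ} (hi : i ≤ k) (y : ℕ) : V k i y = 1 / bep τ k i * Mi τ (fun _ => 1) k i (y : ℤ) := by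
  have h1 := gnodes_val τ (l := k) (i' := i) (j := 0) (m := 0) (r := 0) (a := y + 3 ^ i * 2)
    (by have : 0 < 3 ^ i := by positivity
        omega) hi
  simp only [odds, add_zero, pow_zero, mul_one, Function.iterate_zero, id_eq] at h1
  have h2 : 3 ^ i + 2 ^ i ≤ y + 3 ^ i * 2 := by
    have : 2 ^ i ≤ 3 ^ i := Nat.pow_le_pow_left (by norm_num) i
    omega
  rw [gnodes_W h2] at h1
  have h3 : W k i (y + 3 ^ i * 2) = W k i y := by
    rw [← W_mod k i (y + 3 ^ i * 2), Nat.add_mul_mod_self_left, W_mod]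
  rw [h3, ic_one'] at h1
  unfold V
  rw [h1]
  push_cast
  rw [Mi_one_per τ k i (y : ℤ) 2]

/-- the graded iterates have total mass equal to the binomial probability -/
theorem S_Mi_one (k : ℕ) : ∀ i L : ℕ, k ≤ L → S L (Mi τ (fun _ => 1) k i) = 3 ^ L * bep τ k i := by
  have hp0 : 0 < τ := Tilt.pos
  have hq0 : 0 < 1 - τ := Tilt.lt
  have hone : Per 0 (fun _ : ℤ => (1 : ℝ)) := fun _ _ => rfl
  induction k with
  | zero =>
    intro i L _
    cases i with
    | zero =>
      rw [bep_zero_zero, mul_one]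
      simp [S, Mi_zero_zero]
    | succ i =>
      rw [bep_zero_succ, mul_zero]
      simp [S, Mi_zero_succ]
  | succ k ih =>
    intro i L hL
    obtain ⟨L', rfl⟩ := Nat.exists_eq_add_of_le' (show 1 ≤ L by omega)
    have hper : ∀ s, Per L' (Mi τ (fun _ => 1) k s) := by
      intro s
      have h1 := Mi_per (τ := τ) hone k s
      rw [zero_add] at h1
      exact h1.le (by omega)
    have hA : ∀ s, S (L' + 1) (fun x => Mi τ (fun _ => 1) k s (2 * x)) = 3 ^ (L' + 1) * bep τ k s := by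
      intro s
      have h1 := S_aff ((hper s).le (Nat.le_succ L')) 1 0
      simp only [pow_one, zero_add] at h1
      rw [h1]
      exact ih s (L' + 1) (by omega)
    have hB : ∀ s, S (L' + 1) (fun x => if (3 : ℤ) ∣ 2 * x - 1 then Mi τ (fun _ => 1) k s ((2 * x - 1) / 3) else 0) =
        3 ^ L' * bep τ k s := by
      intro s
      rw [S_B (hper s)]
      exact ih s L' (by omega)
    cases i with
    | zero =>
      have e : ∀ x, Mi τ (fun _ => 1) (k + 1) 0 x = (1 - τ) * Mi τ (fun _ => 1) k 0 (2 * x) :=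
        fun x => Mi_succ_zero _ _ _
      have h1 : S (L' + 1) (Mi τ (fun _ => 1) (k + 1) 0) =
          (1 - τ) * S (L' + 1) (fun x => Mi τ (fun _ => 1) k 0 (2 * x)) := by
        unfold S
        rw [mul_sum]
        exact sum_congr rfl fun x _ => e x
      rw [h1, hA, bep_succ_zero]
      ring
    | succ i =>
      have h1 : S (L' + 1) (Mi τ (fun _ => 1) (k + 1) (i + 1)) =
          (1 - τ) * S (L' + 1) (fun x => Mi τ (fun _ => 1) k (i + 1) (2 * x)) +
          ((1 - τ) * od τ) * S (L' + 1) (fun x => if (3 : ℤ) ∣ 2 * x - 1 then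
            Mi τ (fun _ => 1) k i ((2 * x - 1) / 3) else 0) := by
        unfold S
        rw [mul_sum, mul_sum, ← sum_add_distrib]
        refine sum_congr rfl fun x _ => ?_
        rw [Mi_succ_succ]
        ring
      rw [h1, hA, hB, bep_succ_succ, mul_od, pow_succ]
      ring

end

/-- the total count -/
theorem sum_W {k i : ℕ} (hi : i ≤ k) : ∑ y ∈ range (3 ^ i), W k i y = k.choose i := by
  have hT : TiltR (1 / 4 : ℝ) := mkR' ⟨by norm_num, by norm_num⟩
  have hb : 0 < bep (1 / 4) k i := by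
    unfold bep
    have : (0 : ℝ) < (k.choose i : ℝ) := by exact_mod_cast Nat.choose_pos hi
    positivity
  have h1 := S_Mi_one (1 / 4) k i k le_rfl
  have h2 : S k (Mi (1 / 4) (fun _ => 1) k i) = 3 ^ (k - i) * S i (Mi (1 / 4) (fun _ => 1) k i) := by
    have := S_per (Mi_one_per (1 / 4) k i) (k - i)
    rwa [Nat.add_sub_cancel' hi] at this
  rw [h2] at h1
  have h3 : S i (Mi (1 / 4) (fun _ => 1) k i) = 3 ^ i * bep (1 / 4) k i := by
    have h4 : (3 : ℝ) ^ k = 3 ^ (k - i) * 3 ^ i := by rw [← pow_add, Nat.sub_add_cancel hi]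
    rw [h4, mul_assoc] at h1
    exact mul_left_cancel₀ (by positivity) h1
  have hc : (0 : ℝ) < (k.choose i : ℝ) := by exact_mod_cast Nat.choose_pos hi
  have h5 : ∑ y ∈ range (3 ^ i), V k i y = 3 ^ i := by
    have : ∑ y ∈ range (3 ^ i), V k i y = 1 / bep (1 / 4) k i * S i (Mi (1 / 4) (fun _ => 1) k i) := by
      unfold S
      rw [mul_sum]
      exact sum_congr rfl fun y _ => V_eq (1 / 4) hi y
    rw [this, h3]
    field_simp
  have h6 : ∑ y ∈ range (3 ^ i), V k i y = 3 ^ i / (k.choose i : ℝ) * ∑ y ∈ range (3 ^ i), (W k i y : ℝ) := by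
    rw [mul_sum]
    refine sum_congr rfl fun y _ => ?_
    unfold V
    ring
  rw [h6] at h5
  have h7 : ∑ y ∈ range (3 ^ i), (W k i y : ℝ) = (k.choose i : ℝ) := by
    have h8 : (3 : ℝ) ^ i ≠ 0 := by positivity
    field_simp at h5
    linarith
  exact_mod_cast h7

theorem card_E0 {k i : ℕ} (hi : i ≤ k) : (E0 k i).card = k.choose i := by
  rw [← sum_W hi]
  unfold W
  exact card_eq_sum_card_fiberwise (f := fun n => T^[k] n % 3 ^ i) (t := range (3 ^ i))
    (fun n _ => by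
      rw [Finset.mem_coe, mem_range]
      exact Nat.mod_lt _ (by positivity)) |>.trans
    (sum_congr rfl fun y hy => by
      rw [Nat.mod_eq_of_lt (mem_range.1 hy)])

/-- **fine scale equidistribution** -/
theorem V_lim {ε : ℝ} (hε : 0 < ε) : ∃ n₀ : ℕ, ∀ n, n₀ ≤ n → ∃ K : ℕ, ∀ k i : ℕ, K ≤ k → 6 * k ≤ 25 * i →
    15 * i ≤ 8 * k → ∑ y ∈ range (3 ^ i), |V k i y - D ((i : ℝ) / k) n y| ≤ ε * 3 ^ i := by
  obtain ⟨n₀, hn₀⟩ := local_lim (B := 1) (by norm_num) (show 0 < ε / 4 by positivity)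
  refine ⟨n₀, fun n hn => ?_⟩
  obtain ⟨K, hK⟩ := hn₀ n hn 0
  refine ⟨K + 25 * n + 25, fun k i hk h1 h2 => ?_⟩
  set τ : ℝ := (i : ℝ) / k with hτ
  have hT : TiltR τ := mkR (by omega) h1 h2
  have hone : Per 0 (fun _ : ℤ => (1 : ℝ)) := fun _ _ => rfl
  have h3 := hK τ (fun _ => 1) hone (fun x => by norm_num) k (by omega) i (n + k) (by omega)
  have h4 : S 0 (fun _ => (1 : ℝ)) / 3 ^ 0 = 1 := by simp [S]
  rw [h4] at h3
  have hmode := t_MODE k i (by omega) (by omega) (by omega)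
  rw [← hτ] at hmode
  set b : ℝ := bep τ k i with hb
  have hkpos : (0 : ℝ) < (k : ℝ) := by
    have : 0 < k := by omega
    exact_mod_cast this
  have hsq : 0 < Real.sqrt k := Real.sqrt_pos.2 hkpos
  have hb0 : 0 < b := lt_of_lt_of_le (by positivity) hmode
  set Q : ℝ := N (n + k) (fun x => Mi τ (fun _ => 1) k i x - b * (1 * D τ n x)) with hQ
  have hQ0 : 0 ≤ Q := N_nonneg _ _
  have hN : N (n + k) (fun x => 1 / b * Mi τ (fun _ => 1) k i x - D τ n x) ≤ ε := by
    have e : ∀ x, 1 / b * Mi τ (fun _ => 1) k i x - D τ n x =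
        1 / b * (Mi τ (fun _ => 1) k i x - b * (1 * D τ n x)) := by
      intro x
      field_simp
    rw [N_congr e, N_smul, abs_of_pos (by positivity), ← hQ]
    have h5 : Q = (Real.sqrt k * Q) * (4 * (1 / (4 * Real.sqrt k))) := by field_simp
    calc 1 / b * Q ≤ 1 / b * (ε / 4 * (4 * b)) := by
          refine mul_le_mul_of_nonneg_left ?_ (by positivity)
          rw [h5]
          exact mul_le_mul h3 (by linarith) (by positivity) (by positivity)
      _ = ε := by field_simp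
  have hni : n ≤ i := by omega
  have hper : Per i (fun x => 1 / b * Mi τ (fun _ => 1) k i x - D τ n x) := by
    intro x y
    dsimp only
    rw [Mi_one_per τ k i x y, (D_per τ n).le hni x y]
  rw [N_per hper (by omega)] at hN
  unfold N at hN
  rw [div_le_iff₀ (by positivity)] at hN
  refine le_trans (le_of_eq ?_) hN
  unfold S
  refine sum_congr rfl fun y _ => ?_
  dsimp only
  rw [V_eq τ (by omega) y]

end Pool.Agent.H623.TP
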