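import Pool.Agent.H623.TP.V

/-!
# The transfer principle for the integers with a given number of odd terms
-/

set_option autoImplicit false
set_option linter.unusedVariables false
set_option linter.unusedSectionVars false

namespace Pool.Agent.H623.TP

open Finset Filter Topology
open Pool.Agent.H623.TS (Per S N T odds odds_le)

/-- the integers below `x` with `i` odd terms among the first `k` -/
def E (k i x : ℕ) : Finset ℕ := (range x).filter fun n => odds k n = i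

theorem mem_E {k i x n : ℕ} : n ∈ E k i x ↔ n < x ∧ odds k n = i := by
  unfold E
  rw [mem_filter, mem_range]

theorem card_E_ge {k i : ℕ} (hi : i ≤ k) (x : ℕ) : x / 2 ^ k * k.choose i ≤ (E k i x).card := by
  rw [← card_E0 hi]
  have h1 : ((range (x / 2 ^ k)) ×ˢ E0 k i).card = x / 2 ^ k * (E0 k i).card := by
    rw [card_product, card_range]
  rw [← h1]
  refine card_le_card_of_injOn (fun p => p.2 + 2 ^ k * p.1) ?_ ?_
  · rintro ⟨t, n⟩ h
    rw [Finset.mem_coe, mem_product, mem_range, mem_E0] at h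
    obtain ⟨h1, h2, h3⟩ := h
    rw [Finset.mem_coe, mem_E]
    dsimp only at h1 h2 h3 ⊢
    refine ⟨?_, by rw [(T_iter_add k n t).2]; exact h3⟩
    calc n + 2 ^ k * t < 2 ^ k + 2 ^ k * t := by omega
      _ = 2 ^ k * (t + 1) := by ring
      _ ≤ 2 ^ k * (x / 2 ^ k) := Nat.mul_le_mul_left _ h1
      _ ≤ x := Nat.mul_div_le _ _
  · rintro ⟨t, n⟩ h ⟨t', n'⟩ h' he
    rw [Finset.mem_coe, mem_product, mem_range, mem_E0] at h h'
    dsimp only at h h' he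
    have h1 : n = n' := by
      have : (n + 2 ^ k * t) % 2 ^ k = (n' + 2 ^ k * t') % 2 ^ k := by rw [he]
      rwa [Nat.add_mul_mod_self_left, Nat.add_mul_mod_self_left, Nat.mod_eq_of_lt h.2.1,
        Nat.mod_eq_of_lt h'.2.1] at this
    subst h1
    have h2 : 2 ^ k * t = 2 ^ k * t' := by omega
    have h3 := Nat.eq_of_mul_eq_mul_left (by positivity) h2
    rw [h3]

/-- comparison with the sum over the images -/
theorem compare {B : ℝ} {h : ℕ → ℝ} (hB : ∀ y, |h y| ≤ B) {k i x Y : ℕ}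
    (h1 : x * 3 ^ i ≤ Y * 2 ^ k) (h2 : ∀ y, y < Y → y * 2 ^ k < x * 3 ^ i) :
    |∑ n ∈ E k i x, h (T^[k] n) - ∑ y ∈ range Y, (W k i y : ℝ) * h y| ≤
      B * (∑ y ∈ range (2 ^ i), (W k i y : ℝ) + ∑ y ∈ Ico Y (Y + 2 ^ i), (W k i y : ℝ)) := by
  classical
  have hB0 : 0 ≤ B := (abs_nonneg _).trans (hB 0)
  set P : Finset (ℕ × ℕ) := (E0 k i ×ˢ range (Y + 2 ^ i)).filter
    (fun p => T^[k] p.1 % 3 ^ i = p.2 % 3 ^ i) with hP
  have hmemP : ∀ p : ℕ × ℕ, p ∈ P ↔ (p.1 ∈ E0 k i ∧ p.2 < Y + 2 ^ i) ∧ T^[k] p.1 % 3 ^ i = p.2 % 3 ^ i := by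
    intro p
    rw [hP, mem_filter, mem_product, mem_range]
  set A : Finset (ℕ × ℕ) := (E k i x).image (fun n => (n % 2 ^ k, T^[k] n)) with hA
  -- sums over parts of `P` determined by the second coordinate
  have hsum : ∀ (s : Finset ℕ) (F : ℕ → ℝ), s ⊆ range (Y + 2 ^ i) →
      ∑ p ∈ P.filter (fun p => p.2 ∈ s), F p.2 = ∑ y ∈ s, (W k i y : ℝ) * F y := by
    intro s F hs
    have e1 : P.filter (fun p => p.2 ∈ s) =
        (E0 k i ×ˢ s).filter (fun p => T^[k] p.1 % 3 ^ i = p.2 % 3 ^ i) := by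
      ext p
      rw [mem_filter, hmemP, mem_filter, mem_product]
      constructor
      · rintro ⟨⟨⟨a, b⟩, c⟩, d⟩
        exact ⟨⟨a, d⟩, c⟩
      · rintro ⟨⟨a, d⟩, c⟩
        exact ⟨⟨⟨a, mem_range.1 (hs d)⟩, c⟩, d⟩
    rw [e1, sum_filter, sum_product_right]
    refine sum_congr rfl fun y _ => ?_
    dsimp only
    rw [← sum_filter, sum_const, nsmul_eq_mul]
    rfl
  have himg : ∀ n ∈ E k i x, (n % 2 ^ k, T^[k] n) ∈ P := by
    intro n hn
    obtain ⟨h3, h4⟩ := mem_E.1 hn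
    have h5 := T_iter_add k (n % 2 ^ k) (n / 2 ^ k)
    rw [Nat.mod_add_div] at h5
    have h6 : odds k (n % 2 ^ k) = i := by rw [← h5.2, h4]
    rw [hmemP]
    refine ⟨⟨mem_E0.2 ⟨Nat.mod_lt _ (by positivity), h6⟩, ?_⟩, ?_⟩
    · dsimp only
      have h7 := T_iter_lt h4
      have h8 : 3 ^ i * n ≤ 3 ^ i * x := Nat.mul_le_mul_left _ h3.le
      have h9 : 2 ^ k * (T^[k] n + 1) ≤ 2 ^ k * (Y + 2 ^ i) := by
        calc 2 ^ k * (T^[k] n + 1) = 2 ^ k * T^[k] n + 2 ^ k := by ring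
          _ ≤ 3 ^ i * n + 2 ^ k * 2 ^ i := h7
          _ ≤ 3 ^ i * x + 2 ^ k * 2 ^ i := by omega
          _ = x * 3 ^ i + 2 ^ k * 2 ^ i := by ring
          _ ≤ Y * 2 ^ k + 2 ^ k * 2 ^ i := by omega
          _ = 2 ^ k * (Y + 2 ^ i) := by ring
      have := Nat.le_of_mul_le_mul_left h9 (by positivity)
      omega
    · dsimp only
      rw [h5.1, h6, Nat.add_mul_mod_self_left]
  have hinj : Set.InjOn (fun n => (n % 2 ^ k, T^[k] n)) (E k i x : Set ℕ) := by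
    intro n hn n' hn' he
    rw [Finset.mem_coe] at hn hn'
    have e1 : n % 2 ^ k = n' % 2 ^ k := congrArg Prod.fst he
    have e2 : T^[k] n = T^[k] n' := congrArg Prod.snd he
    have h4 := T_iter_add k (n % 2 ^ k) (n / 2 ^ k)
    have h4' := T_iter_add k (n' % 2 ^ k) (n' / 2 ^ k)
    rw [Nat.mod_add_div] at h4 h4'
    rw [e1, e2] at h4
    have h5 : 3 ^ odds k (n' % 2 ^ k) * (n / 2 ^ k) = 3 ^ odds k (n' % 2 ^ k) * (n' / 2 ^ k) := by
      have := h4.1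
      have := h4'.1
      omega
    have h6 := Nat.eq_of_mul_eq_mul_left (by positivity) h5
    rw [← Nat.mod_add_div n (2 ^ k), ← Nat.mod_add_div n' (2 ^ k), e1, h6]
  have hAsum : ∑ n ∈ E k i x, h (T^[k] n) = ∑ p ∈ A, h p.2 := by
    rw [hA, sum_image hinj]
  have hAP : A ⊆ P := by
    intro p hp
    rw [hA, mem_image] at hp
    obtain ⟨n, hn, rfl⟩ := hp
    exact himg n hn
  set C : Finset (ℕ × ℕ) := P.filter (fun p => p.2 ∈ range Y) with hC
  have hCsum : ∑ y ∈ range Y, (W k i y : ℝ) * h y = ∑ p ∈ C, h p.2 := by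
    rw [hC, hsum (range Y) h (range_subset_range.2 (Nat.le_add_right _ _))]
  rw [hAsum, hCsum, ← sum_sdiff_sub_sum_sdiff]
  -- the two differences
  have hcard1 : ((A \ C).card : ℝ) ≤ ∑ y ∈ Ico Y (Y + 2 ^ i), (W k i y : ℝ) := by
    have h3 : A \ C ⊆ P.filter (fun p => p.2 ∈ Ico Y (Y + 2 ^ i)) := by
      intro p hp
      rw [Finset.mem_sdiff] at hp
      have hpP := hAP hp.1
      rw [mem_filter]
      refine ⟨hpP, ?_⟩
      rw [mem_Ico]
      have h4 := ((hmemP p).1 hpP).1.2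
      refine ⟨?_, h4⟩
      by_contra hcon
      rw [not_le] at hcon
      exact hp.2 (by rw [hC, mem_filter]; exact ⟨hpP, mem_range.2 hcon⟩)
    have h4 : ((P.filter (fun p => p.2 ∈ Ico Y (Y + 2 ^ i))).card : ℝ) =
        ∑ y ∈ Ico Y (Y + 2 ^ i), (W k i y : ℝ) := by
      have h5 := hsum (Ico Y (Y + 2 ^ i)) (fun _ => 1) (fun y hy => by
        rw [mem_Ico] at hy
        exact mem_range.2 hy.2)
      simp only [mul_one] at h5
      rw [← h5, sum_const, nsmul_eq_mul, mul_one]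
    rw [← h4]
    exact_mod_cast card_le_card h3
  have hcard2 : ((C \ A).card : ℝ) ≤ ∑ y ∈ range (2 ^ i), (W k i y : ℝ) := by
    have h3 : C \ A ⊆ P.filter (fun p => p.2 ∈ range (2 ^ i)) := by
      intro p hp
      rw [Finset.mem_sdiff, hC, mem_filter] at hp
      obtain ⟨⟨hpP, hpY⟩, hpA⟩ := hp
      rw [mem_filter]
      refine ⟨hpP, ?_⟩
      obtain ⟨⟨a1, a2⟩, a3⟩ := (hmemP p).1 hpP
      rw [mem_range] at hpY ⊢
      by_contra hcon
      rw [not_lt] at hcon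
      have b1 := T_E0_lt a1
      obtain ⟨b2, b3⟩ := mem_E0.1 a1
      -- then `T^k p.1 ≤ p.2`
      have b4 : T^[k] p.1 ≤ p.2 := by
        by_contra hc
        rw [not_le] at hc
        have b5 : 3 ^ i ∣ T^[k] p.1 - p.2 := (Nat.modEq_iff_dvd' hc.le).1 a3.symm
        have b6 := Nat.le_of_dvd (by omega) b5
        omega
      obtain ⟨t, ht⟩ := (Nat.modEq_iff_dvd' b4).1 a3
      have b7 := T_iter_add k p.1 t
      rw [b3] at b7
      have b8 : T^[k] (p.1 + 2 ^ k * t) = p.2 := by rw [b7.1]; omega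
      apply hpA
      rw [hA, mem_image]
      refine ⟨p.1 + 2 ^ k * t, mem_E.2 ⟨?_, b7.2⟩, ?_⟩
      · have b9 := T_iter_ge k (p.1 + 2 ^ k * t)
        rw [b7.2, b8] at b9
        have b10 := h2 p.2 hpY
        have b11 : 3 ^ i * (p.1 + 2 ^ k * t) < 3 ^ i * x := by
          calc 3 ^ i * (p.1 + 2 ^ k * t) ≤ 2 ^ k * p.2 := b9
            _ = p.2 * 2 ^ k := by ring
            _ < x * 3 ^ i := b10
            _ = 3 ^ i * x := by ring
        exact Nat.lt_of_mul_lt_mul_left b11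
      · rw [Nat.add_mul_mod_self_left, Nat.mod_eq_of_lt b2, b8]
    have h4 : ((P.filter (fun p => p.2 ∈ range (2 ^ i))).card : ℝ) =
        ∑ y ∈ range (2 ^ i), (W k i y : ℝ) := by
      have h5 := hsum (range (2 ^ i)) (fun _ => 1) (range_subset_range.2 (Nat.le_add_left _ _))
      simp only [mul_one] at h5
      rw [← h5, sum_const, nsmul_eq_mul, mul_one]
    rw [← h4]
    exact_mod_cast card_le_card h3
  have hle : ∀ s : Finset (ℕ × ℕ), |∑ p ∈ s, h p.2| ≤ B * s.card := by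
    intro s
    refine (abs_sum_le_sum_abs _ _).trans ((sum_le_sum fun p _ => hB p.2).trans (le_of_eq ?_))
    rw [sum_const, nsmul_eq_mul, mul_comm]
  refine (abs_sub _ _).trans ?_
  have h5 := hle (A \ C)
  have h6 := hle (C \ A)
  have h7 := mul_le_mul_of_nonneg_left hcard1 hB0
  have h8 := mul_le_mul_of_nonneg_left hcard2 hB0
  linarith

/-- periodic sums -/
theorem per_window {F : ℕ → ℝ} (h0 : ∀ y, 0 ≤ F y) {p : ℕ} (hp : 0 < p) (hF : ∀ y, F (y % p) = F y)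
    {a u : ℕ} (hu : u ≤ p) : ∑ y ∈ Ico a (a + u), F y ≤ ∑ y ∈ range p, F y := by
  have hinj : Set.InjOn (fun y => y % p) (Ico a (a + u) : Set ℕ) := by
    intro y hy y' hy' he
    rw [Finset.mem_coe, mem_Ico] at hy hy'
    dsimp only at he
    rcases le_total y y' with h | h
    · have h1 : p ∣ y' - y := (Nat.modEq_iff_dvd' h).1 he
      rcases Nat.eq_zero_or_pos (y' - y) with h2 | h2
      · omega
      · have := Nat.le_of_dvd h2 h1
        omega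
    · have h1 : p ∣ y - y' := (Nat.modEq_iff_dvd' h).1 he.symm
      rcases Nat.eq_zero_or_pos (y - y') with h2 | h2
      · omega
      · have := Nat.le_of_dvd h2 h1
        omega
  have h1 : ∑ y ∈ Ico a (a + u), F y = ∑ y ∈ (Ico a (a + u)).image (fun y => y % p), F y := by
    rw [sum_image hinj]
    exact sum_congr rfl fun y _ => (hF y).symm
  rw [h1]
  refine sum_le_sum_of_subset_of_nonneg ?_ fun y _ _ => h0 y
  intro y hy
  rw [mem_image] at hy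
  obtain ⟨y', -, rfl⟩ := hy
  exact mem_range.2 (Nat.mod_lt _ hp)

theorem per_range {F : ℕ → ℝ} {p : ℕ} (hF : ∀ y, F (y % p) = F y) (m : ℕ) :
    ∑ y ∈ range (m * p), F y = m * ∑ y ∈ range p, F y := by
  induction m with
  | zero => simp
  | succ m ih =>
    rw [Nat.succ_mul, sum_range_add, ih]
    have : ∑ x ∈ range p, F (m * p + x) = ∑ x ∈ range p, F x := by
      refine sum_congr rfl fun x hx => ?_
      rw [← hF (m * p + x), Nat.mul_add_mod_self_right, hF]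
    rw [this]
    push_cast
    ring

theorem per_range_le {F : ℕ → ℝ} (h0 : ∀ y, 0 ≤ F y) {p : ℕ} (hp : 0 < p) (hF : ∀ y, F (y % p) = F y)
    {Y : ℕ} (hY : p ≤ Y) : (p : ℝ) * ∑ y ∈ range Y, F y ≤ 2 * Y * ∑ y ∈ range p, F y := by
  have h1 : ∑ y ∈ range Y, F y ≤ ∑ y ∈ range ((Y / p + 1) * p), F y := by
    refine sum_le_sum_of_subset_of_nonneg (range_subset_range.2 ?_) fun y _ _ => h0 y
    have := Nat.div_add_mod Y p
    have h2 := Nat.mod_lt Y hp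
    have h3 : (Y / p + 1) * p = p * (Y / p) + p := by ring
    omega
  rw [per_range hF] at h1
  have h2 : (p : ℝ) * ((Y / p + 1 : ℕ) : ℝ) ≤ 2 * Y := by
    have : p * (Y / p + 1) ≤ 2 * Y := by
      have := Nat.mul_div_le Y p
      have h3 : p * (Y / p + 1) = p * (Y / p) + p := by ring
      omega
    exact_mod_cast this
  have h3 : 0 ≤ ∑ y ∈ range p, F y := sum_nonneg fun y _ => h0 y
  have h4 : (0 : ℝ) < p := by exact_mod_cast hp
  calc (p : ℝ) * ∑ y ∈ range Y, F y ≤ p * (((Y / p + 1 : ℕ) : ℝ) * ∑ y ∈ range p, F y) :=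
        mul_le_mul_of_nonneg_left h1 h4.le
    _ = (p * ((Y / p + 1 : ℕ) : ℝ)) * ∑ y ∈ range p, F y := by ring
    _ ≤ 2 * Y * ∑ y ∈ range p, F y := mul_le_mul_of_nonneg_right h2 h3

/-- a weight depending on the residue class -/
theorem class_sum {h : ℕ → ℝ} {G : ℕ → ℝ} {q : ℕ} (hq : 0 < q) (hG : ∀ y, G (y % q) = G y) (Y : ℕ) :
    ∑ y ∈ range Y, G y * h y = ∑ r ∈ range q, G r * ∑ y ∈ range Y, if y % q = r then h y else 0 := by
  have h1 : ∀ y ∈ range Y, G y * h y = ∑ r ∈ range q, G r * (if y % q = r then h y else 0) := by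
    intro y _
    rw [sum_eq_single (y % q)]
    · rw [if_pos rfl, hG]
    · intro r _ hr
      rw [if_neg (Ne.symm hr), mul_zero]
    · intro hn
      exact absurd (mem_range.2 (Nat.mod_lt _ hq)) hn
  rw [sum_congr rfl h1, sum_comm]
  exact sum_congr rfl fun r _ => (mul_sum _ _ _).symm

theorem D_mod (τ : ℝ) [TiltR τ] (n y : ℕ) : D τ n ((y % 3 ^ n : ℕ) : ℤ) = D τ n y := by
  have h1 := D_per τ n ((y % 3 ^ n : ℕ) : ℤ) ((y / 3 ^ n : ℕ) : ℤ)
  rw [← h1]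
  congr 1
  have := Nat.mod_add_div y (3 ^ n)
  exact_mod_cast this

theorem V_mod (k i y : ℕ) : V k i (y % 3 ^ i) = V k i y := by
  unfold V
  rw [W_mod]

/-- the length of the sum of the images -/
def YY (k i x : ℕ) : ℕ := (x * 3 ^ i + 2 ^ k - 1) / 2 ^ k

theorem YY_a (k i x : ℕ) : x * 3 ^ i ≤ YY k i x * 2 ^ k := by
  have h2k : 0 < 2 ^ k := by positivity
  have h3 := Nat.div_add_mod (x * 3 ^ i + 2 ^ k - 1) (2 ^ k)
  have h4 := Nat.mod_lt (x * 3 ^ i + 2 ^ k - 1) h2k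
  have h5 : YY k i x * 2 ^ k = 2 ^ k * ((x * 3 ^ i + 2 ^ k - 1) / 2 ^ k) := by unfold YY; ring
  omega

theorem YY_b (k i x : ℕ) : ∀ y, y < YY k i x → y * 2 ^ k < x * 3 ^ i := by
  intro y hy
  have h2k : 0 < 2 ^ k := by positivity
  have h3 := Nat.mul_div_le (x * 3 ^ i + 2 ^ k - 1) (2 ^ k)
  have h4 : 2 ^ k * (y + 1) ≤ 2 ^ k * ((x * 3 ^ i + 2 ^ k - 1) / 2 ^ k) := Nat.mul_le_mul_left _ hy
  have h5 : 2 ^ k * (y + 1) = y * 2 ^ k + 2 ^ k := by ring
  omega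

theorem YY_c {k x : ℕ} (i : ℕ) (hx : 2 ^ k ≤ x) : 3 ^ i ≤ YY k i x := by
  have h2k : 0 < 2 ^ k := by positivity
  have h3 : 2 ^ k * 3 ^ i ≤ x * 3 ^ i := Nat.mul_le_mul_right _ hx
  have h4 : 2 ^ k * 3 ^ i ≤ 2 ^ k * YY k i x := by
    calc 2 ^ k * 3 ^ i ≤ x * 3 ^ i := h3
      _ ≤ YY k i x * 2 ^ k := YY_a k i x
      _ = 2 ^ k * YY k i x := by ring
  exact Nat.le_of_mul_le_mul_left h4 h2k

theorem YY_d {k x : ℕ} (i : ℕ) (hx : 2 ^ k ≤ x) : YY k i x ≤ 4 * 3 ^ i * (x / 2 ^ k) := by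
  have h2k : 0 < 2 ^ k := by positivity
  have h3i : 1 ≤ 3 ^ i := Nat.one_le_pow _ _ (by norm_num)
  have h3 := Nat.mul_div_le (x * 3 ^ i + 2 ^ k - 1) (2 ^ k)
  change 2 ^ k * YY k i x ≤ _ at h3
  have h4 : 2 ^ k ≤ x * 3 ^ i := hx.trans (Nat.le_mul_of_pos_right _ h3i)
  have h5 := Nat.div_add_mod x (2 ^ k)
  have h6 := Nat.mod_lt x h2k
  have h7 : 1 ≤ x / 2 ^ k := (Nat.one_le_div_iff h2k).2 hx
  have h8 : x ≤ 2 ^ k * (2 * (x / 2 ^ k)) := by
    have h9 : 2 ^ k * 1 ≤ 2 ^ k * (x / 2 ^ k) := Nat.mul_le_mul_left _ h7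
    have h10 : 2 ^ k * (2 * (x / 2 ^ k)) = 2 ^ k * (x / 2 ^ k) + 2 ^ k * (x / 2 ^ k) := by ring
    omega
  have h9 : 2 ^ k * YY k i x ≤ 2 ^ k * (4 * 3 ^ i * (x / 2 ^ k)) := by
    calc 2 ^ k * YY k i x ≤ 2 * (x * 3 ^ i) := by omega
      _ ≤ 2 * ((2 ^ k * (2 * (x / 2 ^ k))) * 3 ^ i) :=
          Nat.mul_le_mul_left _ (Nat.mul_le_mul_right _ h8)
      _ = 2 ^ k * (4 * 3 ^ i * (x / 2 ^ k)) := by ring
  exact Nat.le_of_mul_le_mul_left h9 h2k

/-- the analytic part of the transfer principle -/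
theorem core {B ε : ℝ} (hB0 : 0 ≤ B) (hε : 0 < ε) (n : ℕ) : ∃ i₀ : ℕ, ∀ k i x Y₁ : ℕ, i ≤ k →
    n + i₀ + Y₁ ≤ i → 2 ^ k ≤ x → ∀ (w : ℕ → ℕ) (G : ℕ → ℝ), (∀ y, w (y % 3 ^ i) = w y) →
    (∀ y, G (y % 3 ^ n) = G y) → (∀ y, 0 ≤ G y) → (∀ y, G y ≤ 3 ^ n) →
    ∑ y ∈ range (3 ^ i), |3 ^ i * (w y : ℝ) / (k.choose i : ℝ) - G y| ≤ ε / (32 * (B + 1)) * 3 ^ i →
    ∀ h : ℕ → ℝ, (∀ y, |h y| ≤ B) →
    (∀ Y, Y₁ ≤ Y → 1 ≤ Y → ∀ r ∈ range (3 ^ n),
      |∑ y ∈ range Y, if y % 3 ^ n = r then h y else 0| ≤ ε / (16 * 9 ^ n) * Y) →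
    ∀ (s : ℝ) (M a a' : ℕ), x / 2 ^ k * k.choose i ≤ M →
    |s - ∑ y ∈ range (YY k i x), (w y : ℝ) * h y| ≤
      B * (∑ y ∈ Ico a (a + 2 ^ i), (w y : ℝ) + ∑ y ∈ Ico a' (a' + 2 ^ i), (w y : ℝ)) →
    |s| ≤ ε * M := by
  set ε₁ : ℝ := ε / (32 * (B + 1)) with hε₁
  have hε₁0 : 0 < ε₁ := by positivity
  set ε₂ : ℝ := ε / (16 * 9 ^ n) with hε₂
  have hε₂0 : 0 < ε₂ := by positivity
  have hw : ∃ i₀ : ℕ, ∀ i, i₀ ≤ i → (2 * B * 3 ^ n) * (2 / 3 : ℝ) ^ i ≤ ε / 16 := by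
    have h1 : Tendsto (fun i : ℕ => (2 * B * 3 ^ n) * (2 / 3 : ℝ) ^ i) atTop (𝓝 0) := by
      have := (tendsto_pow_atTop_nhds_zero_of_lt_one (show (0 : ℝ) ≤ 2 / 3 by norm_num)
        (by norm_num)).const_mul (2 * B * 3 ^ n)
      rwa [mul_zero] at this
    obtain ⟨i₀, hi₀⟩ := eventually_atTop.1 ((tendsto_order.1 h1).2 (ε / 16) (by positivity))
    exact ⟨i₀, fun i hi => (hi₀ i hi).le⟩
  obtain ⟨i₀, hi₀⟩ := hw
  refine ⟨i₀, fun k i x Y₁ hik hi1 hx w G hwp hGp hG0 hGle hV h hB hY₁ s M a a' hM hc => ?_⟩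
  have hYa := YY_a k i x
  have hYc := YY_c i hx
  have hYd := YY_d i hx
  set Y : ℕ := YY k i x with hY
  have h3i : 1 ≤ 3 ^ i := Nat.one_le_pow _ _ (by norm_num)
  have hYpos : 1 ≤ Y := h3i.trans hYc
  have hYR : (0 : ℝ) < Y := by exact_mod_cast hYpos
  have hYi : Y₁ ≤ Y := by
    have h3 : i < 3 ^ i := Nat.lt_pow_self (by norm_num)
    omega
  set c : ℝ := (k.choose i : ℝ) / 3 ^ i with hcdef
  have hch : (0 : ℝ) < (k.choose i : ℝ) := by exact_mod_cast Nat.choose_pos hik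
  have hc0 : 0 < c := by positivity
  set v : ℕ → ℝ := fun y => 3 ^ i * (w y : ℝ) / (k.choose i : ℝ) with hv
  have hWV : ∀ y, (w y : ℝ) = c * v y := by
    intro y
    rw [hcdef, hv]
    field_simp
  set F : ℕ → ℝ := fun y => |v y - G y| with hF
  have hF0 : ∀ y, 0 ≤ F y := fun y => abs_nonneg _
  have hni : n ≤ i := by omega
  have hDmod : ∀ y : ℕ, G (y % 3 ^ i) = G y := by
    intro y
    rw [← hGp (y % 3 ^ i), ← hGp y]
    congr 1
    exact Nat.mod_mod_of_dvd y (pow_dvd_pow 3 hni)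
  have hFp : ∀ y, F (y % 3 ^ i) = F y := by
    intro y
    rw [hF, hv]
    dsimp only
    rw [hwp, hDmod]
  have hFs : ∑ y ∈ range (3 ^ i), F y ≤ ε₁ * 3 ^ i := hV
  have h3pos : (0 : ℝ) < 3 ^ i := by positivity
  have hVle : ∀ y, v y ≤ F y + 3 ^ n := by
    intro y
    have h4 := le_abs_self (v y - G y)
    have h5 := hGle y
    rw [hF]
    dsimp only
    linarith
  have h2le3 : 2 ^ i ≤ 3 ^ i := Nat.pow_le_pow_left (by norm_num) i
  have hwin : ∀ a : ℕ, ∑ y ∈ Ico a (a + 2 ^ i), (w y : ℝ) ≤ c * (ε₁ * 3 ^ i + 3 ^ n * 2 ^ i) := by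
    intro a
    have h4 : ∑ y ∈ Ico a (a + 2 ^ i), (w y : ℝ) = c * ∑ y ∈ Ico a (a + 2 ^ i), v y := by
      rw [mul_sum]
      exact sum_congr rfl fun y _ => hWV y
    rw [h4]
    refine mul_le_mul_of_nonneg_left ?_ hc0.le
    refine (sum_le_sum fun y _ => hVle y).trans ?_
    rw [sum_add_distrib, sum_const, Nat.card_Ico, nsmul_eq_mul, Nat.add_sub_cancel_left]
    have h5 := per_window hF0 (p := 3 ^ i) (by positivity) hFp (a := a) h2le3
    push_cast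
    linarith
  -- the main sum
  have hmain : |∑ y ∈ range Y, (w y : ℝ) * h y| ≤ c * (2 * B * ε₁ * Y + ε / 16 * Y) := by
    have h4 : ∑ y ∈ range Y, (w y : ℝ) * h y = c * (∑ y ∈ range Y, (v y - G y) * h y +
        ∑ y ∈ range Y, G y * h y) := by
      rw [← sum_add_distrib, mul_sum]
      refine sum_congr rfl fun y _ => ?_
      rw [hWV]
      ring
    rw [h4, abs_mul, abs_of_pos hc0]
    refine mul_le_mul_of_nonneg_left ((abs_add_le _ _).trans (add_le_add ?_ ?_)) hc0.le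
    · refine (abs_sum_le_sum_abs _ _).trans ?_
      have h5 : ∑ y ∈ range Y, |(v y - G y) * h y| ≤ B * ∑ y ∈ range Y, F y := by
        rw [mul_sum]
        refine sum_le_sum fun y _ => ?_
        rw [abs_mul, mul_comm]
        exact mul_le_mul_of_nonneg_right (hB y) (abs_nonneg _)
      refine h5.trans ?_
      have h6 := per_range_le hF0 (p := 3 ^ i) (by positivity) hFp hYc
      push_cast at h6
      have h7 : (3 : ℝ) ^ i * ∑ y ∈ range Y, F y ≤ 3 ^ i * (2 * Y * ε₁) := by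
        refine h6.trans ?_
        calc 2 * (Y : ℝ) * ∑ y ∈ range (3 ^ i), F y ≤ 2 * Y * (ε₁ * 3 ^ i) :=
              mul_le_mul_of_nonneg_left hFs (by positivity)
          _ = 3 ^ i * (2 * Y * ε₁) := by ring
      have h8 := le_of_mul_le_mul_left h7 h3pos
      calc B * ∑ y ∈ range Y, F y ≤ B * (2 * Y * ε₁) := mul_le_mul_of_nonneg_left h8 hB0
        _ = 2 * B * ε₁ * Y := by ring
    · rw [class_sum (G := G) (q := 3 ^ n) (by positivity) hGp Y]
      refine (abs_sum_le_sum_abs _ _).trans ?_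
      have h5 : ∀ r ∈ range (3 ^ n), |G r * ∑ y ∈ range Y, (if y % 3 ^ n = r then h y else 0)| ≤
          3 ^ n * (ε₂ * Y) := by
        intro r hr
        rw [abs_mul, abs_of_nonneg (hG0 r)]
        exact mul_le_mul (hGle r) (hY₁ Y hYi hYpos r hr) (abs_nonneg _) (by positivity)
      refine (sum_le_sum h5).trans (le_of_eq ?_)
      rw [sum_const, card_range, nsmul_eq_mul, hε₂]
      push_cast
      have h9 : (9 : ℝ) ^ n = 3 ^ n * 3 ^ n := by rw [← mul_pow]; norm_num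
      rw [h9]
      field_simp
  -- conclusion
  have hcY : c * Y ≤ 4 * M := by
    have h5 : (Y : ℝ) ≤ 4 * 3 ^ i * ((x / 2 ^ k : ℕ) : ℝ) := by exact_mod_cast hYd
    have h6 : ((x / 2 ^ k : ℕ) : ℝ) * (k.choose i : ℝ) ≤ M := by exact_mod_cast hM
    calc c * Y ≤ c * (4 * 3 ^ i * ((x / 2 ^ k : ℕ) : ℝ)) := mul_le_mul_of_nonneg_left h5 hc0.le
      _ = 4 * (((x / 2 ^ k : ℕ) : ℝ) * (k.choose i : ℝ)) := by
          rw [hcdef]
          field_simp
      _ ≤ 4 * M := by linarith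
  have hwindow : 2 * B * (ε₁ * 3 ^ i + 3 ^ n * 2 ^ i) ≤ (2 * B * ε₁ + ε / 16) * Y := by
    have h4 := hi₀ i (by omega)
    have h5 : (2 * B * 3 ^ n) * (2 / 3 : ℝ) ^ i * 3 ^ i = 2 * B * (3 ^ n * 2 ^ i) := by
      rw [div_pow]
      field_simp
    have h6 : 2 * B * (3 ^ n * 2 ^ i) ≤ ε / 16 * 3 ^ i := by
      rw [← h5]
      exact mul_le_mul_of_nonneg_right h4 h3pos.le
    have h7 : (3 : ℝ) ^ i ≤ Y := by exact_mod_cast hYc
    have h8 : 0 ≤ 2 * B * ε₁ + ε / 16 := by positivity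
    have h9 := mul_le_mul_of_nonneg_left h7 h8
    linarith
  have hBε : 4 * B * ε₁ ≤ ε / 8 := by
    rw [hε₁, ← mul_div_assoc, div_le_div_iff₀ (by positivity) (by norm_num)]
    nlinarith
  have htot : |s| ≤ c * Y * (ε / 4) := by
    have h4 : s = (s - ∑ y ∈ range Y, (w y : ℝ) * h y) + ∑ y ∈ range Y, (w y : ℝ) * h y := by ring
    rw [h4]
    refine (abs_add_le _ _).trans ?_
    have h5 : B * (∑ y ∈ Ico a (a + 2 ^ i), (w y : ℝ) + ∑ y ∈ Ico a' (a' + 2 ^ i), (w y : ℝ)) ≤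
        c * ((2 * B * ε₁ + ε / 16) * Y) := by
      have h6 := hwin a
      have h6' := hwin a'
      calc B * (∑ y ∈ Ico a (a + 2 ^ i), (w y : ℝ) + ∑ y ∈ Ico a' (a' + 2 ^ i), (w y : ℝ))
          ≤ B * (c * (ε₁ * 3 ^ i + 3 ^ n * 2 ^ i) + c * (ε₁ * 3 ^ i + 3 ^ n * 2 ^ i)) :=
            mul_le_mul_of_nonneg_left (add_le_add h6 h6') hB0
        _ = c * (2 * B * (ε₁ * 3 ^ i + 3 ^ n * 2 ^ i)) := by ring
        _ ≤ c * ((2 * B * ε₁ + ε / 16) * Y) := mul_le_mul_of_nonneg_left hwindow hc0.le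
    have h6 : c * ((2 * B * ε₁ + ε / 16) * Y) + c * (2 * B * ε₁ * Y + ε / 16 * Y) =
        c * Y * (4 * B * ε₁ + ε / 8) := by ring
    have h7 : c * Y * (4 * B * ε₁ + ε / 8) ≤ c * Y * (ε / 4) :=
      mul_le_mul_of_nonneg_left (by linarith) (by positivity)
    linarith
  refine htot.trans ?_
  calc c * Y * (ε / 4) ≤ 4 * M * (ε / 4) := mul_le_mul_of_nonneg_right hcY (by positivity)
    _ = ε * M := by ring

/-- the hypothesis on the test functions: small sums over the classes modulo `3 ^ n` -/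
def Bal (n : ℕ) (ε₂ : ℝ) (Y₁ : ℕ) (h : ℕ → ℝ) : Prop := ∀ Y, Y₁ ≤ Y → 1 ≤ Y → ∀ r ∈ range (3 ^ n),
      |∑ y ∈ range Y, if y % 3 ^ n = r then h y else 0| ≤ ε₂ * Y

/-- **the transfer principle**, positive integers -/
theorem transfer {B : ℝ} (hB0 : 0 ≤ B) {ε : ℝ} (hε : 0 < ε) : ∃ (n : ℕ) (ε₂ : ℝ), 0 < ε₂ ∧
    ∀ Y₁ : ℕ, ∃ K : ℕ, ∀ h : ℕ → ℝ, (∀ y, |h y| ≤ B) → Bal n ε₂ Y₁ h →
    ∀ k i x : ℕ, K ≤ k → 6 * k ≤ 25 * i → 15 * i ≤ 8 * k → 2 ^ k ≤ x →
      |∑ n ∈ E k i x, h (T^[k] n)| ≤ ε * (E k i x).card := by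
  obtain ⟨n, hn⟩ := V_lim (show 0 < ε / (32 * (B + 1)) by positivity)
  obtain ⟨K₁, hK₁⟩ := hn n le_rfl
  obtain ⟨i₀, hi₀⟩ := core hB0 hε n
  refine ⟨n, ε / (16 * 9 ^ n), by positivity, fun Y₁ => ⟨K₁ + 25 * (n + i₀ + Y₁) + 25,
    fun h hB hh k i x hk h1 h2 hx => ?_⟩⟩
  have hik : i ≤ k := by omega
  have hT : TiltR ((i : ℝ) / k) := mkR (by omega) h1 h2
  have hV := hK₁ k i (by omega) h1 h2
  have hc := compare hB (YY_a k i x) (YY_b k i x)
  have h0 : ∑ y ∈ range (2 ^ i), (W k i y : ℝ) = ∑ y ∈ Ico 0 (0 + 2 ^ i), (W k i y : ℝ) := by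
    rw [zero_add, ← range_eq_Ico]
  rw [h0] at hc
  exact hi₀ k i x Y₁ hik (by omega) hx (W k i) (fun y => D ((i : ℝ) / k) n y) (W_mod k i)
    (fun y => D_mod _ n y) (fun y => D_nonneg _ n y) (fun y => D_le _ n y) hV h hB hh _ _ 0 _
    (card_E_ge hik x) hc

/-! ### the negative integers -/

/-- the map conjugate to the `3x+1` map on the negative integers -/
def Tn (n : ℕ) : ℕ := if n % 2 = 0 then n / 2 else (3 * n - 1) / 2

/-- the number of odd terms -/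
def oddsn : ℕ → ℕ → ℕ
  | 0, _ => 0
  | j + 1, r => r % 2 + oddsn j (Tn r)

theorem neg_add (k : ℕ) : ∀ m n t : ℕ, m + n = 2 ^ k * t → 1 ≤ n →
    T^[k] m + Tn^[k] n = 3 ^ odds k m * t ∧ oddsn k n = odds k m ∧ 1 ≤ Tn^[k] n := by
  induction k with
  | zero => intro m n t h hn; simp [odds, oddsn] at *; omega
  | succ k ih =>
    intro m n t h hn
    have hp : 2 ^ (k + 1) * t = 2 * (2 ^ k * t) := by rw [pow_succ]; ring
    rcases Nat.mod_two_eq_zero_or_one m with hm | hm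
    · have hn2 : n % 2 = 0 := by omega
      have e1 : T m = m / 2 := by unfold T; rw [if_pos hm]
      have e2 : Tn n = n / 2 := by unfold Tn; rw [if_pos hn2]
      obtain ⟨h1, h2, h3⟩ := ih (m / 2) (n / 2) t (by omega) (by omega)
      rw [Function.iterate_succ_apply, Function.iterate_succ_apply, odds, oddsn, e1, e2, hm, hn2]
      refine ⟨by rw [h1, zero_add], by rw [h2], h3⟩
    · have hn2 : n % 2 = 1 := by omega
      have e1 : T m = (3 * m + 1) / 2 := by unfold T; rw [if_neg (by omega)]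
      have e2 : Tn n = (3 * n - 1) / 2 := by unfold Tn; rw [if_neg (by omega)]
      have hp3 : 2 ^ k * (3 * t) = 3 * (2 ^ k * t) := by ring
      obtain ⟨h1, h2, h3⟩ := ih ((3 * m + 1) / 2) ((3 * n - 1) / 2) (3 * t) (by omega) (by omega)
      rw [Function.iterate_succ_apply, Function.iterate_succ_apply, odds, oddsn, e1, e2, hm, hn2]
      refine ⟨?_, by rw [h2], h3⟩
      rw [h1, pow_add, pow_one]
      ring

/-- the numbers `1 ≤ n < x` such that `- n` has `i` odd terms -/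
def En (k i x : ℕ) : Finset ℕ := (range x).filter fun n => 1 ≤ n ∧ oddsn k n = i

theorem mem_En {k i x n : ℕ} : n ∈ En k i x ↔ n < x ∧ 1 ≤ n ∧ oddsn k n = i := by
  unfold En
  rw [mem_filter, mem_range]

/-- the complementary residue -/
def cr (k n : ℕ) : ℕ := (2 ^ k - n % 2 ^ k) % 2 ^ k

/-- the quotient -/
def cq (k n : ℕ) : ℕ := (cr k n + n) / 2 ^ k

theorem cr_lt (k n : ℕ) : cr k n < 2 ^ k := Nat.mod_lt _ (by positivity)

theorem cr_add (k n : ℕ) : cr k n + n = 2 ^ k * cq k n := by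
  have hp : 0 < 2 ^ k := by positivity
  have h1 : 2 ^ k ∣ cr k n + n := by
    unfold cr
    have h2 := Nat.mod_add_div n (2 ^ k)
    have h3 := Nat.mod_lt n hp
    rcases Nat.eq_zero_or_pos (n % 2 ^ k) with h4 | h4
    · rw [h4, Nat.sub_zero, Nat.mod_self, zero_add]
      exact Nat.dvd_of_mod_eq_zero h4
    · rw [Nat.mod_eq_of_lt (by omega)]
      refine ⟨1 + n / 2 ^ k, ?_⟩
      have h5 : 2 ^ k * (1 + n / 2 ^ k) = 2 ^ k + 2 ^ k * (n / 2 ^ k) := by ring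
      omega
  unfold cq
  rw [Nat.mul_div_cancel' h1]

theorem cr_facts (k : ℕ) {n : ℕ} (hn : 1 ≤ n) : T^[k] (cr k n) + Tn^[k] n = 3 ^ odds k (cr k n) * cq k n ∧
    oddsn k n = odds k (cr k n) ∧ 1 ≤ Tn^[k] n := neg_add k _ _ _ (cr_add k n) hn

theorem card_En_ge {k i : ℕ} (hi : i ≤ k) {x : ℕ} : x / 2 ^ k * k.choose i ≤ (En k i (x + 1)).card := by
  rw [← card_E0 hi]
  have h1 : ((range (x / 2 ^ k)) ×ˢ E0 k i).card = x / 2 ^ k * (E0 k i).card := by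
    rw [card_product, card_range]
  rw [← h1]
  refine card_le_card_of_injOn (fun p => 2 ^ k * (p.1 + 1) - p.2) ?_ ?_
  · rintro ⟨t, m⟩ h
    rw [Finset.mem_coe, mem_product, mem_range, mem_E0] at h
    obtain ⟨h1, h2, h3⟩ := h
    rw [Finset.mem_coe, mem_En]
    dsimp only at h1 h2 h3 ⊢
    have h4 : 2 ^ k * (t + 1) ≤ x := (Nat.mul_le_mul_left _ h1).trans (Nat.mul_div_le _ _)
    have h5 : 2 ^ k ≤ 2 ^ k * (t + 1) := Nat.le_mul_of_pos_right _ (by omega)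
    have h6 := neg_add k m (2 ^ k * (t + 1) - m) (t + 1) (by omega) (by omega)
    exact ⟨by omega, by omega, by rw [h6.2.1, h3]⟩
  · rintro ⟨t, m⟩ h ⟨t', m'⟩ h' he
    rw [Finset.mem_coe, mem_product, mem_range, mem_E0] at h h'
    dsimp only at h h' he
    have h5 : 2 ^ k ≤ 2 ^ k * (t + 1) := Nat.le_mul_of_pos_right _ (by omega)
    have h5' : 2 ^ k ≤ 2 ^ k * (t' + 1) := Nat.le_mul_of_pos_right _ (by omega)
    have h6 : m' + 2 ^ k * (t + 1) = m + 2 ^ k * (t' + 1) := by omega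
    have h7 : m = m' := by
      have : (m' + 2 ^ k * (t + 1)) % 2 ^ k = (m + 2 ^ k * (t' + 1)) % 2 ^ k := by rw [h6]
      rw [Nat.add_mul_mod_self_left, Nat.add_mul_mod_self_left, Nat.mod_eq_of_lt h.2.1,
        Nat.mod_eq_of_lt h'.2.1] at this
      exact this.symm
    subst h7
    have h8 : 2 ^ k * (t + 1) = 2 ^ k * (t' + 1) := by omega
    have h9 := Nat.eq_of_mul_eq_mul_left (by positivity) h8
    have : t = t' := by omega
    rw [this]

/-- the counts for the negative integers -/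
def Wn' (k i y : ℕ) : ℕ := ((E0 k i).filter fun m => (T^[k] m + y) % 3 ^ i = 0).card

theorem Wn_mod (k i y : ℕ) : Wn' k i (y % 3 ^ i) = Wn' k i y := by
  unfold Wn'
  congr 1
  apply filter_congr
  intro m _
  rw [Nat.add_mod, Nat.mod_mod, ← Nat.add_mod]

theorem Wn_eq (k i y : ℕ) : Wn' k i y = W k i ((3 ^ i - 1) * y) := by
  unfold Wn' W
  congr 1
  apply filter_congr
  intro m _
  have hp : 1 ≤ 3 ^ i := Nat.one_le_pow _ _ (by norm_num)
  constructor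
  · intro h
    have h1 : (T^[k] m + y) + (3 ^ i - 1) * y ≡ 0 + (3 ^ i - 1) * y [MOD 3 ^ i] :=
      Nat.ModEq.add_right _ (by rw [Nat.ModEq, h, Nat.zero_mod])
    have e : (T^[k] m + y) + (3 ^ i - 1) * y = T^[k] m + 3 ^ i * y := by
      have : 3 ^ i * y = (3 ^ i - 1) * y + y := by
        conv_lhs => rw [← Nat.sub_add_cancel hp]
        ring
      omega
    rw [e, zero_add] at h1
    have h2 : T^[k] m + 3 ^ i * y ≡ T^[k] m [MOD 3 ^ i] := by
      rw [Nat.ModEq, Nat.add_mul_mod_self_left]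
    exact h2.symm.trans h1
  · intro h
    have h1 : T^[k] m + y ≡ (3 ^ i - 1) * y + y [MOD 3 ^ i] := Nat.ModEq.add_right _ h
    have e : (3 ^ i - 1) * y + y = 3 ^ i * y := by
      have : 3 ^ i * y = (3 ^ i - 1) * y + y := by
        conv_lhs => rw [← Nat.sub_add_cancel hp]
        ring
      omega
    rw [e] at h1
    have h2 : 3 ^ i * y ≡ 0 [MOD 3 ^ i] := by
      rw [Nat.ModEq, Nat.mul_mod_right, Nat.zero_mod]
    have h3 := h1.trans h2
    rw [Nat.ModEq, Nat.zero_mod] at h3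
    exact h3

/-- comparison with the sum over the images, negative integers -/
theorem compare_neg {B : ℝ} {h : ℕ → ℝ} (hB : ∀ y, |h y| ≤ B) {k i x Y : ℕ}
    (h1 : x * 3 ^ i ≤ Y * 2 ^ k) (h2 : ∀ y, y < Y → y * 2 ^ k < x * 3 ^ i) :
    |∑ n ∈ En k i x, h (Tn^[k] n) - ∑ y ∈ range Y, (Wn' k i y : ℝ) * h y| ≤
      B * (∑ y ∈ Ico 0 (0 + 2 ^ i), (Wn' k i y : ℝ) +
        ∑ y ∈ Ico (Y - 2 ^ i) (Y - 2 ^ i + 2 ^ i), (Wn' k i y : ℝ)) := by
  classical
  have hB0 : 0 ≤ B := (abs_nonneg _).trans (hB 0)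
  set Z : ℕ := Y + 2 ^ i with hZ
  set P : Finset (ℕ × ℕ) := (E0 k i ×ˢ range Z).filter
    (fun p => (T^[k] p.1 + p.2) % 3 ^ i = 0) with hP
  have hmemP : ∀ p : ℕ × ℕ, p ∈ P ↔ (p.1 ∈ E0 k i ∧ p.2 < Z) ∧ (T^[k] p.1 + p.2) % 3 ^ i = 0 := by
    intro p
    rw [hP, mem_filter, mem_product, mem_range]
  set A : Finset (ℕ × ℕ) := (En k i x).image (fun n => (cr k n, Tn^[k] n)) with hA
  have hsum : ∀ (s : Finset ℕ) (F : ℕ → ℝ), s ⊆ range Z →
      ∑ p ∈ P.filter (fun p => p.2 ∈ s), F p.2 = ∑ y ∈ s, (Wn' k i y : ℝ) * F y := by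
    intro s F hs
    have e1 : P.filter (fun p => p.2 ∈ s) =
        (E0 k i ×ˢ s).filter (fun p => (T^[k] p.1 + p.2) % 3 ^ i = 0) := by
      ext p
      rw [mem_filter, hmemP, mem_filter, mem_product]
      constructor
      · rintro ⟨⟨⟨a, b⟩, c⟩, d⟩
        exact ⟨⟨a, d⟩, c⟩
      · rintro ⟨⟨a, d⟩, c⟩
        exact ⟨⟨⟨a, mem_range.1 (hs d)⟩, c⟩, d⟩
    rw [e1, sum_filter, sum_product_right]
    refine sum_congr rfl fun y _ => ?_
    dsimp only
    rw [← sum_filter, sum_const, nsmul_eq_mul]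
    rfl
  -- facts on the images
  have hfact : ∀ n ∈ En k i x, cr k n ∈ E0 k i ∧ T^[k] (cr k n) + Tn^[k] n = 3 ^ i * cq k n ∧
      1 ≤ Tn^[k] n ∧ Tn^[k] n < Y := by
    intro n hn
    obtain ⟨h3, h4, h5⟩ := mem_En.1 hn
    obtain ⟨f1, f2, f3⟩ := cr_facts k h4
    rw [← f2, h5] at f1
    refine ⟨mem_E0.2 ⟨cr_lt k n, by rw [← f2, h5]⟩, f1, f3, ?_⟩
    have g1 := T_iter_ge k (cr k n)
    rw [← f2, h5] at g1
    have g2 := cr_add k n
    by_contra hcon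
    rw [not_lt] at hcon
    -- `2^k y ≤ 3^i n < 3^i x ≤ Y 2^k`
    have g3 : 2 ^ k * Tn^[k] n + 2 ^ k * T^[k] (cr k n) = 3 ^ i * (cr k n + n) := by
      rw [g2, ← mul_add, add_comm (Tn^[k] n), f1]
      ring
    have g4 : 3 ^ i * (cr k n + n) = 3 ^ i * cr k n + 3 ^ i * n := by ring
    have g5 : 3 ^ i * (n + 1) ≤ 3 ^ i * x := Nat.mul_le_mul_left _ h3
    have g6 : 3 ^ i * (n + 1) = 3 ^ i * n + 3 ^ i := by ring
    have g7 : 2 ^ k * Y ≤ 2 ^ k * Tn^[k] n := Nat.mul_le_mul_left _ hcon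
    have g8 : x * 3 ^ i = 3 ^ i * x := by ring
    have g9 : Y * 2 ^ k = 2 ^ k * Y := by ring
    have g10 : 0 < 3 ^ i := by positivity
    omega
  have hinj : Set.InjOn (fun n => (cr k n, Tn^[k] n)) (En k i x : Set ℕ) := by
    intro n hn n' hn' he
    rw [Finset.mem_coe] at hn hn'
    have e1 : cr k n = cr k n' := congrArg Prod.fst he
    have e2 : Tn^[k] n = Tn^[k] n' := congrArg Prod.snd he
    have f1 := (hfact n hn).2.1
    have f1' := (hfact n' hn').2.1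
    rw [e1, e2, f1'] at f1
    have f2 := Nat.eq_of_mul_eq_mul_left (by positivity) f1
    have f3 := cr_add k n
    have f4 := cr_add k n'
    rw [f2, ← f3, e1] at f4
    omega
  have hAsum : ∑ n ∈ En k i x, h (Tn^[k] n) = ∑ p ∈ A, h p.2 := by
    rw [hA, sum_image hinj]
  have hAP : A ⊆ P := by
    intro p hp
    rw [hA, mem_image] at hp
    obtain ⟨n, hn, rfl⟩ := hp
    obtain ⟨f1, f2, f3, f4⟩ := hfact n hn
    rw [hmemP]
    refine ⟨⟨f1, lt_of_lt_of_le f4 (Nat.le_add_right _ _)⟩, ?_⟩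
    show (T^[k] (cr k n) + Tn^[k] n) % 3 ^ i = 0
    rw [f2, Nat.mul_mod_right]
  set C : Finset (ℕ × ℕ) := P.filter (fun p => p.2 ∈ range Y) with hC
  have hCsum : ∑ y ∈ range Y, (Wn' k i y : ℝ) * h y = ∑ p ∈ C, h p.2 := by
    rw [hC, hsum (range Y) h (range_subset_range.2 (Nat.le_add_right _ _))]
  have hAC : A ⊆ C := by
    intro p hp
    rw [hC, mem_filter]
    refine ⟨hAP hp, ?_⟩
    rw [hA, mem_image] at hp
    obtain ⟨n, hn, rfl⟩ := hp
    exact mem_range.2 (hfact n hn).2.2.2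
  rw [hAsum, hCsum, ← sum_sdiff hAC, sub_add_cancel_right, abs_neg]
  have hcard2 : ((C \ A).card : ℝ) ≤ ∑ y ∈ Ico 0 (0 + 2 ^ i), (Wn' k i y : ℝ) +
        ∑ y ∈ Ico (Y - 2 ^ i) (Y - 2 ^ i + 2 ^ i), (Wn' k i y : ℝ) := by
    have h3 : C \ A ⊆ P.filter (fun p => p.2 ∈ Ico 0 (0 + 2 ^ i)) ∪
        P.filter (fun p => p.2 ∈ Ico (Y - 2 ^ i) (Y - 2 ^ i + 2 ^ i)) := by
      intro p hp
      rw [Finset.mem_sdiff, hC, mem_filter] at hp
      obtain ⟨⟨hpP, hpY⟩, hpA⟩ := hp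
      obtain ⟨⟨a1, a2⟩, a3⟩ := (hmemP p).1 hpP
      rw [mem_range] at hpY
      have h2i : 0 < 2 ^ i := by positivity
      by_contra hcon
      have hc1 : ¬ p.2 < 0 + 2 ^ i := fun hh => hcon (Finset.mem_union_left _
        (Finset.mem_filter.2 ⟨hpP, Finset.mem_Ico.2 ⟨Nat.zero_le _, hh⟩⟩))
      have hc2 : ¬ (Y - 2 ^ i ≤ p.2 ∧ p.2 < Y - 2 ^ i + 2 ^ i) := fun hh => hcon
        (Finset.mem_union_right _ (Finset.mem_filter.2 ⟨hpP, Finset.mem_Ico.2 hh⟩))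
      have hy1 : 1 ≤ p.2 := by omega
      have hy3 : p.2 + 2 ^ i < Y := by omega
      obtain ⟨b2, b3⟩ := mem_E0.1 a1
      obtain ⟨t, ht⟩ := Nat.dvd_of_mod_eq_zero a3
      -- the starting point
      have ht1 : 1 ≤ t := by
        rcases Nat.eq_zero_or_pos t with h0 | h0
        · subst h0
          rw [mul_zero] at ht
          omega
        · exact h0
      have h5 : 2 ^ k ≤ 2 ^ k * t := Nat.le_mul_of_pos_right _ ht1
      set n := 2 ^ k * t - p.1 with hn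
      have hn1 : 1 ≤ n := by omega
      obtain ⟨c1, c2, c3⟩ := neg_add k p.1 n t (by omega) hn1
      rw [b3] at c1 c2
      have c4 : Tn^[k] n = p.2 := by omega
      have c5 : cr k n = p.1 := by
        have d1 := cr_add k n
        have d2 := cr_lt k n
        have d3 : cr k n + 2 ^ k * t = p.1 + 2 ^ k * cq k n := by omega
        have d4 : (cr k n + 2 ^ k * t) % 2 ^ k = (p.1 + 2 ^ k * cq k n) % 2 ^ k := by rw [d3]
        rwa [Nat.add_mul_mod_self_left, Nat.add_mul_mod_self_left, Nat.mod_eq_of_lt d2,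
          Nat.mod_eq_of_lt b2] at d4
      apply hpA
      rw [hA, mem_image]
      refine ⟨n, mem_En.2 ⟨?_, hn1, c2⟩, by rw [c4, c5]⟩
      -- `n < x`
      have e1 := T_iter_lt b3
      have e2 := h2 (p.2 + 2 ^ i) hy3
      have e3 : 3 ^ i * (p.1 + n) = 2 ^ k * (T^[k] p.1 + p.2) := by
        have : p.1 + n = 2 ^ k * t := by omega
        rw [this, ht]
        ring
      have e4 : 3 ^ i * (p.1 + n) = 3 ^ i * p.1 + 3 ^ i * n := by ring
      have e5 : 2 ^ k * (T^[k] p.1 + p.2) = 2 ^ k * T^[k] p.1 + 2 ^ k * p.2 := by ring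
      have e6 : (p.2 + 2 ^ i) * 2 ^ k = 2 ^ k * p.2 + 2 ^ k * 2 ^ i := by ring
      have e7 : 3 ^ i * n < 3 ^ i * x := by
        have : x * 3 ^ i = 3 ^ i * x := by ring
        omega
      exact Nat.lt_of_mul_lt_mul_left e7
    have hwinsum : ∀ a : ℕ, a + 2 ^ i ≤ Z → ((P.filter (fun p => p.2 ∈ Ico a (a + 2 ^ i))).card : ℝ) =
        ∑ y ∈ Ico a (a + 2 ^ i), (Wn' k i y : ℝ) := by
      intro a ha
      have h5 := hsum (Ico a (a + 2 ^ i)) (fun _ => 1) (fun y hy => by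
        rw [mem_Ico] at hy
        exact mem_range.2 (by omega))
      simp only [mul_one] at h5
      rw [← h5, sum_const, nsmul_eq_mul, mul_one]
    have h2i : 0 < 2 ^ i := by positivity
    have hw2 : ∑ y ∈ Ico (Y - 2 ^ i) (Y - 2 ^ i + 2 ^ i), (Wn' k i y : ℝ) =
        ((P.filter (fun p => p.2 ∈ Ico (Y - 2 ^ i) (Y - 2 ^ i + 2 ^ i))).card : ℝ) :=
      (hwinsum (Y - 2 ^ i) (by rw [hZ]; omega)).symm
    rw [← hwinsum 0 (by rw [hZ]; omega), hw2]
    exact_mod_cast (card_le_card h3).trans (card_union_le _ _)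
  refine (abs_sum_le_sum_abs _ _).trans ((sum_le_sum fun p _ => hB p.2).trans ?_)
  rw [sum_const, nsmul_eq_mul, mul_comm]
  exact mul_le_mul_of_nonneg_left hcard2 hB0

theorem sum_neg {F : ℤ → ℝ} {i : ℕ} (hF : Per i F) :
    ∑ y ∈ range (3 ^ i), F (-(y : ℤ)) = ∑ y ∈ range (3 ^ i), F (y : ℤ) := by
  have hp : 0 < 3 ^ i := by positivity
  have hval : ∀ y ∈ range (3 ^ i), F (-(y : ℤ)) = F (((3 ^ i - y) % 3 ^ i : ℕ) : ℤ) := by
    intro y hy
    rw [mem_range] at hy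
    rcases Nat.eq_zero_or_pos y with h | h
    · subst h
      rw [Nat.sub_zero, Nat.mod_self]
      simp
    · rw [Nat.mod_eq_of_lt (by omega)]
      have := hF (-(y : ℤ)) 1
      rw [← this]
      congr 1
      push_cast [Nat.cast_sub hy.le]
      ring
  rw [sum_congr rfl hval]
  refine sum_nbij' (fun y => (3 ^ i - y) % 3 ^ i) (fun y => (3 ^ i - y) % 3 ^ i) ?_ ?_ ?_ ?_ ?_
  · intro y _
    exact mem_range.2 (Nat.mod_lt _ hp)
  · intro y _
    exact mem_range.2 (Nat.mod_lt _ hp)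
  · intro y hy
    rw [mem_range] at hy
    rcases Nat.eq_zero_or_pos y with h | h
    · subst h; simp
    · show (3 ^ i - (3 ^ i - y) % 3 ^ i) % 3 ^ i = y
      rw [Nat.mod_eq_of_lt (show 3 ^ i - y < 3 ^ i by omega), Nat.mod_eq_of_lt (by omega)]
      omega
  · intro y hy
    rw [mem_range] at hy
    rcases Nat.eq_zero_or_pos y with h | h
    · subst h; simp
    · show (3 ^ i - (3 ^ i - y) % 3 ^ i) % 3 ^ i = y
      rw [Nat.mod_eq_of_lt (show 3 ^ i - y < 3 ^ i by omega), Nat.mod_eq_of_lt (by omega)]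
      omega
  · intro y _
    rfl

theorem Vn_sum {k i n : ℕ} (τ : ℝ) [TiltR τ] (hik : i ≤ k) (hni : n ≤ i) :
    ∑ y ∈ range (3 ^ i), |3 ^ i * (Wn' k i y : ℝ) / (k.choose i : ℝ) - D τ n (-(y : ℤ))| =
    ∑ y ∈ range (3 ^ i), |V k i y - D τ n y| := by
  have hper : Per i (fun x => |1 / bep τ k i * Mi τ (fun _ => 1) k i x - D τ n x|) := by
    intro x y
    show |1 / bep τ k i * Mi τ (fun _ => 1) k i (x + 3 ^ i * y) - D τ n (x + 3 ^ i * y)| =
      |1 / bep τ k i * Mi τ (fun _ => 1) k i x - D τ n x|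
    rw [Mi_one_per τ k i x y, (D_per τ n).le hni x y]
  have h1 := sum_neg hper
  have h2 : ∑ y ∈ range (3 ^ i), |V k i y - D τ n y| =
      ∑ y ∈ range (3 ^ i), |1 / bep τ k i * Mi τ (fun _ => 1) k i (y : ℤ) - D τ n y| := by
    refine sum_congr rfl fun y _ => ?_
    rw [V_eq τ hik]
  rw [h2, ← h1]
  refine sum_congr rfl fun y _ => ?_
  have h3 : 3 ^ i * (Wn' k i y : ℝ) / (k.choose i : ℝ) = V k i ((3 ^ i - 1) * y) := by
    rw [Wn_eq]
    rfl
  rw [h3, V_eq τ hik]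
  have hp : 1 ≤ 3 ^ i := Nat.one_le_pow _ _ (by norm_num)
  have h4 : (((3 ^ i - 1) * y : ℕ) : ℤ) = -(y : ℤ) + 3 ^ i * y := by
    push_cast [Nat.cast_sub hp]
    ring
  rw [h4, Mi_one_per]

/-- **the transfer principle**, negative integers -/
theorem transfer_neg {B : ℝ} (hB0 : 0 ≤ B) {ε : ℝ} (hε : 0 < ε) : ∃ (n : ℕ) (ε₂ : ℝ), 0 < ε₂ ∧
    ∀ Y₁ : ℕ, ∃ K : ℕ, ∀ h : ℕ → ℝ, (∀ y, |h y| ≤ B) → Bal n ε₂ Y₁ h →
    ∀ k i x : ℕ, K ≤ k → 6 * k ≤ 25 * i → 15 * i ≤ 8 * k → 2 ^ k ≤ x →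
      |∑ n ∈ En k i (x + 1), h (Tn^[k] n)| ≤ ε * (En k i (x + 1)).card := by
  obtain ⟨n, hn⟩ := V_lim (show 0 < ε / 2 / (32 * (B + 1)) by positivity)
  obtain ⟨K₁, hK₁⟩ := hn n le_rfl
  obtain ⟨i₀, hi₀⟩ := core hB0 (show 0 < ε / 2 by positivity) n
  refine ⟨n, ε / 2 / (16 * 9 ^ n), by positivity, fun Y₁ => ⟨K₁ + 25 * (n + i₀ + Y₁) + 25,
    fun h hB hh k i x hk h1 h2 hx => ?_⟩⟩
  have hik : i ≤ k := by omega
  have hT : TiltR ((i : ℝ) / k) := mkR (by omega) h1 h2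
  have hV := hK₁ k i (by omega) h1 h2
  rw [← Vn_sum ((i : ℝ) / k) hik (by omega)] at hV
  have hc := compare_neg hB (YY_a k i (x + 1)) (YY_b k i (x + 1))
  have hM : (x + 1) / 2 ^ k * k.choose i ≤ 2 * (En k i (x + 1)).card := by
    have h3 := card_En_ge hik (x := x)
    have h4 : (x + 1) / 2 ^ k ≤ 2 * (x / 2 ^ k) := by
      have h2k : 0 < 2 ^ k := by positivity
      have h5 : 1 ≤ x / 2 ^ k := (Nat.one_le_div_iff h2k).2 hx
      have h6 : (x + 1) / 2 ^ k ≤ x / 2 ^ k + 1 := by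
        have h7 : (x + 1) / 2 ^ k ≤ (x + 2 ^ k) / 2 ^ k := Nat.div_le_div_right (by omega)
        rwa [Nat.add_div_right _ h2k] at h7
      omega
    calc (x + 1) / 2 ^ k * k.choose i ≤ 2 * (x / 2 ^ k) * k.choose i := Nat.mul_le_mul_right _ h4
      _ = 2 * (x / 2 ^ k * k.choose i) := by ring
      _ ≤ 2 * (En k i (x + 1)).card := Nat.mul_le_mul_left _ h3
  have h5 := hi₀ k i (x + 1) Y₁ hik (by omega) (by omega) (Wn' k i)
    (fun y => D ((i : ℝ) / k) n (-(y : ℤ))) (Wn_mod k i)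
    (fun y => by
      have h6 := D_per ((i : ℝ) / k) n (-(y : ℤ)) ((y / 3 ^ n : ℕ) : ℤ)
      rw [← h6]
      congr 1
      have h7 := Nat.mod_add_div y (3 ^ n)
      have h8 : (y : ℤ) = ((y % 3 ^ n : ℕ) : ℤ) + 3 ^ n * ((y / 3 ^ n : ℕ) : ℤ) := by exact_mod_cast h7.symm
      linarith)
    (fun y => D_nonneg _ n _) (fun y => D_le _ n _) hV h hB hh _ _ 0 _ hM hc
  refine h5.trans (le_of_eq ?_)
  push_cast
  ring

end Pool.Agent.H623.TP
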