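import Pool.Agent.H623.TP.P
import Pool.Agent.H623.TP.T_POS
import Pool.Agent.H623.TS.E

/-!
# The densities on the `3`-adic integers
-/

set_option autoImplicit false
set_option linter.unusedVariables false
set_option linter.unusedSectionVars false

namespace Pool.Agent.H623.TP

open Finset Filter Topology MeasureTheory Pool.Agent.H320R2.PD Pool.Agent.H377R2.NK
open Pool.Agent.X16.SL (ms3 bs3 mu3 cl mem_cl_iff meas_cl stp stp_eq stp_meas stp_int int_stp real_cl)
open Pool.Agent.H623.TS (Per S S_per S_mono S_aff S_B N N_nonneg N_per N_add N_congr N_smul N_tri N_comm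
  N_sum_le up up_apply appr_per up_per up_int integral_up integral_abs_up three_dvd_appr units_eq
  units_meas)
open scoped ENNReal

attribute [local instance] ms3
attribute [local instance] bs3

section

variable (τ : ℝ) [TiltR τ]

/-- the martingale property -/
theorem D_mart (n l : ℕ) {φ : ℤ → ℝ} (hφ : Per n φ) :
    S (n + l) (fun x => D τ (n + l) x * φ x) = 3 ^ l * S n (fun x => D τ n x * φ x) := by
  induction l with
  | zero => simp
  | succ l ih =>
    have h1 : S (n + (l + 1)) (fun x => D τ (n + (l + 1)) x * φ x) =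
        3 * S (n + l) (fun x => D τ (n + l) x * φ x) := by
      unfold S
      rw [← add_assoc, ent_range_split (fun x => D τ (n + l + 1) x * φ x) (n + l), mul_sum]
      refine sum_congr rfl fun x _ => ?_
      have hφ' := hφ.le (Nat.le_add_right n l)
      have e1 : φ ((x : ℤ) + 3 ^ (n + l)) = φ x := by
        have := hφ' x 1
        rwa [mul_one] at this
      have e2 : φ ((x : ℤ) + 2 * 3 ^ (n + l)) = φ x := by
        have := hφ' x 2
        rwa [mul_comm] at this
      rw [e1, e2]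
      have := D_lift τ (n + l) x
      linear_combination φ x * this
    rw [h1, ih]
    ring

/-- the densities up to `3 ^ n` -/
noncomputable def U (τ : ℝ) (n : ℕ) : ℤ_[3] → ℝ := up n (D τ n)

theorem U_int (n : ℕ) : Integrable (U τ n) mu3 := up_int n _

theorem dist_U (n n' : ℕ) {L : ℕ} (hn : n ≤ L) (hn' : n' ≤ L) : ∫ z, |U τ n z - U τ n' z| ∂mu3 =
    N L (fun x => D τ n x - D τ n' x) := by
  rw [← integral_abs_up]
  unfold U
  rw [up_per hn (D_per τ n), up_per hn' (D_per τ n')]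

end

theorem cauchyU {ε : ℝ} (hε : 0 < ε) : ∃ n₀ : ℕ, ∀ n n', n₀ ≤ n → n₀ ≤ n' →
    ∀ (τ : ℝ) [TiltR τ], ∫ z, |U τ n z - U τ n' z| ∂mu3 ≤ ε := by
  obtain ⟨n₀, hn₀⟩ := cauchyD hε
  refine ⟨n₀, fun n n' hn hn' τ _ => ?_⟩
  rw [dist_U τ n n' (le_max_left n n') (le_max_right n n')]
  exact hn₀ n n' hn hn' τ _ (le_max_left n n') (le_max_right n n')

section

variable (τ : ℝ) [TiltR τ]

/-- a limit in mean of the martingale -/
theorem exists_F : ∃ f : ℤ_[3] → ℝ, Integrable f mu3 ∧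
    Tendsto (fun n => ∫ z, |U τ n z - f z| ∂mu3) atTop (𝓝 0) := by
  have hc : CauchySeq (fun n => Integrable.toL1 (U τ n) (U_int τ n)) := by
    rw [Metric.cauchySeq_iff']
    intro ε hε
    obtain ⟨M, hM⟩ := cauchyU (show 0 < ε / 2 by positivity)
    refine ⟨M, fun n hn => ?_⟩
    rw [dist_eq_norm, ← Integrable.toL1_sub, Integrable.norm_toL1_eq_lintegral_enorm]
    have h1 := hM n M hn le_rfl τ
    have h2 : (∫⁻ a, ‖(U τ n - U τ M) a‖ₑ ∂mu3).toReal = ∫ z, |U τ n z - U τ M z| ∂mu3 := by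
      rw [← integral_norm_eq_lintegral_enorm ((U_int τ _).sub (U_int τ _)).1]
      rfl
    rw [h2]
    linarith
  obtain ⟨F, hF⟩ := cauchySeq_tendsto_of_complete hc
  refine ⟨F, L1.integrable_coeFn F, ?_⟩
  rw [tendsto_iff_dist_tendsto_zero] at hF
  refine hF.congr fun n => ?_
  have h1 : Integrable.toL1 (F : ℤ_[3] → ℝ) (L1.integrable_coeFn F) = F := Integrable.toL1_coeFn F _
  conv_lhs => rw [← h1]
  rw [dist_eq_norm, ← Integrable.toL1_sub, Integrable.norm_toL1_eq_lintegral_enorm,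
    ← integral_norm_eq_lintegral_enorm ((U_int τ _).sub (L1.integrable_coeFn F)).1]
  rfl

/-- the defining properties of the density -/
def Good (τ : ℝ) (f : ℤ_[3] → ℝ) : Prop := Integrable f mu3 ∧ (∀ z, 0 ≤ f z) ∧
    (∀ z, (3 : ℤ_[3]) ∣ z → f z = 0) ∧ Tendsto (fun n => ∫ z, |U τ n z - f z| ∂mu3) atTop (𝓝 0)

open scoped Classical in
/-- the density exists -/
theorem exists_f : ∃ f : ℤ_[3] → ℝ, Good τ f := by
  obtain ⟨F, hF, hlim⟩ := exists_F τ
  have hint : Integrable ({z : ℤ_[3] | ¬ (3 : ℤ_[3]) ∣ z}.indicator (fun z => |F z|)) mu3 :=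
    hF.abs.indicator units_meas
  refine ⟨{z : ℤ_[3] | ¬ (3 : ℤ_[3]) ∣ z}.indicator (fun z => |F z|), hint, ?_, ?_, ?_⟩
  · intro z
    exact Set.indicator_nonneg (fun _ _ => abs_nonneg _) z
  · intro z hz
    rw [Set.indicator_of_notMem]
    simpa using hz
  · refine tendsto_of_tendsto_of_tendsto_of_le_of_le' tendsto_const_nhds hlim
      (Eventually.of_forall fun n => integral_nonneg fun z => abs_nonneg _) ?_
    filter_upwards [eventually_ge_atTop 1] with n hn
    refine integral_mono ((U_int τ _).sub hint).abs ((U_int τ _).sub hF).abs fun z => ?_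
    dsimp only
    by_cases hz : (3 : ℤ_[3]) ∣ z
    · rw [Set.indicator_of_notMem (by simpa using hz)]
      have h1 : U τ n z = 0 := by
        unfold U
        rw [up_apply]
        obtain ⟨l, rfl⟩ := Nat.exists_eq_add_of_le' hn
        exact D_three τ ((three_dvd_appr hn z).2 hz)
      rw [h1, sub_zero, abs_zero]
      exact abs_nonneg _
    · rw [Set.indicator_of_mem hz]
      have h0 : 0 ≤ U τ n z := by unfold U; rw [up_apply]; exact D_nonneg τ _ _
      have h1 := abs_abs_sub_abs_le_abs_sub (U τ n z) (F z)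
      rwa [abs_of_nonneg h0] at h1

end

/-- the densities are approximated uniformly in the parameter -/
theorem unif {ε : ℝ} (hε : 0 < ε) : ∃ n₀ : ℕ, ∀ n, n₀ ≤ n → ∀ (τ : ℝ) [TiltR τ] (f : ℤ_[3] → ℝ),
    Good τ f → ∫ z, |U τ n z - f z| ∂mu3 ≤ ε := by
  obtain ⟨n₀, hn₀⟩ := cauchyU (show 0 < ε / 2 by positivity)
  refine ⟨n₀, fun n hn τ _ f hf => ?_⟩
  obtain ⟨h1, h2⟩ := (((tendsto_order.1 hf.2.2.2).2 (ε / 2) (by positivity)).and
    (eventually_ge_atTop n₀)).exists.choose_spec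
  set n' := (((tendsto_order.1 hf.2.2.2).2 (ε / 2) (by positivity)).and
    (eventually_ge_atTop n₀)).exists.choose
  have h3 := hn₀ n n' hn h2 τ
  have h4 : ∫ z, |U τ n z - f z| ∂mu3 ≤ ∫ z, (|U τ n z - U τ n' z| + |U τ n' z - f z|) ∂mu3 := by
    refine integral_mono ((U_int τ _).sub hf.1).abs
      (((U_int τ _).sub (U_int τ _)).abs.add ((U_int τ _).sub hf.1).abs) fun z => ?_
    exact abs_sub_le _ _ _
  have h5 := integral_add (μ := mu3) (f := fun z => |U τ n z - U τ n' z|)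
    (g := fun z => |U τ n' z - f z|) ((U_int τ _).sub (U_int τ _)).abs ((U_int τ _).sub hf.1).abs
  linarith

section Main

variable {τ : ℝ} [TiltR τ] {f : ℤ_[3] → ℝ} (hf : Good τ f)

include hf

theorem ball_nat (n x : ℕ) (hx : x < 3 ^ n) :
    ∫ z in cl n (x : ℤ_[3]), f z ∂mu3 = D τ n x / 3 ^ n := by
  have hlim' : Tendsto (fun n => ∫⁻ z, ‖U τ n z - f z‖ₑ ∂mu3) atTop (𝓝 0) := by
    have h1 : ∀ n, ∫⁻ z, ‖U τ n z - f z‖ₑ ∂mu3 =
        ENNReal.ofReal (∫ z, |U τ n z - f z| ∂mu3) := by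
      intro n
      rw [ofReal_integral_eq_lintegral_ofReal (f := fun z => |U τ n z - f z|)
        ((U_int τ _).sub hf.1).abs (Eventually.of_forall fun z => abs_nonneg _)]
      refine lintegral_congr fun z => ?_
      rw [← Real.enorm_of_nonneg (abs_nonneg _)]
      simp
    simp only [h1]
    rw [← ENNReal.ofReal_zero]
    exact (ENNReal.continuous_ofReal.tendsto 0).comp hf.2.2.2
  have h1 := tendsto_setIntegral_of_L1 f hf.1.1 (Eventually.of_forall fun n => U_int τ n) hlim'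
    (cl n (x : ℤ_[3]))
  refine tendsto_nhds_unique h1 ?_
  refine tendsto_const_nhds.congr' ?_
  filter_upwards [eventually_ge_atTop n] with m hm
  obtain ⟨l, rfl⟩ := Nat.exists_eq_add_of_le hm
  rw [← integral_indicator (meas_cl n _)]
  set φ : ℤ → ℝ := fun y => if (3 : ℤ) ^ n ∣ y - x then 1 else 0 with hφ
  have hφp : Per n φ := by
    intro y w
    rw [hφ]
    dsimp only
    have e : y + 3 ^ n * w - x = y - x + 3 ^ n * w := by ring
    rw [e]
    have : (3 : ℤ) ^ n ∣ y - x + 3 ^ n * w ↔ (3 : ℤ) ^ n ∣ y - x :=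
      dvd_add_left (Dvd.intro _ rfl)
    simp only [this]
  have h2 : (cl n (x : ℤ_[3])).indicator (U τ (n + l)) =
      up (n + l) (fun y => D τ (n + l) y * φ y) := by
    funext z
    rw [up_apply, appr_per (Nat.le_add_right n l) hφp]
    have h3 : z ∈ cl n (x : ℤ_[3]) ↔ (3 : ℤ) ^ n ∣ (z.appr n : ℤ) - x := by
      rw [mem_cl_iff n x hx]
      constructor
      · intro h
        rw [h, sub_self]
        exact dvd_zero _
      · intro h
        have h5 : ((z.appr n : ℤ) - (x : ℤ)) = 0 := by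
          apply Int.eq_zero_of_abs_lt_dvd h
          have a1 : (z.appr n : ℤ) < 3 ^ n := by exact_mod_cast PadicInt.appr_lt z n
          have a2 : (x : ℤ) < 3 ^ n := by exact_mod_cast hx
          rw [abs_lt]
          constructor <;> linarith [Int.natCast_nonneg (z.appr n), Int.natCast_nonneg x]
        omega
    by_cases h : z ∈ cl n (x : ℤ_[3])
    · rw [Set.indicator_of_mem h, hφ]
      dsimp only
      rw [if_pos (h3.1 h), mul_one]
      rfl
    · rw [Set.indicator_of_notMem h, hφ]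
      dsimp only
      rw [if_neg (fun h' => h (h3.2 h')), mul_zero]
  rw [h2, integral_up, D_mart τ n l hφp]
  have h3 : S n (fun y => D τ n y * φ y) = D τ n x := by
    unfold S
    rw [sum_eq_single x]
    · rw [hφ]
      simp
    · intro b hb hne
      rw [hφ]
      dsimp only
      rw [if_neg, mul_zero]
      intro h
      have h5 : ((b : ℤ) - (x : ℤ)) = 0 := by
        apply Int.eq_zero_of_abs_lt_dvd h
        have a1 : (b : ℤ) < 3 ^ n := by exact_mod_cast mem_range.1 hb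
        have a2 : (x : ℤ) < 3 ^ n := by exact_mod_cast hx
        rw [abs_lt]
        constructor <;> linarith [Int.natCast_nonneg b, Int.natCast_nonneg x]
      omega
    · intro h
      exact absurd (mem_range.2 hx) h
  rw [h3, pow_add]
  field_simp

theorem ball_mass (n : ℕ) (x : ℤ) : ∫ z in cl n (x : ℤ_[3]), f z ∂mu3 = D τ n x / 3 ^ n := by
  have h0 : (0 : ℤ) < 3 ^ n := by positivity
  obtain ⟨r, hr⟩ := Int.eq_ofNat_of_zero_le (Int.emod_nonneg x h0.ne')
  have h1 : (r : ℤ) < 3 ^ n := by rw [← hr]; exact Int.emod_lt_of_pos x h0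
  have h2 : r < 3 ^ n := by exact_mod_cast h1
  have h3 : x = (r : ℤ) + 3 ^ n * (x / 3 ^ n) := by
    rw [← hr]; exact (Int.emod_add_mul_ediv x (3 ^ n)).symm
  have h4 : cl n (x : ℤ_[3]) = cl n (r : ℤ_[3]) := by
    ext z
    show (3 : ℤ_[3]) ^ n ∣ z - x ↔ (3 : ℤ_[3]) ^ n ∣ z - r
    have h5 : z - (r : ℤ_[3]) = z - (x : ℤ_[3]) + 3 ^ n * ((x / 3 ^ n : ℤ) : ℤ_[3]) := by
      conv_lhs => rw [show z - (r : ℤ_[3]) = z - ((x - 3 ^ n * (x / 3 ^ n) : ℤ) : ℤ_[3]) by
        have : x - 3 ^ n * (x / 3 ^ n) = (r : ℤ) := by linarith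
        rw [this]
        push_cast
        rfl]
      push_cast
      ring
    rw [h5]
    exact (dvd_add_left (Dvd.intro _ rfl)).symm
  rw [h4, ball_nat hf n r h2, h3, D_per]

theorem mass_rec (n : ℕ) (x : ℤ) : ∫ z in cl (n + 1) (x : ℤ_[3]), f z ∂mu3 =
    (1 - τ) * (∫ z in cl (n + 1) ((2 * x : ℤ) : ℤ_[3]), f z ∂mu3) +
    (if (3 : ℤ) ∣ 2 * x - 1 then
      τ * ∫ z in cl n (((2 * x - 1) / 3 : ℤ) : ℤ_[3]), f z ∂mu3 else 0) := by
  rw [ball_mass hf, ball_mass hf, D_letter]
  split_ifs with h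
  · rw [ball_mass hf, pow_succ]
    field_simp
  · rw [pow_succ]
    field_simp
    ring

theorem total_one : ∫ z, f z ∂mu3 = 1 := by
  have h1 := ball_mass hf 0 0
  have h2 : cl 0 ((0 : ℤ) : ℤ_[3]) = Set.univ := by
    ext z
    simp [cl]
  rw [h2, Measure.restrict_univ, D_zero] at h1
  rw [h1]
  norm_num

theorem pos_ae : ∀ᵐ z ∂mu3, ¬ (3 : ℤ_[3]) ∣ z → 0 < f z := by
  have hq0 : 0 < 1 - τ := Tilt.lt
  have hp0 : 0 < τ := Tilt.pos
  refine t_POS f (1 - τ) hf.1 hf.2.1 hq0 hf.2.2.1 ?_ ?_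
  · rw [total_one hf]
    norm_num
  · intro n x hn hx
    obtain ⟨l, rfl⟩ := Nat.exists_eq_add_of_le' hn
    rw [mass_rec hf l x]
    have : 0 ≤ (if (3 : ℤ) ∣ 2 * x - 1 then
      τ * ∫ z in cl l (((2 * x - 1) / 3 : ℤ) : ℤ_[3]), f z ∂mu3 else 0) := by
      split_ifs
      · exact mul_nonneg hp0.le (integral_nonneg fun z => hf.2.1 z)
      · exact le_rfl
    linarith

end Main

end Pool.Agent.H623.TP
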